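import Pool.Agent.Helper58.KP.C
import Pool.Agent.Helper27.GF.M4
import Pool.Agent.Helper63.RP4.E3

/-!
# Project MDV (MP_973bc8_pr): macroscopic covariances of square ice with zero boundary values

Definitions.  `D` is a finite domain with even boundary (`BdryPar D 0`), `Om D` the height functions on `D` with zero
boundary values, `core D = D \ bdry D` the interior.  Towers: `Up`, `Down` of project KP.
-/

open Finset RP4 KP

namespace MD

/-- covariance of the heights at two points -/
noncomputable def cv (D : Finset V) (x w : V) : ℝ := avg (Om D) (fun h => (h x : ℝ) * h w)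

/-- unit vectors -/
def e1 : V := (1, 0)
def e2 : V := (0, 1)

lemma e1_dirs : e1 ∈ dirs := by simp [dirs, e1]
lemma e2_dirs : e2 ∈ dirs := by simp [dirs, e2]

/-- `D` lies in the square of radius `N` about the origin -/
def Bd (D : Finset V) (N : ℕ) : Prop := ∀ v ∈ D, |v.1| ≤ N ∧ |v.2| ≤ N

/-- the segment of `l` sites from `x` in direction `d` lies in the interior of `D` -/
def InD (D : Finset V) (x d : V) (l : ℕ) : Prop := ∀ i : ℤ, 0 ≤ i → i < l → pt x d i ∈ core D

/-- blocked run: from the interior site `x` the heights decrease by one at each step in direction `d` until they reach the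
height `0` at a boundary site after `k` steps, the three other neighbours of `x` are one higher than `x` -/
structure Blk (D : Finset V) (h : V → ℤ) (x d : V) (k : ℕ) : Prop where
  ins : InD D x d k
  bd : pt x d k ∈ bdry D
  run : ∀ i : ℤ, 0 ≤ i → i ≤ k → h (pt x d i) = k - i
  back : h (pt x d (-1)) = k + 1
  side1 : h (pt x (prp d) 1) = k + 1
  side2 : h (pt x (prp d) (-1)) = k + 1

/-- the number `2 #(long up towers with head x) + 2 #(blocked runs from x) + #(directions at a local minimum)` -/
noncomputable def Fl (D : Finset V) (N : ℕ) (h : V → ℤ) (x : V) : ℝ :=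
  ∑ d ∈ dirs, (ind (Up h x d 1) + 2 * ∑ l ∈ Icc 2 (2 * N + 1), ind (InD D x d l ∧ Up h x d l) +
    2 * ∑ k ∈ Icc 1 (2 * N + 1), ind (Blk D h x d k))

/-- lattice Laplacian of a real function -/
def Lc (c : V → ℝ) (x : V) : ℝ :=
  c (x.1 + 1, x.2) + c (x.1 - 1, x.2) + c (x.1, x.2 + 1) + c (x.1, x.2 - 1) - 4 * c x

/-- `E[1_{up tower} h_w]` for a tower in the interior -/
noncomputable def tT (D : Finset V) (w x d : V) (l : ℕ) : ℝ :=
  avg (Om D) (fun h => ind (InD D x d l ∧ Up h x d l) * (h w : ℝ))

/-- probability of an up tower in the interior -/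
noncomputable def PT (D : Finset V) (x d : V) (l : ℕ) : ℝ :=
  avg (Om D) (fun h => ind (InD D x d l ∧ Up h x d l))

/-- `E[1_{A'} h_w]`, `A'`: the column segment `(a, p), ..., (a, p + l - 1)` lies in the interior, the heights increase
by one at each step upwards, all outer neighbours are one lower -/
noncomputable def Yt (D : Finset V) (w : V) (a p : ℤ) (l : ℕ) : ℝ :=
  avg (Om D) (fun h => ind (InD D (a, p) e2 l ∧ Down h (a, p) e2 l) * (h w : ℝ))

/-- sum of `Yt` over the column segments of length at least two which cross the line between the rows `y - 1` and `y` -/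
noncomputable def CY (D : Finset V) (w : V) (N : ℕ) (y : ℤ) : ℝ :=
  ∑ l ∈ Icc 2 (2 * N + 1), ∑ a ∈ Icc (-(N : ℤ)) N, ∑ p ∈ Ico (y - l + 1) y, Yt D w a p l

/-- the local constant -/
noncomputable def Gam (D : Finset V) (w : V) (N : ℕ) : ℝ :=
  8 + 8 * ∑ l ∈ Icc 2 (2 * N + 1), ∑ z ∈ core D,
    (ind (Seg z e1 l w) * PT D z e1 l + ind (Seg z e2 l w) * PT D z e2 l)

/-- row sums of the covariances with `w` -/
noncomputable def Rw (D : Finset V) (w : V) (y : ℤ) : ℝ := ∑ x ∈ D.filter (fun x => x.2 = y), cv D x w

/-- reflection in the row `c` -/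
def th (c : ℤ) (v : V) : V := (v.1, 2 * c - v.2)

@[simp] lemma th_th (c : ℤ) (v : V) : th c (th c v) = v := by
  unfold th
  ext <;> simp

/-- sum and difference of a height function and its reflection -/
def pp (c : ℤ) (h : V → ℤ) (v : V) : ℤ := h v + h (th c v)
def qq (c : ℤ) (h : V → ℤ) (v : V) : ℤ := h v - h (th c v)

/-- the part of `D` below the row `c` is reflected into `D`; an upper boundary point whose reflection is in `D` is reflected
to a boundary point -/
structure Rfl (D : Finset V) (c : ℤ) : Prop where
  low : ∀ v ∈ D, v.2 ≤ c → th c v ∈ D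
  bd : ∀ v ∈ bdry D, c ≤ v.2 → th c v ∈ D → th c v ∈ bdry D

/-- the upper part of `D` -/
def upD (D : Finset V) (c : ℤ) : Finset V := D.filter (fun v => c ≤ v.2)

/-- bound of the probability of a tower of length `l` -/
noncomputable def tl (l : ℕ) : ℝ := (4 * ((l / 2 : ℕ) : ℝ) + 8) / 2 ^ (l / 2)

end MD
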