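import Pool.Agent.Helper35.MD.A2b

/-!
MDV piece A3: the Laplacian in terms of towers.
-/

open Finset RP4 KP

namespace MD

private lemma A3_avg_add (S : Finset (V → ℤ)) (F G : (V → ℤ) → ℝ) :
    avg S (fun h => F h + G h) = avg S F + avg S G := by
  unfold avg
  rw [Finset.sum_add_distrib, add_div]

private lemma A3_avg_mul (S : Finset (V → ℤ)) (a : ℝ) (F : (V → ℤ) → ℝ) :
    avg S (fun h => a * F h) = a * avg S F := by
  unfold avg
  rw [← Finset.mul_sum, mul_div_assoc]

private lemma A3_avg_sum {ι : Type*} (S : Finset (V → ℤ)) (t : Finset ι) (F : ι → (V → ℤ) → ℝ) :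
    avg S (fun h => ∑ i ∈ t, F i h) = ∑ i ∈ t, avg S (F i) := by
  unfold avg
  rw [Finset.sum_comm, Finset.sum_div]

/-- `Lap h x ∈ {4, 2, 0, -2, -4}` by `lap_dirs`, `diff_core`; `Lap (-h) x = - Lap h x` and `-h ∈ Om D`.  Use `fl_nonpos`, `fl_two`, `fl_four` for `h` and for `-h`. -/
theorem lap_eq {D : Finset V} {N : ℕ} (hB : Bd D N) {h : V → ℤ} (hh : h ∈ Om D) {x : V} (hx : x ∈ core D) :
    (Lap h x : ℝ) = Fl D N h x - Fl D N (fun v => -h v) x := by
  have hh' : (fun v => -h v) ∈ Om D := neg_mem_Zs (Subset.refl _) hh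
  have hneg : Lap (fun v => -h v) x = - Lap h x := by
    unfold Lap
    ring
  have hs := lap_dirs h x
  have d1 := diff_core hh hx (d := (1, 0)) (by simp [dirs])
  have d2 := diff_core hh hx (d := (-1, 0)) (by simp [dirs])
  have d3 := diff_core hh hx (d := (0, 1)) (by simp [dirs])
  have d4 := diff_core hh hx (d := (0, -1)) (by simp [dirs])
  have hsum : ∑ d ∈ dirs, (h (pt x d 1) - h x) = (h (pt x (1, 0) 1) - h x) + (h (pt x (-1, 0) 1) - h x) +
      (h (pt x (0, 1) 1) - h x) + (h (pt x (0, -1) 1) - h x) := by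
    unfold dirs
    rw [Finset.sum_insert (by decide), Finset.sum_insert (by decide), Finset.sum_insert (by decide),
      Finset.sum_singleton]
    ring
  rw [hsum] at hs
  have hc : Lap h x = 4 ∨ Lap h x = 2 ∨ Lap h x = 0 ∨ Lap h x = -2 ∨ Lap h x = -4 := by omega
  rcases hc with hc | hc | hc | hc | hc
  · rw [fl_four hh hx hc, fl_nonpos hh' hx (by rw [hneg, hc]; norm_num), hc]
    norm_num
  · rw [fl_two hB hh hx hc, fl_nonpos hh' hx (by rw [hneg, hc]; norm_num), hc]
    norm_num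
  · rw [fl_nonpos hh hx (by rw [hc]), fl_nonpos hh' hx (by rw [hneg, hc]; norm_num), hc]
    norm_num
  · rw [fl_nonpos hh hx (by rw [hc]; norm_num), fl_two hB hh' hx (by rw [hneg, hc]; norm_num), hc]
    norm_num
  · rw [fl_nonpos hh hx (by rw [hc]; norm_num), fl_four hh' hx (by rw [hneg, hc]; norm_num), hc]
    norm_num

/-- The left side is `E[Lap h x * h_w]` (linearity: `avg_add`, `avg_const_mul` or unfold `avg`, `cv`, `Lc`).  Insert `lap_eq`; by the symmetry
`h ↦ -h` (`avg_neg_Om`) `E[Fl (-h) x * h_w] = - E[Fl h x * h_w]`. -/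
theorem lap_cov {D : Finset V} {N : ℕ} (hB : Bd D N) {x : V} (hx : x ∈ core D) (w : V) :
    Lc (fun z => cv D z w) x = 2 * avg (Om D) (fun h => Fl D N h x * (h w : ℝ)) := by
  have h1 : Lc (fun z => cv D z w) x = avg (Om D) (fun h => (Lap h x : ℝ) * (h w : ℝ)) := by
    unfold Lc cv Lap avg
    rw [← mul_div_assoc, Finset.mul_sum, ← add_div, ← add_div, ← add_div, ← sub_div,
      ← Finset.sum_add_distrib, ← Finset.sum_add_distrib, ← Finset.sum_add_distrib, ← Finset.sum_sub_distrib]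
    congr 1
    refine Finset.sum_congr rfl fun h _ => ?_
    push_cast
    ring
  have h2 : avg (Om D) (fun h => (Lap h x : ℝ) * (h w : ℝ)) =
      avg (Om D) (fun h => Fl D N h x * (h w : ℝ) + Fl D N (-h) x * (((-h) w : ℤ) : ℝ)) := by
    unfold avg
    congr 1
    refine Finset.sum_congr rfl fun h hh => ?_
    show (Lap h x : ℝ) * (h w : ℝ) = Fl D N h x * (h w : ℝ) + Fl D N (-h) x * (((-h) w : ℤ) : ℝ)
    rw [lap_eq hB hh hx]
    have e1 : Fl D N (-h) x = Fl D N (fun v => -h v) x := rfl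
    rw [e1, Pi.neg_apply]
    push_cast
    ring
  rw [h1, h2, A3_avg_add, avg_neg_Om (fun h => Fl D N h x * (h w : ℝ))]
  ring

/-- Expectation of the tower count term by term (linearity of `avg` over the finite sums). -/
theorem lap_cov' {D : Finset V} {N : ℕ} (hB : Bd D N) {x : V} (hx : x ∈ core D) (w : V) :
    Lc (fun z => cv D z w) x = 2 * ∑ d ∈ dirs, (avg (Om D) (fun h => ind (Up h x d 1) * (h w : ℝ)) +
      2 * ∑ l ∈ Icc 2 (2 * N + 1), tT D w x d l +
      2 * ∑ k ∈ Icc 1 (2 * N + 1), avg (Om D) (fun h => ind (Blk D h x d k) * (h w : ℝ))) := by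
  rw [lap_cov hB hx w]
  congr 1
  have h1 : (fun h : V → ℤ => Fl D N h x * (h w : ℝ)) = fun h => ∑ d ∈ dirs, ((ind (Up h x d 1) * (h w : ℝ) +
      2 * ∑ l ∈ Icc 2 (2 * N + 1), ind (InD D x d l ∧ Up h x d l) * (h w : ℝ)) +
      2 * ∑ k ∈ Icc 1 (2 * N + 1), ind (Blk D h x d k) * (h w : ℝ)) := by
    funext h
    unfold Fl
    rw [Finset.sum_mul]
    refine Finset.sum_congr rfl fun d _ => ?_
    rw [← Finset.sum_mul, ← Finset.sum_mul]
    ring
  rw [h1, A3_avg_sum]
  refine Finset.sum_congr rfl fun d _ => ?_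
  rw [A3_avg_add, A3_avg_add, A3_avg_mul, A3_avg_mul, A3_avg_sum, A3_avg_sum]
  rfl

end MD
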