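import Pool.Agent.Helper35.MD.Defs

/-!
MDV piece B2: nonnegative covariances, and the discrete flux inequality for row sums.
-/

open Finset RP4 KP

namespace MD

/-- by `RP4.cov_clu` (file E1) and `clu_nonneg` -/
theorem cv_nonneg (D : Finset V) (x w : V) : 0 ≤ cv D x w := by
  unfold cv avg
  rw [cov_clu]
  exact div_nonneg (Finset.sum_nonneg fun h _ => clu_nonneg x w h) (Nat.cast_nonneg _)

/-- zero off the interior -/
theorem cv_zero {D : Finset V} {x w : V} (hx : x ∉ core D) : cv D x w = 0 := by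
  unfold cv avg
  rw [Finset.sum_eq_zero, zero_div]
  intro h hh
  have h1 := mem_Om.1 hh
  have h2 : h x = 0 := by
    by_cases hD : x ∈ D
    · refine h1.2 x ?_
      by_contra hb
      exact hx (by unfold core; exact Finset.mem_sdiff.2 ⟨hD, hb⟩)
    · exact h1.1.off x hD
  rw [h2, Int.cast_zero, zero_mul]

private lemma B2_shift (φ : V → V) (hφ : Function.Injective φ) (B B' : Finset V) (c : V → ℝ)
    (hc : ∀ x, 0 ≤ c x) (h : ∀ x ∈ B, c (φ x) ≠ 0 → φ x ∈ B') :
    ∑ x ∈ B, c (φ x) ≤ ∑ x ∈ B', c x := by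
  classical
  rw [← Finset.sum_image (s := B) (g := φ) (f := c) hφ.injOn, ← Finset.sum_filter_ne_zero]
  refine Finset.sum_le_sum_of_subset_of_nonneg ?_ fun x _ _ => hc x
  intro z hz
  obtain ⟨h1, h2⟩ := Finset.mem_filter.1 hz
  obtain ⟨x, hx, rfl⟩ := Finset.mem_image.1 h1
  exact h x hx h2

private lemma B2_split (D : Finset V) (c : V → ℝ) (h0 : ∀ x, x ∉ core D → c x = 0) (y : ℤ) :
    ∑ x ∈ (core D).filter (fun x => y ≤ x.2), c x = ∑ x ∈ D.filter (fun x => x.2 = y), c x +
      ∑ x ∈ (core D).filter (fun x => y + 1 ≤ x.2), c x := by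
  have h1 : ∑ x ∈ D.filter (fun x => x.2 = y), c x =
      ∑ x ∈ (core D).filter (fun x => x.2 = y), c x := by
    symm
    refine Finset.sum_subset ?_ ?_
    · intro x hx
      obtain ⟨h2, h3⟩ := Finset.mem_filter.1 hx
      unfold core at h2
      exact Finset.mem_filter.2 ⟨(Finset.mem_sdiff.1 h2).1, h3⟩
    · intro x hx hx'
      refine h0 x fun h2 => hx' (Finset.mem_filter.2 ⟨h2, (Finset.mem_filter.1 hx).2⟩)
  rw [h1, Finset.sum_filter, Finset.sum_filter, Finset.sum_filter, ← Finset.sum_add_distrib]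
  refine Finset.sum_congr rfl fun x _ => ?_
  split_ifs <;> first | omega | simp

/-- Let `B = {x ∈ core D | y ≤ x.2}`.  Shifting horizontally: `∑_{x ∈ B} c (x ± e1) ≤ ∑_{x ∈ B} c x` (the nonzero terms are values of `c` at distinct points of
`B`, since `c` vanishes off `core D`; e.g. `Finset.sum_le_sum_of_injOn`-like: map the filtered set injectively into `B`).  In the same way
`∑_{x ∈ B} c (x + e2) ≤ ∑_{x ∈ B, x.2 ≥ y + 1} c x = ∑_{x ∈ B} c x - R y`, and `∑_{x ∈ B} c (x - e2) ≤ ∑_{x ∈ core D, x.2 ≥ y - 1} c x = ∑_{x ∈ B} c x + R (y - 1)`, where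
`R y` is the sum of `c` over the row `y` of `D`.  Add up. -/
theorem row_flux (D : Finset V) (c : V → ℝ) (hc : ∀ x, 0 ≤ c x) (h0 : ∀ x, x ∉ core D → c x = 0) (y : ℤ) :
    ∑ x ∈ D.filter (fun x => x.2 = y), c x - ∑ x ∈ D.filter (fun x => x.2 = y - 1), c x ≤
      -∑ x ∈ (core D).filter (fun x => y ≤ x.2), Lc c x := by
  have hco : ∀ x, c x ≠ 0 → x ∈ core D := fun x hx => by
    by_contra h
    exact hx (h0 x h)
  have s1 := B2_shift (fun x : V => (x.1 + 1, x.2)) (fun a b h => by
    simp only [Prod.mk.injEq, add_left_inj] at h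
    exact Prod.ext h.1 h.2) ((core D).filter (fun x => y ≤ x.2))
    ((core D).filter (fun x => y ≤ x.2)) c hc (fun x hx h =>
      Finset.mem_filter.2 ⟨hco _ h, (Finset.mem_filter.1 hx).2⟩)
  have s2 := B2_shift (fun x : V => (x.1 - 1, x.2)) (fun a b h => by
    simp only [Prod.mk.injEq, sub_left_inj] at h
    exact Prod.ext h.1 h.2) ((core D).filter (fun x => y ≤ x.2))
    ((core D).filter (fun x => y ≤ x.2)) c hc (fun x hx h =>
      Finset.mem_filter.2 ⟨hco _ h, (Finset.mem_filter.1 hx).2⟩)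
  have s3 := B2_shift (fun x : V => (x.1, x.2 + 1)) (fun a b h => by
    simp only [Prod.mk.injEq, add_left_inj] at h
    exact Prod.ext h.1 h.2) ((core D).filter (fun x => y ≤ x.2))
    ((core D).filter (fun x => y + 1 ≤ x.2)) c hc (fun x hx h =>
      Finset.mem_filter.2 ⟨hco _ h, by
        have := (Finset.mem_filter.1 hx).2
        show y + 1 ≤ x.2 + 1
        omega⟩)
  have s4 := B2_shift (fun x : V => (x.1, x.2 - 1)) (fun a b h => by
    simp only [Prod.mk.injEq, sub_left_inj] at h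
    exact Prod.ext h.1 h.2) ((core D).filter (fun x => y ≤ x.2))
    ((core D).filter (fun x => y - 1 ≤ x.2)) c hc (fun x hx h =>
      Finset.mem_filter.2 ⟨hco _ h, by
        have := (Finset.mem_filter.1 hx).2
        show y - 1 ≤ x.2 - 1
        omega⟩)
  have p1 := B2_split D c h0 y
  have p2 := B2_split D c h0 (y - 1)
  rw [sub_add_cancel] at p2
  have e : ∑ x ∈ (core D).filter (fun x => y ≤ x.2), Lc c x =
      ∑ x ∈ (core D).filter (fun x => y ≤ x.2), c (x.1 + 1, x.2) +
      ∑ x ∈ (core D).filter (fun x => y ≤ x.2), c (x.1 - 1, x.2) +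
      ∑ x ∈ (core D).filter (fun x => y ≤ x.2), c (x.1, x.2 + 1) +
      ∑ x ∈ (core D).filter (fun x => y ≤ x.2), c (x.1, x.2 - 1) -
      4 * ∑ x ∈ (core D).filter (fun x => y ≤ x.2), c x := by
    unfold Lc
    rw [Finset.sum_sub_distrib, Finset.sum_add_distrib, Finset.sum_add_distrib,
      Finset.sum_add_distrib, Finset.mul_sum]
  rw [e]
  linarith

end MD
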