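import Pool.Agent.Helper35.MD.D6

/-!
MDV piece B4: the row inequality.
-/

open Finset RP4 KP

namespace MD

private lemma B4_ind_congr {p q : Prop} (h : p ↔ q) : ind p = ind q :=
  le_antisymm (ind_mono h.1) (ind_mono h.2)

private lemma B4_avg {D : Finset V} (hD : BdryPar D 0) (w : V) (S : Finset V) (π : V → ℤ)
    (hπ : ∀ v ∈ S, 0 ≤ π v) {E : (V → ℤ) → Prop} (hE : ∀ h ∈ Om D, (E h ↔ ∀ v ∈ S, h v = π v)) :
    0 ≤ avg (Om D) (fun h => ind (E h) * (h w : ℝ)) := by
  unfold avg
  refine div_nonneg ?_ (Nat.cast_nonneg _)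
  refine (patt_pos hD S π hπ w).trans_eq (Finset.sum_congr rfl fun h hh => ?_)
  show ind (∀ v ∈ S, h v = π v) * (h w : ℝ) = ind (E h) * (h w : ℝ)
  rw [B4_ind_congr (hE h hh)]

private lemma B4_avg0 {D : Finset V} (w : V) {E : (V → ℤ) → Prop} (hE : ∀ h ∈ Om D, ¬ E h) :
    0 ≤ avg (Om D) (fun h => ind (E h) * (h w : ℝ)) := by
  unfold avg
  refine div_nonneg ?_ (Nat.cast_nonneg _)
  refine le_of_eq (Finset.sum_eq_zero fun h hh => ?_).symm
  show ind (E h) * (h w : ℝ) = 0
  have : ind (E h) = 0 := by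
    unfold ind
    rw [if_neg (hE h hh)]
  rw [this, zero_mul]

private lemma B4_dir {d : V} (hd : d ∈ dirs) : d.1 * d.1 + d.2 * d.2 = 1 ∧ d.1 * d.2 = 0 := by
  rcases mem_dirs.1 hd with rfl | rfl | rfl | rfl <;> simp

/-- A blocked run is a pattern of nonnegative heights: if the conditions `ins`, `bd` on `D` hold, `Blk D h x d k` is the event that `h = π` on the finite set
`S = {pt x d i | -1 ≤ i ≤ k} ∪ {pt x (prp d) 1, pt x (prp d) (-1)}`, where `π (pt x d i) = k - i`, `π = k + 1` at the two side points; use `patt_pos`. -/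
theorem blk_pos {D : Finset V} (hD : BdryPar D 0) (w x d : V) (hd : d ∈ dirs) (k : ℕ) :
    0 ≤ avg (Om D) (fun h => ind (Blk D h x d k) * (h w : ℝ)) := by
  classical
  by_cases hI : InD D x d k ∧ pt x d k ∈ bdry D
  swap
  · exact B4_avg0 w fun h _ hb => hI ⟨hb.ins, hb.bd⟩
  obtain ⟨hI1, hI2⟩ := hI
  obtain ⟨hd1, hd2⟩ := B4_dir hd
  -- the coordinates along and across the direction
  set al : V → ℤ := fun v => (v.1 - x.1) * d.1 + (v.2 - x.2) * d.2 with hal
  set ac : V → ℤ := fun v => (v.1 - x.1) * d.2 + (v.2 - x.2) * d.1 with hac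
  have al1 : ∀ i : ℤ, al (pt x d i) = i := fun i => by
    simp only [hal, pt]
    linear_combination i * hd1
  have ac1 : ∀ i : ℤ, ac (pt x d i) = 0 := fun i => by
    simp only [hac, pt]
    linear_combination 2 * i * hd2
  have ac2 : ∀ i : ℤ, ac (pt x (prp d) i) = i := fun i => by
    simp only [hac, pt, prp]
    linear_combination i * hd1
  set π : V → ℤ := fun v => if ac v = 0 then (k : ℤ) - al v else k + 1 with hπ
  have π1 : ∀ i : ℤ, π (pt x d i) = k - i := fun i => by
    simp only [hπ]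
    rw [if_pos (ac1 i), al1]
  have π2 : ∀ i : ℤ, i ≠ 0 → π (pt x (prp d) i) = k + 1 := fun i hi => by
    simp only [hπ]
    rw [if_neg (by rw [ac2]; exact hi)]
  set S : Finset V := (Icc (-1 : ℤ) k).image (pt x d) ∪ {pt x (prp d) 1, pt x (prp d) (-1)} with hS
  have hSm : ∀ v, v ∈ S ↔ (∃ i : ℤ, (-1 ≤ i ∧ i ≤ k) ∧ pt x d i = v) ∨ v = pt x (prp d) 1 ∨
      v = pt x (prp d) (-1) := fun v => by
    simp only [hS, Finset.mem_union, Finset.mem_image, Finset.mem_Icc, Finset.mem_insert,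
      Finset.mem_singleton]
  refine B4_avg hD w S π ?_ ?_
  · intro v hv
    rcases (hSm v).1 hv with ⟨i, ⟨h1, h2⟩, rfl⟩ | rfl | rfl
    · rw [π1]
      omega
    · rw [π2 _ one_ne_zero]
      omega
    · rw [π2 _ (by norm_num)]
      omega
  · intro h _
    constructor
    · intro hb v hv
      rcases (hSm v).1 hv with ⟨i, ⟨h1, h2⟩, rfl⟩ | rfl | rfl
      · rw [π1]
        rcases eq_or_lt_of_le h1 with h3 | h3
        · rw [← h3, hb.back]
          ring
        · exact hb.run i (by omega) h2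
      · rw [π2 _ one_ne_zero, hb.side1]
      · rw [π2 _ (by norm_num), hb.side2]
    · intro hv
      refine ⟨hI1, hI2, ?_, ?_, ?_, ?_⟩
      · intro i h1 h2
        rw [hv _ ((hSm _).2 (Or.inl ⟨i, ⟨by omega, h2⟩, rfl⟩)), π1]
      · rw [hv _ ((hSm _).2 (Or.inl ⟨-1, ⟨le_rfl, by omega⟩, rfl⟩)), π1]
        ring
      · rw [hv _ ((hSm _).2 (Or.inr (Or.inl rfl))), π2 _ one_ne_zero]
      · rw [hv _ ((hSm _).2 (Or.inr (Or.inr rfl))), π2 _ (by norm_num)]

/-- The same for a column segment standing on a boundary point: in `Yt D w a (p + 1) l` the point below the segment, `(a, p)`, has height one less than the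
lowest site.  If `(a, p) ∉ core D` its height is zero (`Om D`), so the event (for `h ∈ Om D`) is the pattern: height `i + 1` at `(a, p + 1 + i)`, `i` at
`(a ± 1, p + 1 + i)` for `0 ≤ i < l`, `0` at `(a, p)`, `l - 1` at `(a, p + 1 + l)`; all values are `≥ 0`. -/
theorem Yt_bdry {D : Finset V} (hD : BdryPar D 0) (w : V) (a p : ℤ) (l : ℕ) (hl : 1 ≤ l) (hp : (a, p) ∉ core D) :
    0 ≤ Yt D w a (p + 1) l := by
  classical
  unfold Yt
  by_cases hI : InD D (a, p + 1) e2 l
  swap
  · exact B4_avg0 w fun h _ hb => hI hb.1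
  have hz : ∀ h ∈ Om D, h (a, p) = 0 := by
    intro h hh
    by_cases h1 : (a, p) ∈ D
    · by_cases h2 : (a, p) ∈ bdry D
      · exact (mem_Om.1 hh).2 _ h2
      · exact absurd (Finset.mem_sdiff.2 ⟨h1, h2⟩) hp
    · exact (mem_Om.1 hh).1.off _ h1
  have p1 : ∀ i : ℤ, pt (a, p + 1) e2 i = (a, p + 1 + i) := fun i => by
    simp [pt, e2]
  have p2 : ∀ i j : ℤ, pt (pt (a, p + 1) e2 i) (prp e2) j = (a + j, p + 1 + i) := fun i j => by
    simp [pt, e2, prp]
  set π : V → ℤ := fun v => if v.1 = a then (if v.2 = p + 1 + l then (l : ℤ) - 1 else v.2 - p)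
    else v.2 - p - 1 with hπ
  set S : Finset V := (Icc (-1 : ℤ) l).image (fun i => ((a, p + 1 + i) : V)) ∪
    ((Ico (0 : ℤ) l).image (fun i => ((a + 1, p + 1 + i) : V)) ∪
      (Ico (0 : ℤ) l).image (fun i => ((a + -1, p + 1 + i) : V))) with hS
  have hSm : ∀ v, v ∈ S ↔ (∃ i : ℤ, (-1 ≤ i ∧ i ≤ l) ∧ (a, p + 1 + i) = v) ∨
      (∃ i : ℤ, (0 ≤ i ∧ i < l) ∧ (a + 1, p + 1 + i) = v) ∨
      (∃ i : ℤ, (0 ≤ i ∧ i < l) ∧ (a + -1, p + 1 + i) = v) := fun v => by
    simp only [hS, Finset.mem_union, Finset.mem_image, Finset.mem_Icc, Finset.mem_Ico]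
  have π1 : ∀ i : ℤ, i ≠ l → π (a, p + 1 + i) = i + 1 := fun i hi => by
    simp only [hπ]
    rw [if_pos trivial, if_neg (by omega)]
    ring
  have π1' : π (a, p + 1 + l) = l - 1 := by
    simp only [hπ]
    rw [if_pos trivial, if_pos trivial]
  have π2 : ∀ i j : ℤ, j ≠ 0 → π (a + j, p + 1 + i) = i := fun i j hj => by
    simp only [hπ]
    rw [if_neg (by omega)]
    ring
  refine B4_avg hD w S π ?_ ?_
  · intro v hv
    rcases (hSm v).1 hv with ⟨i, ⟨h1, h2⟩, rfl⟩ | ⟨i, ⟨h1, h2⟩, rfl⟩ | ⟨i, ⟨h1, h2⟩, rfl⟩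
    · by_cases h3 : i = l
      · rw [h3, π1']
        omega
      · rw [π1 i h3]
        omega
    · rw [π2 _ _ one_ne_zero]
      exact h1
    · rw [π2 _ _ (by norm_num)]
      exact h1
  · intro h hh
    have h0 := hz h hh
    constructor
    · rintro ⟨-, hd⟩ v hv
      have hx : h (a, p + 1) = 1 := by
        have h1 := hd.head
        simp only [p1] at h1
        have h2 : ((a, p + 1 + -1) : V) = (a, p) := by
          rw [show p + 1 + -1 = p by ring]
        rw [h2, h0] at h1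
        omega
      rcases (hSm v).1 hv with ⟨i, ⟨h1, h2⟩, rfl⟩ | ⟨i, ⟨h1, h2⟩, rfl⟩ | ⟨i, ⟨h1, h2⟩, rfl⟩
      · by_cases h3 : i = l
        · rw [h3, π1']
          have h4 := hd.tail
          simp only [p1] at h4
          rw [hx] at h4
          omega
        · rw [π1 i h3]
          rcases eq_or_lt_of_le h1 with h5 | h5
          · rw [← h5, show ((a, p + 1 + -1) : V) = (a, p) by rw [show p + 1 + -1 = p by ring], h0]
            norm_num
          · have h4 := hd.site i (by omega) (by omega)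
            simp only [p1] at h4
            rw [hx] at h4
            omega
      · rw [π2 _ _ one_ne_zero]
        have h4 := hd.side1 i h1 h2
        simp only [p2] at h4
        rw [hx] at h4
        omega
      · rw [π2 _ _ (by norm_num)]
        have h4 := hd.side2 i h1 h2
        simp only [p2] at h4
        rw [hx] at h4
        omega
    · intro hv
      have hv1 : ∀ i : ℤ, -1 ≤ i → i < l → h (a, p + 1 + i) = i + 1 := fun i h1 h2 => by
        rw [hv _ ((hSm _).2 (Or.inl ⟨i, ⟨h1, by omega⟩, rfl⟩)), π1 i (by omega)]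
      have hx : h (a, p + 1) = 1 := by
        have := hv1 0 (by omega) (by omega)
        rw [add_zero] at this
        rw [this]
        ring
      refine ⟨hI, ⟨hl, ?_, ?_, ?_, ?_, ?_⟩⟩
      · intro i h1 h2
        simp only [p1]
        rw [hv1 i (by omega) h2, hx]
        ring
      · intro i h1 h2
        simp only [p2]
        rw [hv _ ((hSm _).2 (Or.inr (Or.inl ⟨i, ⟨h1, h2⟩, rfl⟩))), π2 _ _ one_ne_zero, hx]
        ring
      · intro i h1 h2
        simp only [p2]
        rw [hv _ ((hSm _).2 (Or.inr (Or.inr ⟨i, ⟨h1, h2⟩, rfl⟩))), π2 _ _ (by norm_num), hx]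
        ring
      · simp only [p1]
        rw [hv1 (-1) le_rfl (by omega), hx]
        ring
      · simp only [p1]
        rw [hv _ ((hSm _).2 (Or.inl ⟨l, ⟨by omega, le_rfl⟩, rfl⟩)), π1', hx]
        ring

end MD
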