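import Pool.Agent.Helper35.MD.B3b
import Pool.Agent.Helper35.MD.B4
import Pool.Agent.Helper35.MD.A3
import Pool.Agent.Helper35.MD.B2

/-!
MDV piece B5: the row inequality.
-/

open Finset RP4 KP

namespace MD

private lemma B5_PT_nonneg (D : Finset V) (x d : V) (l : ℕ) : 0 ≤ PT D x d l := by
  unfold PT avg
  exact div_nonneg (Finset.sum_nonneg fun h _ => ind_nonneg _) (Nat.cast_nonneg _)

private lemma B5_PT_zero {D : Finset V} {x d : V} {l : ℕ} (hl : 1 ≤ l) (hx : x ∉ core D) :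
    PT D x d l = 0 := by
  unfold PT avg
  rw [Finset.sum_eq_zero, zero_div]
  intro g _
  unfold ind
  rw [if_neg]
  intro hh
  refine hx ?_
  have h0 := hh.1 0 le_rfl (by omega)
  have e : pt x d 0 = x := by
    unfold pt
    ext <;> simp
  rwa [e] at h0

private lemma B5_dirs (f : V → ℝ) :
    ∑ d ∈ dirs, f d = (f e1 + f (nd e1)) + (f e2 + f (nd e2)) := by
  have h1 : nd e1 = ((-1, 0) : V) := by simp [nd, e1]
  have h2 : nd e2 = ((0, -1) : V) := by simp [nd, e2]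
  rw [h1, h2]
  unfold dirs
  rw [Finset.sum_insert (by simp), Finset.sum_insert (by simp), Finset.sum_insert (by simp),
    Finset.sum_singleton]
  unfold e1 e2
  ring

/-- The vertical segment terms below the line and above it are over disjoint sets of interior points. -/
private lemma B5_seg {D : Finset V} (w : V) (N : ℕ) (y : ℤ) (l : ℕ) (hl : 1 ≤ l) :
    ∑ z ∈ (core D).filter (fun z => y ≤ z.2), ind (Seg z e2 l w) * PT D z e2 l +
      ∑ a ∈ Icc (-(N : ℤ)) N, ∑ p ∈ Ico (y - l + 1) y,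
        ind (Seg (a, p) e2 l w) * PT D (a, p) e2 l ≤
      ∑ z ∈ core D, ind (Seg z e2 l w) * PT D z e2 l := by
  classical
  set g : V → ℝ := fun z => ind (Seg z e2 l w) * PT D z e2 l with hg
  have g0 : ∀ z, 0 ≤ g z := fun z => mul_nonneg (ind_nonneg _) (B5_PT_nonneg D z e2 l)
  have g1 : ∀ z, z ∉ core D → g z = 0 := fun z hz => by
    rw [hg]
    beta_reduce
    rw [B5_PT_zero hl hz, mul_zero]
  have h1 : ∑ a ∈ Icc (-(N : ℤ)) N, ∑ p ∈ Ico (y - l + 1) y, g (a, p) =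
      ∑ z ∈ Icc (-(N : ℤ)) N ×ˢ Ico (y - l + 1) y, g z := by
    rw [Finset.sum_product]
  have h2 : ∑ z ∈ Icc (-(N : ℤ)) N ×ˢ Ico (y - l + 1) y, g z ≤
      ∑ z ∈ (core D).filter (fun z => ¬ y ≤ z.2), g z := by
    have h3 : ∑ z ∈ Icc (-(N : ℤ)) N ×ˢ Ico (y - l + 1) y, g z =
        ∑ z ∈ (Icc (-(N : ℤ)) N ×ˢ Ico (y - l + 1) y).filter (fun z => z ∈ core D), g z := by
      rw [Finset.sum_filter]
      refine Finset.sum_congr rfl fun z _ => ?_
      by_cases hz : z ∈ core D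
      · rw [if_pos hz]
      · rw [if_neg hz, g1 z hz]
    rw [h3]
    refine Finset.sum_le_sum_of_subset_of_nonneg ?_ fun z _ _ => g0 z
    intro z hz
    rw [Finset.mem_filter, Finset.mem_product, Finset.mem_Icc, Finset.mem_Ico] at hz
    rw [Finset.mem_filter]
    exact ⟨hz.2, by omega⟩
  have h4 : ∑ z ∈ core D, g z = ∑ z ∈ (core D).filter (fun z => y ≤ z.2), g z +
      ∑ z ∈ (core D).filter (fun z => ¬ y ≤ z.2), g z :=
    (Finset.sum_filter_add_sum_filter_not _ _ _).symm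
  have h5 : ∑ z ∈ (core D).filter (fun z => y ≤ z.2), g z +
      ∑ a ∈ Icc (-(N : ℤ)) N, ∑ p ∈ Ico (y - l + 1) y, g (a, p) ≤ ∑ z ∈ core D, g z := by
    rw [h1, h4]
    linarith
  exact h5

/-- The second order terms with one length. -/
private lemma B5_len {D : Finset V} {N : ℕ} (hN : Bd D N) (w : V) (y : ℤ) (l : ℕ) (hl : 1 ≤ l) :
    -4 * ∑ x ∈ (core D).filter (fun x => y ≤ x.2), ∑ d ∈ dirs, tT D w x d l ≤
      8 * ∑ z ∈ core D, (ind (Seg z e1 l w) * PT D z e1 l + ind (Seg z e2 l w) * PT D z e2 l) -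
      4 * ∑ a ∈ Icc (-(N : ℤ)) N, ∑ p ∈ Ico (y - l + 1) y, Yt D w a p l := by
  classical
  have h1 : ∑ x ∈ (core D).filter (fun x => y ≤ x.2), ∑ d ∈ dirs, tT D w x d l =
      ∑ x ∈ (core D).filter (fun x => y ≤ x.2), (tT D w x e1 l + tT D w x (nd e1) l) +
      ∑ x ∈ (core D).filter (fun x => y ≤ x.2), (tT D w x e2 l + tT D w x (nd e2) l) := by
    rw [← Finset.sum_add_distrib]
    exact Finset.sum_congr rfl fun x _ => B5_dirs _
  have h2 := hor_sum D w y l hl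
  have h3 := ver_sum hN w y l hl
  have h4 := B5_seg (D := D) w N y l hl
  have h5 : ∑ z ∈ (core D).filter (fun z => y ≤ z.2), ind (Seg z e1 l w) * PT D z e1 l ≤
      ∑ z ∈ core D, ind (Seg z e1 l w) * PT D z e1 l :=
    Finset.sum_le_sum_of_subset_of_nonneg (Finset.filter_subset _ _) fun z _ _ =>
      mul_nonneg (ind_nonneg _) (B5_PT_nonneg D z e1 l)
  have h6 : ∑ a ∈ Icc (-(N : ℤ)) N, ∑ p ∈ Ico (y - l + 1) y,
        (Yt D w a p l - 2 * (ind (Seg (a, p) e2 l w) * PT D (a, p) e2 l)) =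
      ∑ a ∈ Icc (-(N : ℤ)) N, ∑ p ∈ Ico (y - l + 1) y, Yt D w a p l -
      2 * ∑ a ∈ Icc (-(N : ℤ)) N, ∑ p ∈ Ico (y - l + 1) y,
        ind (Seg (a, p) e2 l w) * PT D (a, p) e2 l := by
    rw [Finset.mul_sum, ← Finset.sum_sub_distrib]
    refine Finset.sum_congr rfl fun a _ => ?_
    rw [Finset.mul_sum, ← Finset.sum_sub_distrib]
  rw [h6] at h3
  rw [h1, h2, h3, Finset.sum_add_distrib]
  linarith

/-- ROW INEQUALITY.  `row_flux` for `c x = cv D x w` (`cv_nonneg`, `cv_zero`), `B = {x ∈ core D | y ≤ x.2}`, `lap_cov'`, the blocked terms are `≥ 0`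
(`blk_pos`), `first_sum`: the first order terms contribute at most `8`.  Exchange the sums over `x ∈ B`, `d ∈ dirs`, `l`; `dirs = {e1, nd e1, e2, nd e2}`;
`hor_sum`, `ver_sum`.  The terms with `Seg * PT`: those with `z ∈ B` and those with `z = (a, p)`, `p < y` are over disjoint sets of points of
`core D` (terms with `(a, p) ∉ core D` vanish), so together at most the sum over `z ∈ core D` (all terms `≥ 0`). -/
theorem row_ineq {D : Finset V} (hD : BdryPar D 0) {N : ℕ} (hN : Bd D N) (w : V) (y : ℤ) :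
    Rw D w y - Rw D w (y - 1) ≤ Gam D w N - 4 * CY D w N y := by
  classical
  have h1 := row_flux D (fun x => cv D x w) (fun x => cv_nonneg D x w) (fun x hx => cv_zero hx) y
  have h2 : -∑ x ∈ (core D).filter (fun x => y ≤ x.2), Lc (fun z => cv D z w) x ≤
      ∑ x ∈ (core D).filter (fun x => y ≤ x.2),
        (-2 * ∑ d ∈ dirs, avg (Om D) (fun h => ind (Up h x d 1) * (h w : ℝ)) -
          4 * ∑ d ∈ dirs, ∑ l ∈ Icc 2 (2 * N + 1), tT D w x d l) := by
    rw [← Finset.sum_neg_distrib]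
    refine Finset.sum_le_sum fun x hx => ?_
    rw [lap_cov' hN (Finset.mem_filter.1 hx).1 w, Finset.sum_add_distrib, Finset.sum_add_distrib]
    have h3 : 0 ≤ ∑ d ∈ dirs, 2 * ∑ k ∈ Icc 1 (2 * N + 1),
        avg (Om D) (fun h => ind (Blk D h x d k) * (h w : ℝ)) :=
      Finset.sum_nonneg fun d hd => mul_nonneg zero_le_two
        (Finset.sum_nonneg fun k _ => blk_pos hD w x d hd k)
    have h4 : ∑ d ∈ dirs, 2 * ∑ l ∈ Icc 2 (2 * N + 1), tT D w x d l =
        2 * ∑ d ∈ dirs, ∑ l ∈ Icc 2 (2 * N + 1), tT D w x d l := by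
      rw [Finset.mul_sum]
    rw [h4]
    linarith
  have h5 : ∑ x ∈ (core D).filter (fun x => y ≤ x.2),
        (-2 * ∑ d ∈ dirs, avg (Om D) (fun h => ind (Up h x d 1) * (h w : ℝ)) -
          4 * ∑ d ∈ dirs, ∑ l ∈ Icc 2 (2 * N + 1), tT D w x d l) =
      -2 * ∑ x ∈ (core D).filter (fun x => y ≤ x.2), ∑ d ∈ dirs,
        avg (Om D) (fun h => ind (Up h x d 1) * (h w : ℝ)) +
      ∑ l ∈ Icc 2 (2 * N + 1), -4 * ∑ x ∈ (core D).filter (fun x => y ≤ x.2),
        ∑ d ∈ dirs, tT D w x d l := by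
    rw [Finset.sum_sub_distrib, ← Finset.mul_sum, ← Finset.mul_sum, ← Finset.mul_sum]
    have e : ∑ x ∈ (core D).filter (fun x => y ≤ x.2), ∑ d ∈ dirs,
          ∑ l ∈ Icc 2 (2 * N + 1), tT D w x d l =
        ∑ l ∈ Icc 2 (2 * N + 1), ∑ x ∈ (core D).filter (fun x => y ≤ x.2),
          ∑ d ∈ dirs, tT D w x d l := by
      rw [Finset.sum_comm]
      refine (Finset.sum_congr rfl fun d _ => Finset.sum_comm).trans ?_
      rw [Finset.sum_comm]
      refine Finset.sum_congr rfl fun l _ => ?_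
      rw [Finset.sum_comm]
    rw [e]
    ring
  have h6 := first_sum D w ((core D).filter (fun x => y ≤ x.2)) (Finset.filter_subset _ _)
  have h7 : ∑ l ∈ Icc 2 (2 * N + 1), -4 * ∑ x ∈ (core D).filter (fun x => y ≤ x.2),
        ∑ d ∈ dirs, tT D w x d l ≤
      ∑ l ∈ Icc 2 (2 * N + 1),
        (8 * ∑ z ∈ core D, (ind (Seg z e1 l w) * PT D z e1 l + ind (Seg z e2 l w) * PT D z e2 l) -
        4 * ∑ a ∈ Icc (-(N : ℤ)) N, ∑ p ∈ Ico (y - l + 1) y, Yt D w a p l) :=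
    Finset.sum_le_sum fun l hl => B5_len hN w y l (by
      have := (Finset.mem_Icc.1 hl).1
      omega)
  have e7 : ∀ X Y : ℕ → ℝ, ∑ l ∈ Icc 2 (2 * N + 1), (8 * X l - 4 * Y l) =
      8 * ∑ l ∈ Icc 2 (2 * N + 1), X l - 4 * ∑ l ∈ Icc 2 (2 * N + 1), Y l := by
    intro X Y
    rw [Finset.sum_sub_distrib, Finset.mul_sum, Finset.mul_sum]
  rw [e7] at h7
  have h8 : Rw D w y - Rw D w (y - 1) ≤
      -∑ x ∈ (core D).filter (fun x => y ≤ x.2), Lc (fun z => cv D z w) x := h1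
  have h9 : Gam D w N = 8 + 8 * ∑ l ∈ Icc 2 (2 * N + 1), ∑ z ∈ core D,
    (ind (Seg z e1 l w) * PT D z e1 l + ind (Seg z e2 l w) * PT D z e2 l) := rfl
  have h10 : CY D w N y =
    ∑ l ∈ Icc 2 (2 * N + 1), ∑ a ∈ Icc (-(N : ℤ)) N, ∑ p ∈ Ico (y - l + 1) y, Yt D w a p l := rfl
  rw [h9, h10]
  linarith

end MD
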