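import Pool.Agent.Helper35.MD.G1
import Pool.Agent.Helper35.MD.B5

/-!
MDV piece G1b: the row sums.
-/

open Finset RP4 KP

namespace MD

private lemma avg_nn_h62 (S : Finset (V → ℤ)) (F : (V → ℤ) → ℝ) (h : ∀ g, 0 ≤ F g) : 0 ≤ avg S F :=
  div_nonneg (Finset.sum_nonneg fun g _ => h g) (Nat.cast_nonneg _)

private lemma tl_nn_h62 (l : ℕ) : 0 ≤ tl l := by
  unfold tl
  positivity

private lemma er_nn_h62 (N m : ℕ) : 0 ≤ er N m := by
  unfold er
  have := tl_nn_h62 (2 * m + 1)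
  positivity

private lemma PT_nn_h62 (D : Finset V) (x d : V) (l : ℕ) : 0 ≤ PT D x d l :=
  avg_nn_h62 _ _ fun _ => ind_nonneg _

private lemma Gam_nn_h62 (D : Finset V) (w : V) (N : ℕ) : 0 ≤ Gam D w N := by
  unfold Gam
  have : 0 ≤ ∑ l ∈ Icc 2 (2 * N + 1), ∑ z ∈ core D,
      (ind (Seg z e1 l w) * PT D z e1 l + ind (Seg z e2 l w) * PT D z e2 l) :=
    Finset.sum_nonneg fun l _ => Finset.sum_nonneg fun z _ =>
      add_nonneg (mul_nonneg (ind_nonneg _) (PT_nn_h62 _ _ _ _))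
        (mul_nonneg (ind_nonneg _) (PT_nn_h62 _ _ _ _))
  linarith

private lemma Rw_zero_h62 {D : Finset V} {N : ℕ} (hN : Bd D N) {w : V} {y : ℤ} (hy : y < -(N : ℤ)) :
    Rw D w y = 0 := by
  unfold Rw
  rw [Finset.filter_eq_empty_iff.mpr, Finset.sum_empty]
  intro x hx hxy
  have := (abs_le.mp (hN x hx).2).1
  omega

/-- `Rw D w y = 0` for `y < -N` (no points of `D`).  Add `row_ineq` for `y` and `y + 1`: `Rw (y + 1) - Rw (y - 1) ≤ 2 Gam + 4 er` if `y + m ≤ c₀`.  Two-step induction on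
`y + N + 2 ≥ 0`: the claim is clear for `y = -N - 2` and `y = -N - 1`; `Rw y ≤ Rw (y - 2) + 2 (Gam + 2 er)` if `y - 1 + m ≤ c₀`. (`Gam, er ≥ 0`.) -/
theorem Rw_le {D : Finset V} (hD : BdryPar D 0) {N : ℕ} (hN : Bd D N) {w : V} {c₀ : ℤ}
    (hR : ∀ c : ℤ, c ≤ c₀ → Rfl D c) (hw : c₀ ≤ w.2) {m : ℕ} {y : ℤ} (hy0 : -(N : ℤ) - 2 ≤ y) (hy : y + m ≤ c₀ + 1) :
    Rw D w y ≤ (y + N + 2) * (Gam D w N + 2 * er N m) := by
  have hG : 0 ≤ Gam D w N + 2 * er N m := by
    have h1 := Gam_nn_h62 D w N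
    have h2 := er_nn_h62 N m
    linarith
  -- two-step induction
  have key : ∀ n : ℕ, ∀ y : ℤ, y = (n : ℤ) - N - 2 → y + m ≤ c₀ + 1 →
      Rw D w y ≤ (n : ℝ) * (Gam D w N + 2 * er N m) := by
    intro n
    induction n using Nat.strong_induction_on with
    | _ n ih =>
      intro y hyn hyc
      rcases lt_or_ge n 2 with h2 | h2
      · rw [Rw_zero_h62 hN (by omega)]
        exact mul_nonneg (Nat.cast_nonneg _) hG
      · have h3 := ih (n - 2) (by omega) (y - 2) (by push_cast [Nat.cast_sub h2]; omega) (by omega)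
        have r1 := row_ineq hD hN w (y - 1)
        have r2 := row_ineq hD hN w y
        have r3 := CY_pair hD hN (w := w) hR hw (y := y - 1) (m := m) (by omega)
        rw [show y - 1 - 1 = y - 2 by ring] at r1
        rw [show y - 1 + 1 = y by ring] at r3
        have h4 : ((n - 2 : ℕ) : ℝ) = (n : ℝ) - 2 := by
          push_cast [Nat.cast_sub h2]
          ring
        rw [h4] at h3
        nlinarith
  have := key (y + N + 2).toNat y (by omega) hy
  have h5 : (((y + N + 2).toNat : ℕ) : ℝ) = (y : ℝ) + N + 2 := by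
    have h6 : (((y + N + 2).toNat : ℕ) : ℤ) = y + N + 2 := Int.toNat_of_nonneg (by omega)
    have h7 : ((((y + N + 2).toNat : ℕ) : ℤ) : ℝ) = ((y + N + 2 : ℤ) : ℝ) := by rw [h6]
    push_cast at h7
    exact h7
  rw [h5] at this
  exact this

end MD
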