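import Pool.Agent.Helper35.MD.G6
import Pool.Agent.Helper35.MD.G1b

/-!
MDV piece G7: every row sum of the covariances is at most `C R`.
-/

open Finset RP4 KP

namespace MD

/-- `(a, b) ↦ (a, -b)` -/
private def rho35 : V ≃ V :=
  ⟨fun x => (x.1, -x.2), fun x => (x.1, -x.2), fun x => by simp, fun x => by simp⟩

private lemma rho35_ap (v : V) : rho35 v = (v.1, -v.2) := rfl

private lemma rho35_rho (v : V) : rho35 (rho35 v) = v := by
  rw [rho35_ap, rho35_ap]
  simp

private lemma rho35_lsym : LSym rho35 := by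
  constructor
  · intro u v
    have h1 : -u.2 - -v.2 = -(u.2 - v.2) := by ring
    simp only [Adj, rho35, Equiv.coe_fn_mk, h1, abs_neg]
  · intro u v
    simp only [RP4.par, rho35, Equiv.coe_fn_mk]
    rw [Int.even_iff]
    omega

private lemma rho35_img (m : ℕ) : img rho35 (diam m) = diam m := by
  ext v
  rw [T1_mem_img, mem_diam, mem_diam]
  show |v.1| + |-v.2| ≤ _ ↔ _
  rw [abs_neg]

private lemma rho35_core (m : ℕ) (v : V) : rho35 v ∈ core (diam m) ↔ v ∈ core (diam m) := by
  unfold core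
  rw [mem_sdiff, mem_sdiff, bdry_diam, bdry_diam, mem_diam, mem_diam]
  show (|v.1| + |-v.2| ≤ _ ∧ ¬ (|v.1| + |-v.2| = _)) ↔ _
  rw [abs_neg]

private lemma rho35_pt (x : V) (i : ℤ) : pt (rho35 x) (nd e2) i = rho35 (pt x e2 i) := by
  rw [rho35_ap, rho35_ap]
  unfold pt nd e2
  ext
  · simp
  · simp only
    ring

private lemma rho35_side (x : V) (i e : ℤ) : pt (pt (rho35 x) (nd e2) i) (prp (nd e2)) e = rho35 (pt (pt x e2 i) (prp e2) (-e)) := by
  rw [rho35_ap, rho35_ap]
  unfold pt nd prp e2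
  ext
  · simp
  · simp
    ring

private lemma rho35_up {h : V → ℤ} {x : V} {l : ℕ} (hu : Up (fun v => h (rho35 v)) x e2 l) : Up h (rho35 x) (nd e2) l := by
  refine ⟨hu.pos, ?_, ?_, ?_, ?_, ?_⟩
  · intro i h0 hl
    rw [rho35_pt]
    exact hu.site i h0 hl
  · intro i h0 hl
    rw [rho35_side]
    exact hu.side2 i h0 hl
  · intro i h0 hl
    rw [rho35_side, neg_neg]
    exact hu.side1 i h0 hl
  · rw [rho35_pt]
    exact hu.head
  · rw [rho35_pt]
    exact hu.tail

private lemma rho35_up' {h : V → ℤ} {x : V} {l : ℕ} (hu : Up h (rho35 x) (nd e2) l) : Up (fun v => h (rho35 v)) x e2 l := by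
  refine ⟨hu.pos, ?_, ?_, ?_, ?_, ?_⟩
  · intro i h0 hl
    have := hu.site i h0 hl
    rw [rho35_pt] at this
    exact this
  · intro i h0 hl
    have := hu.side2 i h0 hl
    rw [rho35_side, neg_neg] at this
    exact this
  · intro i h0 hl
    have := hu.side1 i h0 hl
    rw [rho35_side] at this
    exact this
  · have := hu.head
    rw [rho35_pt] at this
    exact this
  · have := hu.tail
    rw [rho35_pt] at this
    exact this

private lemma rho35_tT (m : ℕ) {w : V} (hw : w.2 = 0) (x : V) (l : ℕ) :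
    tT (diam m) w (rho35 x) (nd e2) l = tT (diam m) w x e2 l := by
  have h := avg_Om_img rho35_lsym (fun v => by
    simp only [RP4.par, rho35, Equiv.coe_fn_mk]
    rw [Int.even_iff]
    omega) (diam m) (fun h => ind (InD (diam m) x e2 l ∧ Up h x e2 l) * (h w : ℝ))
  rw [rho35_img] at h
  have hw2 : rho35 w = w := by
    show (w.1, -w.2) = w
    rw [hw, neg_zero]
    exact Prod.ext rfl hw.symm
  unfold tT
  rw [← h]
  congr 1
  funext g
  show _ = ind (InD (diam m) x e2 l ∧ Up (fun v => g (rho35 v)) x e2 l) * (g (rho35 w) : ℝ)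
  rw [hw2]
  congr 2
  apply propext
  constructor
  · rintro ⟨h1, h2⟩
    refine ⟨fun i h0 hl => ?_, rho35_up' h2⟩
    have := h1 i h0 hl
    rw [rho35_pt, rho35_core] at this
    exact this
  · rintro ⟨h1, h2⟩
    refine ⟨fun i h0 hl => ?_, rho35_up h2⟩
    rw [rho35_pt, rho35_core]
    exact h1 i h0 hl

private lemma PT_nn_h35 (D : Finset V) (x d : V) (l : ℕ) : 0 ≤ PT D x d l :=
  div_nonneg (Finset.sum_nonneg (fun _ _ => ind_nonneg _)) (Nat.cast_nonneg _)

/-- reflection in the row of `w` -/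
theorem Yt_refl (m : ℕ) {w : V} (hw : w.2 = 0) (a p q : ℤ) (l : ℕ) (hq : q = 1 - l - p) :
    0 ≤ Yt (diam m) w a p l + Yt (diam m) w a q l := by
  have h1 := tT_top (diam m) w a q l
  have h2 := Yt_eq (diam m) w a p l
  have h3 := rho35_tT m hw (a, p) l
  have h4 : rho35 (a, p) = (a, q + l - 1) := by
    rw [rho35_ap, hq]
    ext
    · rfl
    · simp only
      ring
  rw [h4, h1] at h3
  have h5 := mul_nonneg (ind_nonneg (Seg (a, q) e2 l w)) (PT_nn_h35 (diam m) (a, q) e2 l)
  linarith

/-- A sum over an interval symmetric about a nonpositive centre: if `f c ≥ 0` for `c ≤ 0` and `f c + f (-c) ≥ 0` the sum is nonnegative. -/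
theorem sum_refl (f : ℤ → ℝ) (h0 : ∀ c, c ≤ 0 → 0 ≤ f c) (h1 : ∀ c, 0 ≤ f c + f (-c)) {A B : ℤ} (hAB : A + B ≤ 0) :
    0 ≤ ∑ c ∈ Icc A B, f c := by
  rcases le_or_gt B 0 with hB | hB
  · exact Finset.sum_nonneg fun c hc => h0 c ((mem_Icc.1 hc).2.trans hB)
  · have hA : A ≤ -B := by linarith
    have hs : Icc A B = Ico A (-B) ∪ Icc (-B) B := by
      ext c
      simp only [mem_union, mem_Icc, mem_Ico]
      omega
    have hd : Disjoint (Ico A (-B)) (Icc (-B) B) := by
      rw [Finset.disjoint_left]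
      intro c h1 h2
      rw [mem_Ico] at h1
      rw [mem_Icc] at h2
      omega
    rw [hs, Finset.sum_union hd]
    refine add_nonneg (Finset.sum_nonneg fun c hc => h0 c ?_) ?_
    · have := (mem_Ico.1 hc).2
      omega
    · have e : ∑ c ∈ Icc (-B) B, f (-c) = ∑ c ∈ Icc (-B) B, f c := by
        refine Finset.sum_nbij' (fun c => -c) (fun c => -c) ?_ ?_ ?_ ?_ ?_
        · intro c hc
          rw [mem_Icc] at hc ⊢
          omega
        · intro c hc
          rw [mem_Icc] at hc ⊢
          omega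
        · intro c _
          simp
        · intro c _
          simp
        · intro c _
          rfl
      have h2 : 0 ≤ ∑ c ∈ Icc (-B) B, (f c + f (-c)) := Finset.sum_nonneg fun c _ => h1 c
      rw [Finset.sum_add_distrib, e] at h2
      linarith

/-- the crossing sums at two consecutive lines below the row of `w` -/
theorem CY_pair' (n : ℕ) {w : V} (hw : w.2 = 0) {y : ℤ} (hy : y ≤ 0) (N : ℕ) :
    0 ≤ CY (diam (2 * n)) w N (y - 1) + CY (diam (2 * n)) w N y := by
  have hD : BdryPar (diam (2 * n)) 0 := diam_bdryPar (2 * n) (even_two_mul n)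
  have hR : ∀ c : ℤ, c ≤ 0 → Rfl (diam (2 * n)) c := fun c hc => diam_rfl n hc
  set D := diam (2 * n) with hDd
  have key : ∀ l ∈ Icc 2 (2 * N + 1), ∀ a : ℤ,
      0 ≤ ∑ p ∈ Ico (y - 1 - l + 1) (y - 1), Yt D w a p l + ∑ p ∈ Ico (y - l + 1) y, Yt D w a p l := by
    intro l hl a
    rw [Finset.mem_Icc] at hl
    obtain ⟨k, hk | hk⟩ := Nat.even_or_odd' l
    · -- even
      have e1 : ∑ p ∈ Ico (y - l + 1) y, Yt D w a p l = ∑ p ∈ Ico (y - 1 - l + 1) (y - 1), Yt D w a (p + 1) l := by
        have e : Ico (y - l + 1) y = (Ico (y - 1 - l + 1) (y - 1)).map (addRightEmbedding 1) := by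
          rw [Finset.map_add_right_Ico]
          congr 1
          · ring
          · ring
        rw [e, Finset.sum_map]
        rfl
      rw [e1, ← Finset.sum_add_distrib]
      have e2 : ∑ p ∈ Ico (y - 1 - l + 1) (y - 1), (Yt D w a p l + Yt D w a (p + 1) l) =
          ∑ c ∈ Icc (y - k) (y - 2 + k), (Yt D w a (c - k) l + Yt D w a (c - k + 1) l) := by
        refine Finset.sum_nbij' (fun p => p + k) (fun c => c - k) ?_ ?_ ?_ ?_ ?_
        · intro p hp
          rw [mem_Ico] at hp
          rw [mem_Icc]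
          omega
        · intro p hp
          rw [mem_Icc] at hp
          rw [mem_Ico]
          omega
        · intro p _
          ring
        · intro p _
          ring
        · intro p _
          have : p + (k : ℤ) - k = p := by ring
          rw [this]
      rw [e2]
      refine sum_refl (fun c => Yt D w a (c - k) l + Yt D w a (c - k + 1) l) ?_ ?_ (by linarith)
      · intro c hc
        have := Yt_even (c := c) hD (hR c hc) (w := w) (by omega) a (k := k) (by omega)
        rw [← hk] at this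
        exact this
      · intro c
        have h1 := Yt_refl (2 * n) hw a (c - k) (-c - k + 1) l (by rw [hk]; push_cast; ring)
        have h2 := Yt_refl (2 * n) hw a (c - k + 1) (-c - k) l (by rw [hk]; push_cast; ring)
        rw [← hDd] at h1 h2
        show 0 ≤ Yt D w a (c - k) l + Yt D w a (c - k + 1) l + (Yt D w a (-c - k) l + Yt D w a (-c - k + 1) l)
        linarith
    · -- odd
      have hodd : ∀ z : ℤ, z ≤ 0 → 0 ≤ ∑ p ∈ Ico (z - l + 1) z, Yt D w a p l := by
        intro z hz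
        have e2 : ∑ p ∈ Ico (z - l + 1) z, Yt D w a p l = ∑ c ∈ Icc (z - k) (z - 1 + k), Yt D w a (c - k) l := by
          refine Finset.sum_nbij' (fun p => p + k) (fun c => c - k) ?_ ?_ ?_ ?_ ?_
          · intro p hp
            rw [mem_Ico] at hp
            rw [mem_Icc]
            omega
          · intro p hp
            rw [mem_Icc] at hp
            rw [mem_Ico]
            omega
          · intro p _
            ring
          · intro p _
            ring
          · intro p _
            have : p + (k : ℤ) - k = p := by ring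
            rw [this]
        rw [e2]
        refine sum_refl (fun c => Yt D w a (c - k) l) ?_ ?_ (by linarith)
        · intro c hc
          have := Yt_odd (c := c) hD (hR c hc) (w := w) (by omega) a k
          rw [← hk] at this
          exact this
        · intro c
          have h1 := Yt_refl (2 * n) hw a (c - k) (-c - k) l (by rw [hk]; push_cast; ring)
          rw [← hDd] at h1
          exact h1
      exact add_nonneg (hodd (y - 1) (by omega)) (hodd y hy)
  have hsum : CY D w N (y - 1) + CY D w N y = ∑ l ∈ Icc 2 (2 * N + 1), ∑ a ∈ Icc (-(N : ℤ)) N,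
      (∑ p ∈ Ico (y - 1 - l + 1) (y - 1), Yt D w a p l + ∑ p ∈ Ico (y - l + 1) y, Yt D w a p l) := by
    unfold CY
    rw [← Finset.sum_add_distrib]
    refine Finset.sum_congr rfl (fun l _ => ?_)
    rw [← Finset.sum_add_distrib]
  rw [hsum]
  exact Finset.sum_nonneg fun l hl => Finset.sum_nonneg fun a _ => key l hl a

private lemma Rw_zero_h35 {D : Finset V} {N : ℕ} (hN : Bd D N) {w : V} {y : ℤ} (hy : y < -(N : ℤ)) :
    Rw D w y = 0 := by
  unfold Rw
  rw [Finset.filter_eq_empty_iff.mpr, Finset.sum_empty]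
  intro x hx hxy
  have := (abs_le.mp (hN x hx).2).1
  omega

private lemma Gam_nn_h35 (D : Finset V) (w : V) (N : ℕ) : 0 ≤ Gam D w N := by
  unfold Gam
  have : 0 ≤ ∑ l ∈ Icc 2 (2 * N + 1), ∑ z ∈ core D,
      (ind (Seg z e1 l w) * PT D z e1 l + ind (Seg z e2 l w) * PT D z e2 l) :=
    Finset.sum_nonneg fun l _ => Finset.sum_nonneg fun z _ =>
      add_nonneg (mul_nonneg (ind_nonneg _) (PT_nn_h35 _ _ _ _))
        (mul_nonneg (ind_nonneg _) (PT_nn_h35 _ _ _ _))
  linarith

/-- the row sums in the diamond -/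
theorem diam_row_all (n : ℕ) {w : V} (hw : w.2 = 0) {y : ℤ} (hy : y ≤ 0) :
    Rw (diam (2 * n)) w y ≤ (2 * n + 2) * Gam (diam (2 * n)) w (2 * n) := by
  have hD : BdryPar (diam (2 * n)) 0 := diam_bdryPar (2 * n) (even_two_mul n)
  have hN := diam_bd n
  set D := diam (2 * n) with hDd
  have hG := Gam_nn_h35 D w (2 * n)
  have key : ∀ j : ℕ, ∀ y : ℤ, y = (j : ℤ) - 2 * n - 2 → y ≤ 0 → Rw D w y ≤ (j : ℝ) * Gam D w (2 * n) := by
    intro j
    induction j using Nat.strong_induction_on with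
    | _ j ih =>
      intro y hyn hyc
      rcases lt_or_ge j 2 with h2 | h2
      · rw [Rw_zero_h35 hN (by push_cast; omega)]
        exact mul_nonneg (Nat.cast_nonneg _) hG
      · have h3 := ih (j - 2) (by omega) (y - 2) (by push_cast [Nat.cast_sub h2]; omega) (by omega)
        have r1 := row_ineq hD hN w (y - 1)
        have r2 := row_ineq hD hN w y
        have r3 := CY_pair' n hw hyc (2 * n)
        rw [← hDd] at r3
        rw [show y - 1 - 1 = y - 2 by ring] at r1
        have h4 : ((j - 2 : ℕ) : ℝ) = (j : ℝ) - 2 := by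
          push_cast [Nat.cast_sub h2]
          ring
        rw [h4] at h3
        nlinarith
  rcases lt_or_ge y (-(2 * n : ℤ) - 2) with h | h
  · rw [Rw_zero_h35 hN (by push_cast; omega)]
    positivity
  · have h1 := key (y + 2 * n + 2).toNat y (by omega) hy
    refine h1.trans (mul_le_mul_of_nonneg_right ?_ hG)
    have h5 : (y + 2 * n + 2).toNat ≤ 2 * n + 2 := by omega
    exact_mod_cast h5

/-- EVERY ROW SUM.  For every even domain of diameter at most `R`. -/
theorem row_all : ∃ C : ℝ, 0 ≤ C ∧ ∀ (R : ℕ), 1 ≤ R → ∀ D : Finset V, BdryPar D 0 →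
    (∀ u ∈ D, ∀ v ∈ D, |u.1 - v.1| ≤ R ∧ |u.2 - v.2| ≤ R) → ∀ w ∈ D, ∀ y : ℤ,
    ∑ x ∈ D.filter (fun x => x.2 = y), cv D x w ≤ C * R := by
  classical
  obtain ⟨C, hC0, hC⟩ := Gam_le
  refine ⟨6 * C, by positivity, fun R hR1 D hD hR w hw y => ?_⟩
  obtain ⟨t, ht, hw0, hwd, hx⟩ := embed hD hR hw
  have h1 : Rw (diam (2 * (R + 1))) (w + t) (y - w.2) ≤ (2 * ((R + 1 : ℕ) : ℝ) + 2) * C := by
    have hpos : 0 ≤ 2 * ((R + 1 : ℕ) : ℝ) + 2 := by positivity
    rcases le_or_gt (y - w.2) 0 with h | h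
    · exact (diam_row_all (R + 1) hw0 h).trans (mul_le_mul_of_nonneg_left (hC _ _ _) hpos)
    · rw [← diam_Rw_neg (R + 1) hw0]
      exact (diam_row_all (R + 1) hw0 (by omega)).trans (mul_le_mul_of_nonneg_left (hC _ _ _) hpos)
  have h2 : ∑ x ∈ D.filter (fun x => x.2 = y), cv D x w ≤ Rw (diam (2 * (R + 1))) (w + t) (y - w.2) := by
    unfold Rw
    calc ∑ x ∈ D.filter (fun x => x.2 = y), cv D x w
        ≤ ∑ x ∈ D.filter (fun x => x.2 = y), cv (diam (2 * (R + 1))) (x + t) (w + t) :=
          Finset.sum_le_sum fun x h => (hx x (mem_filter.1 h).1).2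
      _ = ∑ x ∈ (D.filter (fun x => x.2 = y)).image (fun x => x + t),
            cv (diam (2 * (R + 1))) x (w + t) := by
          rw [Finset.sum_image]
          intro a _ b _ hab
          exact add_right_cancel hab
      _ ≤ _ := by
          apply Finset.sum_le_sum_of_subset_of_nonneg
          · intro z hz
            rw [mem_image] at hz
            obtain ⟨x, hx1, rfl⟩ := hz
            rw [mem_filter] at hx1 ⊢
            refine ⟨(hx x hx1.1).1, ?_⟩
            have e2 : (x + t).2 = x.2 + t.2 := rfl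
            have e3 : w.2 + t.2 = 0 := hw0
            rw [e2, hx1.2]
            linarith
          · intro x _ _
            exact cv_nonneg _ _ _
  refine (h2.trans h1).trans ?_
  have hRr : (1 : ℝ) ≤ R := by exact_mod_cast hR1
  push_cast
  nlinarith

/-- EVERY COLUMN SUM -/
theorem column_all : ∃ C : ℝ, 0 ≤ C ∧ ∀ (R : ℕ), 1 ≤ R → ∀ D : Finset V, BdryPar D 0 →
    (∀ u ∈ D, ∀ v ∈ D, |u.1 - v.1| ≤ R ∧ |u.2 - v.2| ≤ R) → ∀ w ∈ D, ∀ a : ℤ,
    ∑ x ∈ D.filter (fun x => x.1 = a), cv D x w ≤ C * R := by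
  classical
  obtain ⟨C, hC0, hC⟩ := row_all
  refine ⟨C, hC0, fun R hR1 D hD hR w hw a => ?_⟩
  have hmem : ∀ v : V, v ∈ img swapV D ↔ ((v.2, v.1) : V) ∈ D := by
    intro v
    rw [T1_mem_img]
    rfl
  have hp : BdryPar (img swapV D) 0 := by
    intro v hv
    rw [bdry_img swapV_lsym, T1_mem_img] at hv
    have h1 := hD _ hv
    have e : par (swapV.symm v) = par v := by
      unfold par swapV
      simp only [Equiv.coe_fn_symm_mk]
      ring
    rwa [e] at h1
  have h1 := hC R hR1 (img swapV D) hp (fun u hu v hv => by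
    have := hR _ ((hmem u).1 hu) _ ((hmem v).1 hv)
    exact ⟨this.2, this.1⟩) (w.2, w.1) ((hmem _).2 hw) a
  refine le_trans (le_of_eq ?_) h1
  refine Finset.sum_nbij' (fun x => ((x.2, x.1) : V)) (fun x => ((x.2, x.1) : V)) ?_ ?_ ?_ ?_ ?_
  · intro x hx
    rw [mem_filter] at hx ⊢
    exact ⟨(hmem _).2 hx.1, hx.2⟩
  · intro x hx
    rw [mem_filter] at hx ⊢
    exact ⟨(hmem _).1 hx.1, hx.2⟩
  · intro x _
    rfl
  · intro x _
    rfl
  · intro x _
    rw [cv_swap]

/-- the rows at distance at most `k` from the row `y` -/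
theorem near_all : ∃ C : ℝ, 0 ≤ C ∧ ∀ (R : ℕ), 1 ≤ R → ∀ D : Finset V, BdryPar D 0 →
    (∀ u ∈ D, ∀ v ∈ D, |u.1 - v.1| ≤ R ∧ |u.2 - v.2| ≤ R) → ∀ w ∈ D, ∀ (y : ℤ) (k : ℕ),
    ∑ x ∈ D.filter (fun x => |x.2 - y| ≤ (k : ℤ)), cv D x w ≤ C * (R * (k + 1)) ∧
    ∑ x ∈ D.filter (fun x => |x.1 - y| ≤ (k : ℤ)), cv D x w ≤ C * (R * (k + 1)) := by
  classical
  obtain ⟨C1, hC1, h1⟩ := row_all
  obtain ⟨C2, hC2, h2⟩ := column_all
  have gen : ∀ (D : Finset V) (f : V → ℤ) (F : V → ℝ) (K : ℝ) (y : ℤ) (k : ℕ),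
      (∀ z : ℤ, ∑ x ∈ D.filter (fun x => f x = z), F x ≤ K) →
      ∑ x ∈ D.filter (fun x => |f x - y| ≤ (k : ℤ)), F x ≤ (2 * k + 1) * K := by
    intro D f F K y k hz
    have e : ∑ x ∈ D.filter (fun x => |f x - y| ≤ (k : ℤ)), F x =
        ∑ z ∈ Icc (y - k) (y + k), ∑ x ∈ D.filter (fun x => f x = z), F x := by
      rw [← Finset.sum_fiberwise_of_maps_to (s := D.filter (fun x => |f x - y| ≤ (k : ℤ))) (t := Icc (y - k) (y + k)) (g := f)]
      · refine Finset.sum_congr rfl fun z hz => ?_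
        rw [Finset.filter_filter]
        refine Finset.sum_congr ?_ fun _ _ => rfl
        ext x
        rw [mem_filter, mem_filter]
        rw [mem_Icc] at hz
        constructor
        · rintro ⟨h1, _, h3⟩
          exact ⟨h1, h3⟩
        · rintro ⟨h1, h3⟩
          refine ⟨h1, ?_, h3⟩
          rw [h3, abs_le]
          constructor <;> linarith
      · intro x hx
        rw [mem_filter, abs_le] at hx
        rw [mem_Icc]
        constructor <;> linarith [hx.2.1, hx.2.2]
    rw [e]
    calc _ ≤ ∑ _z ∈ Icc (y - k) (y + k), K := Finset.sum_le_sum fun z _ => hz z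
      _ = (2 * k + 1) * K := by
        rw [Finset.sum_const, nsmul_eq_mul, Int.card_Icc]
        congr 1
        have : (y + k + 1 - (y - k)).toNat = 2 * k + 1 := by omega
        rw [this]
        push_cast
        ring
  refine ⟨2 * (C1 + C2), by positivity, fun R hR1 D hD hR w hw y k => ?_⟩
  have g1 := gen D (fun x => x.2) (fun x => cv D x w) (C1 * R) y k (fun z => h1 R hR1 D hD hR w hw z)
  have g2 := gen D (fun x => x.1) (fun x => cv D x w) (C2 * R) y k (fun z => h2 R hR1 D hD hR w hw z)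
  have hRr : (0 : ℝ) ≤ R := Nat.cast_nonneg R
  have hk : (0 : ℝ) ≤ k := Nat.cast_nonneg k
  have q1 : (2 * (k : ℝ) + 1) * (C1 * R) ≤ 2 * (C1 + C2) * (R * (k + 1)) := by
    have a1 : 0 ≤ C1 * R := by positivity
    have a2 : 0 ≤ C2 * R := by positivity
    nlinarith [mul_nonneg a1 hk, mul_nonneg a2 hk]
  have q2 : (2 * (k : ℝ) + 1) * (C2 * R) ≤ 2 * (C1 + C2) * (R * (k + 1)) := by
    have a1 : 0 ≤ C1 * R := by positivity
    have a2 : 0 ≤ C2 * R := by positivity
    nlinarith [mul_nonneg a1 hk, mul_nonneg a2 hk]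
  exact ⟨g1.trans q1, g2.trans q2⟩

end MD
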