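import Pool.Agent.Helper35.MD.G4

/-!
MDV piece G4b: the macroscopic variance bound.
-/

open Finset RP4 KP

namespace MD

/-- Expand the square; `|g x g w| ≤ |g w| * sup |g|`, the covariances are nonnegative; `col_sum` for every `w`. -/
theorem mdv : ∃ C : ℝ, 0 ≤ C ∧ ∀ (R : ℕ), 1 ≤ R → ∀ D : Finset V, BdryPar D 0 →
    (∀ u ∈ D, ∀ v ∈ D, |u.1 - v.1| ≤ R ∧ |u.2 - v.2| ≤ R) → ∀ (g : V → ℝ) (A : ℝ), (∀ x ∈ D, |g x| ≤ A) →
      avg (Om D) (fun h => (∑ x ∈ D, g x * (h x : ℝ)) ^ 2) ≤ C * (R : ℝ) ^ 2 * (A * ∑ x ∈ D, |g x|) := by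
  obtain ⟨C, hC, hcol⟩ := col_sum
  refine ⟨C, hC, fun R hR D hD hRD g A hA => ?_⟩
  have h1 : avg (Om D) (fun h => (∑ x ∈ D, g x * (h x : ℝ)) ^ 2) =
      ∑ w ∈ D, ∑ x ∈ D, g x * g w * cv D x w := by
    have h2 : (fun h : V → ℤ => (∑ x ∈ D, g x * (h x : ℝ)) ^ 2) =
        fun h => ∑ w ∈ D, ∑ x ∈ D, g x * g w * ((h x : ℝ) * h w) := by
      funext h
      rw [pow_two, Finset.sum_mul_sum, Finset.sum_comm]
      exact Finset.sum_congr rfl fun w _ => Finset.sum_congr rfl fun x _ => by ring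
    rw [h2, avg_sum]
    refine Finset.sum_congr rfl fun w _ => ?_
    rw [avg_sum]
    refine Finset.sum_congr rfl fun x _ => ?_
    rw [avg_const_mul]
    rfl
  rw [h1]
  calc ∑ w ∈ D, ∑ x ∈ D, g x * g w * cv D x w
      ≤ ∑ w ∈ D, ∑ x ∈ D, A * |g w| * cv D x w := by
        refine Finset.sum_le_sum fun w _ => Finset.sum_le_sum fun x hx => ?_
        refine mul_le_mul_of_nonneg_right ?_ (cv_nonneg D x w)
        calc g x * g w ≤ |g x * g w| := le_abs_self _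
          _ = |g x| * |g w| := abs_mul _ _
          _ ≤ A * |g w| := mul_le_mul_of_nonneg_right (hA x hx) (abs_nonneg _)
    _ = ∑ w ∈ D, A * |g w| * ∑ x ∈ D, cv D x w := by
        refine Finset.sum_congr rfl fun w _ => ?_
        rw [Finset.mul_sum]
    _ ≤ ∑ w ∈ D, A * |g w| * (C * (R : ℝ) ^ 2) := by
        refine Finset.sum_le_sum fun w hw => ?_
        refine mul_le_mul_of_nonneg_left (hcol R hR D hD hRD w hw) ?_
        exact mul_nonneg ((abs_nonneg _).trans (hA w hw)) (abs_nonneg _)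
    _ = C * (R : ℝ) ^ 2 * (A * ∑ x ∈ D, |g x|) := by
        rw [← Finset.sum_mul, ← Finset.mul_sum]
        ring

end MD
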