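import Pool.Agent.Helper35.MD.Defs

/-!
MDV piece A1: the tower count at a site with `Lap ≤ 0` or `Lap = 4`.
-/

open Finset RP4 KP

namespace MD

private lemma mem_Om_h40 {D : Finset V} {h : V → ℤ} (hh : h ∈ Om D) : IsHom D 0 h := by
  rw [Om, mem_Zs (Subset.refl _)] at hh
  exact hh.1

private lemma adj_h40 {x d : V} (hd : d ∈ dirs) : Adj (pt x d 1) x := by
  rcases mem_dirs.1 hd with rfl | rfl | rfl | rfl <;> simp [Adj, pt]

private lemma pt_zero_h40 (x d : V) : pt x d 0 = x := by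
  simp [pt]

private lemma pt_neg_h40 (x d : V) : pt x d (-1) = pt x (nd d) 1 := by
  simp [pt, nd]

private lemma prp_h40 {d : V} (hd : d ∈ dirs) : prp d ∈ dirs := by
  rcases mem_dirs.1 hd with rfl | rfl | rfl | rfl <;> simp [prp, dirs]

private lemma nd_h40 {d : V} (hd : d ∈ dirs) : nd d ∈ dirs := by
  rcases mem_dirs.1 hd with rfl | rfl | rfl | rfl <;> simp [nd, dirs]

private lemma ind_pos_h40 {p : Prop} (h : p) : ind p = 1 := by
  rw [ind, if_pos h]

private lemma ind_neg_h40 {p : Prop} (h : ¬ p) : ind p = 0 := by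
  rw [ind, if_neg h]

private lemma lap_three_h40 {h : V → ℤ} {x d : V} (hd : d ∈ dirs) {a : ℤ} (h1 : h (pt x d (-1)) = a)
    (h2 : h (pt x (prp d) 1) = a) (h3 : h (pt x (prp d) (-1)) = a) :
    Lap h x = 3 * a + h (pt x d 1) - 4 * h x := by
  rcases mem_dirs.1 hd with rfl | rfl | rfl | rfl <;>
    simp only [pt, prp, Lap, mul_zero, mul_one, mul_neg, neg_mul, one_mul, neg_neg, add_zero, neg_zero,
      ← sub_eq_add_neg] at * <;> omega

/-- A neighbour of an interior point is in `D` (definitions of `core`, `bdry`; `Adj u v`, `v ∈ core D`: otherwise `v ∈ bdry D`). -/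
theorem nbr_core {D : Finset V} {u v : V} (hv : v ∈ core D) (ha : Adj u v) : u ∈ D := by
  by_contra hu
  rw [core, mem_sdiff] at hv
  exact hv.2 (mem_bdry.2 ⟨hv.1, u, ha, hu⟩)

/-- At an interior point each of the four differences `h (x ± e) - h x` is `1` or `-1`. -/
theorem diff_core {D : Finset V} {h : V → ℤ} (hh : h ∈ Om D) {x : V} (hx : x ∈ core D) {d : V} (hd : d ∈ dirs) :
    h (pt x d 1) - h x = 1 ∨ h (pt x d 1) - h x = -1 := by
  have h1 := mem_Om_h40 hh
  have hx' : x ∈ D := by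
    rw [core, mem_sdiff] at hx
    exact hx.1
  have ha : Adj (pt x d 1) x := adj_h40 hd
  have h2 := h1.step _ (nbr_core hx ha) _ hx' ha
  rcases abs_eq (by norm_num : (0 : ℤ) ≤ 1) |>.1 h2 with h3 | h3
  · exact Or.inl h3
  · exact Or.inr h3

/-- `Lap h x` is the sum over `d ∈ dirs` of `h (pt x d 1) - h x`. -/
theorem lap_dirs (h : V → ℤ) (x : V) : Lap h x = ∑ d ∈ dirs, (h (pt x d 1) - h x) := by
  have h1 : ∀ f : V → ℤ, ∑ d ∈ dirs, f d = f (1, 0) + f (-1, 0) + f (0, 1) + f (0, -1) := by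
    intro f
    rw [dirs, sum_insert (by decide), sum_insert (by decide), sum_insert (by decide), sum_singleton]
    ring
  rw [h1, Lap]
  simp only [pt, one_mul, add_zero, mul_zero]
  ring_nf

/-- If `Lap h x ≤ 0` at most two neighbours are higher; but `Up h x d l` (`site` for `i = 0`, `side1`, `side2`, `head`) and `Blk D h x d k`
(`run` for `i = 0` gives `h x = k`; `back`, `side1`, `side2`) give three higher neighbours `pt x d (-1)`, `pt x (prp d) (±1)`. -/
theorem fl_nonpos {D : Finset V} {N : ℕ} {h : V → ℤ} (hh : h ∈ Om D) {x : V} (hx : x ∈ core D)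
    (hl : Lap h x ≤ 0) : Fl D N h x = 0 := by
  have key : ∀ d ∈ dirs, ∀ a : ℤ, h (pt x d (-1)) = a → h (pt x (prp d) 1) = a →
      h (pt x (prp d) (-1)) = a → a = h x + 1 → False := by
    intro d hd a h1 h2 h3 h4
    have h5 := lap_three_h40 hd h1 h2 h3
    rcases diff_core hh hx hd with h6 | h6 <;> omega
  have hU : ∀ d ∈ dirs, ∀ l, ¬ Up h x d l := by
    intro d hd l hu
    have hp := hu.pos
    have h2 := hu.side1 0 le_rfl (by exact_mod_cast hp)
    have h3 := hu.side2 0 le_rfl (by exact_mod_cast hp)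
    rw [pt_zero_h40, sub_zero] at h2 h3
    exact key d hd _ hu.head h2 h3 rfl
  have hB : ∀ d ∈ dirs, ∀ k, ¬ Blk D h x d k := by
    intro d hd k hb
    have h1 := hb.run 0 le_rfl (by positivity)
    rw [pt_zero_h40, sub_zero] at h1
    exact key d hd _ hb.back hb.side1 hb.side2 (by rw [h1])
  rw [Fl]
  refine sum_eq_zero fun d hd => ?_
  rw [ind_neg_h40 (hU d hd 1), sum_eq_zero fun l _ => ind_neg_h40 fun h => hU d hd l h.2,
    sum_eq_zero fun k _ => ind_neg_h40 (hB d hd k)]
  norm_num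

/-- If `Lap h x = 4` all neighbours are higher: `Up h x d 1` for all four `d` (`tail`: `h (pt x d 1) = h x + 1`); `Up h x d l` with `l ≥ 2` gives
`h (pt x d 1) = h x - 1`, `Blk D h x d k` with `k ≥ 1` gives `h (pt x d 1) = k - 1`, `h x = k`: impossible. -/
theorem fl_four {D : Finset V} {N : ℕ} {h : V → ℤ} (hh : h ∈ Om D) {x : V} (hx : x ∈ core D)
    (hl : Lap h x = 4) : Fl D N h x = 4 := by
  have hall : ∀ d ∈ dirs, h (pt x d 1) = h x + 1 := by
    rw [lap_dirs] at hl
    intro d hd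
    rcases diff_core hh hx hd with h6 | h6
    · omega
    · exfalso
      have h7 : ∑ d' ∈ dirs, (h (pt x d' 1) - h x) ≤ ∑ d' ∈ dirs, (if d' = d then -1 else 1) := by
        refine sum_le_sum fun d' hd' => ?_
        split_ifs with h8
        · rw [h8, h6]
        · rcases diff_core hh hx hd' with h9 | h9 <;> omega
      have h10 : ∑ d' ∈ dirs, (if d' = d then (-1 : ℤ) else 1) = 2 := by
        rcases mem_dirs.1 hd with rfl | rfl | rfl | rfl <;> decide
      omega
  have hU1 : ∀ d ∈ dirs, Up h x d 1 := by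
    intro d hd
    have hz : ∀ i : ℤ, 0 ≤ i → i < ((1 : ℕ) : ℤ) → i = 0 := by
      intro i h0 h1
      push_cast at h1
      omega
    refine ⟨le_rfl, ?_, ?_, ?_, ?_, ?_⟩
    · intro i h0 h1
      rw [hz i h0 h1, pt_zero_h40, sub_zero]
    · intro i h0 h1
      rw [hz i h0 h1, pt_zero_h40, sub_zero]
      exact hall _ (prp_h40 hd)
    · intro i h0 h1
      rw [hz i h0 h1, pt_zero_h40, sub_zero, pt_neg_h40]
      exact hall _ (nd_h40 (prp_h40 hd))
    · rw [pt_neg_h40]
      exact hall _ (nd_h40 hd)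
    · rw [Nat.cast_one, hall d hd]
      ring
  have hU : ∀ d ∈ dirs, ∀ l, 2 ≤ l → ¬ Up h x d l := by
    intro d hd l hl2 hu
    have h1 := hu.site 1 zero_le_one (by exact_mod_cast hl2)
    rw [hall d hd] at h1
    omega
  have hB : ∀ d ∈ dirs, ∀ k, 1 ≤ k → ¬ Blk D h x d k := by
    intro d hd k hk hb
    have h1 := hb.run 0 le_rfl (by positivity)
    have h2 := hb.run 1 zero_le_one (by exact_mod_cast hk)
    rw [pt_zero_h40] at h1
    rw [hall d hd] at h2
    omega
  rw [Fl]
  have h3 : ∀ d ∈ dirs, (ind (Up h x d 1) + 2 * ∑ l ∈ Icc 2 (2 * N + 1), ind (InD D x d l ∧ Up h x d l) +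
      2 * ∑ k ∈ Icc 1 (2 * N + 1), ind (Blk D h x d k)) = 1 := by
    intro d hd
    rw [ind_pos_h40 (hU1 d hd),
      sum_eq_zero fun l hl => ind_neg_h40 fun h => hU d hd l (mem_Icc.1 hl).1 h.2,
      sum_eq_zero fun k hk => ind_neg_h40 (hB d hd k (mem_Icc.1 hk).1)]
    norm_num
  rw [sum_congr rfl h3, sum_const]
  have h4 : dirs.card = 4 := by decide
  rw [h4]
  norm_num

end MD
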