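import Pool.Agent.Helper35.MD.A1

/-!
MDV piece A2: the tower count at a site with `Lap = 2`.
-/

open Finset RP4 KP

namespace MD

private lemma pt_zero_h31 (x d : V) : pt x d 0 = x := by
  simp [pt]

private lemma adj_h31 {x d : V} (hd : d ∈ dirs) (i : ℤ) : Adj (pt x d (i + 1)) (pt x d i) := by
  rcases mem_dirs.1 hd with rfl | rfl | rfl | rfl <;> simp [Adj, pt]

private lemma side_adj_h31 {x d : V} (hd : d ∈ dirs) (e : ℤ) (he : e = 1 ∨ e = -1) :
    Adj (pt x (prp d) e) x := by
  rcases he with rfl | rfl <;> rcases mem_dirs.1 hd with rfl | rfl | rfl | rfl <;>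
    simp [Adj, pt, prp]

private lemma step_adj_h31 {x d : V} (hd : d ∈ dirs) (i e : ℤ) :
    Adj (pt (pt x d (i + 1)) (prp d) e) (pt (pt x d i) (prp d) e) := by
  rcases mem_dirs.1 hd with rfl | rfl | rfl | rfl <;> simp [Adj, pt, prp]

private lemma core_sub_h31 {D : Finset V} {x : V} (hx : x ∈ core D) : x ∈ D := by
  rw [core, mem_sdiff] at hx
  exact hx.1

private lemma step_h31 {D : Finset V} {h : V → ℤ} (hh : h ∈ Om D) {u v : V} (hu : u ∈ D) (hv : v ∈ D)
    (ha : Adj u v) : h u = h v + 1 ∨ h u = h v - 1 := by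
  have h2 := (mem_Om.1 hh).1.step u hu v hv ha
  rcases abs_eq (by norm_num : (0 : ℤ) ≤ 1) |>.1 h2 with h3 | h3
  · left; omega
  · right; omega

/-- side neighbours along a run -/
private lemma side_h31 {D : Finset V} {h : V → ℤ} (hh : h ∈ Om D) {x d : V} (hd : d ∈ dirs) (e : ℤ)
    (he : e = 1 ∨ e = -1) (h3 : h (pt x (prp d) e) = h x + 1) {n : ℕ}
    (hP : ∀ i : ℤ, 0 ≤ i → i ≤ n → pt x d i ∈ core D ∧ h (pt x d i) = h x - i) :
    ∀ i : ℕ, i ≤ n → h (pt (pt x d i) (prp d) e) = h x - i + 1 := by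
  intro i
  induction i with
  | zero =>
    intro _
    rw [Nat.cast_zero, pt_zero_h31, h3]
    ring
  | succ i ih =>
    intro hi
    have ih' := ih (by omega)
    obtain ⟨hc1, hh1⟩ := hP i (by positivity) (by exact_mod_cast (by omega : i ≤ n))
    obtain ⟨hc2, hh2⟩ := hP (i + 1) (by positivity) (by exact_mod_cast hi)
    have hs1 : pt (pt x d (i + 1)) (prp d) e ∈ D := nbr_core hc2 (side_adj_h31 hd e he)
    have hs2 : pt (pt x d i) (prp d) e ∈ D := nbr_core hc1 (side_adj_h31 hd e he)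
    have ha := step_h31 hh hs1 (core_sub_h31 hc2) (side_adj_h31 hd e he)
    have hb := step_h31 hh hs1 hs2 (step_adj_h31 hd i e)
    push_cast
    omega

/-- Existence: `x` interior, `h (pt x d 1) = h x - 1`, the three other neighbours one higher.  Let `n` be maximal with: for `0 ≤ i ≤ n`,
`pt x d i ∈ core D` and `h (pt x d i) = h x - i` (bounded: `hB` gives `n ≤ 2 N`, since `pt x d 0, ..., pt x d n ∈ D` are `n + 1` points in a line).
By induction on `i ≤ n` the side neighbours of `pt x d i` have height `h x - i + 1` (they are in `D` by `nbr_core`; adjacent to the side neighbour of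
`pt x d (i-1)` of height `h x - i + 2` and to `pt x d i` of height `h x - i`).  The point `y = pt x d (n + 1)` is in `D`.  If `h y = h x - n + 1`: then
`n ≥ 1` and `Up h x d (n + 1)` with all sites interior.  Otherwise `h y = h x - (n + 1)`; by maximality `y ∈ bdry D`, so `h y = 0`, `h x = n + 1` and
`Blk D h x d (n + 1)`. -/
theorem run_exists {D : Finset V} {N : ℕ} (hB : Bd D N) {h : V → ℤ} (hh : h ∈ Om D) {x d : V} (hx : x ∈ core D)
    (hd : d ∈ dirs) (h1 : h (pt x d 1) = h x - 1) (h2 : h (pt x d (-1)) = h x + 1)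
    (h3 : h (pt x (prp d) 1) = h x + 1) (h4 : h (pt x (prp d) (-1)) = h x + 1) :
    (∃ l ∈ Icc 2 (2 * N + 1), InD D x d l ∧ Up h x d l) ∨ ∃ k ∈ Icc 1 (2 * N + 1), Blk D h x d k := by
  classical
  let P : ℕ → Prop := fun n => ∀ i : ℤ, 0 ≤ i → i ≤ n → pt x d i ∈ core D ∧ h (pt x d i) = h x - i
  have hP0 : P 0 := by
    intro i h0 hi
    have : i = 0 := by
      push_cast at hi
      omega
    subst this
    rw [pt_zero_h31]
    exact ⟨hx, by ring⟩
  have hbd : ∀ n, P n → n ≤ 2 * N := by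
    intro n hn
    obtain ⟨hc, -⟩ := hn n (by positivity) le_rfl
    have h5 := hB _ (core_sub_h31 hc)
    have h6 := hB _ (core_sub_h31 hx)
    rw [abs_le, abs_le] at h5 h6
    obtain ⟨⟨a1, a2⟩, a3, a4⟩ := h5
    obtain ⟨⟨b1, b2⟩, b3, b4⟩ := h6
    rcases mem_dirs.1 hd with rfl | rfl | rfl | rfl <;> simp only [pt] at a1 a2 a3 a4 <;> omega
  have hex : ∃ n, ¬ P n := ⟨2 * N + 1, fun hn => by have := hbd _ hn; omega⟩
  obtain ⟨n, hn1, hn2⟩ : ∃ n, P n ∧ ¬ P (n + 1) := by
    have h5 := Nat.find_spec hex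
    have h6 : Nat.find hex ≠ 0 := fun h0 => by
      rw [h0] at h5
      exact h5 hP0
    obtain ⟨n, hn⟩ := Nat.exists_eq_succ_of_ne_zero h6
    refine ⟨n, ?_, ?_⟩
    · by_contra h7
      exact Nat.find_min hex (by rw [hn]; exact Nat.lt_succ_self n) h7
    · rw [hn] at h5
      exact h5
  have hnN : n ≤ 2 * N := hbd n hn1
  have hs1 := side_h31 hh hd 1 (Or.inl rfl) h3 hn1
  have hs2 := side_h31 hh hd (-1) (Or.inr rfl) h4 hn1
  obtain ⟨hcn, hhn⟩ := hn1 n (by positivity) le_rfl
  have hyD : pt x d (n + 1) ∈ D := nbr_core hcn (adj_h31 hd n)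
  have hins : InD D x d (n + 1) := by
    intro i h0 hi
    push_cast at hi
    exact (hn1 i h0 (by omega)).1
  rcases step_h31 hh hyD (core_sub_h31 hcn) (adj_h31 hd n) with hy | hy
  · -- the run ends with an ascent
    left
    have hn0 : 1 ≤ n := by
      by_contra h0
      have h00 : n = 0 := by omega
      subst h00
      simp only [Nat.cast_zero, zero_add] at hy
      rw [pt_zero_h31] at hy
      omega
    refine ⟨n + 1, mem_Icc.2 ⟨by omega, by omega⟩, hins, ⟨by omega, ?_, ?_, ?_, h2, ?_⟩⟩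
    · intro i h0 hi
      push_cast at hi
      exact (hn1 i h0 (by omega)).2
    · intro i h0 hi
      push_cast at hi
      obtain ⟨j, rfl⟩ := Int.eq_ofNat_of_zero_le h0
      exact hs1 j (by omega)
    · intro i h0 hi
      push_cast at hi
      obtain ⟨j, rfl⟩ := Int.eq_ofNat_of_zero_le h0
      exact hs2 j (by omega)
    · push_cast
      rw [hy, hhn]
      ring
  · right
    have hyc : pt x d (n + 1) ∉ core D := by
      intro hc
      apply hn2
      intro i h0 hi
      push_cast at hi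
      rcases lt_or_eq_of_le hi with h5 | h5
      · exact hn1 i h0 (by omega)
      · subst h5
        refine ⟨hc, ?_⟩
        rw [hy, hhn]
        ring
    have hyb : pt x d (n + 1) ∈ bdry D := by
      by_contra h5
      exact hyc (by rw [core, mem_sdiff]; exact ⟨hyD, h5⟩)
    have hy0 : h (pt x d (n + 1)) = 0 := (mem_Om.1 hh).2 _ hyb
    have hxn : h x = n + 1 := by omega
    refine ⟨n + 1, mem_Icc.2 ⟨by omega, by omega⟩, ⟨hins, ?_, ?_, ?_, ?_, ?_⟩⟩
    · push_cast
      exact hyb
    · intro i h0 hi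
      push_cast at hi ⊢
      rcases lt_or_eq_of_le hi with h5 | h5
      · rw [(hn1 i h0 (by omega)).2, hxn]
      · subst h5
        rw [hy0]
        ring
    · push_cast
      rw [h2, hxn]
    · push_cast
      rw [h3, hxn]
    · push_cast
      rw [h4, hxn]

end MD
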