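import Pool.Agent.Helper35.MD.A2

/-!
MDV piece A2b: the tower count at a site with `Lap = 2`.
-/

open Finset RP4 KP

namespace MD

/-- Uniqueness: two towers in the same direction have the same length (`up_len_unique`), two blocked runs have the same length (`h x = k`),
and a tower in the interior excludes a blocked run: if `l ≤ k` the field `tail` (`h (pt x d l) = h x - l + 2`) contradicts `run`
(`h (pt x d l) = k - l`, `h x = k`); if `k < l` then `pt x d k` is interior by `InD`, contradiction to `bd`. -/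
theorem run_unique {D : Finset V} {h : V → ℤ} {x d : V} {l k : ℕ} (h1 : InD D x d l) (h2 : Up h x d l)
    (h3 : Blk D h x d k) : False := by
  have h0 : pt x d 0 = x := by simp [pt]
  have hk := h3.run 0 le_rfl (by positivity)
  rw [h0] at hk
  rcases le_or_gt l k with hlk | hlk
  · have h5 := h3.run l (by positivity) (by exact_mod_cast hlk)
    have h6 := h2.tail
    omega
  · have h5 := h1 k (by positivity) (by exact_mod_cast hlk)
    have h6 := h3.bd
    unfold core at h5
    exact (Finset.mem_sdiff.1 h5).2 h6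

private lemma ft_pos {p : Prop} (h : p) : ind p = 1 := by
  unfold ind
  rw [if_pos h]

private lemma ft_neg {p : Prop} (h : ¬ p) : ind p = 0 := by
  unfold ind
  rw [if_neg h]

private lemma ft_zero {D : Finset V} {N : ℕ} {h : V → ℤ} {x d : V} (h1 : h (pt x d 1) = h x + 1)
    (h2 : ¬ Up h x d 1) :
    ind (Up h x d 1) + 2 * ∑ l ∈ Icc 2 (2 * N + 1), ind (InD D x d l ∧ Up h x d l) +
      2 * ∑ k ∈ Icc 1 (2 * N + 1), ind (Blk D h x d k) = 0 := by
  have h0 : pt x d 0 = x := by simp [pt]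
  rw [ft_neg h2, Finset.sum_eq_zero, Finset.sum_eq_zero]
  · norm_num
  · intro k hk
    apply ft_neg
    intro hb
    have hk1 := (Finset.mem_Icc.1 hk).1
    have h3 := hb.run 0 le_rfl (by positivity)
    have h4 := hb.run 1 (by norm_num) (by exact_mod_cast hk1)
    rw [h0] at h3
    omega
  · intro l hl
    apply ft_neg
    rintro ⟨_, hu⟩
    have hl1 := (Finset.mem_Icc.1 hl).1
    have h3 := hu.site 1 (by norm_num) (by exact_mod_cast (by omega : 1 < l))
    omega

private lemma ft_one {D : Finset V} {N : ℕ} (hB : Bd D N) {h : V → ℤ} (hh : h ∈ Om D) {x d : V} (hx : x ∈ core D)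
    (hd : d ∈ dirs) (h1 : h (pt x d 1) = h x - 1) (h2 : h (pt x d (-1)) = h x + 1)
    (h3 : h (pt x (prp d) 1) = h x + 1) (h4 : h (pt x (prp d) (-1)) = h x + 1) :
    ind (Up h x d 1) + 2 * ∑ l ∈ Icc 2 (2 * N + 1), ind (InD D x d l ∧ Up h x d l) +
      2 * ∑ k ∈ Icc 1 (2 * N + 1), ind (Blk D h x d k) = 2 := by
  have h0 : pt x d 0 = x := by simp [pt]
  have h5 : ¬ Up h x d 1 := by
    intro hu
    have h6 := hu.tail
    push_cast at h6
    omega
  rw [ft_neg h5]
  rcases run_exists hB hh hx hd h1 h2 h3 h4 with ⟨l, hl, hin, hu⟩ | ⟨k, hk, hb⟩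
  · have e1 : ∑ l ∈ Icc 2 (2 * N + 1), ind (InD D x d l ∧ Up h x d l) = 1 := by
      rw [Finset.sum_eq_single_of_mem l hl]
      · exact ft_pos ⟨hin, hu⟩
      · intro l' _ hne
        apply ft_neg
        rintro ⟨_, hu'⟩
        exact hne (up_len_unique hu' hu)
    have e2 : ∑ k ∈ Icc 1 (2 * N + 1), ind (Blk D h x d k) = 0 := by
      apply Finset.sum_eq_zero
      intro k _
      apply ft_neg
      intro hb
      exact run_unique hin hu hb
    rw [e1, e2]
    norm_num
  · have e1 : ∑ l ∈ Icc 2 (2 * N + 1), ind (InD D x d l ∧ Up h x d l) = 0 := by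
      apply Finset.sum_eq_zero
      intro l _
      apply ft_neg
      rintro ⟨hin, hu⟩
      exact run_unique hin hu hb
    have e2 : ∑ k ∈ Icc 1 (2 * N + 1), ind (Blk D h x d k) = 1 := by
      rw [Finset.sum_eq_single_of_mem k hk]
      · exact ft_pos hb
      · intro k' _ hne
        apply ft_neg
        intro hb'
        have h6 := hb.run 0 le_rfl (by positivity)
        have h7 := hb'.run 0 le_rfl (by positivity)
        exact hne (by omega)
    rw [e1, e2]
    norm_num

/-- `Lap h x = 2`: exactly one neighbour `pt x d₀ 1` is lower.  For `d ≠ d₀` all terms of `Fl` vanish (they need `h (pt x d 1) = h x - 1`, or all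
neighbours higher for `l = 1`), for `d₀` exactly one term is `2` by `run_exists`, `run_unique`, `up_len_unique`. -/
theorem fl_two {D : Finset V} {N : ℕ} (hB : Bd D N) {h : V → ℤ} (hh : h ∈ Om D) {x : V} (hx : x ∈ core D)
    (hl : Lap h x = 2) : Fl D N h x = 2 := by
  have hE := diff_core hh hx (d := (1, 0)) (by simp [dirs])
  have hW := diff_core hh hx (d := (-1, 0)) (by simp [dirs])
  have hN := diff_core hh hx (d := (0, 1)) (by simp [dirs])
  have hS := diff_core hh hx (d := (0, -1)) (by simp [dirs])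
  have pE : pt x (1, 0) 1 = (x.1 + 1, x.2) := by simp [pt]
  have pW : pt x (-1, 0) 1 = (x.1 - 1, x.2) := by simp [pt, sub_eq_add_neg]
  have pN : pt x (0, 1) 1 = (x.1, x.2 + 1) := by simp [pt]
  have pS : pt x (0, -1) 1 = (x.1, x.2 - 1) := by simp [pt, sub_eq_add_neg]
  have mE : pt x (1, 0) (-1) = (x.1 - 1, x.2) := by simp [pt, sub_eq_add_neg]
  have mW : pt x (-1, 0) (-1) = (x.1 + 1, x.2) := by simp [pt]
  have mN : pt x (0, 1) (-1) = (x.1, x.2 - 1) := by simp [pt, sub_eq_add_neg]
  have mS : pt x (0, -1) (-1) = (x.1, x.2 + 1) := by simp [pt]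
  have rE : prp ((1, 0) : V) = (0, 1) := rfl
  have rW : prp ((-1, 0) : V) = (0, -1) := rfl
  have rN : prp ((0, 1) : V) = (1, 0) := rfl
  have rS : prp ((0, -1) : V) = (-1, 0) := rfl
  rw [pE] at hE
  rw [pW] at hW
  rw [pN] at hN
  rw [pS] at hS
  unfold Lap at hl
  have hup : ∀ d ∈ dirs, ¬ Up h x d 1 := by
    intro d hd hu
    have h1 := hu.side1 0 le_rfl (by norm_num)
    have h2 := hu.side2 0 le_rfl (by norm_num)
    have h3 := hu.head
    have h4 := hu.tail
    have h0 : pt x d 0 = x := by simp [pt]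
    rw [h0] at h1 h2
    push_cast at h4
    rcases mem_dirs.1 hd with rfl | rfl | rfl | rfl
    · rw [rE, pN] at h1
      rw [rE, mN] at h2
      rw [mE] at h3
      rw [pE] at h4
      omega
    · rw [rW, pS] at h1
      rw [rW, mS] at h2
      rw [mW] at h3
      rw [pW] at h4
      omega
    · rw [rN, pE] at h1
      rw [rN, mE] at h2
      rw [mN] at h3
      rw [pN] at h4
      omega
    · rw [rS, pW] at h1
      rw [rS, mW] at h2
      rw [mS] at h3
      rw [pS] at h4
      omega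
  have dE : ((1, 0) : V) ∈ dirs := by simp [dirs]
  have dW : ((-1, 0) : V) ∈ dirs := by simp [dirs]
  have dN : ((0, 1) : V) ∈ dirs := by simp [dirs]
  have dS : ((0, -1) : V) ∈ dirs := by simp [dirs]
  have hsum : ∀ F : V → ℝ, ∑ d ∈ dirs, F d = F (1, 0) + (F (-1, 0) + (F (0, 1) + F (0, -1))) := by
    intro F
    unfold dirs
    rw [Finset.sum_insert (by simp), Finset.sum_insert (by simp), Finset.sum_insert (by simp), Finset.sum_singleton]
  unfold Fl
  rw [hsum]
  have cases4 : (h (x.1 + 1, x.2) - h x = -1 ∧ h (x.1 - 1, x.2) - h x = 1 ∧ h (x.1, x.2 + 1) - h x = 1 ∧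
        h (x.1, x.2 - 1) - h x = 1) ∨
      (h (x.1 + 1, x.2) - h x = 1 ∧ h (x.1 - 1, x.2) - h x = -1 ∧ h (x.1, x.2 + 1) - h x = 1 ∧
        h (x.1, x.2 - 1) - h x = 1) ∨
      (h (x.1 + 1, x.2) - h x = 1 ∧ h (x.1 - 1, x.2) - h x = 1 ∧ h (x.1, x.2 + 1) - h x = -1 ∧
        h (x.1, x.2 - 1) - h x = 1) ∨
      (h (x.1 + 1, x.2) - h x = 1 ∧ h (x.1 - 1, x.2) - h x = 1 ∧ h (x.1, x.2 + 1) - h x = 1 ∧
        h (x.1, x.2 - 1) - h x = -1) := by omega
  rcases cases4 with ⟨a1, a2, a3, a4⟩ | ⟨a1, a2, a3, a4⟩ | ⟨a1, a2, a3, a4⟩ | ⟨a1, a2, a3, a4⟩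
  · rw [ft_one hB hh hx dE (by rw [pE]; omega) (by rw [mE]; omega) (by rw [rE, pN]; omega) (by rw [rE, mN]; omega),
      ft_zero (by rw [pW]; omega) (hup _ dW), ft_zero (by rw [pN]; omega) (hup _ dN),
      ft_zero (by rw [pS]; omega) (hup _ dS)]
    norm_num
  · rw [ft_one hB hh hx dW (by rw [pW]; omega) (by rw [mW]; omega) (by rw [rW, pS]; omega) (by rw [rW, mS]; omega),
      ft_zero (by rw [pE]; omega) (hup _ dE), ft_zero (by rw [pN]; omega) (hup _ dN),
      ft_zero (by rw [pS]; omega) (hup _ dS)]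
    norm_num
  · rw [ft_one hB hh hx dN (by rw [pN]; omega) (by rw [mN]; omega) (by rw [rN, pE]; omega) (by rw [rN, mE]; omega),
      ft_zero (by rw [pE]; omega) (hup _ dE), ft_zero (by rw [pW]; omega) (hup _ dW),
      ft_zero (by rw [pS]; omega) (hup _ dS)]
    norm_num
  · rw [ft_one hB hh hx dS (by rw [pS]; omega) (by rw [mS]; omega) (by rw [rS, pW]; omega) (by rw [rS, mW]; omega),
      ft_zero (by rw [pE]; omega) (hup _ dE), ft_zero (by rw [pW]; omega) (hup _ dW),
      ft_zero (by rw [pN]; omega) (hup _ dN)]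
    norm_num

end MD
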