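import Pool.Agent.Helper35.MD.Defs

/-!
MDV piece B1: reversal of a tower.
-/

open Finset RP4 KP

namespace MD

/-- For `d ∈ dirs` and `1 ≤ l`: the reversed segment is in the interior iff the segment is (`seg_rev`, or directly: `pt (pt x d (l-1)) (nd d) i = pt x d (l-1-i)`). -/
theorem inD_rev (D : Finset V) (x d : V) (l : ℕ) : InD D (pt x d ((l : ℤ) - 1)) (nd d) l ↔ InD D x d l := by
  constructor
  · intro h i h0 h1
    have h2 := h ((l : ℤ) - 1 - i) (by omega) (by omega)
    rw [a1a_rev] at h2
    have e : (l : ℤ) - 1 - ((l : ℤ) - 1 - i) = i := by ring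
    rwa [e] at h2
  · intro h i h0 h1
    rw [a1a_rev]
    exact h _ (by omega) (by omega)

private lemma B1_ind_and {p q : Prop} (hp : p) : ind (p ∧ q) = ind q :=
  congrArg ind (propext ⟨fun h => h.2, fun h => ⟨hp, h⟩⟩)

private lemma B1_ind_false {p : Prop} (hp : ¬ p) : ind p = 0 := by
  unfold ind
  rw [if_neg hp]

private lemma B1_down_neg (h : V → ℤ) (x d : V) (l : ℕ) : Down (-h) x d l ↔ Up h x d l := by
  unfold Down
  have e : (fun v => -(-h) v) = h := by
    funext v
    simp
  rw [e]

private lemma B1_up_neg (h : V → ℤ) (x d : V) (l : ℕ) : Up (-h) x d l ↔ Down h x d l := Iff.rfl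

private lemma B1_rz (h : V → ℤ) (x d : V) (l : ℕ) (w : V) :
    ((rz h x d l w : ℤ) : ℝ) = h w + 2 * ind (Seg x d l w) := by
  classical
  unfold rz ind
  split_ifs
  · push_cast
    ring
  · ring

/-- Reversal.  If `¬ InD D x d l` everything is zero (`inD_rev`).  Otherwise use `KP.ibp` (file A of KP) with `F h = h w`:
`∑ ind (Up h x d l) * (h w + 2 [w ∈ segment]) = ∑ ind (Down h (pt x d (l-1)) (nd d) l) * h w`, and by the symmetry `h ↦ -h` (`avg_neg_Om`; `Down h = Up (-h)`)
the right side is `- ∑ ind (Up h (pt x d (l-1)) (nd d) l) * h w`. -/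
theorem tT_rev (D : Finset V) (w x d : V) (l : ℕ) (hd : d ∈ dirs) :
    tT D w x d l + tT D w (pt x d ((l : ℤ) - 1)) (nd d) l = -2 * (ind (Seg x d l w) * PT D x d l) := by
  by_cases hin : InD D x d l
  · have hin' : InD D (pt x d ((l : ℤ) - 1)) (nd d) l := (inD_rev D x d l).2 hin
    have hs : ∀ v, Seg x d l v → v ∈ D ∧ v ∉ bdry D := by
      rintro v ⟨i, h0, h1, rfl⟩
      have h2 := hin i h0 h1
      unfold core at h2
      exact Finset.mem_sdiff.1 h2
    have h1 := ibp D x d l hd hs (fun h => ((h w : ℤ) : ℝ))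
    have e1 : tT D w x d l = avg (Om D) (fun h => ind (Up h x d l) * (h w : ℝ)) := by
      unfold tT
      congr 1
      funext h
      rw [B1_ind_and hin]
    have e2 : PT D x d l = avg (Om D) (fun h => ind (Up h x d l)) := by
      unfold PT
      congr 1
      funext h
      rw [B1_ind_and hin]
    have e3 : tT D w (pt x d ((l : ℤ) - 1)) (nd d) l =
        -avg (Om D) (fun h => ind (Down h (pt x d ((l : ℤ) - 1)) (nd d) l) * (h w : ℝ)) := by
      unfold tT
      rw [← avg_neg_Om]
      unfold avg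
      rw [← neg_div, ← Finset.sum_neg_distrib]
      congr 1
      refine Finset.sum_congr rfl fun h _ => ?_
      beta_reduce
      rw [B1_ind_and hin']
      simp only [B1_up_neg, Pi.neg_apply]
      push_cast
      ring
    have e4 : avg (Om D) (fun h => ind (Down h (pt x d ((l : ℤ) - 1)) (nd d) l) * (h w : ℝ)) =
        avg (Om D) (fun h => ind (Up h x d l) * (h w : ℝ)) +
          2 * (ind (Seg x d l w) * avg (Om D) (fun h => ind (Up h x d l))) := by
      unfold avg
      rw [← h1]
      have e5 : ∑ h ∈ Om D, ind (Up h x d l) * ((rz h x d l w : ℤ) : ℝ) =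
          ∑ h ∈ Om D, ind (Up h x d l) * (h w : ℝ) +
            2 * (ind (Seg x d l w) * ∑ h ∈ Om D, ind (Up h x d l)) := by
        rw [Finset.mul_sum, Finset.mul_sum, ← Finset.sum_add_distrib]
        refine Finset.sum_congr rfl fun h _ => ?_
        rw [B1_rz]
        ring
      rw [e5]
      ring
    rw [e1, e2, e3, e4]
    ring
  · have hin' : ¬ InD D (pt x d ((l : ℤ) - 1)) (nd d) l := fun h => hin ((inD_rev D x d l).1 h)
    have z : ∀ F : (V → ℤ) → ℝ, (∀ h, F h = 0) → avg (Om D) F = 0 := by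
      intro F hF
      unfold avg
      rw [Finset.sum_eq_zero fun h _ => hF h, zero_div]
    have e1 : tT D w x d l = 0 := z _ fun h => by
      rw [B1_ind_false fun h => hin h.1, zero_mul]
    have e2 : tT D w (pt x d ((l : ℤ) - 1)) (nd d) l = 0 := z _ fun h => by
      rw [B1_ind_false fun h => hin' h.1, zero_mul]
    have e3 : PT D x d l = 0 := z _ fun h => B1_ind_false fun h => hin h.1
    rw [e1, e2, e3]
    ring

/-- symmetry `h ↦ -h` -/
theorem Yt_eq (D : Finset V) (w : V) (a p : ℤ) (l : ℕ) : Yt D w a p l = -tT D w (a, p) e2 l := by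
  unfold Yt tT
  rw [← avg_neg_Om]
  unfold avg
  rw [← neg_div, ← Finset.sum_neg_distrib]
  congr 1
  refine Finset.sum_congr rfl fun h _ => ?_
  simp only [B1_down_neg, Pi.neg_apply]
  push_cast
  ring

/-- from `tT_rev`, `Yt_eq` (`pt (a, p) e2 (l-1) = (a, p + l - 1)`) -/
theorem tT_top (D : Finset V) (w : V) (a p : ℤ) (l : ℕ) :
    tT D w (a, p + l - 1) (nd e2) l = Yt D w a p l - 2 * (ind (Seg (a, p) e2 l w) * PT D (a, p) e2 l) := by
  have h1 := tT_rev D w (a, p) e2 l e2_dirs
  have e : pt (a, p) e2 ((l : ℤ) - 1) = (a, p + l - 1) := by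
    unfold pt e2
    ext
    · simp
    · simp only
      ring
  rw [e] at h1
  rw [Yt_eq]
  linarith

/-- the first order terms: `ind (Up h x d 1) = ind (InD D x d 1 ∧ Up h x d 1)` for `x ∈ core D`, `tT_rev` for `l = 1` and
`Seg x d 1 w ↔ w = x`; the sum over `d ∈ dirs` is invariant under `d ↦ nd d`; `PT ≤ 1` -/
theorem first_sum (D : Finset V) (w : V) (B : Finset V) (hB : B ⊆ core D) :
    -4 ≤ ∑ x ∈ B, ∑ d ∈ dirs, avg (Om D) (fun h => ind (Up h x d 1) * (h w : ℝ)) := by
  classical
  have pt0 : ∀ x d : V, pt x d 0 = x := fun x d => by simp [pt]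
  have hPT : ∀ x d : V, PT D x d 1 ≤ 1 := by
    intro x d
    unfold PT avg
    refine div_le_one_of_le₀ ?_ (Nat.cast_nonneg _)
    calc ∑ g ∈ Om D, ind (InD D x d 1 ∧ Up g x d 1) ≤ ∑ _g ∈ Om D, (1 : ℝ) :=
          Finset.sum_le_sum fun g _ => ind_le_one _
      _ = ((Om D).card : ℝ) := by simp
  have hPT0 : ∀ x d : V, 0 ≤ PT D x d 1 := by
    intro x d
    unfold PT avg
    exact div_nonneg (Finset.sum_nonneg fun g _ => ind_nonneg _) (Nat.cast_nonneg _)
  have hseg : ∀ x d : V, ind (Seg x d 1 w) = if x = w then 1 else 0 := by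
    intro x d
    unfold ind
    have e : Seg x d 1 w ↔ x = w := by
      constructor
      · rintro ⟨i, h0, h1, h2⟩
        have h3 : i = 0 := by
          push_cast at h1
          omega
        rw [h2, h3, pt0]
      · intro h
        exact ⟨0, le_rfl, by norm_num, by rw [pt0, h]⟩
    simp only [e]
  have key : ∀ x ∈ B, -4 * (if x = w then (1 : ℝ) else 0) ≤
      ∑ d ∈ dirs, avg (Om D) (fun h => ind (Up h x d 1) * (h w : ℝ)) := by
    intro x hx
    have e1 : ∀ d : V, avg (Om D) (fun h => ind (Up h x d 1) * (h w : ℝ)) = tT D w x d 1 := by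
      intro d
      unfold tT
      congr 1
      funext h
      rw [B1_ind_and]
      intro i h0 h1
      have h3 : i = 0 := by
        push_cast at h1
        omega
      rw [h3, pt0]
      exact hB hx
    simp only [e1]
    have e2 : ∑ d ∈ dirs, tT D w x (nd d) 1 = ∑ d ∈ dirs, tT D w x d 1 := by
      refine Finset.sum_nbij' nd nd ?_ ?_ ?_ ?_ ?_
      · intro d hd
        rcases mem_dirs.1 hd with rfl | rfl | rfl | rfl <;> simp [dirs, nd]
      · intro d hd
        rcases mem_dirs.1 hd with rfl | rfl | rfl | rfl <;> simp [dirs, nd]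
      · intro d _
        simp [nd]
      · intro d _
        simp [nd]
      · intro d _
        rfl
    have e3 : ∑ d ∈ dirs, (tT D w x d 1 + tT D w x (nd d) 1) =
        ∑ d ∈ dirs, -2 * (ind (Seg x d 1 w) * PT D x d 1) := by
      refine Finset.sum_congr rfl fun d hd => ?_
      have h1 := tT_rev D w x d 1 hd
      have e : pt x d (((1 : ℕ) : ℤ) - 1) = x := by
        rw [show (((1 : ℕ) : ℤ) - 1) = 0 from by norm_num, pt0]
      rw [e] at h1
      exact h1
    rw [Finset.sum_add_distrib, e2] at e3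
    have e4 : -(8 * (if x = w then (1 : ℝ) else 0)) ≤
        ∑ d ∈ dirs, -2 * (ind (Seg x d 1 w) * PT D x d 1) := by
      have h4 : ∀ d ∈ dirs, -(2 * (if x = w then (1 : ℝ) else 0)) ≤
          -2 * (ind (Seg x d 1 w) * PT D x d 1) := by
        intro d _
        rw [hseg]
        have h5 := hPT x d
        have h6 := hPT0 x d
        split_ifs
        · linarith
        · linarith
      have h7 := Finset.sum_le_sum h4
      have h8 : ∑ _d ∈ dirs, -(2 * (if x = w then (1 : ℝ) else 0)) =
          -(8 * (if x = w then (1 : ℝ) else 0)) := by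
        rw [Finset.sum_const]
        have h9 : dirs.card = 4 := by decide
        rw [h9]
        simp only [nsmul_eq_mul]
        push_cast
        ring
      linarith
    linarith
  calc (-4 : ℝ) ≤ ∑ x ∈ B, -4 * (if x = w then (1 : ℝ) else 0) := by
        rw [← Finset.mul_sum, Finset.sum_ite_eq']
        split_ifs <;> norm_num
    _ ≤ _ := Finset.sum_le_sum key

end MD
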