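import Pool.Agent.Helper35.MD.B1

/-!
MDV piece B3: the sum of the tower terms over a half of the domain.
-/

open Finset RP4 KP

namespace MD

private lemma B3_tT_zero {D : Finset V} {w x d : V} {l : ℕ} (h : ¬ InD D x d l) : tT D w x d l = 0 := by
  unfold tT avg
  rw [Finset.sum_eq_zero, zero_div]
  intro g _
  unfold ind
  rw [if_neg fun hh => h hh.1, zero_mul]

private lemma B3_pt_inj {d : V} {i : ℤ} {z z' : V} (h : pt z d i = pt z' d i) : z = z' := by
  unfold pt at h
  have h1 := congrArg Prod.fst h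
  have h2 := congrArg Prod.snd h
  simp only at h1 h2
  exact Prod.ext (by omega) (by omega)

private lemma B3_pt_pt (x d : V) (i : ℤ) : pt (pt x (nd d) i) d i = x := by
  unfold pt nd
  ext
  · simp only
    ring
  · simp only
    ring

/-- Reindexing of the reversed towers: `tT D w x (nd d) l ≠ 0` needs `InD D x (nd d) l`, then `z = pt x (nd d) (l - 1) ∈ core D` and `x = pt z d (l - 1)`. -/
theorem rev_sum (D : Finset V) (w : V) (B : Finset V) (hB : B ⊆ core D) (d : V) (hd : d ∈ dirs) (l : ℕ) (hl : 1 ≤ l) :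
    ∑ x ∈ B, tT D w x (nd d) l =
      ∑ z ∈ (core D).filter (fun z => pt z d ((l : ℤ) - 1) ∈ B), tT D w (pt z d ((l : ℤ) - 1)) (nd d) l := by
  symm
  refine Finset.sum_of_injOn (fun z => pt z d ((l : ℤ) - 1)) (fun z _ z' _ h => B3_pt_inj h) ?_ ?_ (fun _ _ => rfl)
  · intro z hz
    exact (Finset.mem_filter.1 (Finset.mem_coe.1 hz)).2
  · intro x hx hni
    refine B3_tT_zero fun hin => hni ?_
    refine ⟨pt x (nd d) ((l : ℤ) - 1), Finset.mem_coe.2 (Finset.mem_filter.2 ⟨hin _ (by omega) (by omega), ?_⟩),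
      B3_pt_pt x d _⟩
    rw [B3_pt_pt]
    exact hx

/-- Horizontal towers.  `B = {x ∈ core D | y ≤ x.2}`, `rev_sum` with `d = e1`: `pt z e1 (l - 1)` is in the same row; if it is in `B` then `z ∈ B` (`z ∈ core D`);
if `z ∈ B` and `pt z e1 (l-1) ∉ B` then `¬ InD` and the term is zero.  So the sum is `∑_{z ∈ B} (tT z e1 l + tT (pt z e1 (l-1)) (nd e1) l)`, use `tT_rev`. -/
theorem hor_sum (D : Finset V) (w : V) (y : ℤ) (l : ℕ) (hl : 1 ≤ l) :
    ∑ x ∈ (core D).filter (fun x => y ≤ x.2), (tT D w x e1 l + tT D w x (nd e1) l) =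
      -2 * ∑ z ∈ (core D).filter (fun z => y ≤ z.2), ind (Seg z e1 l w) * PT D z e1 l := by
  have h1 := rev_sum D w ((core D).filter (fun x => y ≤ x.2)) (Finset.filter_subset _ _) e1 e1_dirs l hl
  have hrow : ∀ z : V, ∀ i : ℤ, (pt z e1 i).2 = z.2 := by
    intro z i
    unfold pt e1
    simp
  have h2 : ∑ z ∈ (core D).filter (fun z => pt z e1 ((l : ℤ) - 1) ∈ (core D).filter (fun x => y ≤ x.2)),
      tT D w (pt z e1 ((l : ℤ) - 1)) (nd e1) l =
      ∑ z ∈ (core D).filter (fun x => y ≤ x.2), tT D w (pt z e1 ((l : ℤ) - 1)) (nd e1) l := by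
    refine Finset.sum_subset ?_ ?_
    · intro z hz
      rw [Finset.mem_filter] at hz ⊢
      refine ⟨hz.1, ?_⟩
      have := (Finset.mem_filter.1 hz.2).2
      rwa [hrow] at this
    · intro z hz hn
      refine B3_tT_zero fun hin => hn ?_
      rw [Finset.mem_filter] at hz ⊢
      refine ⟨hz.1, Finset.mem_filter.2 ⟨?_, ?_⟩⟩
      · have h3 := hin 0 le_rfl (by omega)
        have e : pt (pt z e1 ((l : ℤ) - 1)) (nd e1) 0 = pt z e1 ((l : ℤ) - 1) := by
          unfold pt nd
          ext <;> simp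
        rwa [e] at h3
      · rw [hrow]
        exact hz.2
  rw [Finset.sum_add_distrib, h1, h2, ← Finset.sum_add_distrib, Finset.mul_sum]
  exact Finset.sum_congr rfl fun z _ => tT_rev D w z e1 l e1_dirs

end MD
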