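import Pool.Agent.Helper35.MD.B3

/-!
MDV piece B3b: the vertical towers.
-/

open Finset RP4 KP

namespace MD

private lemma B3b_tT_zero {D : Finset V} {w x d : V} {l : ℕ} (h : ¬ InD D x d l) : tT D w x d l = 0 := by
  unfold tT avg
  rw [Finset.sum_eq_zero, zero_div]
  intro g _
  unfold ind
  rw [if_neg fun hh => h hh.1, zero_mul]

private lemma B3b_row (z : V) (i : ℤ) : (pt z e2 i).2 = z.2 + i := by
  unfold pt e2
  simp

private lemma B3b_zero {D : Finset V} {w z : V} {l : ℕ} (hl : 1 ≤ l)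
    (h : ¬ (z ∈ core D ∧ pt z e2 ((l : ℤ) - 1) ∈ core D)) :
    tT D w (pt z e2 ((l : ℤ) - 1)) (nd e2) l = 0 := by
  refine B3b_tT_zero fun hin => h ?_
  rw [inD_rev] at hin
  refine ⟨?_, hin _ (by omega) (by omega)⟩
  have h0 := hin 0 le_rfl (by omega)
  have e : pt z e2 0 = z := by
    unfold pt
    ext <;> simp
  rwa [e] at h0

/-- Vertical towers.  As `hor_sum` with `d = e2`, but now the segments with lower end `z = (a, p)`, `p < y ≤ p + l - 1`, have their upper end in `B` and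
their lower end outside `B`: for those only `tT D w (a, p + l - 1) (nd e2) l` occurs; insert `tT_top`.  (`z ∈ core D` and `Bd D N` give `|a| ≤ N`; for
`(a, p) ∉ core D` both `Yt` and `PT` vanish, so the sums over all `a ∈ Icc (-N) N`, `p ∈ Ico (y - l + 1) y` are sums over the `z ∈ core D` of this kind.) -/
theorem ver_sum {D : Finset V} {N : ℕ} (hN : Bd D N) (w : V) (y : ℤ) (l : ℕ) (hl : 1 ≤ l) :
    ∑ x ∈ (core D).filter (fun x => y ≤ x.2), (tT D w x e2 l + tT D w x (nd e2) l) =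
      -2 * ∑ z ∈ (core D).filter (fun z => y ≤ z.2), ind (Seg z e2 l w) * PT D z e2 l +
      ∑ a ∈ Icc (-(N : ℤ)) N, ∑ p ∈ Ico (y - l + 1) y,
        (Yt D w a p l - 2 * (ind (Seg (a, p) e2 l w) * PT D (a, p) e2 l)) := by
  classical
  set B : Finset V := (core D).filter (fun x => y ≤ x.2) with hB
  set T : V → ℝ := fun z => tT D w (pt z e2 ((l : ℤ) - 1)) (nd e2) l with hT
  have h1 : ∑ x ∈ B, tT D w x (nd e2) l =
      ∑ z ∈ (core D).filter (fun z => pt z e2 ((l : ℤ) - 1) ∈ B), T z :=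
    rev_sum D w B (Finset.filter_subset _ _) e2 e2_dirs l hl
  have hmem : ∀ z, z ∈ B ↔ z ∈ core D ∧ y ≤ z.2 := fun z => by rw [hB, Finset.mem_filter]
  have h2 : ∑ z ∈ (core D).filter (fun z => pt z e2 ((l : ℤ) - 1) ∈ B), T z =
      ∑ z ∈ ((core D).filter (fun z => pt z e2 ((l : ℤ) - 1) ∈ B)).filter (fun z => y ≤ z.2), T z +
      ∑ z ∈ ((core D).filter (fun z => pt z e2 ((l : ℤ) - 1) ∈ B)).filter (fun z => ¬ y ≤ z.2), T z :=
    (Finset.sum_filter_add_sum_filter_not _ _ _).symm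
  have h3 : ∑ z ∈ ((core D).filter (fun z => pt z e2 ((l : ℤ) - 1) ∈ B)).filter (fun z => y ≤ z.2), T z =
      ∑ z ∈ B, T z := by
    refine Finset.sum_subset ?_ ?_
    · intro z hz
      rw [Finset.mem_filter, Finset.mem_filter] at hz
      exact (hmem z).2 ⟨hz.1.1, hz.2⟩
    · intro z hz hn
      refine B3b_zero hl fun hh => hn ?_
      rw [Finset.mem_filter, Finset.mem_filter]
      have hz' := (hmem z).1 hz
      refine ⟨⟨hh.1, (hmem _).2 ⟨hh.2, ?_⟩⟩, hz'.2⟩
      rw [B3b_row]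
      have := hz'.2
      omega
  have h4 : ∑ z ∈ ((core D).filter (fun z => pt z e2 ((l : ℤ) - 1) ∈ B)).filter (fun z => ¬ y ≤ z.2), T z =
      ∑ z ∈ Icc (-(N : ℤ)) N ×ˢ Ico (y - l + 1) y, T z := by
    refine Finset.sum_subset ?_ ?_
    · intro z hz
      rw [Finset.mem_filter, Finset.mem_filter] at hz
      obtain ⟨⟨hz1, hz2⟩, hz3⟩ := hz
      have hz4 := ((hmem _).1 hz2).2
      rw [B3b_row] at hz4
      have hz5 : z ∈ D := (Finset.mem_sdiff.1 hz1).1
      have hz6 := (hN z hz5).1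
      rw [abs_le] at hz6
      rw [Finset.mem_product, Finset.mem_Icc, Finset.mem_Ico]
      exact ⟨hz6, by omega, by omega⟩
    · intro z hz hn
      refine B3b_zero hl fun hh => hn ?_
      rw [Finset.mem_product, Finset.mem_Icc, Finset.mem_Ico] at hz
      rw [Finset.mem_filter, Finset.mem_filter]
      refine ⟨⟨hh.1, (hmem _).2 ⟨hh.2, ?_⟩⟩, by omega⟩
      rw [B3b_row]
      omega
  have h5 : ∑ z ∈ Icc (-(N : ℤ)) N ×ˢ Ico (y - l + 1) y, T z =
      ∑ a ∈ Icc (-(N : ℤ)) N, ∑ p ∈ Ico (y - l + 1) y,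
        (Yt D w a p l - 2 * (ind (Seg (a, p) e2 l w) * PT D (a, p) e2 l)) := by
    rw [Finset.sum_product]
    refine Finset.sum_congr rfl fun a _ => Finset.sum_congr rfl fun p _ => ?_
    have e : pt (a, p) e2 ((l : ℤ) - 1) = (a, p + l - 1) := by
      unfold pt e2
      ext
      · simp
      · simp only
        ring
    rw [hT]
    beta_reduce
    rw [e]
    exact tT_top D w a p l
  have h6 : ∑ z ∈ B, (tT D w z e2 l + T z) =
      -2 * ∑ z ∈ B, ind (Seg z e2 l w) * PT D z e2 l := by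
    rw [Finset.mul_sum]
    exact Finset.sum_congr rfl fun z _ => tT_rev D w z e2 l e2_dirs
  rw [Finset.sum_add_distrib, h1, h2, h3, h4, h5, ← h6, Finset.sum_add_distrib]
  ring

end MD
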