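import Mathlib

/-!
MDV piece C1: positive combinations of characters.  Signs are indexed by a type `ι`; a sign configuration is given by the
finite set `s` of the indices with sign `-1`.
-/

open Finset

namespace MD

variable {ι : Type*} [DecidableEq ι]

/-- the sign of `i` in the configuration `s` -/
def sgn (s : Finset ι) (i : ι) : ℤ := if i ∈ s then -1 else 1

lemma sgn_sq (s : Finset ι) (i : ι) : sgn s i * sgn s i = 1 := by
  unfold sgn
  split_ifs <;> norm_num

lemma sgn_cases (s : Finset ι) (i : ι) : sgn s i = 1 ∨ sgn s i = -1 := by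
  unfold sgn
  split_ifs <;> simp

/-- characters -/
def chi (I s : Finset ι) : ℝ := ∏ i ∈ I, (sgn s i : ℝ)

/-- positive combinations of characters -/
inductive Pos : (Finset ι → ℝ) → Prop
  | chi (I : Finset ι) : Pos (chi I)
  | add {F G : Finset ι → ℝ} : Pos F → Pos G → Pos (fun s => F s + G s)
  | smul {F : Finset ι → ℝ} {c : ℝ} : 0 ≤ c → Pos F → Pos (fun s => c * F s)

/-- `∏_{I} ∏_{J} = ∏_{I Δ J}` since the signs have square one: split `I = (I \ J) ∪ (I ∩ J)` and `J` in the same way
(`Finset.prod_union`, `Finset.sdiff_union_inter`), `symmDiff I J = (I \ J) ∪ (J \ I)`. -/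
theorem chi_mul (I J s : Finset ι) : chi I s * chi J s = chi (symmDiff I J) s := by
  unfold chi
  rw [symmDiff_def, Finset.sup_eq_union, Finset.prod_union (disjoint_sdiff_sdiff),
    ← Finset.prod_inter_mul_prod_sdiff I J, ← Finset.prod_inter_mul_prod_sdiff J I, Finset.inter_comm J I]
  have h : (∏ i ∈ I ∩ J, (sgn s i : ℝ)) * (∏ i ∈ I ∩ J, (sgn s i : ℝ)) = 1 := by
    rw [← Finset.prod_mul_distrib]
    refine Finset.prod_eq_one fun i _ => ?_
    exact_mod_cast sgn_sq s i
  linear_combination (∏ i ∈ I \ J, (sgn s i : ℝ)) * (∏ i ∈ J \ I, (sgn s i : ℝ)) * h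

/-- Induction on `Pos F` and for each case on `Pos G`: `chi_mul`, distributivity (use `funext`/`convert`). -/
theorem Pos.mul {F G : Finset ι → ℝ} (hF : Pos F) (hG : Pos G) : Pos (fun s => F s * G s) := by
  induction hF with
  | chi I =>
    induction hG with
    | chi J =>
      have e : (fun s => MD.chi I s * MD.chi J s) = MD.chi (symmDiff I J) := by
        funext s
        exact chi_mul I J s
      rw [e]
      exact Pos.chi _
    | add _ _ ih1 ih2 =>
      have h := Pos.add ih1 ih2
      refine (funext fun s => ?_ : (fun s => _) = (fun s => _)) ▸ h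
      ring
    | smul hc _ ih =>
      have h := Pos.smul hc ih
      refine (funext fun s => ?_ : (fun s => _) = (fun s => _)) ▸ h
      ring
  | add _ _ ih1 ih2 =>
    have h := Pos.add ih1 ih2
    refine (funext fun s => ?_ : (fun s => _) = (fun s => _)) ▸ h
    ring
  | smul hc _ ih =>
    have h := Pos.smul hc ih
    refine (funext fun s => ?_ : (fun s => _) = (fun s => _)) ▸ h
    ring

/-- Sums over all sign configurations on a finite set of indices are nonnegative.  Induction on `Pos F`: only characters matter.
`∑ s ∈ J.powerset, chi I s` is `2 ^ #J` if `I ∩ J = ∅`, otherwise `0`: either `Finset.prod_add`-like expansion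
(`∑_{s ⊆ J} ∏_{i ∈ I} = ∏_{i ∈ J} (1 + (if i ∈ I then -1 else 1))`, see `Finset.prod_one_add` / `Finset.prod_add`), or the
involution `s ↦ symmDiff s {i}` for `i ∈ I ∩ J`.  (Signs of indices outside `J` are `+1`, as `s ⊆ J`.) -/
theorem Pos.sum_nonneg {F : Finset ι → ℝ} (hF : Pos F) (J : Finset ι) : 0 ≤ ∑ s ∈ J.powerset, F s := by
  induction hF with
  | chi I =>
    by_cases hd : ∃ i, i ∈ I ∧ i ∈ J
    · obtain ⟨i, hiI, hiJ⟩ := hd
      refine le_of_eq (Eq.symm ?_)
      have hs : ∀ s : Finset ι, MD.chi I (symmDiff s {i}) = - MD.chi I s := by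
        intro s
        unfold MD.chi
        rw [← Finset.mul_prod_erase I _ hiI, ← Finset.mul_prod_erase I _ hiI]
        have h1 : (sgn (symmDiff s {i}) i : ℝ) = - (sgn s i : ℝ) := by
          unfold sgn
          by_cases hi : i ∈ s
          · have : i ∉ symmDiff s {i} := by
              rw [Finset.mem_symmDiff]
              simp [hi]
            simp [hi, this]
          · have : i ∈ symmDiff s {i} := by
              rw [Finset.mem_symmDiff]
              simp [hi]
            simp [hi, this]
        have h2 : ∏ j ∈ I.erase i, (sgn (symmDiff s {i}) j : ℝ) = ∏ j ∈ I.erase i, (sgn s j : ℝ) := by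
          refine Finset.prod_congr rfl fun j hj => ?_
          have hne : j ≠ i := Finset.ne_of_mem_erase hj
          unfold sgn
          by_cases hj' : j ∈ s
          · have : j ∈ symmDiff s {i} := by
              rw [Finset.mem_symmDiff]
              simp [hj', hne]
            simp [hj', this]
          · have : j ∉ symmDiff s {i} := by
              rw [Finset.mem_symmDiff]
              simp [hj', hne]
            simp [hj', this]
        rw [h1, h2]
        ring
      have h3 : ∑ s ∈ J.powerset, MD.chi I s = ∑ s ∈ J.powerset, - MD.chi I s := by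
        refine Finset.sum_bij' (fun s _ => symmDiff s {i}) (fun s _ => symmDiff s {i}) ?_ ?_ ?_ ?_ ?_
        · intro s hsJ
          rw [Finset.mem_powerset] at hsJ ⊢
          intro j hj
          rw [Finset.mem_symmDiff] at hj
          rcases hj with ⟨h, _⟩ | ⟨h, _⟩
          · exact hsJ h
          · rw [Finset.mem_singleton] at h
            rw [h]
            exact hiJ
        · intro s hsJ
          rw [Finset.mem_powerset] at hsJ ⊢
          intro j hj
          rw [Finset.mem_symmDiff] at hj
          rcases hj with ⟨h, _⟩ | ⟨h, _⟩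
          · exact hsJ h
          · rw [Finset.mem_singleton] at h
            rw [h]
            exact hiJ
        · intro s _
          exact symmDiff_symmDiff_cancel_right _ _
        · intro s _
          exact symmDiff_symmDiff_cancel_right _ _
        · intro s _
          rw [hs, neg_neg]
      rw [Finset.sum_neg_distrib] at h3
      linarith
    · refine Finset.sum_nonneg fun s hsJ => ?_
      rw [Finset.mem_powerset] at hsJ
      have : MD.chi I s = 1 := by
        unfold MD.chi
        refine Finset.prod_eq_one fun i hi => ?_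
        have hi' : i ∉ s := fun h => hd ⟨i, hi, hsJ h⟩
        simp [sgn, hi']
      rw [this]
      norm_num
  | add _ _ ih1 ih2 =>
    rw [Finset.sum_add_distrib]
    exact add_nonneg ih1 ih2
  | smul hc _ ih =>
    rw [← Finset.mul_sum]
    exact mul_nonneg hc ih

/-- nonnegative constants: `c * chi ∅` -/
theorem Pos.const {c : ℝ} (hc : 0 ≤ c) : Pos (fun _ : Finset ι => c) := by
  have h := Pos.smul hc (Pos.chi (∅ : Finset ι))
  have e : (fun s : Finset ι => c * MD.chi ∅ s) = (fun _ => c) := by
    funext s
    simp [MD.chi]
  rw [e] at h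
  exact h

/-- a single sign: `chi {i}` -/
theorem Pos.one_sgn (i : ι) : Pos (fun s : Finset ι => (sgn s i : ℝ)) := by
  have h := Pos.chi ({i} : Finset ι)
  have e : MD.chi ({i} : Finset ι) = (fun s => (sgn s i : ℝ)) := by
    funext s
    simp [MD.chi]
  rw [e] at h
  exact h

/-- finite products -/
theorem Pos.prod {α : Type*} (A : Finset α) (F : α → Finset ι → ℝ) (h : ∀ a ∈ A, Pos (F a)) :
    Pos (fun s => ∏ a ∈ A, F a s) := by
  classical
  induction A using Finset.induction_on with
  | empty =>
    simp only [Finset.prod_empty]
    exact Pos.const (by norm_num)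
  | insert a B ha ih =>
    simp only [Finset.prod_insert ha]
    exact Pos.mul (h a (Finset.mem_insert_self _ _)) (ih fun b hb => h b (Finset.mem_insert_of_mem hb))

end MD
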