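import Pool.Agent.Helper35.MD.C1
import Pool.Agent.Helper58.KP.Defs

/-!
MDV piece C2: indicators in the class `Pos`.
-/

open Finset RP4 KP

namespace MD

variable {ι : Type*} [DecidableEq ι]

private lemma ind_prod_c2 {α : Type*} (A : Finset α) (p : α → Prop) :
    ind (∀ a ∈ A, p a) = ∏ a ∈ A, ind (p a) := by
  classical
  induction A using Finset.induction_on with
  | empty => simp [ind]
  | @insert a A ha ih =>
    rw [Finset.prod_insert ha, ← ih]
    unfold ind
    by_cases h1 : p a <;> by_cases h2 : ∀ b ∈ A, p b <;> simp [h1, h2]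

private lemma ind_one_c2 (s : Finset ι) (i : ι) : ind (sgn s i = 1) = 1 / 2 * (1 + (sgn s i : ℝ)) := by
  unfold ind
  rcases sgn_cases s i with h | h <;> rw [h] <;> norm_num

private lemma ind_neg_c2 (s : Finset ι) (i : ι) : ind (sgn s i = -1) = 1 / 2 * (1 - (sgn s i : ℝ)) := by
  unfold ind
  rcases sgn_cases s i with h | h <;> rw [h] <;> norm_num

private lemma ind_eq_c2 (s : Finset ι) (i j : ι) :
    ind (sgn s i = sgn s j) = 1 / 2 * (1 + (sgn s i : ℝ) * (sgn s j : ℝ)) := by
  unfold ind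
  rcases sgn_cases s i with h | h <;> rcases sgn_cases s j with h' | h' <;> rw [h, h'] <;> norm_num

/-- The indicator of a finite set of equations between signs is the product over the pairs of `(1 + sgn i * sgn j) / 2`. -/
theorem Pos.eqs (E : Finset (ι × ι)) : Pos (fun s : Finset ι => ind (∀ e ∈ E, sgn s e.1 = sgn s e.2)) := by
  have h : (fun s : Finset ι => ind (∀ e ∈ E, sgn s e.1 = sgn s e.2)) =
      fun s => ∏ e ∈ E, (1 / 2 * (1 + (sgn s e.1 : ℝ) * (sgn s e.2 : ℝ))) := by
    funext s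
    rw [ind_prod_c2]
    exact Finset.prod_congr rfl (fun e _ => ind_eq_c2 s e.1 e.2)
  rw [h]
  refine Pos.prod E (fun e s => 1 / 2 * (1 + (sgn s e.1 : ℝ) * (sgn s e.2 : ℝ))) (fun e _ => ?_)
  exact Pos.smul (by norm_num) (Pos.add (Pos.const (by norm_num)) (Pos.mul (Pos.one_sgn e.1) (Pos.one_sgn e.2)))

/-- The indicator that all signs of `I` are `+1` is the product of `(1 + sgn i) / 2`. -/
theorem Pos.all_one (I : Finset ι) : Pos (fun s : Finset ι => ind (∀ i ∈ I, sgn s i = 1)) := by
  have h : (fun s : Finset ι => ind (∀ i ∈ I, sgn s i = 1)) =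
      fun s => ∏ i ∈ I, (1 / 2 * (1 + (sgn s i : ℝ))) := by
    funext s
    rw [ind_prod_c2]
    exact Finset.prod_congr rfl (fun e _ => ind_one_c2 s e)
  rw [h]
  refine Pos.prod I (fun i s => 1 / 2 * (1 + (sgn s i : ℝ))) (fun i _ => ?_)
  exact Pos.smul (by norm_num) (Pos.add (Pos.const (by norm_num)) (Pos.one_sgn i))

private lemma both_c2 (I : Finset ι) :
    Pos (fun s : Finset ι => ind (∀ i ∈ I, sgn s i = 1) + ind (∀ i ∈ I, sgn s i = -1)) ∧
    Pos (fun s : Finset ι => ind (∀ i ∈ I, sgn s i = 1) - ind (∀ i ∈ I, sgn s i = -1)) := by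
  induction I using Finset.induction_on with
  | empty =>
    constructor
    · have h : (fun s : Finset ι => ind (∀ i ∈ (∅ : Finset ι), sgn s i = 1) +
          ind (∀ i ∈ (∅ : Finset ι), sgn s i = -1)) = fun _ => (2 : ℝ) := by
        funext s
        simp [ind]
        norm_num
      rw [h]
      exact Pos.const (by norm_num)
    · have h : (fun s : Finset ι => ind (∀ i ∈ (∅ : Finset ι), sgn s i = 1) -
          ind (∀ i ∈ (∅ : Finset ι), sgn s i = -1)) = fun _ => (0 : ℝ) := by
        funext s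
        simp [ind]
      rw [h]
      exact Pos.const le_rfl
  | @insert j I hj ih =>
    obtain ⟨ih1, ih2⟩ := ih
    have e1 : ∀ s : Finset ι, ind (∀ i ∈ insert j I, sgn s i = 1) =
        1 / 2 * (1 + (sgn s j : ℝ)) * ind (∀ i ∈ I, sgn s i = 1) := by
      intro s
      rw [ind_prod_c2, Finset.prod_insert hj, ← ind_prod_c2, ind_one_c2]
    have e2 : ∀ s : Finset ι, ind (∀ i ∈ insert j I, sgn s i = -1) =
        1 / 2 * (1 - (sgn s j : ℝ)) * ind (∀ i ∈ I, sgn s i = -1) := by
      intro s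
      rw [ind_prod_c2, Finset.prod_insert hj, ← ind_prod_c2, ind_neg_c2]
    constructor
    · have h : (fun s : Finset ι => ind (∀ i ∈ insert j I, sgn s i = 1) +
          ind (∀ i ∈ insert j I, sgn s i = -1)) =
          fun s => 1 / 2 * (ind (∀ i ∈ I, sgn s i = 1) + ind (∀ i ∈ I, sgn s i = -1)) +
            1 / 2 * ((sgn s j : ℝ) * (ind (∀ i ∈ I, sgn s i = 1) - ind (∀ i ∈ I, sgn s i = -1))) := by
        funext s
        rw [e1, e2]
        ring
      rw [h]
      exact Pos.add (Pos.smul (by norm_num) ih1) (Pos.smul (by norm_num) (Pos.mul (Pos.one_sgn j) ih2))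
    · have h : (fun s : Finset ι => ind (∀ i ∈ insert j I, sgn s i = 1) -
          ind (∀ i ∈ insert j I, sgn s i = -1)) =
          fun s => 1 / 2 * (ind (∀ i ∈ I, sgn s i = 1) - ind (∀ i ∈ I, sgn s i = -1)) +
            1 / 2 * ((sgn s j : ℝ) * (ind (∀ i ∈ I, sgn s i = 1) + ind (∀ i ∈ I, sgn s i = -1))) := by
        funext s
        rw [e1, e2]
        ring
      rw [h]
      exact Pos.add (Pos.smul (by norm_num) ih2) (Pos.smul (by norm_num) (Pos.mul (Pos.one_sgn j) ih1))

/-- `∏ (1 + sgn i) + ∏ (1 - sgn i) = 2 ∑_{T ⊆ I, #T even} chi T`: expand with `Finset.prod_one_add`-like lemmas; or induction on `I`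
for this and the next statement together: with `a = ∏_{I}(1 + sgn)`, `b = ∏_{I}(1 - sgn)` and a new index `j` of sign `t`:
`a (1 + t) + b (1 - t) = (a + b) + t (a - b)` and `a (1 + t) - b (1 - t) = (a - b) + t (a + b)`. -/
theorem Pos.even_part (I : Finset ι) :
    Pos (fun s : Finset ι => ind (∀ i ∈ I, sgn s i = 1) + ind (∀ i ∈ I, sgn s i = -1)) :=
  (both_c2 I).1

/-- see `Pos.even_part` (for `I = ∅` the function is `0`) -/
theorem Pos.odd_part (I : Finset ι) :
    Pos (fun s : Finset ι => ind (∀ i ∈ I, sgn s i = 1) - ind (∀ i ∈ I, sgn s i = -1)) :=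
  (both_c2 I).2

end MD
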