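import Pool.Agent.Helper35.MD.Defs
import Pool.Agent.Helper35.MD.C2

/-!
MDV piece D1: height functions from their sums and differences with the reflection.
-/

open Finset RP4 KP

namespace MD

/-- the function with `|pp| = P`, `|qq| = Q` and the signs given by `s`: sign of `pp` at `v` is `sgn s (v, false)`, sign of `qq` at `v`
is `sgn s (v, true)`, for the points `v` in the rows `≥ c` -/
def bld (c : ℤ) (P Q : V → ℤ) (s : Finset (V × Bool)) (v : V) : ℤ :=
  if c ≤ v.2 then (sgn s (v, false) * P v + sgn s (v, true) * Q v) / 2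
  else (sgn s (th c v, false) * P (th c v) - sgn s (th c v, true) * Q (th c v)) / 2

private lemma D1_th_row {c : ℤ} {v : V} (hv : v.2 = c) : th c v = v := by
  unfold th
  refine Prod.ext rfl ?_
  simp only
  omega

private lemma D1_th_snd (c : ℤ) (v : V) : (th c v).2 = 2 * c - v.2 := rfl

private lemma D1_bld_up {c : ℤ} (P Q : V → ℤ) (s : Finset (V × Bool)) {v : V} (hv : c ≤ v.2) :
    bld c P Q s v = (sgn s (v, false) * P v + sgn s (v, true) * Q v) / 2 := by
  unfold bld
  rw [if_pos hv]

private lemma D1_bld_th {c : ℤ} (P Q : V → ℤ) (s : Finset (V × Bool)) {v : V} (hv : c < v.2) :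
    bld c P Q s (th c v) = (sgn s (v, false) * P v - sgn s (v, true) * Q v) / 2 := by
  unfold bld
  have h1 : ¬ c ≤ (th c v).2 := by
    rw [D1_th_snd]
    omega
  rw [if_neg h1, th_th]

private lemma D1_nonneg {a b : ℤ} (h : |a - b| = 1) : 0 ≤ a * b := by
  by_contra hn
  have h0 : a * b < 0 := not_le.1 hn
  rcases mul_neg_iff.1 h0 with ⟨h1, h2⟩ | ⟨h1, h2⟩ <;>
    rcases abs_cases (a - b) with ⟨h3, h4⟩ | ⟨h3, h4⟩ <;> omega

private lemma D1_nonneg_even {a b : ℤ} (ha : Even a) (hb : Even b) (h : |a - b| ≤ 2) : 0 ≤ a * b := by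
  by_contra hn
  have h0 : a * b < 0 := not_le.1 hn
  rw [Int.even_iff] at ha hb
  rcases mul_neg_iff.1 h0 with ⟨h1, h2⟩ | ⟨h1, h2⟩ <;>
    rcases abs_cases (a - b) with ⟨h3, h4⟩ | ⟨h3, h4⟩ <;> omega

private lemma D1_adj_th {c : ℤ} {u v : V} (h : Adj u v) : Adj (th c u) (th c v) := by
  unfold Adj at h ⊢
  unfold th
  simp only
  have h1 : 2 * c - u.2 - (2 * c - v.2) = -(u.2 - v.2) := by ring
  rw [h1, abs_neg]
  exact h

private lemma D1_par_th {D : Finset V} {c : ℤ} {h : V → ℤ} (hh : h ∈ Om D) {v : V} (hv : v ∈ D)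
    (hv' : th c v ∈ D) : Even (pp c h v) ∧ Even (qq c h v) := by
  have h1 := (mem_Om.1 hh).1.par v hv
  have h2 := (mem_Om.1 hh).1.par _ hv'
  unfold par at h1 h2
  rw [D1_th_snd] at h2
  have h3 : (th c v).1 = v.1 := rfl
  rw [h3] at h2
  unfold pp qq
  rw [Int.even_iff] at h1 h2
  rw [Int.even_iff, Int.even_iff]
  omega

/-- `c ≤ v.2`.  If `v.2 = c` then `th c v = v`, `Q v = 0` and `pp = 2 (sgn P / 2) = sgn P` (`P v` even).  If `c < v.2` then
`th c v` is in the lower case, `th c (th c v) = v`; the sum of the two halves is `sgn P` (both numerators are even: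
`sgn s i * P v ± sgn s j * Q v` is even as `P v + Q v` is even; `omega` after splitting the signs). -/
theorem pp_bld {c : ℤ} {P Q : V → ℤ} (hPQ : ∀ v, Even (P v + Q v)) (hQ : ∀ v : V, v.2 = c → Q v = 0)
    (s : Finset (V × Bool)) {v : V} (hv : c ≤ v.2) : pp c (bld c P Q s) v = sgn s (v, false) * P v := by
  rcases hv.eq_or_lt with h1 | h1
  · have h2 := D1_th_row h1.symm
    have h3 := hQ v h1.symm
    have h4 := hPQ v
    unfold pp
    rw [h2, D1_bld_up P Q s hv, h3]
    rw [h3, Int.even_iff] at h4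
    rcases sgn_cases s (v, false) with h5 | h5 <;> rw [h5] <;> omega
  · have h4 := hPQ v
    unfold pp
    rw [D1_bld_up P Q s hv, D1_bld_th P Q s h1]
    rw [Int.even_iff] at h4
    rcases sgn_cases s (v, false) with h5 | h5 <;> rcases sgn_cases s (v, true) with h6 | h6 <;>
      rw [h5, h6] <;> omega

theorem qq_bld {c : ℤ} {P Q : V → ℤ} (hPQ : ∀ v, Even (P v + Q v)) (hQ : ∀ v : V, v.2 = c → Q v = 0)
    (s : Finset (V × Bool)) {v : V} (hv : c ≤ v.2) : qq c (bld c P Q s) v = sgn s (v, true) * Q v := by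
  rcases hv.eq_or_lt with h1 | h1
  · have h2 := D1_th_row h1.symm
    have h3 := hQ v h1.symm
    unfold qq
    rw [h2, h3, sub_self, mul_zero]
  · have h4 := hPQ v
    unfold qq
    rw [D1_bld_up P Q s hv, D1_bld_th P Q s h1]
    rw [Int.even_iff] at h4
    rcases sgn_cases s (v, false) with h5 | h5 <;> rcases sgn_cases s (v, true) with h6 | h6 <;>
      rw [h5, h6] <;> omega

/-- a function is determined by its sums and differences in the upper rows: `2 h v = pp v + qq v`, `2 h (th c v) = pp v - qq v` -/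
theorem ext_pp_qq {c : ℤ} {h g : V → ℤ} (hp : ∀ v : V, c ≤ v.2 → pp c h v = pp c g v)
    (hq : ∀ v : V, c ≤ v.2 → qq c h v = qq c g v) : h = g := by
  funext v
  by_cases hv : c ≤ v.2
  · have h1 := hp v hv
    have h2 := hq v hv
    unfold pp at h1
    unfold qq at h2
    omega
  · have hv' : c ≤ (th c v).2 := by
      rw [D1_th_snd]
      omega
    have h1 := hp _ hv'
    have h2 := hq _ hv'
    unfold pp at h1
    unfold qq at h2
    rw [th_th] at h1 h2
    omega

/-- The magnitudes of a height function: `|a + b| + |a - b|` is even; on the row `c` the difference vanishes. -/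
theorem mag_even (c : ℤ) (h : V → ℤ) (v : V) : Even (|pp c h v| + |qq c h v|) := by
  rw [Int.even_add, even_abs, even_abs, ← Int.even_add]
  unfold pp qq
  rw [Int.even_iff]
  omega

theorem mag_row (c : ℤ) (h : V → ℤ) (v : V) (hv : v.2 = c) : |qq c h v| = 0 := by
  unfold qq
  rw [D1_th_row hv, sub_self, abs_zero]

/-- Outside the upper part of `D` everything vanishes: for `c ≤ v.2`, `v ∉ D` also `th c v ∉ D` (else by `Rfl.low` for `th c v`, whose row is `≤ c`,
`th c (th c v) = v ∈ D`), so `h v = h (th c v) = 0`. -/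
theorem mag_out {D : Finset V} {c : ℤ} (hR : Rfl D c) {h : V → ℤ} (hh : h ∈ Om D) {v : V} (hv : c ≤ v.2)
    (hvD : v ∉ D) : pp c h v = 0 ∧ qq c h v = 0 := by
  have h1 : th c v ∉ D := by
    intro h2
    have h3 := hR.low _ h2 (by rw [D1_th_snd]; omega)
    rw [th_th] at h3
    exact hvD h3
  have h2 := (mem_Om.1 hh).1.off v hvD
  have h3 := (mem_Om.1 hh).1.off _ h1
  unfold pp qq
  rw [h2, h3]
  exact ⟨rfl, rfl⟩

/-- For `v` in the upper part of `D` whose reflection is not an interior point: `h (th c v) = 0` (off `D` or on the boundary). -/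
theorem mag_glue {D : Finset V} {c : ℤ} {h : V → ℤ} (hh : h ∈ Om D) {v : V} (hv : th c v ∉ core D) :
    pp c h v = h v ∧ qq c h v = h v := by
  have h1 : h (th c v) = 0 := by
    by_cases h2 : th c v ∈ D
    · have h3 : th c v ∈ bdry D := by
        by_contra h4
        exact hv (Finset.mem_sdiff.2 ⟨h2, h4⟩)
      exact (mem_Om.1 hh).2 _ h3
    · exact (mem_Om.1 hh).1.off _ h2
  unfold pp qq
  rw [h1, add_zero, sub_zero]
  exact ⟨rfl, rfl⟩

/-- Two adjacent points of the upper part: the values of `pp` at the two points do not have opposite signs, the same for `qq`; and the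
step of `h` and of its reflection.  (1) If `th c u ∈ D` and `th c v ∈ D`: the steps of `h` between `u, v` and between `th c u, th c v` are `±1`, so
`pp u - pp v ∈ {0, 2, -2}`, and `pp`, `qq` are even (parities: `par (th c v) = par v + 2 c - 2 v.2`), so nonzero values of opposite signs would
differ by at least `4`.  (2) If, say, `th c u ∉ D`: if `th c v ∈ D` then `th c v` has the neighbour `th c u ∉ D` and is in `bdry D`; in any case
`mag_glue` applies to `u` and `v`, and `|h u - h v| = 1` (both in `D`) excludes nonzero values of opposite signs. -/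
theorem sign_adj {D : Finset V} {c : ℤ} {h : V → ℤ} (hh : h ∈ Om D) {u v : V} (hu : u ∈ upD D c)
    (hv : v ∈ upD D c) (ha : Adj u v) : 0 ≤ pp c h u * pp c h v ∧ 0 ≤ qq c h u * qq c h v := by
  have huD : u ∈ D := (Finset.mem_filter.1 hu).1
  have hvD : v ∈ D := (Finset.mem_filter.1 hv).1
  have h1 := (mem_Om.1 hh).1.step u huD v hvD ha
  by_cases hA : th c u ∈ D ∧ th c v ∈ D
  · have h2 := (mem_Om.1 hh).1.step _ hA.1 _ hA.2 (D1_adj_th ha)
    have hpu := D1_par_th hh huD hA.1
    have hpv := D1_par_th hh hvD hA.2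
    refine ⟨D1_nonneg_even hpu.1 hpv.1 ?_, D1_nonneg_even hpu.2 hpv.2 ?_⟩
    · unfold pp
      have e : h u + h (th c u) - (h v + h (th c v)) = (h u - h v) + (h (th c u) - h (th c v)) := by ring
      rw [e]
      refine (abs_add_le _ _).trans ?_
      rw [h1, h2]
      norm_num
    · unfold qq
      have e : h u - h (th c u) - (h v - h (th c v)) = (h u - h v) - (h (th c u) - h (th c v)) := by ring
      rw [e]
      refine (abs_sub _ _).trans ?_
      rw [h1, h2]
      norm_num
  · have hadj := D1_adj_th (c := c) ha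
    have hadj' : Adj (th c v) (th c u) := by
      unfold Adj at hadj ⊢
      rw [abs_sub_comm (th c v).1, abs_sub_comm (th c v).2]
      exact hadj
    have hcu : th c u ∉ core D := by
      intro h2
      obtain ⟨h3, h4⟩ := Finset.mem_sdiff.1 h2
      have h5 : th c v ∉ D := fun h6 => hA ⟨h3, h6⟩
      exact h4 (mem_bdry.2 ⟨h3, _, hadj', h5⟩)
    have hcv : th c v ∉ core D := by
      intro h2
      obtain ⟨h3, h4⟩ := Finset.mem_sdiff.1 h2
      have h5 : th c u ∉ D := fun h6 => hA ⟨h6, h3⟩
      exact h4 (mem_bdry.2 ⟨h3, _, hadj, h5⟩)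
    have gu := mag_glue hh hcu
    have gv := mag_glue hh hcv
    rw [gu.1, gu.2, gv.1, gv.2]
    exact ⟨D1_nonneg h1, D1_nonneg h1⟩

end MD
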