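import Pool.Agent.Helper35.MD.D1

/-!
MDV pieces D2, D3: which sign configurations give height functions.
-/

open Finset RP4 KP

namespace MD

/-- the pairs of sign variables which have to be equal -/
def Con (D : Finset V) (c : ℤ) (P Q : V → ℤ) (i j : V × Bool) : Prop :=
  (Adj i.1 j.1 ∧ i.2 = false ∧ j.2 = false ∧ P i.1 ≠ 0 ∧ P j.1 ≠ 0) ∨
  (Adj i.1 j.1 ∧ i.2 = true ∧ j.2 = true ∧ Q i.1 ≠ 0 ∧ Q j.1 ≠ 0) ∨
  (i.1 = j.1 ∧ i.2 = false ∧ j.2 = true ∧ P i.1 ≠ 0 ∧ th c i.1 ∉ core D)

/-- the index set of the sign variables -/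
noncomputable def Jx (D : Finset V) (c : ℤ) : Finset (V × Bool) := upD D c ×ˢ Finset.univ

open Classical in
/-- the equations -/
noncomputable def Eqs (D : Finset V) (c : ℤ) (P Q : V → ℤ) : Finset ((V × Bool) × (V × Bool)) :=
  (Jx D c ×ˢ Jx D c).filter (fun e => Con D c P Q e.1 e.2)

private theorem D2_pm {p : ℤ} (h : p = 1 ∨ p = -1) (x : ℤ) : p * abs x = x ∨ p * abs x = -x := by
  rcases h with rfl | rfl <;> rcases abs_cases x with ⟨h, -⟩ | ⟨h, -⟩ <;> rw [h] <;> omega

private theorem D2_key {p q x y : ℤ} (h : p = 1 ∨ p = -1) (h' : q = 1 ∨ q = -1)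
    (he : x ≠ 0 → y ≠ 0 → p = q) (hxy : 0 ≤ x * y) :
    abs (p * abs x - q * abs y) = abs (x - y) := by
  rw [abs_eq_abs]
  have hs := mul_nonneg_iff.1 hxy
  rcases abs_cases x with ⟨hx, hx'⟩ | ⟨hx, hx'⟩ <;> rcases abs_cases y with ⟨hy, hy'⟩ | ⟨hy, hy'⟩ <;>
    rw [hx, hy] <;> rcases h with rfl | rfl <;> rcases h' with rfl | rfl <;> omega

private theorem D2_symm {u v : V} (h : Adj u v) : Adj v u := by
  unfold Adj at h ⊢
  rw [abs_sub_comm v.1, abs_sub_comm v.2]
  exact h

private theorem D2_adj (c : ℤ) {u v : V} (h : Adj u v) : Adj (th c u) (th c v) := by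
  unfold Adj at h ⊢
  have e1 : (th c u).1 - (th c v).1 = u.1 - v.1 := rfl
  have e2 : (th c u).2 - (th c v).2 = -(u.2 - v.2) := by
    change (2 * c - u.2) - (2 * c - v.2) = -(u.2 - v.2)
    ring
  rw [e1, e2, abs_neg]
  exact h

/-- Let `h₀ ∈ Om D`, `P = |pp c h₀|`, `Q = |qq c h₀|`, let `s` satisfy all equations and `g = bld c P Q s`; by `pp_bld`, `qq_bld`:
`pp c g = ± P`, `qq c g = ± Q` on the upper rows, `2 g v = pp + qq`, `2 g (th c v) = pp - qq`.
Glue points: `v` upper in `D`, `th c v ∉ core D`: by `mag_glue` `P v = Q v = |h₀ v|`, the equation says that both signs agree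
(if `P v ≠ 0`), so `g (th c v) = 0` and `g v = ± h₀ v`.
`off`: `v ∉ D`.  Upper: `mag_out`.  Lower: let `u = th c v`; if `u ∉ D` then `mag_out` for `u`; if `u ∈ D` then `u` is a glue point, `g v = 0`.
`par`: `g v` is one of `± h₀ v`, `± h₀ (th c v)` with `th c v ∈ D` in the last case (if `th c v ∉ core D` use the glue property; if `pp` and `qq` are known
up to sign then `2 g v = ± (h₀ v + h₀ (th c v)) ± (h₀ v - h₀ (th c v))`), and `par (th c v) ≡ par v` mod `2`.
boundary: `v ∈ bdry D` upper: if `th c v ∈ D` then `th c v ∈ bdry D` by `Rfl.bd`, so `P v = Q v = 0`; if `th c v ∉ D`: `P v = Q v = |h₀ v| = 0`.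
`v ∈ bdry D` lower: `u = th c v ∈ D` by `Rfl.low` and `th c u = v ∉ core D`, glue.
`step`: `u, v ∈ D` adjacent.  Adjacent points are both in rows `≥ c` or both in rows `≤ c` (for a point of the row `c` both formulas hold, as `qq = 0` there).
Both upper: if `th c u, th c v ∈ D`: `|± a ∓ b| = |a - b|` for `a = pp h₀ u`, `b = pp h₀ v`: if both are nonzero the signs of `g` agree by the equation and
`a, b` have the same sign by `sign_adj`; if one vanishes it is clear; the same for `qq`; and `|a - b| + |a' - b'| = 2`, one of them `0`, since both steps of `h₀` are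
`± 1`; so `g u - g v = (± 2 + 0) / 2`.  If one of `th c u`, `th c v` is not in `D`, both points are glue points (the other reflection then is
outside `D` or in `bdry D`), so `g u = ± h₀ u`, `g v = ± h₀ v` with equal signs if both are nonzero.
Both lower: `th c u, th c v` are upper points of `D` by `Rfl.low`, with reflections `u, v ∈ D`: the first case, `g u - g v = (Δ pp - Δ qq) / 2`. -/
theorem bld_mem {D : Finset V} (hD : BdryPar D 0) {c : ℤ} (hR : Rfl D c) {h₀ : V → ℤ} (hh : h₀ ∈ Om D)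
    (s : Finset (V × Bool))
    (hs : ∀ e ∈ Eqs D c (fun v => |pp c h₀ v|) (fun v => |qq c h₀ v|), sgn s e.1 = sgn s e.2) :
    bld c (fun v => |pp c h₀ v|) (fun v => |qq c h₀ v|) s ∈ Om D := by
  classical
  obtain ⟨hhom, hbd⟩ := mem_Om.1 hh
  have f1 : ∀ v : V, c ≤ v.2 → pp c (bld c (fun v => |pp c h₀ v|) (fun v => |qq c h₀ v|) s) v =
      sgn s (v, false) * |pp c h₀ v| :=
    fun v hv => pp_bld (mag_even c h₀) (mag_row c h₀) s hv
  have f2 : ∀ v : V, c ≤ v.2 → qq c (bld c (fun v => |pp c h₀ v|) (fun v => |qq c h₀ v|) s) v =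
      sgn s (v, true) * |qq c h₀ v| :=
    fun v hv => qq_bld (mag_even c h₀) (mag_row c h₀) s hv
  generalize bld c (fun v => |pp c h₀ v|) (fun v => |qq c h₀ v|) s = g at *
  -- the signed magnitudes
  obtain ⟨a, ha⟩ : ∃ a : V → ℤ, ∀ v, a v = sgn s (v, false) * |pp c h₀ v| := ⟨_, fun _ => rfl⟩
  obtain ⟨b, hb⟩ : ∃ b : V → ℤ, ∀ v, b v = sgn s (v, true) * |qq c h₀ v| := ⟨_, fun _ => rfl⟩
  have g1 : ∀ v : V, c ≤ v.2 → g v + g (th c v) = a v := fun v hv => (f1 v hv).trans (ha v).symm
  have g2 : ∀ v : V, c ≤ v.2 → g v - g (th c v) = b v := fun v hv => (f2 v hv).trans (hb v).symm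
  have a1 : ∀ v, a v = pp c h₀ v ∨ a v = -pp c h₀ v := fun v => by
    rw [ha]; exact D2_pm (sgn_cases s _) _
  have b1 : ∀ v, b v = qq c h₀ v ∨ b v = -qq c h₀ v := fun v => by
    rw [hb]; exact D2_pm (sgn_cases s _) _
  have thr : ∀ v : V, (th c v).2 = 2 * c - v.2 := fun _ => rfl
  have hJ : ∀ v : V, v ∈ D → c ≤ v.2 → ∀ i, (v, i) ∈ Jx D c := fun v hv hc i =>
    Finset.mem_product.2 ⟨Finset.mem_filter.2 ⟨hv, hc⟩, Finset.mem_univ _⟩
  -- glue points
  have glue : ∀ v : V, v ∈ D → c ≤ v.2 → th c v ∉ core D → a v = b v := by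
    intro v hv hc hcore
    obtain ⟨m1, m2⟩ := mag_glue hh hcore
    rw [ha, hb, m1, m2]
    by_cases h0 : h₀ v = 0
    · rw [h0]; simp
    · have h1 := hs ((v, false), (v, true)) (Finset.mem_filter.2
        ⟨Finset.mem_product.2 ⟨hJ v hv hc _, hJ v hv hc _⟩,
          Or.inr (Or.inr ⟨rfl, rfl, rfl, by simpa [m1] using h0, hcore⟩)⟩)
      rw [show sgn s (v, false) = sgn s (v, true) from h1]
  -- steps of the signed magnitudes
  have keyA : ∀ u v : V, u ∈ D → v ∈ D → c ≤ u.2 → c ≤ v.2 → Adj u v →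
      |a u - a v| = |pp c h₀ u - pp c h₀ v| := by
    intro u v hu hv hcu hcv hadj
    rw [ha, ha]
    refine D2_key (sgn_cases s _) (sgn_cases s _) (fun h1 h2 => ?_)
      (sign_adj hh (Finset.mem_filter.2 ⟨hu, hcu⟩) (Finset.mem_filter.2 ⟨hv, hcv⟩) hadj).1
    exact hs ((u, false), (v, false)) (Finset.mem_filter.2
        ⟨Finset.mem_product.2 ⟨hJ u hu hcu _, hJ v hv hcv _⟩,
          Or.inl ⟨hadj, rfl, rfl, abs_ne_zero.2 h1, abs_ne_zero.2 h2⟩⟩)
  have keyB : ∀ u v : V, u ∈ D → v ∈ D → c ≤ u.2 → c ≤ v.2 → Adj u v →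
      |b u - b v| = |qq c h₀ u - qq c h₀ v| := by
    intro u v hu hv hcu hcv hadj
    rw [hb, hb]
    refine D2_key (sgn_cases s _) (sgn_cases s _) (fun h1 h2 => ?_)
      (sign_adj hh (Finset.mem_filter.2 ⟨hu, hcu⟩) (Finset.mem_filter.2 ⟨hv, hcv⟩) hadj).2
    exact hs ((u, true), (v, true)) (Finset.mem_filter.2
        ⟨Finset.mem_product.2 ⟨hJ u hu hcu _, hJ v hv hcv _⟩,
          Or.inr (Or.inl ⟨hadj, rfl, rfl, abs_ne_zero.2 h1, abs_ne_zero.2 h2⟩)⟩)
  -- the main case of the step
  have main : ∀ u v : V, u ∈ D → v ∈ D → th c u ∈ D → th c v ∈ D → c ≤ u.2 → c ≤ v.2 → Adj u v →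
      |g u - g v| = 1 ∧ |g (th c u) - g (th c v)| = 1 := by
    intro u v hu hv htu htv hcu hcv hadj
    have hadj' : Adj (th c u) (th c v) := D2_adj c hadj
    have e1 := (abs_eq (by norm_num : (0 : ℤ) ≤ 1)).1 (hhom.step u hu v hv hadj)
    have e2 := (abs_eq (by norm_num : (0 : ℤ) ≤ 1)).1 (hhom.step _ htu _ htv hadj')
    have e3 := abs_eq_abs.1 (keyA u v hu hv hcu hcv hadj)
    have e4 := abs_eq_abs.1 (keyB u v hu hv hcu hcv hadj)
    have e5 := g1 u hcu
    have e6 := g1 v hcv
    have e7 := g2 u hcu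
    have e8 := g2 v hcv
    unfold pp at e3
    unfold qq at e4
    rw [abs_eq (by norm_num : (0 : ℤ) ≤ 1), abs_eq (by norm_num : (0 : ℤ) ≤ 1)]
    omega
  refine mem_Om.2 ⟨⟨fun v hv => ?_, fun v hv => ?_, fun u hu v hv hadj => ?_⟩, fun v hv => ?_⟩
  · -- off
    rcases le_or_gt c v.2 with hc | hc
    · obtain ⟨m1, m2⟩ := mag_out hR hh hc hv
      have e1 := g1 v hc
      have e2 := g2 v hc
      have e3 := a1 v
      have e4 := b1 v
      omega
    · have hcu : c ≤ (th c v).2 := by rw [thr]; omega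
      have e1 := g1 (th c v) hcu
      have e2 := g2 (th c v) hcu
      rw [th_th] at e1 e2
      by_cases hu : th c v ∈ D
      · have e3 := glue (th c v) hu hcu (by
          rw [th_th]
          exact fun h => hv (Finset.sdiff_subset h))
        omega
      · obtain ⟨m1, m2⟩ := mag_out hR hh hcu hu
        have e3 := a1 (th c v)
        have e4 := b1 (th c v)
        omega
  · -- parity
    have hp := hhom.par v hv
    rcases le_or_gt c v.2 with hc | hc
    · have e1 := g1 v hc
      have e2 := g2 v hc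
      have e3 := a1 v
      have e4 := b1 v
      by_cases hu : th c v ∈ D
      · have hp' := hhom.par _ hu
        unfold pp at e3
        unfold qq at e4
        unfold par at hp hp' ⊢
        have t1 : (th c v).1 = v.1 := rfl
        rw [thr, t1] at hp'
        rw [Int.even_iff] at hp hp' ⊢
        omega
      · have hcore : th c v ∉ core D := fun h => hu (Finset.sdiff_subset h)
        obtain ⟨m1, m2⟩ := mag_glue hh hcore
        have e5 := glue v hv hc hcore
        rw [m1] at e3
        unfold par at hp ⊢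
        rw [Int.even_iff] at hp ⊢
        omega
    · have hcu : c ≤ (th c v).2 := by rw [thr]; omega
      have hu := hR.low v hv hc.le
      have e1 := g1 (th c v) hcu
      have e2 := g2 (th c v) hcu
      have e3 := a1 (th c v)
      have e4 := b1 (th c v)
      have hp' := hhom.par _ hu
      unfold pp at e3
      unfold qq at e4
      rw [th_th] at e1 e2 e3 e4
      unfold par at hp hp' ⊢
      have t1 : (th c v).1 = v.1 := rfl
      rw [thr, t1] at hp'
      rw [Int.even_iff] at hp hp' ⊢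
      omega
  · -- step
    have hrow : |u.2 - v.2| ≤ 1 := by
      unfold Adj at hadj
      have := abs_nonneg (u.1 - v.1)
      omega
    have hrow' := abs_le.1 hrow
    by_cases hup : c ≤ u.2 ∧ c ≤ v.2
    · obtain ⟨hcu, hcv⟩ := hup
      by_cases hth : th c u ∈ D ∧ th c v ∈ D
      · exact (main u v hu hv hth.1 hth.2 hcu hcv hadj).1
      · have hadj' : Adj (th c u) (th c v) := D2_adj c hadj
        have hcore : th c u ∉ core D ∧ th c v ∉ core D := by
          by_cases h1 : th c u ∈ D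
          · have h2 : th c v ∉ D := fun h => hth ⟨h1, h⟩
            refine ⟨fun h => ?_, fun h => h2 (Finset.sdiff_subset h)⟩
            exact (Finset.mem_sdiff.1 h).2 (mem_bdry.2 ⟨h1, th c v, D2_symm hadj', h2⟩)
          · refine ⟨fun h => h1 (Finset.sdiff_subset h), fun h => ?_⟩
            exact (Finset.mem_sdiff.1 h).2 (mem_bdry.2 ⟨Finset.sdiff_subset h, th c u, hadj', h1⟩)
        have e1 := glue u hu hcu hcore.1
        have e2 := glue v hv hcv hcore.2
        obtain ⟨m1, -⟩ := mag_glue hh hcore.1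
        obtain ⟨m2, -⟩ := mag_glue hh hcore.2
        have e3 := keyA u v hu hv hcu hcv hadj
        rw [m1, m2, hhom.step u hu v hv hadj] at e3
        have e5 := g1 u hcu
        have e6 := g1 v hcv
        have e7 := g2 u hcu
        have e8 := g2 v hcv
        rw [show g u - g v = a u - a v by omega]
        exact e3
    · have hlow : u.2 ≤ c ∧ v.2 ≤ c := by omega
      have hcu : c ≤ (th c u).2 := by rw [thr]; omega
      have hcv : c ≤ (th c v).2 := by rw [thr]; omega
      have h := (main (th c u) (th c v) (hR.low u hu hlow.1) (hR.low v hv hlow.2)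
        (by rwa [th_th]) (by rwa [th_th]) hcu hcv (D2_adj c hadj)).2
      rwa [th_th, th_th] at h
  · -- boundary
    have hvD : v ∈ D := (mem_bdry.1 hv).1
    rcases le_or_gt c v.2 with hc | hc
    · have h0 : h₀ v = 0 := hbd v hv
      have h1 : h₀ (th c v) = 0 := by
        by_cases hu : th c v ∈ D
        · exact hbd _ (hR.bd v hv hc hu)
        · exact hhom.off _ hu
      have e1 := g1 v hc
      have e2 := g2 v hc
      have e3 := a1 v
      have e4 := b1 v
      unfold pp at e3
      unfold qq at e4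
      omega
    · have hcu : c ≤ (th c v).2 := by rw [thr]; omega
      have e1 := g1 (th c v) hcu
      have e2 := g2 (th c v) hcu
      rw [th_th] at e1 e2
      have e3 := glue (th c v) (hR.low v hvD hc.le) hcu (by
        rw [th_th]
        exact fun h => (Finset.mem_sdiff.1 h).2 hv)
      omega

end MD
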