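import Pool.Agent.Helper35.MD.D2

/-!
MDV piece D3: the converse.
-/

open Finset RP4 KP

namespace MD

private lemma D3h_sgn_eq {a b P Q : ℤ} (ha : a = 1 ∨ a = -1) (hb : b = 1 ∨ b = -1) (hP : 0 ≤ P) (hQ : 0 ≤ Q)
    (hP0 : P ≠ 0) (hQ0 : Q ≠ 0) (h : 0 ≤ (a * P) * (b * Q)) : a = b := by
  have hP' : 0 < P := lt_of_le_of_ne hP (Ne.symm hP0)
  have hQ' : 0 < Q := lt_of_le_of_ne hQ (Ne.symm hQ0)
  have hPQ : 0 < P * Q := mul_pos hP' hQ'
  rcases ha with ha | ha <;> rcases hb with hb | hb <;> subst ha <;> subst hb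
  · rfl
  · exfalso; nlinarith
  · exfalso; nlinarith
  · rfl

private lemma D3h_pp_th (c : ℤ) (h : V → ℤ) (v : V) : pp c h (th c v) = pp c h v := by
  unfold pp
  rw [th_th]
  ring

private lemma D3h_qq_th (c : ℤ) (h : V → ℤ) (v : V) : qq c h (th c v) = -qq c h v := by
  unfold qq
  rw [th_th]
  ring

private lemma D3h_abs_sgn (s : Finset (V × Bool)) (i : V × Bool) (x : ℤ) : abs (sgn s i * abs x) = abs x := by
  rcases sgn_cases s i with h | h <;> rw [h] <;> simp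

/-- Let `g = bld c P Q s ∈ Om D`.  For an equation of the first kind (`u, v` adjacent in `upD D c`, `P u, P v ≠ 0`): `pp c g u = sgn s (u, false) * P u`
(`pp_bld`), `P ≥ 0`, and `0 ≤ pp c g u * pp c g v` by `sign_adj` for `g`; so the signs agree.  Second kind: `qq`.  Third kind: `mag_glue` for `g`:
`pp c g v = g v = qq c g v`, `mag_glue` for `h₀`: `P v = Q v`; so `sgn s (v, false) * P v = sgn s (v, true) * P v` and `P v ≠ 0`. -/
theorem bld_eqs {D : Finset V} {c : ℤ} {h₀ : V → ℤ} (hh : h₀ ∈ Om D) (s : Finset (V × Bool))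
    (hs : bld c (fun v => |pp c h₀ v|) (fun v => |qq c h₀ v|) s ∈ Om D) :
    ∀ e ∈ Eqs D c (fun v => |pp c h₀ v|) (fun v => |qq c h₀ v|), sgn s e.1 = sgn s e.2 := by
  classical
  have hPQ : ∀ v, Even ((fun v => |pp c h₀ v|) v + (fun v => |qq c h₀ v|) v) := fun v => mag_even c h₀ v
  have hQ : ∀ v : V, v.2 = c → (fun v => |qq c h₀ v|) v = 0 := fun v hv => mag_row c h₀ v hv
  rintro ⟨⟨u, a⟩, ⟨v, b⟩⟩ he
  unfold Eqs Jx at he
  rw [Finset.mem_filter, Finset.mem_product, Finset.mem_product, Finset.mem_product] at he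
  obtain ⟨⟨⟨hu, _⟩, ⟨hv, _⟩⟩, hcon⟩ := he
  simp only at hu hv
  have hu2 : c ≤ u.2 := (Finset.mem_filter.1 hu).2
  have hv2 : c ≤ v.2 := (Finset.mem_filter.1 hv).2
  have pu := pp_bld hPQ hQ s hu2
  have pv := pp_bld hPQ hQ s hv2
  have qu := qq_bld hPQ hQ s hu2
  have qv := qq_bld hPQ hQ s hv2
  rcases hcon with ⟨hadj, h1, h2, h3, h4⟩ | ⟨hadj, h1, h2, h3, h4⟩ | ⟨h0, h1, h2, h3, h4⟩
  · simp only at hadj h1 h2 h3 h4
    subst h1; subst h2
    have hsa := (sign_adj hs hu hv hadj).1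
    rw [pu, pv] at hsa
    exact D3h_sgn_eq (sgn_cases _ _) (sgn_cases _ _) (abs_nonneg _) (abs_nonneg _) h3 h4 hsa
  · simp only at hadj h1 h2 h3 h4
    subst h1; subst h2
    have hsa := (sign_adj hs hu hv hadj).2
    rw [qu, qv] at hsa
    exact D3h_sgn_eq (sgn_cases _ _) (sgn_cases _ _) (abs_nonneg _) (abs_nonneg _) h3 h4 hsa
  · simp only at h0 h1 h2 h3 h4
    subst h0; subst h1; subst h2
    obtain ⟨g1, g2⟩ := mag_glue hs h4
    obtain ⟨k1, k2⟩ := mag_glue hh h4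
    have hPQe : |qq c h₀ u| = |pp c h₀ u| := by rw [k1, k2]
    have hE : sgn s (u, false) * |pp c h₀ u| = sgn s (u, true) * |pp c h₀ u| := by
      rw [← pu, g1, ← g2, qu, hPQe]
    exact mul_right_cancel₀ h3 hE

/-- The other magnitudes do not occur: if `bld c |pp h₀| |qq h₀| s = h` then `|pp c h v| = |pp c h₀ v|` for all `v`: for `c ≤ v.2` by `pp_bld`
(`mag_even`, `mag_row`), for `v.2 < c` use `pp c h v = pp c h (th c v)` and `qq c h v = - qq c h (th c v)`. -/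
theorem bld_mag {c : ℤ} {h₀ h : V → ℤ} {s : Finset (V × Bool)}
    (hs : bld c (fun v => |pp c h₀ v|) (fun v => |qq c h₀ v|) s = h) :
    (∀ v, |pp c h v| = |pp c h₀ v|) ∧ ∀ v, |qq c h v| = |qq c h₀ v| := by
  have hPQ : ∀ v, Even ((fun v => |pp c h₀ v|) v + (fun v => |qq c h₀ v|) v) := fun v => mag_even c h₀ v
  have hQ : ∀ v : V, v.2 = c → (fun v => |qq c h₀ v|) v = 0 := fun v hv => mag_row c h₀ v hv
  have key : ∀ v : V, c ≤ v.2 → |pp c h v| = |pp c h₀ v| ∧ |qq c h v| = |qq c h₀ v| := by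
    intro v hv
    have p := pp_bld hPQ hQ s hv
    have q := qq_bld hPQ hQ s hv
    rw [hs] at p q
    rw [p, q]
    exact ⟨D3h_abs_sgn s _ _, D3h_abs_sgn s _ _⟩
  have key2 : ∀ v : V, |pp c h v| = |pp c h₀ v| ∧ |qq c h v| = |qq c h₀ v| := by
    intro v
    rcases le_total c v.2 with hv | hv
    · exact key v hv
    · have h1 : c ≤ (th c v).2 := by
        change c ≤ 2 * c - v.2
        linarith
      have h2 := key (th c v) h1
      rw [D3h_pp_th, D3h_pp_th, D3h_qq_th, D3h_qq_th, abs_neg, abs_neg] at h2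
      exact h2
  exact ⟨fun v => (key2 v).1, fun v => (key2 v).2⟩

end MD
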