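import Pool.Agent.Helper35.MD.D3

/-!
MDV piece D3b: the counting of the sign configurations.
-/

open Finset RP4 KP

namespace MD

/-- the value belonging to a sign variable -/
private def D3b_val (c : ℤ) (h : V → ℤ) (i : V × Bool) : ℤ := if i.2 then qq c h i.1 else pp c h i.1

private lemma D3b_sgn_iff (s : Finset (V × Bool)) (i : V × Bool) (x : ℤ) :
    sgn s i * |x| = x ↔ (x < 0 → i ∈ s) ∧ (0 < x → i ∉ s) := by
  unfold sgn
  by_cases hi : i ∈ s
  · rw [if_pos hi]
    rcases lt_trichotomy x 0 with h | h | h
    · rw [abs_of_neg h]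
      constructor
      · intro _
        exact ⟨fun _ => hi, fun h' => by omega⟩
      · intro _
        ring
    · subst h
      simp
    · rw [abs_of_pos h]
      constructor
      · intro h'
        omega
      · rintro ⟨-, h2⟩
        exact absurd hi (h2 h)
  · rw [if_neg hi]
    rcases lt_trichotomy x 0 with h | h | h
    · rw [abs_of_neg h]
      constructor
      · intro h'
        omega
      · rintro ⟨h1, -⟩
        exact absurd (h1 h) hi
    · subst h
      simp
    · rw [abs_of_pos h]
      constructor
      · intro _
        exact ⟨fun h' => by omega, fun _ => hi⟩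
      · intro _
        ring

open Classical in
/-- Number of sign configurations giving `h`.  If `|pp c h| = P`, `|qq c h| = Q` on the upper rows: `bld c P Q s = h` iff (`ext_pp_qq`, `pp_bld`, `qq_bld`; outside
`D` both sides vanish by `mag_out`) for all `v ∈ upD D c`: `sgn s (v, false) * P v = pp c h v` and `sgn s (v, true) * Q v = qq c h v`, that is: `i ∈ s` for the
`i ∈ Jx D c` with negative value, `i ∉ s` for those with positive value.  So the set is `Finset.Icc s₀ (s₀ ∪ Z)` with `s₀ = {i ∈ Jx | value < 0}`,
`Z = {i ∈ Jx | value = 0}`, and its cardinality is `2 ^ #Z` (`Finset.card_Icc_finset`). -/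
theorem bld_count {D : Finset V} {c : ℤ} (hR : Rfl D c) {h₀ h : V → ℤ} (hh₀ : h₀ ∈ Om D) (hh : h ∈ Om D)
    (hP : ∀ v, |pp c h v| = |pp c h₀ v|) (hQ : ∀ v, |qq c h v| = |qq c h₀ v|) :
    ((Jx D c).powerset.filter (fun s => bld c (fun v => |pp c h₀ v|) (fun v => |qq c h₀ v|) s = h)).card =
      2 ^ ((Jx D c).filter (fun i => (if i.2 then |qq c h₀ i.1| else |pp c h₀ i.1|) = 0)).card := by
  have e1 : (fun v => |pp c h₀ v|) = (fun v => |pp c h v|) := by
    funext v
    exact (hP v).symm
  have e2 : (fun v => |qq c h₀ v|) = (fun v => |qq c h v|) := by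
    funext v
    exact (hQ v).symm
  rw [e1, e2]
  -- the equation `bld = h`
  have key : ∀ s : Finset (V × Bool), bld c (fun v => |pp c h v|) (fun v => |qq c h v|) s = h ↔
      ∀ i ∈ Jx D c, sgn s i * |D3b_val c h i| = D3b_val c h i := by
    intro s
    have f1 : ∀ v : V, c ≤ v.2 → pp c (bld c (fun v => |pp c h v|) (fun v => |qq c h v|) s) v =
        sgn s (v, false) * |pp c h v| :=
      fun v hv => pp_bld (mag_even c h) (mag_row c h) s hv
    have f2 : ∀ v : V, c ≤ v.2 → qq c (bld c (fun v => |pp c h v|) (fun v => |qq c h v|) s) v =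
        sgn s (v, true) * |qq c h v| :=
      fun v hv => qq_bld (mag_even c h) (mag_row c h) s hv
    constructor
    · intro hs i hi
      obtain ⟨v, b⟩ := i
      have hv : v ∈ upD D c := (Finset.mem_product.1 hi).1
      have hv2 : c ≤ v.2 := (Finset.mem_filter.1 hv).2
      have g1 := f1 v hv2
      have g2 := f2 v hv2
      rw [hs] at g1 g2
      cases b
      · exact g1.symm
      · exact g2.symm
    · intro H
      refine ext_pp_qq (c := c) (fun v hv => ?_) (fun v hv => ?_)
      · rw [f1 v hv]
        by_cases hvD : v ∈ D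
        · exact H (v, false) (Finset.mem_product.2 ⟨Finset.mem_filter.2 ⟨hvD, hv⟩, Finset.mem_univ _⟩)
        · rw [(mag_out hR hh hv hvD).1]
          simp
      · rw [f2 v hv]
        by_cases hvD : v ∈ D
        · exact H (v, true) (Finset.mem_product.2 ⟨Finset.mem_filter.2 ⟨hvD, hv⟩, Finset.mem_univ _⟩)
        · rw [(mag_out hR hh hv hvD).2]
          simp
  -- the two sets
  have hsub : (Jx D c).filter (fun i => D3b_val c h i < 0) ⊆
      (Jx D c).filter (fun i => D3b_val c h i < 0) ∪ (Jx D c).filter (fun i => D3b_val c h i = 0) :=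
    Finset.subset_union_left
  have hset : (Jx D c).powerset.filter
        (fun s => bld c (fun v => |pp c h v|) (fun v => |qq c h v|) s = h) =
      Finset.Icc ((Jx D c).filter (fun i => D3b_val c h i < 0))
        ((Jx D c).filter (fun i => D3b_val c h i < 0) ∪ (Jx D c).filter (fun i => D3b_val c h i = 0)) := by
    ext s
    rw [Finset.mem_filter, Finset.mem_powerset, Finset.mem_Icc, key]
    constructor
    · rintro ⟨h1, h2⟩
      constructor
      · intro i hi
        obtain ⟨hi1, hi2⟩ := Finset.mem_filter.1 hi
        exact ((D3b_sgn_iff s i _).1 (h2 i hi1)).1 hi2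
      · intro i hi
        have hiJ := h1 hi
        have h3 := ((D3b_sgn_iff s i _).1 (h2 i hiJ)).2
        rw [Finset.mem_union, Finset.mem_filter, Finset.mem_filter]
        rcases lt_trichotomy (D3b_val c h i) 0 with h4 | h4 | h4
        · exact Or.inl ⟨hiJ, h4⟩
        · exact Or.inr ⟨hiJ, h4⟩
        · exact absurd hi (h3 h4)
    · rintro ⟨h1, h2⟩
      constructor
      · intro i hi
        have h3 := h2 hi
        rw [Finset.mem_union, Finset.mem_filter, Finset.mem_filter] at h3
        rcases h3 with h3 | h3
        · exact h3.1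
        · exact h3.1
      · intro i hi
        rw [D3b_sgn_iff]
        constructor
        · intro h3
          exact h1 (Finset.mem_filter.2 ⟨hi, h3⟩)
        · intro h3 h4
          have h5 := h2 h4
          rw [Finset.mem_union, Finset.mem_filter, Finset.mem_filter] at h5
          rcases h5 with h5 | h5
          · have := h5.2
            omega
          · have := h5.2
            omega
  have hdisj : Disjoint ((Jx D c).filter (fun i => D3b_val c h i < 0))
      ((Jx D c).filter (fun i => D3b_val c h i = 0)) := by
    rw [Finset.disjoint_left]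
    intro i h1 h2
    have h3 := (Finset.mem_filter.1 h1).2
    have h4 := (Finset.mem_filter.1 h2).2
    omega
  have hZ : (Jx D c).filter (fun i => (if i.2 then |qq c h₀ i.1| else |pp c h₀ i.1|) = 0) =
      (Jx D c).filter (fun i => D3b_val c h i = 0) := by
    apply Finset.filter_congr
    rintro ⟨v, b⟩ _
    cases b
    · simp only [D3b_val, Bool.false_eq_true, if_false]
      rw [← hP v, abs_eq_zero]
    · simp only [D3b_val, if_true]
      rw [← hQ v, abs_eq_zero]
  rw [hset, Finset.card_Icc_finset hsub, Finset.card_union_of_disjoint hdisj, hZ,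
    Nat.add_sub_cancel_left]

end MD
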