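import Pool.Agent.Helper35.MD.D3b

/-!
MDV piece D4: sums over all height functions of functions in the positive class.
-/

open Finset RP4 KP

namespace MD

/-- functions of the height function which are positive combinations of characters of the signs of `pp`, `qq`, for all magnitudes -/
def PosF (c : ℤ) (F : (V → ℤ) → ℝ) : Prop :=
  ∀ P Q : V → ℤ, (∀ v, 0 ≤ P v) → (∀ v, 0 ≤ Q v) → (∀ v, Even (P v + Q v)) → (∀ v : V, v.2 = c → Q v = 0) →
    Pos (fun s => F (bld c P Q s))

theorem PosF.mul {c : ℤ} {F G : (V → ℤ) → ℝ} (hF : PosF c F) (hG : PosF c G) : PosF c (fun h => F h * G h) :=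
  fun P Q h1 h2 h3 h4 => (hF P Q h1 h2 h3 h4).mul (hG P Q h1 h2 h3 h4)

/-- Group the height functions by their magnitudes `(P, Q) = (|pp c h|, |qq c h|)` (`Finset.sum_fiberwise_of_maps_to` or
`Finset.sum_image'`, with the map `h ↦ (fun v => |pp c h v|, fun v => |qq c h v|)`, classical decidability).  It is enough that the sum over the class of
each `h₀ ∈ Om D` is nonnegative.  With `b s = bld c P Q s`, `J = Jx D c`, `z` as in `bld_count`:
`∑ s ∈ J.powerset, ind (b s ∈ Om D) * F (b s) = ∑ h ∈ Om D, F h * #{s ∈ J.powerset | b s = h} = 2 ^ z * ∑ h ∈ class, F h`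
(`Finset.sum_comm`, `bld_count`, `bld_mag`).  The left side is nonnegative by `Pos.sum_nonneg` and `Pos.mul`, since
`ind (b s ∈ Om D) = ind (all equations of Eqs)` by `bld_mem`, `bld_eqs`, and `Pos.eqs`. -/
theorem posF_sum {D : Finset V} (hD : BdryPar D 0) {c : ℤ} (hR : Rfl D c) {F : (V → ℤ) → ℝ} (hF : PosF c F) :
    0 ≤ ∑ h ∈ Om D, F h := by
  classical
  obtain ⟨m, hm⟩ : ∃ m : (V → ℤ) → (V → ℤ) × (V → ℤ), ∀ h, m h = (fun v => |pp c h v|, fun v => |qq c h v|) :=
    ⟨_, fun _ => rfl⟩
  rw [← Finset.sum_fiberwise_of_maps_to (t := (Om D).image m) (g := m)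
    (fun h hh => Finset.mem_image_of_mem m hh)]
  refine Finset.sum_nonneg fun y hy => ?_
  obtain ⟨h₀, hh₀, rfl⟩ := Finset.mem_image.1 hy
  obtain ⟨b, hb⟩ : ∃ b : Finset (V × Bool) → V → ℤ, ∀ s, b s = bld c (fun v => |pp c h₀ v|) (fun v => |qq c h₀ v|) s :=
    ⟨_, fun _ => rfl⟩
  have hb' : b = fun s => bld c (fun v => |pp c h₀ v|) (fun v => |qq c h₀ v|) s := funext hb
  obtain ⟨z, hz⟩ : ∃ z : ℕ, z =
      ((Jx D c).filter (fun i => (if i.2 then |qq c h₀ i.1| else |pp c h₀ i.1|) = 0)).card := ⟨_, rfl⟩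
  -- the sum over the sign configurations is nonnegative
  have hpos : 0 ≤ ∑ s ∈ (Jx D c).powerset, ind (b s ∈ Om D) * F (b s) := by
    have h1 : Pos (fun s => F (bld c (fun v => |pp c h₀ v|) (fun v => |qq c h₀ v|) s)) :=
      hF _ _ (fun v => abs_nonneg _) (fun v => abs_nonneg _) (mag_even c h₀) (fun v hv => mag_row c h₀ v hv)
    have h2 := (Pos.eqs (Eqs D c (fun v => |pp c h₀ v|) (fun v => |qq c h₀ v|))).mul h1
    have h3 := h2.sum_nonneg (Jx D c)
    refine le_of_le_of_eq h3 (Finset.sum_congr rfl fun s _ => ?_)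
    rw [hb s]
    congr 1
    refine congrArg ind (propext ⟨fun h => bld_mem hD hR hh₀ s h, fun h => bld_eqs hh₀ s h⟩)
  -- count
  have hcnt : ∀ h ∈ Om D, ∑ s ∈ (Jx D c).powerset, (if b s = h then F h else 0) =
      if m h = m h₀ then 2 ^ z * F h else 0 := by
    intro h hh
    rw [← Finset.sum_filter, Finset.sum_const, nsmul_eq_mul]
    split_ifs with he
    · have e1 : ∀ v, |pp c h v| = |pp c h₀ v| := fun v => by
        have := congrArg Prod.fst he
        rw [hm, hm] at this
        exact congrFun this v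
      have e2 : ∀ v, |qq c h v| = |qq c h₀ v| := fun v => by
        have := congrArg Prod.snd he
        rw [hm, hm] at this
        exact congrFun this v
      have h1 := bld_count hR hh₀ hh e1 e2
      have h2 : ((Jx D c).powerset.filter (fun s => b s = h)).card = 2 ^ z := by
        rw [hz, ← h1, hb']
      rw [h2]
      push_cast
      rfl
    · have h2 : ((Jx D c).powerset.filter (fun s => b s = h)).card = 0 := by
        rw [Finset.card_eq_zero, Finset.filter_eq_empty_iff]
        intro s _ hs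
        rw [hb s] at hs
        obtain ⟨e1, e2⟩ := bld_mag hs
        refine he ?_
        rw [hm, hm]
        exact Prod.ext (funext e1) (funext e2)
      rw [h2]
      simp
  have key : ∑ s ∈ (Jx D c).powerset, ind (b s ∈ Om D) * F (b s) =
      2 ^ z * ∑ h ∈ (Om D).filter (fun h => m h = m h₀), F h := by
    calc ∑ s ∈ (Jx D c).powerset, ind (b s ∈ Om D) * F (b s)
        = ∑ s ∈ (Jx D c).powerset, ∑ h ∈ Om D, (if b s = h then F h else 0) := by
          refine Finset.sum_congr rfl fun s _ => ?_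
          rw [Finset.sum_ite_eq]
          unfold ind
          split_ifs <;> simp
      _ = ∑ h ∈ Om D, ∑ s ∈ (Jx D c).powerset, (if b s = h then F h else 0) := Finset.sum_comm
      _ = ∑ h ∈ Om D, (if m h = m h₀ then 2 ^ z * F h else 0) := Finset.sum_congr rfl hcnt
      _ = ∑ h ∈ (Om D).filter (fun h => m h = m h₀), 2 ^ z * F h := (Finset.sum_filter _ _).symm
      _ = 2 ^ z * ∑ h ∈ (Om D).filter (fun h => m h = m h₀), F h := (Finset.mul_sum _ _ _).symm
  rw [key] at hpos
  exact nonneg_of_mul_nonneg_right hpos (by positivity)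

end MD
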