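import Pool.Agent.Helper35.MD.D4

/-!
MDV piece D5: members of the positive class.
-/

open Finset RP4 KP

namespace MD

private lemma D5_one {a p q : ℤ} (ha : a = 1 ∨ a = -1) (hp : 0 ≤ p) (hq : 0 ≤ q) (h : a * p = q ∨ a * p = -q) :
    p = q := by
  rcases ha with rfl | rfl <;> omega

private lemma D5_ev (b : Bool) (P π : V → ℤ) (S : Finset V) (hP : ∀ v, 0 ≤ P v) (hπ : ∀ v ∈ S, 0 ≤ π v) :
    (∀ s : Finset (V × Bool), (¬ ∀ v ∈ S, sgn s (v, b) * P v = π v) ∧ ¬ ∀ v ∈ S, sgn s (v, b) * P v = -π v) ∨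
    ∃ I : Finset (V × Bool), ∀ s : Finset (V × Bool),
      ((∀ v ∈ S, sgn s (v, b) * P v = π v) ↔ ∀ i ∈ I, sgn s i = 1) ∧
      ((∀ v ∈ S, sgn s (v, b) * P v = -π v) ↔ ∀ i ∈ I, sgn s i = -1) := by
  classical
  by_cases hne : ∃ v ∈ S, P v ≠ π v
  · left
    obtain ⟨v, hv, hv'⟩ := hne
    intro s
    exact ⟨fun h => hv' (D5_one (sgn_cases s (v, b)) (hP v) (hπ v hv) (Or.inl (h v hv))),
      fun h => hv' (D5_one (sgn_cases s (v, b)) (hP v) (hπ v hv) (Or.inr (h v hv)))⟩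
  · right
    have heq : ∀ v ∈ S, P v = π v := fun v hv => by
      by_contra h
      exact hne ⟨v, hv, h⟩
    refine ⟨(S.filter (fun v => π v ≠ 0)).image (fun v => (v, b)), fun s => ⟨?_, ?_⟩⟩
    · constructor
      · intro h i hi
        obtain ⟨v, hv, rfl⟩ := Finset.mem_image.1 hi
        obtain ⟨hvS, hv0⟩ := Finset.mem_filter.1 hv
        have h1 := h v hvS
        rw [heq v hvS] at h1
        rcases sgn_cases s (v, b) with h2 | h2
        · exact h2
        · rw [h2] at h1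
          omega
      · intro h v hvS
        rw [heq v hvS]
        by_cases hv0 : π v = 0
        · rw [hv0, mul_zero]
        · rw [h (v, b) (Finset.mem_image.2 ⟨v, Finset.mem_filter.2 ⟨hvS, hv0⟩, rfl⟩), one_mul]
    · constructor
      · intro h i hi
        obtain ⟨v, hv, rfl⟩ := Finset.mem_image.1 hi
        obtain ⟨hvS, hv0⟩ := Finset.mem_filter.1 hv
        have h1 := h v hvS
        rw [heq v hvS] at h1
        rcases sgn_cases s (v, b) with h2 | h2
        · rw [h2] at h1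
          omega
        · exact h2
      · intro h v hvS
        rw [heq v hvS]
        by_cases hv0 : π v = 0
        · rw [hv0, mul_zero, neg_zero]
        · rw [h (v, b) (Finset.mem_image.2 ⟨v, Finset.mem_filter.2 ⟨hvS, hv0⟩, rfl⟩), neg_one_mul]

private lemma D5_pp {c : ℤ} {P Q : V → ℤ} (hPQ : ∀ v, Even (P v + Q v)) (hQ : ∀ v : V, v.2 = c → Q v = 0)
    (s : Finset (V × Bool)) {S : Finset V} (hS : ∀ v ∈ S, c ≤ v.2) (π : V → ℤ) :
    (∀ v ∈ S, pp c (bld c P Q s) v = π v) ↔ ∀ v ∈ S, sgn s (v, false) * P v = π v :=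
  forall₂_congr fun v hv => by rw [pp_bld hPQ hQ s (hS v hv)]

private lemma D5_qq {c : ℤ} {P Q : V → ℤ} (hPQ : ∀ v, Even (P v + Q v)) (hQ : ∀ v : V, v.2 = c → Q v = 0)
    (s : Finset (V × Bool)) {S : Finset V} (hS : ∀ v ∈ S, c ≤ v.2) (π : V → ℤ) :
    (∀ v ∈ S, qq c (bld c P Q s) v = π v) ↔ ∀ v ∈ S, sgn s (v, true) * Q v = π v :=
  forall₂_congr fun v hv => by rw [qq_bld hPQ hQ s (hS v hv)]

private lemma D5_ind_false {p : Prop} (h : ¬ p) : ind p = 0 := by
  unfold ind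
  rw [if_neg h]

/-- `2 h w = pp c h w + qq c h w`, so `F (bld ..) = (sgn * P w + sgn * Q w) / 2` by `pp_bld`, `qq_bld`: `Pos.one_sgn`, `Pos.smul`, `Pos.add`. -/
theorem posF_val {c : ℤ} {w : V} (hw : c ≤ w.2) : PosF c (fun h => (h w : ℝ)) := by
  intro P Q hP hQ hPQ hQ0
  have h : (fun s : Finset (V × Bool) => ((bld c P Q s w : ℤ) : ℝ)) =
      fun s => (P w : ℝ) / 2 * (sgn s (w, false) : ℝ) + (Q w : ℝ) / 2 * (sgn s (w, true) : ℝ) := by
    funext s
    have h1 := pp_bld hPQ hQ0 s hw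
    have h2 := qq_bld hPQ hQ0 s hw
    have h3 : pp c (bld c P Q s) w + qq c (bld c P Q s) w = 2 * bld c P Q s w := by
      unfold pp qq
      ring
    rw [h1, h2] at h3
    have h4 : ((sgn s (w, false) : ℤ) : ℝ) * (P w : ℝ) + ((sgn s (w, true) : ℤ) : ℝ) * (Q w : ℝ) =
        2 * ((bld c P Q s w : ℤ) : ℝ) := by
      exact_mod_cast h3
    linear_combination -(1 / 2) * h4
  show Pos (fun s : Finset (V × Bool) => ((bld c P Q s w : ℤ) : ℝ))
  rw [h]
  have hP' : (0 : ℝ) ≤ (P w : ℝ) / 2 := by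
    have : (0 : ℝ) ≤ (P w : ℝ) := by exact_mod_cast hP w
    linarith
  have hQ' : (0 : ℝ) ≤ (Q w : ℝ) / 2 := by
    have : (0 : ℝ) ≤ (Q w : ℝ) := by exact_mod_cast hQ w
    linarith
  exact Pos.add (Pos.smul hP' (Pos.one_sgn _)) (Pos.smul hQ' (Pos.one_sgn _))

/-- By `pp_bld` the event for `h = bld c P Q s` is `∀ v ∈ S, sgn s (v, false) * P v = π v`.  As `π ≥ 0`, `P ≥ 0`: it holds iff `P = π` on `S` and
`sgn s (v, false) = 1` for the `v ∈ S` with `π v ≠ 0`.  So the function is `0` or the function of `Pos.all_one` with `I = {(v, false) | v ∈ S, π v ≠ 0}`. -/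
theorem posF_pp {c : ℤ} (S : Finset V) (hS : ∀ v ∈ S, c ≤ v.2) (π : V → ℤ) (hπ : ∀ v ∈ S, 0 ≤ π v) :
    PosF c (fun h => ind (∀ v ∈ S, pp c h v = π v)) := by
  intro P Q hP hQ hPQ hQ0
  show Pos (fun s : Finset (V × Bool) => ind (∀ v ∈ S, pp c (bld c P Q s) v = π v))
  rcases D5_ev false P π S hP hπ with h | ⟨I, h⟩
  · have e : (fun s : Finset (V × Bool) => ind (∀ v ∈ S, pp c (bld c P Q s) v = π v)) = fun _ => (0 : ℝ) := by
      funext s
      rw [propext (D5_pp hPQ hQ0 s hS π), D5_ind_false (h s).1]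
    rw [e]
    exact Pos.const le_rfl
  · have e : (fun s : Finset (V × Bool) => ind (∀ v ∈ S, pp c (bld c P Q s) v = π v)) =
        fun s => ind (∀ i ∈ I, sgn s i = 1) := by
      funext s
      rw [propext (D5_pp hPQ hQ0 s hS π), propext (h s).1]
    rw [e]
    exact Pos.all_one I

/-- in the same way, with `Pos.even_part` (`sgn s * P = - π` iff `P = π` and `sgn = -1` or `π = 0`) -/
theorem posF_pp_even {c : ℤ} (S : Finset V) (hS : ∀ v ∈ S, c ≤ v.2) (π : V → ℤ) (hπ : ∀ v ∈ S, 0 ≤ π v) :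
    PosF c (fun h => ind (∀ v ∈ S, pp c h v = π v) + ind (∀ v ∈ S, pp c h v = -π v)) := by
  intro P Q hP hQ hPQ hQ0
  show Pos (fun s : Finset (V × Bool) => ind (∀ v ∈ S, pp c (bld c P Q s) v = π v) +
    ind (∀ v ∈ S, pp c (bld c P Q s) v = -π v))
  rcases D5_ev false P π S hP hπ with h | ⟨I, h⟩
  · have e : (fun s : Finset (V × Bool) => ind (∀ v ∈ S, pp c (bld c P Q s) v = π v) +
        ind (∀ v ∈ S, pp c (bld c P Q s) v = -π v)) = fun _ => (0 : ℝ) := by
      funext s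
      rw [propext (D5_pp hPQ hQ0 s hS π), propext (D5_pp hPQ hQ0 s hS (fun v => -π v)),
        D5_ind_false (h s).1, D5_ind_false (h s).2, add_zero]
    rw [e]
    exact Pos.const le_rfl
  · have e : (fun s : Finset (V × Bool) => ind (∀ v ∈ S, pp c (bld c P Q s) v = π v) +
        ind (∀ v ∈ S, pp c (bld c P Q s) v = -π v)) =
        fun s => ind (∀ i ∈ I, sgn s i = 1) + ind (∀ i ∈ I, sgn s i = -1) := by
      funext s
      rw [propext (D5_pp hPQ hQ0 s hS π), propext (D5_pp hPQ hQ0 s hS (fun v => -π v)),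
        propext (h s).1, propext (h s).2]
    rw [e]
    exact Pos.even_part I

/-- in the same way, with `qq_bld` and `Pos.odd_part` -/
theorem posF_qq_odd {c : ℤ} (S : Finset V) (hS : ∀ v ∈ S, c ≤ v.2) (η : V → ℤ) (hη : ∀ v ∈ S, 0 ≤ η v) :
    PosF c (fun h => ind (∀ v ∈ S, qq c h v = η v) - ind (∀ v ∈ S, qq c h v = -η v)) := by
  intro P Q hP hQ hPQ hQ0
  show Pos (fun s : Finset (V × Bool) => ind (∀ v ∈ S, qq c (bld c P Q s) v = η v) -
    ind (∀ v ∈ S, qq c (bld c P Q s) v = -η v))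
  rcases D5_ev true Q η S hQ hη with h | ⟨I, h⟩
  · have e : (fun s : Finset (V × Bool) => ind (∀ v ∈ S, qq c (bld c P Q s) v = η v) -
        ind (∀ v ∈ S, qq c (bld c P Q s) v = -η v)) = fun _ => (0 : ℝ) := by
      funext s
      rw [propext (D5_qq hPQ hQ0 s hS η), propext (D5_qq hPQ hQ0 s hS (fun v => -η v)),
        D5_ind_false (h s).1, D5_ind_false (h s).2, sub_zero]
    rw [e]
    exact Pos.const le_rfl
  · have e : (fun s : Finset (V × Bool) => ind (∀ v ∈ S, qq c (bld c P Q s) v = η v) -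
        ind (∀ v ∈ S, qq c (bld c P Q s) v = -η v)) =
        fun s => ind (∀ i ∈ I, sgn s i = 1) - ind (∀ i ∈ I, sgn s i = -1) := by
      funext s
      rw [propext (D5_qq hPQ hQ0 s hS η), propext (D5_qq hPQ hQ0 s hS (fun v => -η v)),
        propext (h s).1, propext (h s).2]
    rw [e]
    exact Pos.odd_part I

end MD
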