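import Pool.Agent.Helper35.MD.D5

/-!
MDV piece D6: the reflection inequality and the positive patterns.
-/

open Finset RP4 KP

namespace MD

private lemma D6_ind_and {p q r : Prop} (h : p ↔ q ∧ r) : ind p = ind q * ind r := by
  unfold ind
  by_cases hq : q
  · by_cases hr : r
    · rw [if_pos (h.2 ⟨hq, hr⟩), if_pos hq, if_pos hr, mul_one]
    · rw [if_neg (fun hp => hr (h.1 hp).2), if_neg hr, mul_zero]
  · rw [if_neg (fun hp => hq (h.1 hp).1), if_neg hq, zero_mul]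

private lemma D6_ind_congr {p q : Prop} (h : p ↔ q) : ind p = ind q :=
  le_antisymm (ind_mono h.1) (ind_mono h.2)

private lemma D6_sum_neg {D : Finset V} (F : (V → ℤ) → ℝ) : ∑ h ∈ Om D, F h = ∑ h ∈ Om D, F (-h) :=
  (Finset.sum_nbij' (fun g => -g) (fun g => -g) (fun _ hg => neg_mem_Zs (Subset.refl _) hg)
    (fun _ hg => neg_mem_Zs (Subset.refl _) hg) (fun g _ => neg_neg g) (fun g _ => neg_neg g)
    (fun _ _ => rfl)).symm

private lemma D6_pp_neg (c : ℤ) (h : V → ℤ) (v : V) : pp c (-h) v = -pp c h v := by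
  unfold pp
  simp only [Pi.neg_apply]
  ring

private lemma D6_qq_neg (c : ℤ) (h : V → ℤ) (v : V) : qq c (-h) v = -qq c h v := by
  unfold qq
  simp only [Pi.neg_apply]
  ring

private lemma D6_core {D : Finset V} (hD : BdryPar D 0) {c : ℤ} (hR : Rfl D c) (S : Finset V)
    (hS : ∀ v ∈ S, c ≤ v.2) (π η : V → ℤ) (hπ : (∀ v ∈ S, 0 ≤ π v) ∨ ∀ v ∈ S, π v ≤ 0)
    (hη : ∀ v ∈ S, 0 ≤ η v) {w : V} (hw : c ≤ w.2) :
    0 ≤ ∑ h ∈ Om D, ((ind (∀ v ∈ S, pp c h v = π v) + ind (∀ v ∈ S, pp c h v = -π v)) *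
      (ind (∀ v ∈ S, qq c h v = η v) - ind (∀ v ∈ S, qq c h v = -η v))) * (h w : ℝ) := by
  rcases hπ with hπ | hπ
  · exact posF_sum hD hR (((posF_pp_even S hS π hπ).mul (posF_qq_odd S hS η hη)).mul (posF_val hw))
  · have h1 := posF_sum hD hR (((posF_pp_even S hS (fun v => -π v)
      (fun v hv => neg_nonneg.2 (hπ v hv))).mul (posF_qq_odd S hS η hη)).mul (posF_val hw))
    simp only [neg_neg] at h1
    refine h1.trans_eq (Finset.sum_congr rfl fun h _ => ?_)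
    rw [add_comm (ind (∀ v ∈ S, pp c h v = -π v))]

/-- REFLECTION INEQUALITY.  Write `A h = ind (∀ v ∈ S, pp = π)`, `E h = ind (∀ v ∈ S, qq = η)`, `E' h = ind (∀ v ∈ S, qq = -η)`; the sum `T` is
`∑ (A E - A E') h_w`.  By the symmetry `h ↦ -h` of `Om D` (`neg_mem_Zs`, see `avg_neg_Om`; `pp c (-h) = -pp c h`, the same for `qq`)
`T = ∑ (A' E' - A' E) (-h_w)` with `A' h = ind (∀ v ∈ S, pp = -π)`.  So `2 T = ∑ (A + A') (E - E') h_w`, which is nonnegative by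
`posF_sum`, `PosF.mul`, `posF_pp_even`, `posF_qq_odd`, `posF_val` (if `π ≤ 0` on `S` replace `π` by `-π`, this exchanges `A` and `A'`). -/
theorem refl_pos {D : Finset V} (hD : BdryPar D 0) {c : ℤ} (hR : Rfl D c) (S : Finset V)
    (hS : ∀ v ∈ S, c ≤ v.2) (π η : V → ℤ) (hπ : (∀ v ∈ S, 0 ≤ π v) ∨ ∀ v ∈ S, π v ≤ 0)
    (hη : ∀ v ∈ S, 0 ≤ η v) {w : V} (hw : c ≤ w.2) :
    0 ≤ ∑ h ∈ Om D, (ind (∀ v ∈ S, pp c h v = π v ∧ qq c h v = η v) -
      ind (∀ v ∈ S, pp c h v = π v ∧ qq c h v = -η v)) * (h w : ℝ) := by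
  set T := ∑ h ∈ Om D, (ind (∀ v ∈ S, pp c h v = π v ∧ qq c h v = η v) -
      ind (∀ v ∈ S, pp c h v = π v ∧ qq c h v = -η v)) * (h w : ℝ) with hT
  have hand : ∀ (p q : V → ℤ) (h : V → ℤ), ind (∀ v ∈ S, pp c h v = p v ∧ qq c h v = q v) =
      ind (∀ v ∈ S, pp c h v = p v) * ind (∀ v ∈ S, qq c h v = q v) := fun p q h =>
    D6_ind_and ⟨fun h1 => ⟨fun v hv => (h1 v hv).1, fun v hv => (h1 v hv).2⟩,
      fun h1 v hv => ⟨h1.1 v hv, h1.2 v hv⟩⟩
  have h1 : T = ∑ h ∈ Om D, (ind (∀ v ∈ S, pp c h v = π v) *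
      (ind (∀ v ∈ S, qq c h v = η v) - ind (∀ v ∈ S, qq c h v = -η v))) * (h w : ℝ) := by
    rw [hT]
    refine Finset.sum_congr rfl fun h _ => ?_
    rw [hand π η h, hand π (fun v => -η v) h]
    ring
  have h2 : T = ∑ h ∈ Om D, (ind (∀ v ∈ S, pp c h v = -π v) *
      (ind (∀ v ∈ S, qq c h v = η v) - ind (∀ v ∈ S, qq c h v = -η v))) * (h w : ℝ) := by
    rw [h1, D6_sum_neg]
    refine Finset.sum_congr rfl fun h _ => ?_
    have e1 : ind (∀ v ∈ S, pp c (-h) v = π v) = ind (∀ v ∈ S, pp c h v = -π v) :=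
      D6_ind_congr ⟨fun h3 v hv => by have := h3 v hv; rw [D6_pp_neg] at this; omega,
        fun h3 v hv => by rw [D6_pp_neg, h3 v hv, neg_neg]⟩
    have e2 : ind (∀ v ∈ S, qq c (-h) v = η v) = ind (∀ v ∈ S, qq c h v = -η v) :=
      D6_ind_congr ⟨fun h3 v hv => by have := h3 v hv; rw [D6_qq_neg] at this; omega,
        fun h3 v hv => by rw [D6_qq_neg, h3 v hv, neg_neg]⟩
    have e3 : ind (∀ v ∈ S, qq c (-h) v = -η v) = ind (∀ v ∈ S, qq c h v = η v) :=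
      D6_ind_congr ⟨fun h3 v hv => by have := h3 v hv; rw [D6_qq_neg] at this; omega,
        fun h3 v hv => by rw [D6_qq_neg, h3 v hv]⟩
    rw [e1, e2, e3, Pi.neg_apply, Int.cast_neg]
    ring
  have h3 := D6_core hD hR S hS π η hπ hη hw
  have h4 : T + T = ∑ h ∈ Om D, ((ind (∀ v ∈ S, pp c h v = π v) + ind (∀ v ∈ S, pp c h v = -π v)) *
      (ind (∀ v ∈ S, qq c h v = η v) - ind (∀ v ∈ S, qq c h v = -η v))) * (h w : ℝ) := by
    nth_rewrite 1 [h1]
    rw [h2, ← Finset.sum_add_distrib]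
    refine Finset.sum_congr rfl fun h _ => ?_
    ring
  rw [← h4] at h3
  linarith

/-- POSITIVE PATTERNS.  Take `c` so small that `c ≤ v.2` for `v ∈ D ∪ S ∪ {w}` and that no point `th c v` with `v ∈ D ∪ S ∪ {w}` is in `D` unless
it is in the row `c`: e.g. with `m` below all rows of `D ∪ S ∪ {w}`, `c = m - 1`: `v.2 ≥ m` gives `(th c v).2 = 2 c - v.2 ≤ m - 2`, so `th c v ∉ D`.
Then `Rfl D c` holds (there are no points of `D` in rows `≤ c`; for `bd` the hypothesis `th c v ∈ D` is false) and `pp c h v = h v` for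
`h ∈ Om D`, `v ∈ S`.  Apply `posF_sum`, `posF_pp`, `posF_val`. -/
theorem patt_pos {D : Finset V} (hD : BdryPar D 0) (S : Finset V) (π : V → ℤ) (hπ : ∀ v ∈ S, 0 ≤ π v) (w : V) :
    0 ≤ ∑ h ∈ Om D, ind (∀ v ∈ S, h v = π v) * (h w : ℝ) := by
  classical
  obtain ⟨m, hm⟩ : ∃ m : ℤ, ∀ v ∈ D ∪ S ∪ {w}, m ≤ v.2 := by
    obtain ⟨m, hm⟩ := ((D ∪ S ∪ {w}).image (fun v : V => v.2)).bddBelow
    exact ⟨m, fun v hv => hm (Finset.mem_coe.2 (Finset.mem_image_of_mem _ hv))⟩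
  have hmD : ∀ v ∈ D, m ≤ v.2 := fun v hv => hm v (by simp [hv])
  have hmS : ∀ v ∈ S, m ≤ v.2 := fun v hv => hm v (by simp [hv])
  have hmw : m ≤ w.2 := hm w (by simp)
  have hR : Rfl D (m - 1) := by
    refine ⟨fun v hv h1 => ?_, fun v hv _ h1 => ?_⟩
    · have := hmD v hv
      omega
    · have h2 := hmD v (bdry_subset D hv)
      have h3 := hmD _ h1
      unfold th at h3
      simp only at h3
      omega
  have h1 := posF_sum hD hR ((posF_pp S (fun v hv => by have := hmS v hv; omega) π hπ).mul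
    (posF_val (w := w) (by omega : m - 1 ≤ w.2)))
  refine h1.trans_eq (Finset.sum_congr rfl fun h hh => ?_)
  have h2 : ∀ v ∈ S, pp (m - 1) h v = h v := by
    intro v hv
    have h3 : th (m - 1) v ∉ D := by
      intro h4
      have h5 := hmD _ h4
      have h6 := hmS v hv
      unfold th at h5
      simp only at h5
      omega
    unfold pp
    rw [(mem_Om.1 hh).1.off _ h3, add_zero]
  congr 1
  exact D6_ind_congr ⟨fun h3 v hv => (h2 v hv).symm.trans (h3 v hv),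
    fun h3 v hv => (h2 v hv).trans (h3 v hv)⟩

end MD
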