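import Pool.Agent.Helper35.MD.D6

/-!
MDV piece E1: the reflection inequality for column segments of odd length.
-/

open Finset RP4 KP

namespace MD

/-- the values on the column segment and around it, `b` is the value at `(a, c)`, `s` the slope -/
private def E1a_P (h : V → ℤ) (a c b s : ℤ) (k : ℕ) : Prop :=
  (∀ j : ℤ, -(k : ℤ) ≤ j → j ≤ k → h (a, c + j) = b + s * j ∧ h (a + 1, c + j) = b + s * j - 1 ∧
    h (a - 1, c + j) = b + s * j - 1) ∧
  h (a, c + (k + 1)) = b - 1 + s * k ∧ h (a, c + (-(k : ℤ) - 1)) = b - 1 - s * k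

private lemma E1a_up {h : V → ℤ} {a c b : ℤ} {k : ℕ} (hb : h (a, c) = b) :
    Down h (a, c - k) e2 (2 * k + 1) ↔ E1a_P h a c b 1 k := by
  have ep : ∀ i : ℤ, pt (a, c - (k : ℤ)) e2 i = (a, c + (i - k)) := fun i => by
    simp only [pt, e2]
    ext <;> ring
  have e3 : ∀ i : ℤ, pt (pt (a, c - (k : ℤ)) e2 i) (prp e2) 1 = (a + 1, c + (i - k)) := fun i => by
    simp only [pt, e2, prp]
    ext <;> ring
  have e4 : ∀ i : ℤ, pt (pt (a, c - (k : ℤ)) e2 i) (prp e2) (-1) = (a - 1, c + (i - k)) := fun i => by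
    simp only [pt, e2, prp]
    ext <;> ring
  have ex : ((a, c - (k : ℤ)) : V) = (a, c + (-(k : ℤ))) := by
    ext <;> ring
  constructor
  · intro D
    have hsite : ∀ i : ℤ, 0 ≤ i → i < ((2 * k + 1 : ℕ) : ℤ) →
        -h (a, c + (i - k)) = -h (a, c - (k : ℤ)) - i := fun i h0 h1 => by
      have := D.site i h0 h1
      rw [ep] at this
      exact this
    have hs1 : ∀ i : ℤ, 0 ≤ i → i < ((2 * k + 1 : ℕ) : ℤ) →
        -h (a + 1, c + (i - k)) = -h (a, c - (k : ℤ)) - i + 1 := fun i h0 h1 => by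
      have := D.side1 i h0 h1
      rw [e3] at this
      exact this
    have hs2 : ∀ i : ℤ, 0 ≤ i → i < ((2 * k + 1 : ℕ) : ℤ) →
        -h (a - 1, c + (i - k)) = -h (a, c - (k : ℤ)) - i + 1 := fun i h0 h1 => by
      have := D.side2 i h0 h1
      rw [e4] at this
      exact this
    have hh : -h (a, c + (-1 - (k : ℤ))) = -h (a, c - (k : ℤ)) + 1 := by
      have := D.head
      rw [ep] at this
      exact this
    have ht : -h (a, c + (((2 * k + 1 : ℕ) : ℤ) - k)) = -h (a, c - (k : ℤ)) - ((2 * k + 1 : ℕ) : ℤ) + 2 := by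
      have := D.tail
      rw [ep] at this
      exact this
    have h0 : h (a, c - (k : ℤ)) = b - k := by
      have := hsite k (by positivity) (by push_cast; omega)
      rw [sub_self, add_zero, hb] at this
      omega
    refine ⟨fun j hj1 hj2 => ?_, ?_, ?_⟩
    · have t1 := hsite (j + k) (by omega) (by push_cast; omega)
      have t2 := hs1 (j + k) (by omega) (by push_cast; omega)
      have t3 := hs2 (j + k) (by omega) (by push_cast; omega)
      rw [add_sub_cancel_right] at t1 t2 t3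
      refine ⟨by omega, by omega, by omega⟩
    · have e : (((2 * k + 1 : ℕ) : ℤ) - k) = k + 1 := by
        push_cast
        ring
      rw [e] at ht
      push_cast at ht
      omega
    · have e : (-1 - (k : ℤ)) = -(k : ℤ) - 1 := by ring
      rw [e] at hh
      omega
  · rintro ⟨h1, h2, h3⟩
    have h0 : h (a, c - (k : ℤ)) = b - k := by
      rw [ex]
      have := (h1 (-(k : ℤ)) le_rfl (by omega)).1
      omega
    refine ⟨by omega, fun i hi0 hi1 => ?_, fun i hi0 hi1 => ?_, fun i hi0 hi1 => ?_, ?_, ?_⟩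
    · show -h (pt (a, c - (k : ℤ)) e2 i) = -h (a, c - (k : ℤ)) - i
      rw [ep]
      push_cast at hi1
      have := (h1 (i - k) (by omega) (by omega)).1
      omega
    · show -h (pt (pt (a, c - (k : ℤ)) e2 i) (prp e2) 1) = -h (a, c - (k : ℤ)) - i + 1
      rw [e3]
      push_cast at hi1
      have := (h1 (i - k) (by omega) (by omega)).2.1
      omega
    · show -h (pt (pt (a, c - (k : ℤ)) e2 i) (prp e2) (-1)) = -h (a, c - (k : ℤ)) - i + 1
      rw [e4]
      push_cast at hi1
      have := (h1 (i - k) (by omega) (by omega)).2.2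
      omega
    · show -h (pt (a, c - (k : ℤ)) e2 (-1)) = -h (a, c - (k : ℤ)) + 1
      rw [ep]
      have e : (-1 - (k : ℤ)) = -(k : ℤ) - 1 := by ring
      rw [e]
      omega
    · show -h (pt (a, c - (k : ℤ)) e2 ((2 * k + 1 : ℕ) : ℤ)) = -h (a, c - (k : ℤ)) - ((2 * k + 1 : ℕ) : ℤ) + 2
      rw [ep]
      have e : (((2 * k + 1 : ℕ) : ℤ) - k) = k + 1 := by
        push_cast
        ring
      rw [e]
      push_cast
      omega

private lemma E1a_dn {h : V → ℤ} {a c b : ℤ} {k : ℕ} (hb : h (a, c) = b) :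
    Down h (a, c + k) (nd e2) (2 * k + 1) ↔ E1a_P h a c b (-1) k := by
  have ep : ∀ i : ℤ, pt (a, c + (k : ℤ)) (nd e2) i = (a, c + (k - i)) := fun i => by
    simp only [pt, e2, nd]
    ext <;> ring
  have e3 : ∀ i : ℤ, pt (pt (a, c + (k : ℤ)) (nd e2) i) (prp (nd e2)) 1 = (a - 1, c + (k - i)) := fun i => by
    simp only [pt, e2, prp, nd]
    ext <;> ring
  have e4 : ∀ i : ℤ, pt (pt (a, c + (k : ℤ)) (nd e2) i) (prp (nd e2)) (-1) = (a + 1, c + (k - i)) := fun i => by
    simp only [pt, e2, prp, nd]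
    ext <;> ring
  constructor
  · intro D
    have hsite : ∀ i : ℤ, 0 ≤ i → i < ((2 * k + 1 : ℕ) : ℤ) →
        -h (a, c + (k - i)) = -h (a, c + (k : ℤ)) - i := fun i h0 h1 => by
      have := D.site i h0 h1
      rw [ep] at this
      exact this
    have hs1 : ∀ i : ℤ, 0 ≤ i → i < ((2 * k + 1 : ℕ) : ℤ) →
        -h (a - 1, c + (k - i)) = -h (a, c + (k : ℤ)) - i + 1 := fun i h0 h1 => by
      have := D.side1 i h0 h1
      rw [e3] at this
      exact this
    have hs2 : ∀ i : ℤ, 0 ≤ i → i < ((2 * k + 1 : ℕ) : ℤ) →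
        -h (a + 1, c + (k - i)) = -h (a, c + (k : ℤ)) - i + 1 := fun i h0 h1 => by
      have := D.side2 i h0 h1
      rw [e4] at this
      exact this
    have hh : -h (a, c + ((k : ℤ) - -1)) = -h (a, c + (k : ℤ)) + 1 := by
      have := D.head
      rw [ep] at this
      exact this
    have ht : -h (a, c + (k - ((2 * k + 1 : ℕ) : ℤ))) = -h (a, c + (k : ℤ)) - ((2 * k + 1 : ℕ) : ℤ) + 2 := by
      have := D.tail
      rw [ep] at this
      exact this
    have h0 : h (a, c + (k : ℤ)) = b - k := by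
      have := hsite k (by positivity) (by push_cast; omega)
      rw [sub_self, add_zero, hb] at this
      omega
    refine ⟨fun j hj1 hj2 => ?_, ?_, ?_⟩
    · have t1 := hsite (k - j) (by omega) (by push_cast; omega)
      have t2 := hs1 (k - j) (by omega) (by push_cast; omega)
      have t3 := hs2 (k - j) (by omega) (by push_cast; omega)
      rw [sub_sub_cancel] at t1 t2 t3
      refine ⟨by omega, by omega, by omega⟩
    · have e : ((k : ℤ) - -1) = k + 1 := by ring
      rw [e] at hh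
      omega
    · have e : (k - ((2 * k + 1 : ℕ) : ℤ)) = -(k : ℤ) - 1 := by
        push_cast
        ring
      rw [e] at ht
      push_cast at ht
      omega
  · rintro ⟨h1, h2, h3⟩
    have h0 : h (a, c + (k : ℤ)) = b - k := by
      have := (h1 (k : ℤ) (by omega) le_rfl).1
      omega
    refine ⟨by omega, fun i hi0 hi1 => ?_, fun i hi0 hi1 => ?_, fun i hi0 hi1 => ?_, ?_, ?_⟩
    · show -h (pt (a, c + (k : ℤ)) (nd e2) i) = -h (a, c + (k : ℤ)) - i
      rw [ep]
      push_cast at hi1
      have := (h1 (k - i) (by omega) (by omega)).1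
      omega
    · show -h (pt (pt (a, c + (k : ℤ)) (nd e2) i) (prp (nd e2)) 1) = -h (a, c + (k : ℤ)) - i + 1
      rw [e3]
      push_cast at hi1
      have := (h1 (k - i) (by omega) (by omega)).2.2
      omega
    · show -h (pt (pt (a, c + (k : ℤ)) (nd e2) i) (prp (nd e2)) (-1)) = -h (a, c + (k : ℤ)) - i + 1
      rw [e4]
      push_cast at hi1
      have := (h1 (k - i) (by omega) (by omega)).2.1
      omega
    · show -h (pt (a, c + (k : ℤ)) (nd e2) (-1)) = -h (a, c + (k : ℤ)) + 1
      rw [ep]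
      have e : ((k : ℤ) - -1) = k + 1 := by ring
      rw [e]
      omega
    · show -h (pt (a, c + (k : ℤ)) (nd e2) ((2 * k + 1 : ℕ) : ℤ)) = -h (a, c + (k : ℤ)) - ((2 * k + 1 : ℕ) : ℤ) + 2
      rw [ep]
      have e : (k - ((2 * k + 1 : ℕ) : ℤ)) = -(k : ℤ) - 1 := by
        push_cast
        ring
      rw [e]
      push_cast
      omega

/-- the points of the pattern in the upper half -/
private noncomputable def E1a_S (a c : ℤ) (k : ℕ) : Finset V :=
  (Icc (a - 1) (a + 1) ×ˢ Icc c (c + k + 1)).filter (fun v => v.1 = a ∨ v.2 ≤ c + k)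

private lemma E1a_mem {a c : ℤ} {k : ℕ} {x y : ℤ} :
    ((x, y) : V) ∈ E1a_S a c k ↔ (a - 1 ≤ x ∧ x ≤ a + 1) ∧ (c ≤ y ∧ y ≤ c + k + 1) ∧ (x = a ∨ y ≤ c + k) := by
  unfold E1a_S
  rw [mem_filter, mem_product, mem_Icc, mem_Icc]
  tauto

private def E1a_pi (a c b : ℤ) (k : ℕ) (v : V) : ℤ := if v.1 = a ∧ v.2 ≤ c + k then 2 * b else 2 * b - 2

private noncomputable def E1a_eta (c : ℤ) (k : ℕ) (v : V) : ℤ := 2 * min (v.2 - c) k

private lemma E1a_iff {h : V → ℤ} {a c b s : ℤ} {k : ℕ} (hs : s = 1 ∨ s = -1) :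
    (∀ v ∈ E1a_S a c k, pp c h v = E1a_pi a c b k v ∧ qq c h v = s * E1a_eta c k v) ↔ E1a_P h a c b s k := by
  have ec : ∀ y : ℤ, 2 * c - y = c + (c - y) := fun y => by ring
  constructor
  · intro H
    have H' : ∀ x j : ℤ, ((x, c + j) : V) ∈ E1a_S a c k →
        h (x, c + j) + h (x, c + -j) = E1a_pi a c b k (x, c + j) ∧
        h (x, c + j) - h (x, c + -j) = s * E1a_eta c k (x, c + j) := by
      intro x j hj
      have h1 := H _ hj
      unfold pp qq th at h1
      simp only at h1
      rw [show 2 * c - (c + j) = c + -j by ring] at h1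
      exact h1
    have key : ∀ j : ℤ, 0 ≤ j → j ≤ k → (h (a, c + j) = b + s * j ∧ h (a + 1, c + j) = b + s * j - 1 ∧
        h (a - 1, c + j) = b + s * j - 1) ∧ (h (a, c + -j) = b - s * j ∧ h (a + 1, c + -j) = b - s * j - 1 ∧
        h (a - 1, c + -j) = b - s * j - 1) := by
      intro j hj1 hj2
      have t1 := H' a j (E1a_mem.2 ⟨⟨by omega, by omega⟩, ⟨by omega, by omega⟩, Or.inl rfl⟩)
      have t2 := H' (a + 1) j (E1a_mem.2 ⟨⟨by omega, by omega⟩, ⟨by omega, by omega⟩, Or.inr (by omega)⟩)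
      have t3 := H' (a - 1) j (E1a_mem.2 ⟨⟨by omega, by omega⟩, ⟨by omega, by omega⟩, Or.inr (by omega)⟩)
      unfold E1a_pi E1a_eta at t1 t2 t3
      simp only at t1 t2 t3
      rw [if_pos ⟨trivial, by omega⟩, add_sub_cancel_left, min_eq_left hj2] at t1
      rw [if_neg (by omega), add_sub_cancel_left, min_eq_left hj2] at t2 t3
      rcases hs with rfl | rfl <;> refine ⟨⟨?_, ?_, ?_⟩, ?_, ?_, ?_⟩ <;> omega
    have top := H' a (k + 1) (E1a_mem.2 ⟨⟨by omega, by omega⟩, ⟨by omega, by omega⟩, Or.inl rfl⟩)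
    unfold E1a_pi E1a_eta at top
    simp only at top
    rw [if_neg (by omega), add_sub_cancel_left, min_eq_right (by omega)] at top
    refine ⟨fun j hj1 hj2 => ?_, ?_, ?_⟩
    · rcases le_total 0 j with h0 | h0
      · exact (key j h0 hj2).1
      · have := (key (-j) (by omega) (by omega)).2
        rw [neg_neg] at this
        rcases hs with rfl | rfl <;> refine ⟨?_, ?_, ?_⟩ <;> omega
    · rcases hs with rfl | rfl <;> omega
    · rw [show (-(k : ℤ) - 1) = -(k + 1) by ring]
      rcases hs with rfl | rfl <;> omega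
  · rintro ⟨h1, h2, h3⟩ ⟨x, y⟩ hv
    obtain ⟨hx, hy, hxy⟩ := E1a_mem.1 hv
    obtain ⟨j, rfl⟩ : ∃ j, y = c + j := ⟨y - c, by ring⟩
    unfold pp qq th E1a_pi E1a_eta
    simp only
    rw [show 2 * c - (c + j) = c + -j by ring, add_sub_cancel_left]
    by_cases hj : j ≤ k
    · have t1 := h1 j (by omega) hj
      have t2 := h1 (-j) (by omega) (by omega)
      rw [min_eq_left hj]
      by_cases hxa : x = a
      · subst hxa
        rw [if_pos ⟨rfl, by omega⟩]
        rcases hs with rfl | rfl <;> refine ⟨?_, ?_⟩ <;> omega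
      · rw [if_neg (fun h => hxa h.1)]
        rcases (show x = a + 1 ∨ x = a - 1 by omega) with rfl | rfl
        · rcases hs with rfl | rfl <;> refine ⟨?_, ?_⟩ <;> omega
        · rcases hs with rfl | rfl <;> refine ⟨?_, ?_⟩ <;> omega
    · have hj' : j = k + 1 := by omega
      subst hj'
      have hxa : x = a := by
        rcases hxy with h | h
        · exact h
        · omega
      subst hxa
      rw [if_neg (by omega), min_eq_right (by omega)]
      rw [show (-(k : ℤ) - 1) = -(k + 1) by ring] at h3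
      rcases hs with rfl | rfl <;> refine ⟨?_, ?_⟩ <;> omega

private lemma E1a_ind {p q : Prop} (h : p ↔ q) : ind p = ind q := by
  rw [propext h]

private lemma E1a_zero {p : Prop} (h : ¬p) : ind p = 0 := by
  unfold ind
  rw [if_neg h]

/-- Segment of the column `a`, rows `c - k, ..., c + k`, heights increasing upwards, outer neighbours one lower; the reflected event is: heights decreasing
upwards, outer neighbours one lower.  With `b = h (a, c)` the first event is: `pp = 2 b`, `qq = 2 j` at `(a, c + j)`, `0 ≤ j ≤ k`; `pp = 2 b - 2`, `qq = 2 j` at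
`(a ± 1, c + j)`, `0 ≤ j ≤ k`; `pp = 2 b - 2`, `qq = 2 k` at `(a, c + k + 1)`; the second event is the same with `-qq`.  (`Down h x e2 l`: `h (pt x e2 i) = h x + i`,
side neighbours `h x + i - 1`, `h (pt x e2 (-1)) = h x - 1`, `h (pt x e2 l) = h x + l - 2`; here `x = (a, c - k)`, `l = 2 k + 1`, `h x = b - k`.)
Let `S` be the finite set of these points.  So for each `b` the sum over the `h` with `h (a, c) = b` is `≥ 0` by `refl_pos` with `π = 2 b` on the column points with
`0 ≤ j ≤ k`, `2 b - 2` at the other points: all `≥ 0` if `b ≥ 1`, all `≤ 0` if `b ≤ 0` (`(a, c) ∈ S`, `pp c h (a, c) = 2 h (a, c)`).  Sum over the finitely many values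
`b` of `h (a, c)` (`Finset.sum_fiberwise_of_maps_to` with the image of `Om D` under `h ↦ h (a, c)`). -/
theorem odd_pair {D : Finset V} (hD : BdryPar D 0) {c : ℤ} (hR : Rfl D c) {w : V} (hw : c ≤ w.2) (a : ℤ) (k : ℕ) :
    0 ≤ ∑ h ∈ Om D, (ind (Down h (a, c - k) e2 (2 * k + 1)) - ind (Down h (a, c + k) (nd e2) (2 * k + 1))) *
      (h w : ℝ) := by
  classical
  have hself : ((a, c) : V) ∈ E1a_S a c k := E1a_mem.2 ⟨⟨by omega, by omega⟩, ⟨by omega, by omega⟩, Or.inl rfl⟩
  have hpt : ∀ h ∈ Om D, (ind (Down h (a, c - k) e2 (2 * k + 1)) - ind (Down h (a, c + k) (nd e2) (2 * k + 1))) *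
      (h w : ℝ) = ∑ b ∈ (Om D).image (fun h => h (a, c)),
        (ind (∀ v ∈ E1a_S a c k, pp c h v = E1a_pi a c b k v ∧ qq c h v = E1a_eta c k v) -
          ind (∀ v ∈ E1a_S a c k, pp c h v = E1a_pi a c b k v ∧ qq c h v = -E1a_eta c k v)) * (h w : ℝ) := by
    intro h hh
    have hval : ∀ b : ℤ, (pp c h (a, c) = E1a_pi a c b k (a, c)) → h (a, c) = b := by
      intro b hb
      unfold pp th E1a_pi at hb
      simp only at hb
      rw [if_pos ⟨trivial, by omega⟩, show 2 * c - c = c by ring] at hb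
      omega
    rw [Finset.sum_eq_single (h (a, c))]
    · have i1 : ind (Down h (a, c - k) e2 (2 * k + 1)) =
          ind (∀ v ∈ E1a_S a c k, pp c h v = E1a_pi a c (h (a, c)) k v ∧ qq c h v = E1a_eta c k v) := by
        refine E1a_ind ((E1a_up rfl).trans ?_)
        rw [← E1a_iff (Or.inl rfl)]
        simp only [one_mul]
      have i2 : ind (Down h (a, c + k) (nd e2) (2 * k + 1)) =
          ind (∀ v ∈ E1a_S a c k, pp c h v = E1a_pi a c (h (a, c)) k v ∧ qq c h v = -E1a_eta c k v) := by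
        refine E1a_ind ((E1a_dn rfl).trans ?_)
        rw [← E1a_iff (Or.inr rfl)]
        simp only [neg_mul, one_mul]
      rw [i1, i2]
    · intro b _ hb
      rw [E1a_zero (fun H => hb (hval b (H _ hself).1).symm), E1a_zero (fun H => hb (hval b (H _ hself).1).symm),
        sub_self, zero_mul]
    · intro hn
      exact absurd (mem_image_of_mem _ hh) hn
  rw [Finset.sum_congr rfl hpt, Finset.sum_comm]
  refine Finset.sum_nonneg fun b _ => ?_
  refine refl_pos hD hR (E1a_S a c k) ?_ (E1a_pi a c b k) (E1a_eta c k) ?_ ?_ hw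
  · rintro ⟨x, y⟩ hv
    exact (E1a_mem.1 hv).2.1.1
  · rcases le_or_gt b 0 with h0 | h0
    · right
      intro v _
      unfold E1a_pi
      split_ifs <;> omega
    · left
      intro v _
      unfold E1a_pi
      split_ifs <;> omega
  · rintro ⟨x, y⟩ hv
    have := (E1a_mem.1 hv).2.1.1
    unfold E1a_eta
    simp only
    have h1 : 0 ≤ min (y - c) (k : ℤ) := le_min (by omega) (by omega)
    omega

end MD
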