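import Pool.Agent.Helper35.MD.D6

/-!
MDV piece E2: the events for column segments of even length in terms of the sums and differences.
-/

open Finset RP4 KP

namespace MD

/-- the points of the upper half: column `(a, c + j)`, `0 ≤ j ≤ k`, sides `(a ± 1, c + j)`, `0 ≤ j ≤ k - 1`, and the end `(a, c + k + 1)` -/
noncomputable def SE (a c : ℤ) (k : ℕ) : Finset V :=
  (Icc (0 : ℤ) k).image (fun j => ((a, c + j) : V)) ∪ (Ico (0 : ℤ) k).image (fun j => ((a + 1, c + j) : V)) ∪
    (Ico (0 : ℤ) k).image (fun j => ((a - 1, c + j) : V)) ∪ {(a, c + k + 1)}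

/-- values of `pp`: `2 b` on the column, `2 b + 2` at the side points, `2 b + 2 t` at the end (`t = 0, 1`) -/
def pE (a c : ℤ) (k : ℕ) (b t : ℤ) (v : V) : ℤ :=
  if v.1 = a then (if v.2 = c + k + 1 then 2 * b + 2 * t else 2 * b) else 2 * b + 2

/-- values of `qq`: `2 j` at the height `c + j`, but `2 k - 2 + 2 t` at the end `(a, c + k + 1)` -/
def qE (c : ℤ) (k : ℕ) (t : ℤ) (v : V) : ℤ :=
  if v.2 = c + k + 1 then 2 * k - 2 + 2 * t else 2 * (v.2 - c)

private lemma E2_nbr {D : Finset V} {u v : V} (hv : v ∈ core D) (ha : Adj u v) : u ∈ D := by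
  by_contra hu
  unfold core at hv
  obtain ⟨h1, h2⟩ := Finset.mem_sdiff.1 hv
  exact h2 (mem_bdry.2 ⟨h1, u, ha, hu⟩)

private lemma E2_mem {a c : ℤ} {k : ℕ} {v : V} : v ∈ SE a c k ↔
    (∃ j : ℤ, 0 ≤ j ∧ j ≤ k ∧ v = (a, c + j)) ∨ (∃ j : ℤ, 0 ≤ j ∧ j < k ∧ v = (a + 1, c + j)) ∨
      (∃ j : ℤ, 0 ≤ j ∧ j < k ∧ v = (a - 1, c + j)) ∨ v = (a, c + k + 1) := by
  unfold SE
  simp only [Finset.mem_union, Finset.mem_image, Finset.mem_Icc, Finset.mem_Ico,
    Finset.mem_singleton, or_assoc]
  constructor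
  · rintro (⟨j, ⟨h1, h2⟩, rfl⟩ | ⟨j, ⟨h1, h2⟩, rfl⟩ | ⟨j, ⟨h1, h2⟩, rfl⟩ | rfl)
    · exact Or.inl ⟨j, h1, h2, rfl⟩
    · exact Or.inr (Or.inl ⟨j, h1, h2, rfl⟩)
    · exact Or.inr (Or.inr (Or.inl ⟨j, h1, h2, rfl⟩))
    · exact Or.inr (Or.inr (Or.inr rfl))
  · rintro (⟨j, h1, h2, rfl⟩ | ⟨j, h1, h2, rfl⟩ | ⟨j, h1, h2, rfl⟩ | rfl)
    · exact Or.inl ⟨j, ⟨h1, h2⟩, rfl⟩
    · exact Or.inr (Or.inl ⟨j, ⟨h1, h2⟩, rfl⟩)
    · exact Or.inr (Or.inr (Or.inl ⟨j, ⟨h1, h2⟩, rfl⟩))
    · exact Or.inr (Or.inr (Or.inr rfl))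

private lemma E2_th (c a j : ℤ) : th c (a, c + j) = (a, c - j) := by
  unfold th
  simp only [Prod.mk.injEq, true_and]
  ring

private lemma E2_pt (a c : ℤ) (k : ℕ) (i : ℤ) :
    pt (a, c + k - 1) (nd e2) i = (a, c + (k - 1 - i)) := by
  unfold pt nd e2
  simp only [Prod.mk.injEq]
  constructor <;> ring

private lemma E2_s1 (a b : ℤ) : pt (a, b) (prp (nd e2)) 1 = (a - 1, b) := by
  unfold pt prp nd e2
  simp only [Prod.mk.injEq]
  constructor <;> ring

private lemma E2_s2 (a b : ℤ) : pt (a, b) (prp (nd e2)) (-1) = (a + 1, b) := by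
  unfold pt prp nd e2
  simp only [Prod.mk.injEq]
  constructor <;> ring

private lemma E2_iff {a c : ℤ} {k : ℕ} (b t : ℤ) (h : V → ℤ) :
    (∀ v ∈ SE a c k, pp c h v = pE a c k b t v ∧ qq c h v = qE c k t v) ↔
      (∀ j : ℤ, 0 ≤ j → j ≤ k → h (a, c + j) = b + j ∧ h (a, c - j) = b - j) ∧
      (∀ j : ℤ, 0 ≤ j → j < k → h (a + 1, c + j) = b + j + 1 ∧ h (a + 1, c - j) = b - j + 1) ∧
      (∀ j : ℤ, 0 ≤ j → j < k → h (a - 1, c + j) = b + j + 1 ∧ h (a - 1, c - j) = b - j + 1) ∧
      h (a, c + (k + 1)) = b + k - 1 + 2 * t ∧ h (a, c - (k + 1)) = b - k + 1 := by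
  have hcol : ∀ j : ℤ, j ≤ k → (pp c h (a, c + j) = pE a c k b t (a, c + j) ∧
      qq c h (a, c + j) = qE c k t (a, c + j) ↔
        h (a, c + j) = b + j ∧ h (a, c - j) = b - j) := by
    intro j hj
    unfold pp qq pE qE
    rw [E2_th]
    simp only [if_true]
    rw [if_neg (by omega : ¬ c + j = c + k + 1), if_neg (by omega : ¬ c + j = c + k + 1)]
    constructor
    · rintro ⟨h1, h2⟩
      constructor <;> linarith
    · rintro ⟨h1, h2⟩
      constructor <;> linarith
  have hside : ∀ a' : ℤ, a' ≠ a → ∀ j : ℤ, j < k → (pp c h (a', c + j) = pE a c k b t (a', c + j) ∧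
      qq c h (a', c + j) = qE c k t (a', c + j) ↔
        h (a', c + j) = b + j + 1 ∧ h (a', c - j) = b - j + 1) := by
    intro a' ha j hj
    unfold pp qq pE qE
    rw [E2_th]
    simp only
    rw [if_neg ha, if_neg (by omega : ¬ c + j = c + k + 1)]
    constructor
    · rintro ⟨h1, h2⟩
      constructor <;> linarith
    · rintro ⟨h1, h2⟩
      constructor <;> linarith
  have hend : (pp c h (a, c + (k + 1)) = pE a c k b t (a, c + (k + 1)) ∧
      qq c h (a, c + (k + 1)) = qE c k t (a, c + (k + 1)) ↔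
        h (a, c + (k + 1)) = b + k - 1 + 2 * t ∧ h (a, c - (k + 1)) = b - k + 1) := by
    unfold pp qq pE qE
    rw [E2_th]
    simp only [if_true]
    have hc : c + ((k : ℤ) + 1) = c + k + 1 := by ring
    rw [if_pos hc, if_pos hc]
    constructor
    · rintro ⟨h1, h2⟩
      constructor <;> linarith
    · rintro ⟨h1, h2⟩
      constructor <;> linarith
  have hlast : ((a, c + k + 1) : V) = (a, c + (k + 1)) := by
    rw [add_assoc]
  constructor
  · intro H
    refine ⟨fun j h0 h1 => (hcol j h1).1 (H _ (E2_mem.2 (Or.inl ⟨j, h0, h1, rfl⟩))),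
      fun j h0 h1 => (hside _ (by omega) j h1).1 (H _ (E2_mem.2 (Or.inr (Or.inl ⟨j, h0, h1, rfl⟩)))),
      fun j h0 h1 => (hside _ (by omega) j h1).1
        (H _ (E2_mem.2 (Or.inr (Or.inr (Or.inl ⟨j, h0, h1, rfl⟩))))),
      hend.1 (H _ (E2_mem.2 (Or.inr (Or.inr (Or.inr hlast.symm)))))⟩
  · rintro ⟨H1, H2, H3, H4⟩ v hv
    rcases E2_mem.1 hv with ⟨j, h0, h1, rfl⟩ | ⟨j, h0, h1, rfl⟩ | ⟨j, h0, h1, rfl⟩ | rfl
    · exact (hcol j h1).2 (H1 j h0 h1)
    · exact (hside _ (by omega) j h1).2 (H2 j h0 h1)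
    · exact (hside _ (by omega) j h1).2 (H3 j h0 h1)
    · rw [hlast]
      exact hend.2 H4

private lemma E2_up {a c : ℤ} {k : ℕ} (hk : 1 ≤ k) (h : V → ℤ) :
    Up h (a, c + k - 1) (nd e2) (2 * k) ↔
      (∀ j : ℤ, -k ≤ j → j ≤ k → h (a, c + j) = h (a, c) + j) ∧
      (∀ j : ℤ, -k ≤ j → j < k → h (a + 1, c + j) = h (a, c) + j + 1) ∧
      (∀ j : ℤ, -k ≤ j → j < k → h (a - 1, c + j) = h (a, c) + j + 1) ∧
      h (a, c - (k + 1)) = h (a, c) - k + 1 := by
  have hx : ((a, c + k - 1) : V) = (a, c + ((k : ℤ) - 1)) := by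
    rw [add_sub_assoc]
  constructor
  · intro H
    have h0 := H.site (k - 1) (by omega) (by push_cast; omega)
    rw [E2_pt, sub_self, add_zero] at h0
    have e0 : h (a, c + k - 1) = h (a, c) + k - 1 := by linarith
    have hcol : ∀ j : ℤ, -k ≤ j → j < k → h (a, c + j) = h (a, c) + j := by
      intro j h1 h2
      have h3 := H.site (k - 1 - j) (by omega) (by push_cast; omega)
      rw [E2_pt, e0] at h3
      rw [show (k : ℤ) - 1 - (k - 1 - j) = j by ring] at h3
      linarith
    refine ⟨fun j h1 h2 => ?_, fun j h1 h2 => ?_, fun j h1 h2 => ?_, ?_⟩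
    · rcases lt_or_eq_of_le h2 with h3 | h3
      · exact hcol j h1 h3
      · have h4 := H.head
        rw [E2_pt, e0] at h4
        rw [show (k : ℤ) - 1 - (-1) = k by ring] at h4
        rw [h3]
        linarith
    · have h3 := H.side2 (k - 1 - j) (by omega) (by push_cast; omega)
      rw [E2_pt, E2_s2, e0] at h3
      rw [show (k : ℤ) - 1 - (k - 1 - j) = j by ring] at h3
      linarith
    · have h3 := H.side1 (k - 1 - j) (by omega) (by push_cast; omega)
      rw [E2_pt, E2_s1, e0] at h3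
      rw [show (k : ℤ) - 1 - (k - 1 - j) = j by ring] at h3
      linarith
    · have h4 := H.tail
      rw [E2_pt, e0] at h4
      push_cast at h4
      rw [show c + ((k : ℤ) - 1 - 2 * k) = c - (k + 1) by ring] at h4
      linarith
  · rintro ⟨H1, H2, H3, H4⟩
    have e0 : h (a, c + k - 1) = h (a, c) + k - 1 := by
      rw [hx, H1 _ (by omega) (by omega)]
      ring
    refine ⟨by omega, fun i h1 h2 => ?_, fun i h1 h2 => ?_, fun i h1 h2 => ?_, ?_, ?_⟩
    · push_cast at h2
      rw [E2_pt, H1 _ (by omega) (by omega), e0]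
      ring
    · push_cast at h2
      rw [E2_pt, E2_s1, H3 _ (by omega) (by omega), e0]
      ring
    · push_cast at h2
      rw [E2_pt, E2_s2, H2 _ (by omega) (by omega), e0]
      ring
    · rw [E2_pt, H1 _ (by omega) (by omega), e0]
      ring
    · rw [E2_pt, e0]
      push_cast
      rw [show c + ((k : ℤ) - 1 - 2 * k) = c - (k + 1) by ring, H4]
      ring

/-- The event `Up h (a, c + k - 1) (nd e2) (2 k)`: column segment rows `c - k, ..., c + k - 1`, heights increasing upwards, outer neighbours one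
higher.  Here `h ∈ Om D`, the segment is in the interior, `b = h (a, c)`.
`→`: with `b = h (a, c)`: `h (a, c + j) = b + j` for `-k ≤ j ≤ k - 1` and also for `j = k` (outer neighbour above), side neighbours `b + j + 1` for `-k ≤ j ≤ k - 1`,
`h (a, c - k - 1) = b - k + 1`.  The point `(a, c + k + 1)` is in `D` (reflection of `(a, c - k - 1) ∈ D`, `Rfl.low`), adjacent to `(a, c + k) ∈ D`, so its height
is `b + k ± 1`: this gives `t = 1` (`pp = 2 b + 2`, `qq = 2 k`) or `t = 0` (`pp = 2 b`, `qq = 2 k - 2`).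
`←`: all heights follow from `pp`, `qq` except those of the side neighbours `(a ± 1, c - k)`: they are in `D` (neighbours of the interior point
`(a, c - k)`), adjacent to `(a, c - k)` of height `b - k` and to `(a ± 1, c - k + 1)` of height `b - k + 2` (covered, as `-k + 1 ≥ -(k - 1)`), so `b - k + 1`.
The two cases `t = 0, 1` exclude each other. -/
theorem even_up {D : Finset V} {c : ℤ} (hR : Rfl D c) {a : ℤ} {k : ℕ} (hk : 1 ≤ k)
    (hI : InD D (a, c - k) e2 (2 * k)) {h : V → ℤ} (hh : h ∈ Om D) :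
    ind (Up h (a, c + k - 1) (nd e2) (2 * k)) =
      ind (∀ v ∈ SE a c k, pp c h v = pE a c k (h (a, c)) 0 v ∧ qq c h v = qE c k 0 v) +
      ind (∀ v ∈ SE a c k, pp c h v = pE a c k (h (a, c)) 1 v ∧ qq c h v = qE c k 1 v) := by
  have hstep := (mem_Om.1 hh).1.step
  have hcore : ∀ j : ℤ, -k ≤ j → j < k → ((a, c + j) : V) ∈ core D := by
    intro j h1 h2
    have h3 := hI (j + k) (by omega) (by push_cast; omega)
    have h4 : pt (a, c - k) e2 (j + k) = (a, c + j) := by
      unfold pt e2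
      simp only [Prod.mk.injEq]
      constructor <;> ring
    rwa [h4] at h3
  have hcD : ∀ j : ℤ, -k ≤ j → j < k → ((a, c + j) : V) ∈ D := fun j h1 h2 =>
    (Finset.mem_sdiff.1 (by have := hcore j h1 h2; unfold core at this; exact this)).1
  have key : Up h (a, c + k - 1) (nd e2) (2 * k) ↔
      (∀ v ∈ SE a c k, pp c h v = pE a c k (h (a, c)) 0 v ∧ qq c h v = qE c k 0 v) ∨
      (∀ v ∈ SE a c k, pp c h v = pE a c k (h (a, c)) 1 v ∧ qq c h v = qE c k 1 v) := by
    rw [E2_up hk, E2_iff, E2_iff]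
    constructor
    · rintro ⟨H1, H2, H3, H4⟩
      have g1 : ∀ j : ℤ, 0 ≤ j → j ≤ k → h (a, c + j) = h (a, c) + j ∧
          h (a, c - j) = h (a, c) - j := fun j h0 h1 =>
        ⟨H1 j (by omega) h1, by have := H1 (-j) (by omega) (by omega)
                                rw [← sub_eq_add_neg] at this
                                linarith⟩
      have g2 : ∀ j : ℤ, 0 ≤ j → j < k → h (a + 1, c + j) = h (a, c) + j + 1 ∧
          h (a + 1, c - j) = h (a, c) - j + 1 := fun j h0 h1 =>
        ⟨H2 j (by omega) h1, by have := H2 (-j) (by omega) (by omega)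
                                rw [← sub_eq_add_neg] at this
                                linarith⟩
      have g3 : ∀ j : ℤ, 0 ≤ j → j < k → h (a - 1, c + j) = h (a, c) + j + 1 ∧
          h (a - 1, c - j) = h (a, c) - j + 1 := fun j h0 h1 =>
        ⟨H3 j (by omega) h1, by have := H3 (-j) (by omega) (by omega)
                                rw [← sub_eq_add_neg] at this
                                linarith⟩
      have d1 : ((a, c + k) : V) ∈ D := by
        refine E2_nbr (hcore (k - 1) (by omega) (by omega)) ?_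
        unfold Adj
        simp only [sub_self, abs_zero, zero_add]
        rw [show c + (k : ℤ) - (c + (k - 1)) = 1 by ring, abs_one]
      have d2 : ((a, c - (k + 1)) : V) ∈ D := by
        refine E2_nbr (hcore (-k) le_rfl (by omega)) ?_
        unfold Adj
        simp only [sub_self, abs_zero, zero_add]
        rw [show c - ((k : ℤ) + 1) - (c + -k) = -1 by ring, abs_neg, abs_one]
      have d3 : ((a, c + (k + 1)) : V) ∈ D := by
        have h1 := hR.low _ d2 (by simp only; omega)
        have h2 : th c (a, c - (k + 1)) = (a, c + (k + 1)) := by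
          unfold th
          simp only [Prod.mk.injEq, true_and]
          ring
        rwa [h2] at h1
      have h5 := hstep _ d3 _ d1 (by
        unfold Adj
        simp only [sub_self, abs_zero, zero_add]
        rw [show c + ((k : ℤ) + 1) - (c + k) = 1 by ring, abs_one])
      have h6 := H1 k (by omega) le_rfl
      rcases (abs_eq (by norm_num : (0 : ℤ) ≤ 1)).1 h5 with h7 | h7
      · right
        exact ⟨g1, g2, g3, by linarith, H4⟩
      · left
        exact ⟨g1, g2, g3, by linarith, H4⟩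
    · intro H
      obtain ⟨g1, g2, g3, g4⟩ : (∀ j : ℤ, 0 ≤ j → j ≤ k → h (a, c + j) = h (a, c) + j ∧
            h (a, c - j) = h (a, c) - j) ∧
          (∀ j : ℤ, 0 ≤ j → j < k → h (a + 1, c + j) = h (a, c) + j + 1 ∧
            h (a + 1, c - j) = h (a, c) - j + 1) ∧
          (∀ j : ℤ, 0 ≤ j → j < k → h (a - 1, c + j) = h (a, c) + j + 1 ∧
            h (a - 1, c - j) = h (a, c) - j + 1) ∧
          h (a, c - (k + 1)) = h (a, c) - k + 1 := by
        rcases H with ⟨H1, H2, H3, H4, H5⟩ | ⟨H1, H2, H3, H4, H5⟩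
        · exact ⟨H1, H2, H3, H5⟩
        · exact ⟨H1, H2, H3, H5⟩
      have side : ∀ a' : ℤ, |a' - a| = 1 →
          (∀ j : ℤ, 0 ≤ j → j < k → h (a', c + j) = h (a, c) + j + 1 ∧
            h (a', c - j) = h (a, c) - j + 1) →
          ∀ j : ℤ, -k ≤ j → j < k → h (a', c + j) = h (a, c) + j + 1 := by
        intro a' ha' g j h1 h2
        rcases le_or_gt 0 j with h3 | h3
        · exact (g j h3 h2).1
        rcases lt_or_eq_of_le h1 with h4 | h4
        · have h5 := (g (-j) (by omega) (by omega)).2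
          rw [sub_neg_eq_add] at h5
          linarith
        · subst h4
          have m1 : ((a', c + -k) : V) ∈ D := by
            refine E2_nbr (hcore (-k) le_rfl (by omega)) ?_
            unfold Adj
            simp only [sub_self, abs_zero, add_zero]
            exact ha'
          have m2 : ((a', c - (k - 1)) : V) ∈ D := by
            refine E2_nbr (hcore (-(k - 1)) (by omega) (by omega)) ?_
            unfold Adj
            simp only
            rw [ha', show c - ((k : ℤ) - 1) - (c + -(k - 1)) = 0 by ring, abs_zero, add_zero]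
          have s1 := hstep _ m1 _ (hcD (-k) le_rfl (by omega)) (by
            unfold Adj
            simp only [sub_self, abs_zero, add_zero]
            exact ha')
          have s2 := hstep _ m1 _ m2 (by
            unfold Adj
            simp only [sub_self, abs_zero, zero_add]
            rw [show c + -(k : ℤ) - (c - (k - 1)) = -1 by ring, abs_neg, abs_one])
          have v1 := (g1 k (by omega) le_rfl).2
          rw [sub_eq_add_neg] at v1
          have v2 := (g (k - 1) (by omega) (by omega)).2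
          rw [v1] at s1
          rw [v2] at s2
          rcases (abs_eq (by norm_num : (0 : ℤ) ≤ 1)).1 s1 with e1 | e1 <;>
          rcases (abs_eq (by norm_num : (0 : ℤ) ≤ 1)).1 s2 with e2 | e2 <;> linarith
      refine ⟨fun j h1 h2 => ?_, side (a + 1) (by simp) g2, side (a - 1) (by simp) g3, g4⟩
      rcases le_or_gt 0 j with h3 | h3
      · exact (g1 j h3 h2).1
      · have h5 := (g1 (-j) (by omega) (by omega)).2
        rw [sub_neg_eq_add] at h5
        linarith
  have hex : ¬ ((∀ v ∈ SE a c k, pp c h v = pE a c k (h (a, c)) 0 v ∧ qq c h v = qE c k 0 v) ∧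
      (∀ v ∈ SE a c k, pp c h v = pE a c k (h (a, c)) 1 v ∧ qq c h v = qE c k 1 v)) := by
    rw [E2_iff, E2_iff]
    rintro ⟨⟨-, -, -, h1, -⟩, -, -, -, h2, -⟩
    linarith
  rw [propext key]
  unfold ind
  by_cases q0 : ∀ v ∈ SE a c k, pp c h v = pE a c k (h (a, c)) 0 v ∧ qq c h v = qE c k 0 v
  · have q1 := fun q => hex ⟨q0, q⟩
    rw [if_pos (Or.inl q0), if_pos q0, if_neg q1, add_zero]
  · by_cases q1 : ∀ v ∈ SE a c k, pp c h v = pE a c k (h (a, c)) 1 v ∧ qq c h v = qE c k 1 v
    · rw [if_pos (Or.inr q1), if_neg q0, if_pos q1, zero_add]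
    · rw [if_neg (fun q => q.elim q0 q1), if_neg q0, if_neg q1, zero_add]

end MD
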