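import Pool.Agent.Helper35.MD.E2

/-!
MDV piece E3: the reflected event.
-/

open Finset RP4 KP

namespace MD

private lemma E3_nbr {D : Finset V} {u v : V} (hv : v ∈ core D) (ha : Adj u v) : u ∈ D := by
  by_contra hu
  unfold core at hv
  obtain ⟨h1, h2⟩ := Finset.mem_sdiff.1 hv
  exact h2 (mem_bdry.2 ⟨h1, u, ha, hu⟩)

private lemma E3_sub {D : Finset V} {v : V} (hv : v ∈ core D) : v ∈ D ∧ v ∉ bdry D := by
  unfold core at hv
  exact Finset.mem_sdiff.1 hv

private lemma E3_mem {a c : ℤ} {k : ℕ} {v : V} : v ∈ SE a c k ↔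
    (∃ j : ℤ, 0 ≤ j ∧ j ≤ k ∧ v = (a, c + j)) ∨ (∃ j : ℤ, 0 ≤ j ∧ j < k ∧ v = (a + 1, c + j)) ∨
      (∃ j : ℤ, 0 ≤ j ∧ j < k ∧ v = (a - 1, c + j)) ∨ v = (a, c + k + 1) := by
  unfold SE
  simp only [Finset.mem_union, Finset.mem_image, Finset.mem_Icc, Finset.mem_Ico,
    Finset.mem_singleton, or_assoc]
  constructor
  · rintro (⟨j, ⟨h1, h2⟩, rfl⟩ | ⟨j, ⟨h1, h2⟩, rfl⟩ | ⟨j, ⟨h1, h2⟩, rfl⟩ | rfl)
    · exact Or.inl ⟨j, h1, h2, rfl⟩
    · exact Or.inr (Or.inl ⟨j, h1, h2, rfl⟩)
    · exact Or.inr (Or.inr (Or.inl ⟨j, h1, h2, rfl⟩))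
    · exact Or.inr (Or.inr (Or.inr rfl))
  · rintro (⟨j, h1, h2, rfl⟩ | ⟨j, h1, h2, rfl⟩ | ⟨j, h1, h2, rfl⟩ | rfl)
    · exact Or.inl ⟨j, ⟨h1, h2⟩, rfl⟩
    · exact Or.inr (Or.inl ⟨j, ⟨h1, h2⟩, rfl⟩)
    · exact Or.inr (Or.inr (Or.inl ⟨j, ⟨h1, h2⟩, rfl⟩))
    · exact Or.inr (Or.inr (Or.inr rfl))

private lemma E3_th (c a j : ℤ) : th c (a, c + j) = (a, c - j) := by
  unfold th
  simp only [Prod.mk.injEq, true_and]
  ring

private lemma E3_pt (a c : ℤ) (k : ℕ) (i : ℤ) :
    pt (a, c - k + 1) e2 i = (a, c + (i + 1 - k)) := by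
  unfold pt e2
  simp only [Prod.mk.injEq]
  constructor <;> ring

private lemma E3_s1 (a b : ℤ) : pt (a, b) (prp e2) 1 = (a + 1, b) := by
  unfold pt prp e2
  simp only [Prod.mk.injEq]
  constructor <;> ring

private lemma E3_s2 (a b : ℤ) : pt (a, b) (prp e2) (-1) = (a - 1, b) := by
  unfold pt prp e2
  simp only [Prod.mk.injEq]
  constructor <;> ring

private lemma E3_iff {a c : ℤ} {k : ℕ} (b t : ℤ) (h : V → ℤ) :
    (∀ v ∈ SE a c k, pp c h v = pE a c k b t v ∧ qq c h v = -qE c k t v) ↔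
      (∀ j : ℤ, 0 ≤ j → j ≤ k → h (a, c + j) = b - j ∧ h (a, c - j) = b + j) ∧
      (∀ j : ℤ, 0 ≤ j → j < k → h (a + 1, c + j) = b - j + 1 ∧ h (a + 1, c - j) = b + j + 1) ∧
      (∀ j : ℤ, 0 ≤ j → j < k → h (a - 1, c + j) = b - j + 1 ∧ h (a - 1, c - j) = b + j + 1) ∧
      h (a, c + (k + 1)) = b - k + 1 ∧ h (a, c - (k + 1)) = b + k - 1 + 2 * t := by
  have hcol : ∀ j : ℤ, j ≤ k → (pp c h (a, c + j) = pE a c k b t (a, c + j) ∧
      qq c h (a, c + j) = -qE c k t (a, c + j) ↔
        h (a, c + j) = b - j ∧ h (a, c - j) = b + j) := by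
    intro j hj
    unfold pp qq pE qE
    rw [E3_th]
    simp only [if_true]
    rw [if_neg (by omega : ¬ c + j = c + k + 1), if_neg (by omega : ¬ c + j = c + k + 1)]
    constructor
    · rintro ⟨h1, h2⟩
      constructor <;> linarith
    · rintro ⟨h1, h2⟩
      constructor <;> linarith
  have hside : ∀ a' : ℤ, a' ≠ a → ∀ j : ℤ, j < k → (pp c h (a', c + j) = pE a c k b t (a', c + j) ∧
      qq c h (a', c + j) = -qE c k t (a', c + j) ↔
        h (a', c + j) = b - j + 1 ∧ h (a', c - j) = b + j + 1) := by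
    intro a' ha j hj
    unfold pp qq pE qE
    rw [E3_th]
    simp only
    rw [if_neg ha, if_neg (by omega : ¬ c + j = c + k + 1)]
    constructor
    · rintro ⟨h1, h2⟩
      constructor <;> linarith
    · rintro ⟨h1, h2⟩
      constructor <;> linarith
  have hend : (pp c h (a, c + (k + 1)) = pE a c k b t (a, c + (k + 1)) ∧
      qq c h (a, c + (k + 1)) = -qE c k t (a, c + (k + 1)) ↔
        h (a, c + (k + 1)) = b - k + 1 ∧ h (a, c - (k + 1)) = b + k - 1 + 2 * t) := by
    unfold pp qq pE qE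
    rw [E3_th]
    simp only [if_true]
    have hc : c + ((k : ℤ) + 1) = c + k + 1 := by ring
    rw [if_pos hc, if_pos hc]
    constructor
    · rintro ⟨h1, h2⟩
      constructor <;> linarith
    · rintro ⟨h1, h2⟩
      constructor <;> linarith
  have hlast : ((a, c + k + 1) : V) = (a, c + (k + 1)) := by
    rw [add_assoc]
  constructor
  · intro H
    refine ⟨fun j h0 h1 => (hcol j h1).1 (H _ (E3_mem.2 (Or.inl ⟨j, h0, h1, rfl⟩))),
      fun j h0 h1 => (hside _ (by omega) j h1).1 (H _ (E3_mem.2 (Or.inr (Or.inl ⟨j, h0, h1, rfl⟩)))),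
      fun j h0 h1 => (hside _ (by omega) j h1).1
        (H _ (E3_mem.2 (Or.inr (Or.inr (Or.inl ⟨j, h0, h1, rfl⟩))))),
      hend.1 (H _ (E3_mem.2 (Or.inr (Or.inr (Or.inr hlast.symm)))))⟩
  · rintro ⟨H1, H2, H3, H4⟩ v hv
    rcases E3_mem.1 hv with ⟨j, h0, h1, rfl⟩ | ⟨j, h0, h1, rfl⟩ | ⟨j, h0, h1, rfl⟩ | rfl
    · exact (hcol j h1).2 (H1 j h0 h1)
    · exact (hside _ (by omega) j h1).2 (H2 j h0 h1)
    · exact (hside _ (by omega) j h1).2 (H3 j h0 h1)
    · rw [hlast]
      exact hend.2 H4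

private lemma E3_up {a c : ℤ} {k : ℕ} (hk : 1 ≤ k) (h : V → ℤ) :
    Up h (a, c - k + 1) e2 (2 * k) ↔
      (∀ j : ℤ, -k ≤ j → j ≤ k → h (a, c + j) = h (a, c) - j) ∧
      (∀ j : ℤ, -k < j → j ≤ k → h (a + 1, c + j) = h (a, c) - j + 1) ∧
      (∀ j : ℤ, -k < j → j ≤ k → h (a - 1, c + j) = h (a, c) - j + 1) ∧
      h (a, c + (k + 1)) = h (a, c) - k + 1 := by
  have hx : ((a, c - k + 1) : V) = (a, c + (-(k : ℤ) + 1)) := by
    simp only [Prod.mk.injEq, true_and]
    ring
  constructor
  · intro H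
    have h0 := H.site (k - 1) (by omega) (by push_cast; omega)
    rw [E3_pt, show (k : ℤ) - 1 + 1 - k = 0 by ring, add_zero] at h0
    have e0 : h (a, c - k + 1) = h (a, c) + k - 1 := by linarith
    have hcol : ∀ j : ℤ, -k < j → j ≤ k → h (a, c + j) = h (a, c) - j := by
      intro j h1 h2
      have h3 := H.site (j + k - 1) (by omega) (by push_cast; omega)
      rw [E3_pt, e0] at h3
      rw [show j + (k : ℤ) - 1 + 1 - k = j by ring] at h3
      linarith
    refine ⟨fun j h1 h2 => ?_, fun j h1 h2 => ?_, fun j h1 h2 => ?_, ?_⟩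
    · rcases lt_or_eq_of_le h1 with h3 | h3
      · exact hcol j h3 h2
      · have h4 := H.head
        rw [E3_pt, e0] at h4
        rw [show (-1 : ℤ) + 1 - k = -k by ring] at h4
        rw [← h3]
        linarith
    · have h3 := H.side1 (j + k - 1) (by omega) (by push_cast; omega)
      rw [E3_pt, E3_s1, e0] at h3
      rw [show j + (k : ℤ) - 1 + 1 - k = j by ring] at h3
      linarith
    · have h3 := H.side2 (j + k - 1) (by omega) (by push_cast; omega)
      rw [E3_pt, E3_s2, e0] at h3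
      rw [show j + (k : ℤ) - 1 + 1 - k = j by ring] at h3
      linarith
    · have h4 := H.tail
      rw [E3_pt, e0] at h4
      push_cast at h4
      rw [show 2 * (k : ℤ) + 1 - k = k + 1 by ring] at h4
      linarith
  · rintro ⟨H1, H2, H3, H4⟩
    have e0 : h (a, c - k + 1) = h (a, c) + k - 1 := by
      rw [hx, H1 _ (by omega) (by omega)]
      ring
    refine ⟨by omega, fun i h1 h2 => ?_, fun i h1 h2 => ?_, fun i h1 h2 => ?_, ?_, ?_⟩
    · push_cast at h2
      rw [E3_pt, H1 _ (by omega) (by omega), e0]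
      ring
    · push_cast at h2
      rw [E3_pt, E3_s1, H2 _ (by omega) (by omega), e0]
      ring
    · push_cast at h2
      rw [E3_pt, E3_s2, H3 _ (by omega) (by omega), e0]
      ring
    · rw [E3_pt, H1 _ (by omega) (by omega), e0]
      ring
    · rw [E3_pt, e0]
      push_cast
      rw [show 2 * (k : ℤ) + 1 - k = k + 1 by ring, H4]
      ring

/-- the reflected segment `(a, c - k + 1), ..., (a, c + k)` is also in the interior: its points except `(a, c + k)` belong to the first segment; and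
`(a, c + k) = th c (a, c - k)` is in `D` by `Rfl.low`, not in `bdry D` by `Rfl.bd` (`(a, c - k)` is not in `bdry D`) -/
theorem inD_refl {D : Finset V} {c : ℤ} (hR : Rfl D c) {a : ℤ} {k : ℕ} (hk : 1 ≤ k)
    (hI : InD D (a, c - k) e2 (2 * k)) : InD D (a, c - k + 1) e2 (2 * k) := by
  have e : ∀ i : ℤ, pt (a, c - k) e2 i = (a, c - k + i) := fun i => by
    unfold pt e2
    simp only [Prod.mk.injEq]
    constructor <;> ring
  have hz : ((a, c - k) : V) ∈ core D := by
    have h1 := hI 0 le_rfl (by push_cast; omega)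
    rwa [e, add_zero] at h1
  intro i h0 h1
  push_cast at h1
  rw [E3_pt]
  rcases lt_or_eq_of_le (show i ≤ 2 * k - 1 by omega) with h2 | h2
  · have h3 := hI (i + 1) (by omega) (by push_cast; omega)
    rw [e] at h3
    rwa [show c + (i + 1 - (k : ℤ)) = c - k + (i + 1) by ring]
  · have h3 : th c (a, c - k) = (a, c + (i + 1 - k)) := by
      unfold th
      simp only [Prod.mk.injEq, true_and]
      rw [h2]
      ring
    have h4 : th c (a, c + (i + 1 - k)) = (a, c - k) := by
      rw [← h3, th_th]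
    have h5 : ((a, c + (i + 1 - k)) : V) ∈ D := by
      rw [← h3]
      exact hR.low _ (E3_sub hz).1 (by simp only; omega)
    unfold core
    refine Finset.mem_sdiff.2 ⟨h5, fun hb => ?_⟩
    have h6 := hR.bd _ hb (by simp only; omega) (by rw [h4]; exact (E3_sub hz).1)
    rw [h4] at h6
    exact (E3_sub hz).2 h6

/-- The event `Up h (a, c - k + 1) e2 (2 k)`: rows `c - k + 1, ..., c + k`, heights decreasing upwards, outer neighbours one higher.  With `b = h (a, c)`:
`h (a, c + j) = b - j` for `-k ≤ j ≤ k` (for `j = -k` the outer neighbour below), side neighbours `b - j + 1` for `-k + 1 ≤ j ≤ k`,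
`h (a, c + k + 1) = b - k + 1`; `(a, c - k - 1) ∈ D` (neighbour of the interior point `(a, c - k)`) adjacent to `(a, c - k)`, so its height is `b + k ± 1`.  As in
`even_up` with `-qq`: `+`: `pp = 2 b + 2`, `qq = -2 k`; `-`: `pp = 2 b`, `qq = -(2 k - 2)`.  `←`: the side neighbours `(a ± 1, c + k)` are in `D`
(neighbours of `(a, c + k)`, interior by `inD_refl`), adjacent to `(a, c + k)` of height `b - k` and `(a ± 1, c + k - 1)` of height `b - k + 2`. -/
theorem even_refl {D : Finset V} {c : ℤ} (hR : Rfl D c) {a : ℤ} {k : ℕ} (hk : 1 ≤ k)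
    (hI : InD D (a, c - k) e2 (2 * k)) {h : V → ℤ} (hh : h ∈ Om D) :
    ind (Up h (a, c - k + 1) e2 (2 * k)) =
      ind (∀ v ∈ SE a c k, pp c h v = pE a c k (h (a, c)) 0 v ∧ qq c h v = -qE c k 0 v) +
      ind (∀ v ∈ SE a c k, pp c h v = pE a c k (h (a, c)) 1 v ∧ qq c h v = -qE c k 1 v) := by
  have hstep := (mem_Om.1 hh).1.step
  have hI' := inD_refl hR hk hI
  have hcore : ∀ j : ℤ, -k ≤ j → j ≤ k → ((a, c + j) : V) ∈ core D := by
    intro j h1 h2
    rcases lt_or_eq_of_le h1 with h5 | h5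
    · have h3 := hI' (j + k - 1) (by omega) (by push_cast; omega)
      rw [E3_pt, show j + (k : ℤ) - 1 + 1 - k = j by ring] at h3
      exact h3
    · have h3 := hI 0 le_rfl (by push_cast; omega)
      have h4 : pt (a, c - k) e2 0 = (a, c + j) := by
        unfold pt e2
        simp only [Prod.mk.injEq]
        constructor
        · ring
        · rw [← h5]
          ring
      rwa [h4] at h3
  have hcD : ∀ j : ℤ, -k ≤ j → j ≤ k → ((a, c + j) : V) ∈ D := fun j h1 h2 => (E3_sub (hcore j h1 h2)).1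
  have key : Up h (a, c - k + 1) e2 (2 * k) ↔
      (∀ v ∈ SE a c k, pp c h v = pE a c k (h (a, c)) 0 v ∧ qq c h v = -qE c k 0 v) ∨
      (∀ v ∈ SE a c k, pp c h v = pE a c k (h (a, c)) 1 v ∧ qq c h v = -qE c k 1 v) := by
    rw [E3_up hk, E3_iff, E3_iff]
    constructor
    · rintro ⟨H1, H2, H3, H4⟩
      have g1 : ∀ j : ℤ, 0 ≤ j → j ≤ k → h (a, c + j) = h (a, c) - j ∧
          h (a, c - j) = h (a, c) + j := fun j h0 h1 =>
        ⟨H1 j (by omega) h1, by have := H1 (-j) (by omega) (by omega)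
                                rw [← sub_eq_add_neg] at this
                                linarith⟩
      have g2 : ∀ j : ℤ, 0 ≤ j → j < k → h (a + 1, c + j) = h (a, c) - j + 1 ∧
          h (a + 1, c - j) = h (a, c) + j + 1 := fun j h0 h1 =>
        ⟨H2 j (by omega) (by omega), by have := H2 (-j) (by omega) (by omega)
                                        rw [← sub_eq_add_neg] at this
                                        linarith⟩
      have g3 : ∀ j : ℤ, 0 ≤ j → j < k → h (a - 1, c + j) = h (a, c) - j + 1 ∧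
          h (a - 1, c - j) = h (a, c) + j + 1 := fun j h0 h1 =>
        ⟨H3 j (by omega) (by omega), by have := H3 (-j) (by omega) (by omega)
                                        rw [← sub_eq_add_neg] at this
                                        linarith⟩
      have d1 : ((a, c - k) : V) ∈ D := by
        have := hcD (-k) le_rfl (by omega)
        rwa [← sub_eq_add_neg] at this
      have d2 : ((a, c - (k + 1)) : V) ∈ D := by
        refine E3_nbr (hcore (-k) le_rfl (by omega)) ?_
        unfold Adj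
        simp only [sub_self, abs_zero, zero_add]
        rw [show c - ((k : ℤ) + 1) - (c + -k) = -1 by ring, abs_neg, abs_one]
      have h5 := hstep _ d2 _ d1 (by
        unfold Adj
        simp only [sub_self, abs_zero, zero_add]
        rw [show c - ((k : ℤ) + 1) - (c - k) = -1 by ring, abs_neg, abs_one])
      have h6 := (g1 k (by omega) le_rfl).2
      rcases (abs_eq (by norm_num : (0 : ℤ) ≤ 1)).1 h5 with h7 | h7
      · right
        exact ⟨g1, g2, g3, H4, by linarith⟩
      · left
        exact ⟨g1, g2, g3, H4, by linarith⟩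
    · intro H
      obtain ⟨g1, g2, g3, g4⟩ : (∀ j : ℤ, 0 ≤ j → j ≤ k → h (a, c + j) = h (a, c) - j ∧
            h (a, c - j) = h (a, c) + j) ∧
          (∀ j : ℤ, 0 ≤ j → j < k → h (a + 1, c + j) = h (a, c) - j + 1 ∧
            h (a + 1, c - j) = h (a, c) + j + 1) ∧
          (∀ j : ℤ, 0 ≤ j → j < k → h (a - 1, c + j) = h (a, c) - j + 1 ∧
            h (a - 1, c - j) = h (a, c) + j + 1) ∧
          h (a, c + (k + 1)) = h (a, c) - k + 1 := by
        rcases H with ⟨H1, H2, H3, H4, H5⟩ | ⟨H1, H2, H3, H4, H5⟩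
        · exact ⟨H1, H2, H3, H4⟩
        · exact ⟨H1, H2, H3, H4⟩
      have side : ∀ a' : ℤ, |a' - a| = 1 →
          (∀ j : ℤ, 0 ≤ j → j < k → h (a', c + j) = h (a, c) - j + 1 ∧
            h (a', c - j) = h (a, c) + j + 1) →
          ∀ j : ℤ, -k < j → j ≤ k → h (a', c + j) = h (a, c) - j + 1 := by
        intro a' ha' g j h1 h2
        rcases lt_or_eq_of_le h2 with h4 | h4
        · rcases le_or_gt 0 j with h3 | h3
          · exact (g j h3 h4).1
          · have h5 := (g (-j) (by omega) (by omega)).2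
            rw [sub_neg_eq_add] at h5
            linarith
        · subst h4
          have m1 : ((a', c + k) : V) ∈ D := by
            refine E3_nbr (hcore k (by omega) le_rfl) ?_
            unfold Adj
            simp only [sub_self, abs_zero, add_zero]
            exact ha'
          have m2 : ((a', c + (k - 1)) : V) ∈ D := by
            refine E3_nbr (hcore (k - 1) (by omega) (by omega)) ?_
            unfold Adj
            simp only [sub_self, abs_zero, add_zero]
            exact ha'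
          have s1 := hstep _ m1 _ (hcD k (by omega) le_rfl) (by
            unfold Adj
            simp only [sub_self, abs_zero, add_zero]
            exact ha')
          have s2 := hstep _ m1 _ m2 (by
            unfold Adj
            simp only [sub_self, abs_zero, zero_add]
            rw [show c + (k : ℤ) - (c + (k - 1)) = 1 by ring, abs_one])
          have v1 := (g1 k (by omega) le_rfl).1
          have v2 := (g (k - 1) (by omega) (by omega)).1
          rw [v1] at s1
          rw [v2] at s2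
          rcases (abs_eq (by norm_num : (0 : ℤ) ≤ 1)).1 s1 with e1 | e1 <;>
          rcases (abs_eq (by norm_num : (0 : ℤ) ≤ 1)).1 s2 with e2 | e2 <;> linarith
      refine ⟨fun j h1 h2 => ?_, side (a + 1) (by simp) g2, side (a - 1) (by simp) g3, g4⟩
      rcases le_or_gt 0 j with h3 | h3
      · exact (g1 j h3 h2).1
      · have h5 := (g1 (-j) (by omega) (by omega)).2
        rw [sub_neg_eq_add] at h5
        linarith
  have hex : ¬ ((∀ v ∈ SE a c k, pp c h v = pE a c k (h (a, c)) 0 v ∧ qq c h v = -qE c k 0 v) ∧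
      (∀ v ∈ SE a c k, pp c h v = pE a c k (h (a, c)) 1 v ∧ qq c h v = -qE c k 1 v)) := by
    rw [E3_iff, E3_iff]
    rintro ⟨⟨-, -, -, -, h1⟩, -, -, -, -, h2⟩
    linarith
  rw [propext key]
  unfold ind
  by_cases q0 : ∀ v ∈ SE a c k, pp c h v = pE a c k (h (a, c)) 0 v ∧ qq c h v = -qE c k 0 v
  · have q1 := fun q => hex ⟨q0, q⟩
    rw [if_pos (Or.inl q0), if_pos q0, if_neg q1, add_zero]
  · by_cases q1 : ∀ v ∈ SE a c k, pp c h v = pE a c k (h (a, c)) 1 v ∧ qq c h v = -qE c k 1 v
    · rw [if_pos (Or.inr q1), if_neg q0, if_pos q1, zero_add]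
    · rw [if_neg (fun q => q.elim q0 q1), if_neg q0, if_neg q1, zero_add]

end MD
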