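import Pool.Agent.Helper35.MD.E3

/-!
MDV piece E4: signs of `Yt`.
-/

open Finset RP4 KP

namespace MD

private lemma SE_ge_h81 {a c : ℤ} {k : ℕ} {v : V} (hv : v ∈ SE a c k) : c ≤ v.2 := by
  unfold SE at hv
  simp only [mem_union, mem_image, mem_Icc, mem_Ico, mem_singleton] at hv
  rcases hv with ((⟨j, hj, rfl⟩ | ⟨j, hj, rfl⟩) | ⟨j, hj, rfl⟩) | rfl
  all_goals
    dsimp only
    omega

private lemma mem_SE_h81 (a c : ℤ) (k : ℕ) : ((a, c) : V) ∈ SE a c k := by
  unfold SE
  simp only [mem_union, mem_image, mem_Icc, mem_Ico, mem_singleton]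
  refine Or.inl (Or.inl (Or.inl ⟨0, ⟨le_rfl, Int.natCast_nonneg k⟩, ?_⟩))
  rw [add_zero]

private lemma even_key_h81 {D : Finset V} (hD : BdryPar D 0) {c : ℤ} (hR : Rfl D c) {w : V}
    (hw : c ≤ w.2) (a : ℤ) {k : ℕ} (hk : 1 ≤ k) (t : ℤ) (ht0 : 0 ≤ t) (ht1 : t ≤ 1) :
    0 ≤ ∑ h ∈ Om D,
      (ind (∀ v ∈ SE a c k, pp c h v = pE a c k (h (a, c)) t v ∧ qq c h v = qE c k t v) -
      ind (∀ v ∈ SE a c k, pp c h v = pE a c k (h (a, c)) t v ∧ qq c h v = -qE c k t v)) *
        (h w : ℝ) := by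
  classical
  rw [← Finset.sum_fiberwise_of_maps_to (t := (Om D).image (fun h => h (a, c)))
    (g := fun h => h (a, c)) (fun h hh => mem_image_of_mem (fun h : V → ℤ => h (a, c)) hh)]
  refine sum_nonneg fun b _ => ?_
  have h1 : ∀ (h : V → ℤ), h (a, c) ≠ b → ∀ η : V → ℤ,
      ind (∀ v ∈ SE a c k, pp c h v = pE a c k b t v ∧ qq c h v = η v) = 0 := by
    intro h hb η
    unfold ind
    rw [if_neg]
    intro h2
    have h3 := (h2 (a, c) (mem_SE_h81 a c k)).1
    have h4 : th c ((a, c) : V) = (a, c) := by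
      unfold th
      ext
      · rfl
      · dsimp only
        ring
    unfold pp pE at h3
    rw [h4, if_pos rfl, if_neg (by dsimp only; omega)] at h3
    omega
  have h2 := refl_pos hD hR (SE a c k) (fun v hv => SE_ge_h81 hv) (pE a c k b t) (qE c k t) (by
      rcases le_or_gt 0 b with hb | hb
      · left
        intro v _
        unfold pE
        split_ifs <;> omega
      · right
        intro v _
        unfold pE
        split_ifs <;> omega) (by
      intro v hv
      have h3 := SE_ge_h81 hv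
      unfold qE
      split_ifs <;> omega) hw
  refine h2.trans_eq ?_
  rw [sum_filter]
  refine sum_congr rfl fun h _ => ?_
  split_ifs with hb
  · rw [hb]
  · rw [h1 h hb (qE c k t), h1 h hb (fun v => -qE c k t v), sub_zero, zero_mul]

/-- `even_up`, `even_refl`; for each `t ∈ {0, 1}` and each value `b` of `h (a, c)` use `refl_pos` with `S = SE a c k`, `π = pE a c k b t`, `η = qE c k t`:
`π ≥ 0` on `S` if `b ≥ 0`, `π ≤ 0` if `b ≤ -1`; `η ≥ 0` on `S` (`k ≥ 1`); sum over the finitely many values `b` (`(a, c) ∈ S`, `pp c h (a, c) = 2 h (a, c)`). -/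
theorem even_pair {D : Finset V} (hD : BdryPar D 0) {c : ℤ} (hR : Rfl D c) {w : V} (hw : c ≤ w.2) {a : ℤ} {k : ℕ}
    (hk : 1 ≤ k) (hI : InD D (a, c - k) e2 (2 * k)) :
    0 ≤ ∑ h ∈ Om D, (ind (Up h (a, c + k - 1) (nd e2) (2 * k)) - ind (Up h (a, c - k + 1) e2 (2 * k))) *
      (h w : ℝ) := by
  have h0 := even_key_h81 hD hR hw a hk 0 le_rfl zero_le_one
  have h1 := even_key_h81 hD hR hw a hk 1 zero_le_one le_rfl
  refine (add_nonneg h0 h1).trans_eq ?_
  rw [← sum_add_distrib]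
  refine sum_congr rfl fun h hh => ?_
  rw [even_up hR hk hI hh, even_refl hR hk hI hh]
  ring

end MD
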