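import Pool.Agent.Helper35.MD.E4
import Pool.Agent.Helper35.MD.E1
import Pool.Agent.Helper35.MD.B4
import Pool.Agent.Helper35.MD.B1

/-!
MDV piece E5: signs of `Yt`.
-/

open Finset RP4 KP

namespace MD

private lemma E5_ind_true {p q : Prop} (h : p) : ind (p ∧ q) = ind q := by
  have : (p ∧ q) = q := propext ⟨fun x => x.2, fun x => ⟨h, x⟩⟩
  rw [this]

private lemma E5_Yt_zero {D : Finset V} {w : V} {a p : ℤ} {l : ℕ} (h : ¬ InD D (a, p) e2 l) :
    Yt D w a p l = 0 := by
  unfold Yt avg
  rw [Finset.sum_eq_zero, zero_div]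
  intro g _
  have : ind (InD D (a, p) e2 l ∧ Down g (a, p) e2 l) = 0 := by
    unfold ind
    simp [h]
  rw [this, zero_mul]

private lemma E5_Yt_of {D : Finset V} {w : V} {a p : ℤ} {l : ℕ} (h : InD D (a, p) e2 l) :
    Yt D w a p l = avg (Om D) (fun g => ind (Down g (a, p) e2 l) * (g w : ℝ)) := by
  unfold Yt
  congr 1
  funext g
  rw [E5_ind_true h]

private lemma E5_tT_of {D : Finset V} {w x d : V} {l : ℕ} (h : InD D x d l) :
    tT D w x d l = avg (Om D) (fun g => ind (Up g x d l) * (g w : ℝ)) := by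
  unfold tT
  congr 1
  funext g
  rw [E5_ind_true h]

private lemma E5_avg_sub {S : Finset (V → ℤ)} {F G H : (V → ℤ) → ℝ}
    (h : 0 ≤ ∑ g ∈ S, (F g - G g) * H g) :
    0 ≤ avg S (fun g => F g * H g) - avg S (fun g => G g * H g) := by
  unfold avg
  rw [← sub_div, ← Finset.sum_sub_distrib]
  refine div_nonneg ?_ (Nat.cast_nonneg _)
  refine le_of_le_of_eq h (Finset.sum_congr rfl (fun g _ => ?_))
  ring

private lemma E5_down (D : Finset V) (w x d : V) (l : ℕ) :
    avg (Om D) (fun g => ind (Down g x d l) * (g w : ℝ)) =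
      -avg (Om D) (fun g => ind (Up g x d l) * (g w : ℝ)) := by
  rw [← avg_neg_Om (D := D) (fun g => ind (Up g x d l) * (g w : ℝ))]
  unfold avg
  rw [← neg_div, ← Finset.sum_neg_distrib]
  congr 1
  refine Finset.sum_congr rfl (fun g _ => ?_)
  change ind (Down g x d l) * (g w : ℝ) = -(ind (Down g x d l) * (((-g) w : ℤ) : ℝ))
  rw [Pi.neg_apply]
  push_cast
  ring

private lemma E5_PT_nonneg (D : Finset V) (x d : V) (l : ℕ) : 0 ≤ PT D x d l :=
  div_nonneg (Finset.sum_nonneg (fun _ _ => ind_nonneg _)) (Nat.cast_nonneg _)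

private lemma E5_top {D : Finset V} {w : V} {a p q : ℤ} {l : ℕ} (hq : q = p + l - 1) :
    tT D w (a, q) (nd e2) l ≤ Yt D w a p l := by
  rw [hq, tT_top]
  have h1 := ind_nonneg (Seg (a, p) e2 l w)
  have h2 := E5_PT_nonneg D (a, p) e2 l
  have h3 := mul_nonneg h1 h2
  linarith

private lemma E5_pt {a p q : ℤ} {l : ℕ} (hq : q = p + l - 1) :
    pt ((a, p) : V) e2 ((l : ℤ) - 1) = (a, q) := by
  rw [hq]
  unfold pt e2
  ext
  · simp
  · simp only
    ring

private lemma E5_inD {D : Finset V} {a p q : ℤ} {l : ℕ} (hq : q = p + l - 1)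
    (h : InD D (a, p) e2 l) : InD D (a, q) (nd e2) l := by
  have := (inD_rev D (a, p) e2 l).2 h
  rwa [E5_pt hq] at this

/-- Odd length.  If the segment is not in the interior `Yt = 0`.  Otherwise `odd_pair` says `0 ≤ Yt + X`, where
`X = - E[1_{Down h (a, c + k) (nd e2) (2k+1)} h_w] = E[1_{Up h (a, c + k) (nd e2) (2k+1)} h_w] = tT D w (a, c + k) (nd e2) (2k+1)` (symmetry, `inD_rev`), and
`tT_top` gives `X = Yt - 2 ind * PT ≤ Yt`. -/
theorem Yt_odd {D : Finset V} (hD : BdryPar D 0) {c : ℤ} (hR : Rfl D c) {w : V} (hw : c ≤ w.2) (a : ℤ) (k : ℕ) :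
    0 ≤ Yt D w a (c - k) (2 * k + 1) := by
  by_cases hI : InD D (a, c - k) e2 (2 * k + 1)
  · have hq : c + (k : ℤ) = c - k + ((2 * k + 1 : ℕ) : ℤ) - 1 := by
      push_cast
      ring
    have h1 := E5_avg_sub (odd_pair hD hR hw a k)
    rw [E5_down D w (a, c + k) (nd e2), ← E5_tT_of (w := w) (E5_inD hq hI), ← E5_Yt_of hI] at h1
    have h2 := E5_top (D := D) (w := w) (a := a) hq
    linarith
  · rw [E5_Yt_zero hI]

/-- Even length.  Cases.  (1) The segment from `(a, c - k)` is in the interior; then also the one from `(a, c - k + 1)` (`inD_refl`).  `even_pair` says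
`0 ≤ tT D w (a, c + k - 1) (nd e2) (2k) - tT D w (a, c - k + 1) e2 (2k)`; by `tT_top` the first term is `≤ Yt D w a (c - k) (2k)`, the second is
`- Yt D w a (c - k + 1) (2k)` (`Yt_eq`).  (2) It is not in the interior: the first `Yt` is `0`.  If the second segment is not in the interior, the second is
`0` too; otherwise `(a, c - k) ∉ core D` and `Yt_bdry` applies. -/
theorem Yt_even {D : Finset V} (hD : BdryPar D 0) {c : ℤ} (hR : Rfl D c) {w : V} (hw : c ≤ w.2) (a : ℤ) {k : ℕ}
    (hk : 1 ≤ k) : 0 ≤ Yt D w a (c - k) (2 * k) + Yt D w a (c - k + 1) (2 * k) := by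
  by_cases hI : InD D (a, c - k) e2 (2 * k)
  · have hI2 := inD_refl hR hk hI
    have hq : c + (k : ℤ) - 1 = c - k + ((2 * k : ℕ) : ℤ) - 1 := by
      push_cast
      ring
    have h1 := E5_avg_sub (even_pair hD hR hw hk hI)
    rw [← E5_tT_of (w := w) (E5_inD hq hI), ← E5_tT_of (w := w) hI2] at h1
    have h2 := E5_top (D := D) (w := w) (a := a) hq
    have h3 := Yt_eq D w a (c - k + 1) (2 * k)
    linarith
  · rw [E5_Yt_zero hI, zero_add]
    by_cases hI2 : InD D (a, c - k + 1) e2 (2 * k)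
    · refine Yt_bdry hD w a (c - k) (2 * k) (by omega) (fun hc => hI ?_)
      intro i hi0 hil
      rcases eq_or_lt_of_le hi0 with h0 | h0
      · rw [← h0]
        have : pt ((a, c - k) : V) e2 0 = (a, c - k) := by
          unfold pt e2
          ext <;> simp
        rw [this]
        exact hc
      · have := hI2 (i - 1) (by omega) (by omega)
        have he : pt ((a, c - k + 1) : V) e2 (i - 1) = pt ((a, c - k) : V) e2 i := by
          unfold pt e2
          ext
          · simp
          · simp only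
            ring
        rwa [he] at this
    · rw [E5_Yt_zero hI2]

end MD
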