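import Pool.Agent.Helper35.MD.Defs

/-!
MDV piece F1: the midpoint inequality with ordered midpoints.
-/

open Finset RP4 KP

namespace MD

/-- the function on `V` attached to a half height function on `D` -/
private noncomputable def hf_mdf (D : Finset V) (a : {v // v ∈ D} → ℤ) : V → ℤ := by
  classical exact fun v => if h : v ∈ D then 2 * a ⟨v, h⟩ + par v % 2 else 0

private lemma hf_of_mem_mdf {D : Finset V} (a : {v // v ∈ D} → ℤ) {v : V} (h : v ∈ D) :
    hf_mdf D a v = 2 * a ⟨v, h⟩ + par v % 2 := by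
  classical
  unfold hf_mdf
  rw [dif_pos h]

private lemma hf_of_notMem_mdf {D : Finset V} (a : {v // v ∈ D} → ℤ) {v : V} (h : v ∉ D) :
    hf_mdf D a v = 0 := by
  classical
  unfold hf_mdf
  rw [dif_neg h]

private lemma hf_mid_mdf {D : Finset V} {x y z : {v // v ∈ D} → ℤ} (hx : hf_mdf D x ∈ Om D)
    (hy : hf_mdf D y ∈ Om D)
    (hz : (∀ i, z i = (x i + y i) / 2) ∨ ∀ i, z i = (x i + y i + 1) / 2) :
    hf_mdf D z ∈ Om D := by
  rw [mem_Om] at hx hy ⊢
  refine ⟨⟨fun v hv => hf_of_notMem_mdf _ hv, fun v hv => ?_, fun u hu v hv huv => ?_⟩,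
    fun v hv => ?_⟩
  · rw [hf_of_mem_mdf _ hv, Int.even_iff]
    omega
  · have h1 := hx.1.step u hu v hv huv
    have h2 := hy.1.step u hu v hv huv
    rw [hf_of_mem_mdf _ hu, hf_of_mem_mdf _ hv] at h1 h2 ⊢
    have h3 := A02_adj huv
    rw [abs_eq (by norm_num)] at h1 h2 ⊢
    rcases hz with hz | hz
    · rw [hz, hz]
      omega
    · rw [hz, hz]
      omega
  · have hvD := bdry_subset D hv
    have h1 := hx.2 v hv
    have h2 := hy.2 v hv
    rw [hf_of_mem_mdf _ hvD] at h1 h2 ⊢
    rcases hz with hz | hz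
    · rw [hz]
      omega
    · rw [hz]
      omega

private lemma sum_om_mdf (D : Finset V) (F : (V → ℤ) → ℝ) :
    ∑ h ∈ Om D, F h = ∑ a ∈ Fintype.piFinset (fun _ : {v // v ∈ D} =>
      Icc (-((D.card + 1 : ℕ) : ℤ)) ((D.card + 1 : ℕ) : ℤ)),
        open Classical in if hf_mdf D a ∈ Om D then F (hf_mdf D a) else 0 := by
  classical
  rw [← Finset.sum_filter]
  symm
  apply Finset.sum_nbij' (fun a => hf_mdf D a)
    (fun (h : V → ℤ) (v : {v // v ∈ D}) => (h v.1 - par v.1 % 2) / 2)
  · intro a ha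
    exact (Finset.mem_filter.1 ha).2
  · intro h hh
    have h0 := mem_Om.1 hh
    have e : hf_mdf D (fun v : {v // v ∈ D} => (h v.1 - par v.1 % 2) / 2) = h := by
      funext v
      by_cases hv : v ∈ D
      · rw [hf_of_mem_mdf _ hv]
        have h1 := h0.1.par v hv
        rw [Int.even_iff] at h1
        simp only
        omega
      · rw [hf_of_notMem_mdf _ hv, h0.1.off v hv]
    rw [Finset.mem_filter, e]
    refine ⟨?_, hh⟩
    rw [Fintype.mem_piFinset]
    intro v
    obtain ⟨b, hb, hbv⟩ := h0.1.bound_bdry v.2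
    rw [h0.2 b hb, sub_zero, abs_le] at hbv
    rw [Finset.mem_Icc]
    push_cast
    omega
  · intro a _
    funext v
    rw [hf_of_mem_mdf _ v.2]
    change (2 * a v + par v.1 % 2 - par v.1 % 2) / 2 = a v
    omega
  · intro h hh
    have h0 := mem_Om.1 hh
    funext v
    by_cases hv : v ∈ D
    · rw [hf_of_mem_mdf _ hv]
      have h1 := h0.1.par v hv
      rw [Int.even_iff] at h1
      simp only
      omega
    · rw [hf_of_notMem_mdf _ hv, h0.1.off v hv]
  · intro a _
    rfl

/-- As `GF.mid_om` (Helper27, GF, M4; copy its proof and its private lemmas), with the additional information `u ≤ w` in the hypothesis: there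
`u`, `w` are the rounded down and rounded up midpoints. -/
theorem mid_om_le (D : Finset V) (F G H K : (V → ℤ) → ℝ) (hF : ∀ h, 0 ≤ F h) (hG : ∀ h, 0 ≤ G h) (hH : ∀ h, 0 ≤ H h)
    (hK : ∀ h, 0 ≤ K h)
    (hyp : ∀ h ∈ Om D, ∀ h' ∈ Om D, ∀ u ∈ Om D, ∀ w ∈ Om D, (∀ v, u v + w v = h v + h' v) →
      (∀ v, u v ≤ w v) → (∀ v, |w v - u v| ≤ 2) → F h * G h' ≤ H u * K w) :
    (∑ h ∈ Om D, F h) * ∑ h ∈ Om D, G h ≤ (∑ h ∈ Om D, H h) * ∑ h ∈ Om D, K h := by
  classical
  rw [sum_om_mdf D F, sum_om_mdf D G, sum_om_mdf D H, sum_om_mdf D K]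
  have hn : ∀ (A : (V → ℤ) → ℝ), (∀ h, 0 ≤ A h) → ∀ x : {v // v ∈ D} → ℤ,
      0 ≤ (if hf_mdf D x ∈ Om D then A (hf_mdf D x) else 0 : ℝ) := by
    intro A hA x
    split_ifs
    · exact hA _
    · exact le_rfl
  have key := GF.mid_fintype (D.card + 1) (fun a => if hf_mdf D a ∈ Om D then F (hf_mdf D a) else 0)
    (fun a => if hf_mdf D a ∈ Om D then G (hf_mdf D a) else 0)
    (fun a => if hf_mdf D a ∈ Om D then H (hf_mdf D a) else 0)
    (fun a => if hf_mdf D a ∈ Om D then K (hf_mdf D a) else 0) (hn F hF) (hn G hG) (hn H hH) (hn K hK)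
    (fun x _ y _ => by
      by_cases hx : hf_mdf D x ∈ Om D
      · by_cases hy : hf_mdf D y ∈ Om D
        · have hu : hf_mdf D (fun i => (x i + y i) / 2) ∈ Om D := hf_mid_mdf hx hy (Or.inl fun _ => rfl)
          have hw : hf_mdf D (fun i => (x i + y i + 1) / 2) ∈ Om D :=
            hf_mid_mdf hx hy (Or.inr fun _ => rfl)
          simp only [if_pos hx, if_pos hy, if_pos hu, if_pos hw]
          refine hyp _ hx _ hy _ hu _ hw (fun v => ?_) (fun v => ?_) (fun v => ?_)
          · by_cases hv : v ∈ D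
            · simp only [hf_of_mem_mdf _ hv]
              omega
            · simp only [hf_of_notMem_mdf _ hv, add_zero]
          · by_cases hv : v ∈ D
            · simp only [hf_of_mem_mdf _ hv]
              omega
            · simp only [hf_of_notMem_mdf _ hv]
              exact le_rfl
          · by_cases hv : v ∈ D
            · simp only [hf_of_mem_mdf _ hv]
              rw [abs_le]
              omega
            · simp only [hf_of_notMem_mdf _ hv, sub_zero, abs_zero]
              norm_num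
        · rw [if_neg hy, mul_zero]
          exact mul_nonneg (hn H hH _) (hn K hK _)
      · rw [if_neg hx, zero_mul]
        exact mul_nonneg (hn H hH _) (hn K hK _))
  exact key

end MD
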