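import Pool.Agent.Helper35.MD.F1

/-!
MDV piece F2: every pattern is at most as likely as the flat one; the flat one is unlikely.
-/

open Finset RP4 KP

namespace MD

private lemma F2_neg {D S : Finset V} (φ : V → ℤ) :
    ∑ h ∈ Om D, ind (∀ v ∈ S, h v = -φ v) = ∑ h ∈ Om D, ind (∀ v ∈ S, h v = φ v) := by
  refine Finset.sum_nbij' (fun g => -g) (fun g => -g)
    (fun g hg => neg_mem_Zs (Subset.refl _) hg) (fun g hg => neg_mem_Zs (Subset.refl _) hg)
    (fun g _ => neg_neg g) (fun g _ => neg_neg g) fun g _ => ?_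
  congr 1
  refine propext (forall₂_congr fun v _ => ?_)
  rw [Pi.neg_apply]
  omega

/-- `mid_om_le` with `F = 1{h = ρ on S}`, `G = 1{h = -ρ on S}`, `H = 1{h = -flat on S}`, `K = 1{h = flat on S}`, flat `= par v % 2`: if `u + w = 0` on `S`, `u ≤ w`,
`|w - u| ≤ 2` then `w ∈ {0, 1}` and `w v ≡ par v` mod `2` (`S ⊆ D`), so `w = flat`, `u = -flat`.  By the symmetry `h ↦ -h` both factors of each side
are equal: `N(ρ)^2 ≤ N(flat)^2`. -/
theorem patt_le_flat {D S : Finset V} (hS : S ⊆ D) (ρ : V → ℤ) :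
    ∑ h ∈ Om D, ind (∀ v ∈ S, h v = ρ v) ≤ ∑ h ∈ Om D, ind (∀ v ∈ S, h v = par v % 2) := by
  have hmid := mid_om_le D (fun h => ind (∀ v ∈ S, h v = ρ v)) (fun h => ind (∀ v ∈ S, h v = -ρ v))
    (fun h => ind (∀ v ∈ S, h v = -(par v % 2))) (fun h => ind (∀ v ∈ S, h v = par v % 2))
    (fun _ => ind_nonneg _) (fun _ => ind_nonneg _) (fun _ => ind_nonneg _)
    (fun _ => ind_nonneg _) (by
      intro h hh h' hh' u hu w hw hsum hle habs
      by_cases h1 : ∀ v ∈ S, h v = ρ v
      · by_cases h2 : ∀ v ∈ S, h' v = -ρ v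
        · have hwv : ∀ v ∈ S, w v = par v % 2 ∧ u v = -(par v % 2) := by
            intro v hv
            have a1 := hsum v
            have a2 := hle v
            have a3 := abs_le.1 (habs v)
            have a4 := (mem_Om.1 hw).1.par v (hS hv)
            rw [h1 v hv, h2 v hv] at a1
            rw [Int.even_iff] at a4
            constructor <;> omega
          have e1 : ind (∀ v ∈ S, u v = -(par v % 2)) = 1 := by
            unfold ind
            rw [if_pos fun v hv => (hwv v hv).2]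
          have e2 : ind (∀ v ∈ S, w v = par v % 2) = 1 := by
            unfold ind
            rw [if_pos fun v hv => (hwv v hv).1]
          show ind (∀ v ∈ S, h v = ρ v) * ind (∀ v ∈ S, h' v = -ρ v) ≤
            ind (∀ v ∈ S, u v = -(par v % 2)) * ind (∀ v ∈ S, w v = par v % 2)
          rw [e1, e2]
          exact mul_le_mul (ind_le_one _) (ind_le_one _) (ind_nonneg _) zero_le_one
        · have e : ind (∀ v ∈ S, h' v = -ρ v) = 0 := by
            unfold ind
            rw [if_neg h2]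
          show ind (∀ v ∈ S, h v = ρ v) * ind (∀ v ∈ S, h' v = -ρ v) ≤ _
          rw [e, mul_zero]
          exact mul_nonneg (ind_nonneg _) (ind_nonneg _)
      · have e : ind (∀ v ∈ S, h v = ρ v) = 0 := by
          unfold ind
          rw [if_neg h1]
        show ind (∀ v ∈ S, h v = ρ v) * ind (∀ v ∈ S, h' v = -ρ v) ≤ _
        rw [e, zero_mul]
        exact mul_nonneg (ind_nonneg _) (ind_nonneg _))
  have e1 : ∑ h ∈ Om D, ind (∀ v ∈ S, h v = -(par v % 2)) =
      ∑ h ∈ Om D, ind (∀ v ∈ S, h v = par v % 2) := F2_neg fun v => par v % 2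
  rw [F2_neg ρ, e1] at hmid
  exact (mul_self_le_mul_self_iff (Finset.sum_nonneg fun _ _ => ind_nonneg _)
    (Finset.sum_nonneg fun _ _ => ind_nonneg _)).2 hmid

private lemma F2_sum (s : Finset (V → ℤ)) (P : (V → ℤ) → Prop) [DecidablePred P] :
    ∑ h ∈ s, ind (P h) = ((s.filter P).card : ℝ) := by
  rw [Finset.card_filter, Nat.cast_sum]
  refine Finset.sum_congr rfl fun h _ => ?_
  unfold ind
  by_cases hp : P h <;> simp [hp]

private lemma F2_symm {u v : V} (h : Adj u v) : Adj v u := by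
  unfold Adj at h ⊢
  rw [abs_sub_comm v.1, abs_sub_comm v.2]
  exact h

open Classical in
/-- the heights lowered on `T` -/
private noncomputable def F2_low (h : V → ℤ) (T : Finset V) : V → ℤ :=
  fun v => if v ∈ T then -1 else h v

private lemma F2_low_mem {D S O T : Finset V}
    (hO : ∀ v ∈ O, v ∈ core D ∧ par v % 2 = 1 ∧ ∀ u, Adj u v → u ∈ S) (hT : T ⊆ O)
    {h : V → ℤ} (hh : h ∈ Om D) (hf : ∀ v ∈ S, h v = par v % 2) : F2_low h T ∈ Om D := by
  rw [mem_Om] at hh ⊢
  obtain ⟨hh1, hh2⟩ := hh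
  have hTc : ∀ v ∈ T, v ∈ D ∧ v ∉ bdry D := by
    intro v hv
    have h1 := (hO v (hT hv)).1
    unfold core at h1
    exact Finset.mem_sdiff.1 h1
  have hnb : ∀ v ∈ T, ∀ u, Adj u v → u ∉ T ∧ h u = 0 := by
    intro v hv u hu
    obtain ⟨-, h1, h2⟩ := hO v (hT hv)
    have h3 := adj_par hu
    rw [Int.odd_iff] at h3
    refine ⟨fun h4 => ?_, ?_⟩
    · have h5 := (hO u (hT h4)).2.1
      omega
    · rw [hf u (h2 u hu)]
      omega
  refine ⟨⟨fun v hv => ?_, fun v hv => ?_, fun u hu v hv huv => ?_⟩, fun v hv => ?_⟩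
  · unfold F2_low
    rw [if_neg fun h1 => hv (hTc v h1).1]
    exact hh1.off v hv
  · unfold F2_low
    split_ifs with h1
    · have h2 := (hO v (hT h1)).2.1
      rw [Int.even_iff]
      omega
    · exact hh1.par v hv
  · unfold F2_low
    by_cases h1 : u ∈ T
    · obtain ⟨h2, h3⟩ := hnb u h1 v (F2_symm huv)
      rw [if_pos h1, if_neg h2, h3]
      norm_num
    · by_cases h2 : v ∈ T
      · obtain ⟨h3, h4⟩ := hnb v h2 u huv
        rw [if_neg h1, if_pos h2, h4]
        norm_num
      · rw [if_neg h1, if_neg h2]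
        exact hh1.step u hu v hv huv
  · unfold F2_low
    rw [if_neg fun h1 => (hTc v h1).2 hv]
    exact hh2 v hv

/-- Let `O` be a set of odd interior sites all whose neighbours are in `S`.  From `h ∈ Om D` with `h = flat` on `S` (so `h = 1` on `O` if `O ⊆ S`, and `0` at all neighbours of
`O`, which are even) and `T ⊆ O` make `h_T = h` off `T`, `-1` on `T`: `h_T ∈ Om D`, `h_T = 0` at the even points of `S`; `(h, T)` is determined by `h_T`
(`T = {v ∈ O | h_T v = -1}`).  So `2 ^ #O * N(flat) ≤ N(0 at the even points of S)`: an injective map from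
`(filtered Om D) ×ˢ O.powerset`. -/
theorem flat_pow {D S O : Finset V} (hOS : O ⊆ S) (hO : ∀ v ∈ O, v ∈ core D ∧ par v % 2 = 1 ∧ ∀ u, Adj u v → u ∈ S) :
    2 ^ O.card * ∑ h ∈ Om D, ind (∀ v ∈ S, h v = par v % 2) ≤
      ∑ h ∈ Om D, ind (∀ v ∈ S, par v % 2 = 0 → h v = 0) := by
  classical
  rw [F2_sum, F2_sum]
  have hcard : (((Om D).filter fun h => ∀ v ∈ S, h v = par v % 2) ×ˢ O.powerset).card ≤
      ((Om D).filter fun h => ∀ v ∈ S, par v % 2 = 0 → h v = 0).card := by
    refine Finset.card_le_card_of_injOn (fun q => F2_low q.1 q.2) ?_ ?_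
    · rintro ⟨h, T⟩ hq
      rw [Finset.mem_coe, Finset.mem_product] at hq
      obtain ⟨h1, h2⟩ := hq
      rw [Finset.mem_filter] at h1
      rw [Finset.mem_powerset] at h2
      dsimp only at h1 h2
      rw [Finset.mem_coe, Finset.mem_filter]
      refine ⟨F2_low_mem hO h2 h1.1 h1.2, fun v hv hpv => ?_⟩
      show F2_low h T v = 0
      unfold F2_low
      rw [if_neg, h1.2 v hv, hpv]
      intro h3
      have h4 := (hO v (h2 h3)).2.1
      omega
    · rintro ⟨h, T⟩ hq ⟨h', T'⟩ hq' heq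
      rw [Finset.mem_coe, Finset.mem_product] at hq hq'
      obtain ⟨h1, h2⟩ := hq
      obtain ⟨h1', h2'⟩ := hq'
      rw [Finset.mem_filter] at h1 h1'
      rw [Finset.mem_powerset] at h2 h2'
      dsimp only at h1 h1' h2 h2'
      have he : ∀ v, F2_low h T v = F2_low h' T' v := fun v => congrFun heq v
      have hone : ∀ v ∈ O, h v = 1 ∧ h' v = 1 := by
        intro v hv
        have h3 := (hO v hv).2.1
        exact ⟨by rw [h1.2 v (hOS hv), h3], by rw [h1'.2 v (hOS hv), h3]⟩
      have hTT : T = T' := by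
        ext v
        have h3 := he v
        unfold F2_low at h3
        constructor
        · intro hv
          by_contra hv'
          rw [if_pos hv, if_neg hv', (hone v (h2 hv)).2] at h3
          norm_num at h3
        · intro hv
          by_contra hv'
          rw [if_neg hv', if_pos hv, (hone v (h2' hv)).1] at h3
          norm_num at h3
      subst hTT
      have hhh : h = h' := by
        funext v
        by_cases hv : v ∈ T
        · rw [(hone v (h2 hv)).1, (hone v (h2 hv)).2]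
        · have h3 := he v
          unfold F2_low at h3
          rwa [if_neg hv, if_neg hv] at h3
      rw [hhh]
  rw [Finset.card_product, Finset.card_powerset] at hcard
  have h1 : ((((Om D).filter fun h => ∀ v ∈ S, h v = par v % 2).card * 2 ^ O.card : ℕ) : ℝ) ≤
      (((Om D).filter fun h => ∀ v ∈ S, par v % 2 = 0 → h v = 0).card : ℝ) := by
    exact_mod_cast hcard
  rw [Nat.cast_mul, Nat.cast_pow, Nat.cast_ofNat, mul_comm] at h1
  exact h1

/-- Together: `P(h = ρ on S) ≤ 2 ^ (-#O) P(h x₀ = 0)` for an even point `x₀ ∈ S`. -/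
theorem patt_bound {D S O : Finset V} (hS : S ⊆ D) (hOS : O ⊆ S)
    (hO : ∀ v ∈ O, v ∈ core D ∧ par v % 2 = 1 ∧ ∀ u, Adj u v → u ∈ S) (ρ : V → ℤ) {x₀ : V} (hx : x₀ ∈ S)
    (hx0 : par x₀ % 2 = 0) :
    avg (Om D) (fun h => ind (∀ v ∈ S, h v = ρ v)) ≤ avg (Om D) (fun h => ind (h x₀ = 0)) / 2 ^ O.card := by
  have h1 := patt_le_flat hS ρ
  have h2 := flat_pow (D := D) hOS hO
  have h3 : ∑ h ∈ Om D, ind (∀ v ∈ S, par v % 2 = 0 → h v = 0) ≤
      ∑ h ∈ Om D, ind (h x₀ = 0) :=
    Finset.sum_le_sum fun h _ => ind_mono fun h4 => h4 x₀ hx hx0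
  have h5 : (0 : ℝ) < 2 ^ O.card := by positivity
  have h6 : ∑ h ∈ Om D, ind (∀ v ∈ S, h v = ρ v) ≤
      (∑ h ∈ Om D, ind (h x₀ = 0)) / 2 ^ O.card := by
    rw [le_div_iff₀ h5, mul_comm]
    exact (mul_le_mul_of_nonneg_left h1 h5.le).trans (h2.trans h3)
  unfold avg
  rw [div_right_comm]
  exact div_le_div_of_nonneg_right h6 (Nat.cast_nonneg _)

end MD
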