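import Pool.Agent.Helper35.MD.F1

/-!
MDV piece F3: the law of the height at an even point.
-/

open Finset RP4 KP

namespace MD

/-- probability that the height at `x` is `2 k` -/
noncomputable def pr (D : Finset V) (x : V) (k : ℤ) : ℝ := avg (Om D) (fun h => ind (h x = 2 * k))

theorem pr_nonneg (D : Finset V) (x : V) (k : ℤ) : 0 ≤ pr D x k := by
  unfold pr avg
  exact div_nonneg (Finset.sum_nonneg fun h _ => ind_nonneg _) (Nat.cast_nonneg _)

/-- symmetry `h ↦ -h` -/
theorem pr_neg (D : Finset V) (x : V) (k : ℤ) : pr D x (-k) = pr D x k := by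
  unfold pr
  rw [← avg_neg_Om (D := D) (fun h => ind (h x = 2 * -k))]
  congr 1
  funext h
  have e : ((-h) x = 2 * -k) = (h x = 2 * k) := by
    apply propext
    rw [Pi.neg_apply]
    constructor <;> intro h1 <;> omega
  rw [e]

/-- `mid_om_le` (or `GF.mid_om`) with `F = 1{h x = 2}`, `G = 1{h x = -2}`, `H = K = 1{h x = 0}`: `u x + w x = 0`, `|w x - u x| ≤ 2` and the parity (`x ∈ D` even) give
`u x = w x = 0`.  (If `x ∉ D` then `h x = 0` and `pr D x 1 = 0`.) -/
theorem pr_one (D : Finset V) (x : V) (hx : par x % 2 = 0) : pr D x 1 ≤ pr D x 0 := by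
  have key := GF.mid_om D (fun h => ind (h x = 2 * 1)) (fun h => ind (h x = 2 * -1))
    (fun h => ind (h x = 2 * 0)) (fun h => ind (h x = 2 * 0))
    (fun _ => ind_nonneg _) (fun _ => ind_nonneg _) (fun _ => ind_nonneg _) (fun _ => ind_nonneg _) ?_
  · have h1 : pr D x 1 * pr D x (-1) ≤ pr D x 0 * pr D x 0 := by
      unfold pr avg
      rw [div_mul_div_comm, div_mul_div_comm]
      exact div_le_div_of_nonneg_right key (by positivity)
    rw [pr_neg] at h1
    exact nonneg_le_nonneg_of_sq_le_sq (pr_nonneg D x 0) h1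
  · intro h hh h' hh' u hu w hw hs hd
    have e1 := hs x
    have e2 := abs_le.1 (hd x)
    have ev : ∀ g ∈ Om D, g x % 2 = 0 := by
      intro g hg
      by_cases hxD : x ∈ D
      · have h2 := (mem_Om.1 hg).1.par x hxD
        rw [sub_zero] at h2
        have h3 := Int.even_iff.1 h2
        omega
      · rw [(mem_Om.1 hg).1.off x hxD]
        rfl
    have e3 := ev u hu
    have e4 := ev w hw
    show ind (h x = 2 * 1) * ind (h' x = 2 * -1) ≤ ind (u x = 2 * 0) * ind (w x = 2 * 0)
    by_cases h1 : h x = 2 * 1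
    · by_cases h2 : h' x = 2 * -1
      · have h3 : u x = 2 * 0 := by omega
        have h4 : w x = 2 * 0 := by omega
        simp only [ind, if_pos h1, if_pos h2, if_pos h3, if_pos h4]
        exact le_rfl
      · have h3 : ind (h' x = 2 * -1) = 0 := by simp only [ind, if_neg h2]
        rw [h3, mul_zero]
        exact mul_nonneg (ind_nonneg _) (ind_nonneg _)
    · have h3 : ind (h x = 2 * 1) = 0 := by simp only [ind, if_neg h1]
      rw [h3, zero_mul]
      exact mul_nonneg (ind_nonneg _) (ind_nonneg _)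

end MD
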