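import Pool.Agent.Helper35.MD.F3

/-!
MDV piece F3b: the law of the height at an even point, log-concavity and total mass.
-/

open Finset RP4 KP

namespace MD

private lemma pr_card_42 (D : Finset V) (x : V) (k : ℤ) : pr D x k = (cnt D x (2 * k) : ℝ) / (Om D).card := by
  classical
  unfold pr avg cnt ind
  congr 1
  rw [Finset.card_filter]
  push_cast
  refine Finset.sum_congr rfl fun g _ => ?_
  congr 1

private lemma pr_off_42 (D : Finset V) {x : V} (hx : x ∉ D) {k : ℤ} (hk : k ≠ 0) : pr D x k = 0 := by
  unfold pr avg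
  rw [Finset.sum_eq_zero, zero_div]
  intro h hh
  unfold ind
  rw [if_neg]
  rw [(mem_Om.1 hh).1.off x hx]
  omega

/-- Let `A = {h - 2 b | h ∈ Om D, h x = 2 (a + b)}` (subtract `2 b` at all points of `V`), `B = {h ∈ Om D | h x = 0}`, finite sets in the distributive lattice `V → ℤ`:
`#A * #B ≤ #(A ⊼ B) * #(A ⊻ B)` (`Finset.le_card_infs_mul_card_sups`).  `(h - 2 b) ⊔ h'` is in `Om D` with value `2 a` at `x`: on the boundary and off `D` it is
`max (-2b) 0 = 0` (`b ≥ 0`); steps and parity on `D` as in `IsHom.sup` (file A03; `h - 2 b` and `h'` have unit steps and the same parity).  `((h - 2 b) ⊓ h') + 2 b` is in `Om D`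
with value `2 b` at `x`: off `D` and on the boundary `min (-2b) 0 + 2 b = 0`. -/
theorem pr_add (D : Finset V) (x : V) (a b : ℤ) (ha : 0 ≤ a) (hb : 0 ≤ b) :
    pr D x (a + b) * pr D x 0 ≤ pr D x a * pr D x b := by
  by_cases hx : x ∈ D
  · rw [pr_card_42, pr_card_42, pr_card_42, pr_card_42, div_mul_div_comm, div_mul_div_comm]
    apply div_le_div_of_nonneg_right _ (by positivity)
    have h := cnt_exch D x hx (2 * (a + b)) 0 (2 * b) (by omega) (even_two_mul b) (by omega)
    rw [zero_add, show 2 * (a + b) - 2 * b = 2 * a by ring] at h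
    rw [mul_zero, mul_comm ((cnt D x (2 * a) : ℕ) : ℝ)]
    exact_mod_cast h
  · by_cases h0 : a + b = 0
    · have ha0 : a = 0 := by omega
      have hb0 : b = 0 := by omega
      subst ha0
      subst hb0
      simp
    · rw [pr_off_42 D hx h0, zero_mul]
      have h1 : ∀ k, 0 ≤ pr D x k := by
        intro k
        rw [pr_card_42]
        positivity
      exact mul_nonneg (h1 _) (h1 _)

/-- `pr D x k = 0` for `|2 k| > #D` (`IsHom.bound_bdry`) and the total mass is at most one. -/
theorem pr_sum (D : Finset V) (x : V) (K : ℕ) : ∑ k ∈ Icc (-(K : ℤ)) K, pr D x k ≤ 1 := by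
  classical
  simp only [pr_card_42]
  rw [← Finset.sum_div]
  apply div_le_one_of_le₀ _ (by positivity)
  have h1 : ∑ k ∈ Icc (-(K : ℤ)) K, cnt D x (2 * k) ≤ (Om D).card := by
    unfold cnt
    rw [← Finset.card_biUnion]
    · apply Finset.card_le_card
      intro h hh
      rw [Finset.mem_biUnion] at hh
      obtain ⟨k, -, hk⟩ := hh
      exact (Finset.mem_filter.1 hk).1
    · intro i _ j _ hij
      rw [Function.onFun, Finset.disjoint_left]
      intro h h1 h2
      have h3 := (Finset.mem_filter.1 h1).2
      have h4 := (Finset.mem_filter.1 h2).2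
      apply hij
      omega
  exact_mod_cast h1

end MD
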