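import Mathlib

/-!
MDV piece F4: a numerical lemma on log-concave sequences.
-/

open Finset

namespace MD

/-- Symmetric sums over `Icc (-K) K`. -/
private lemma sum_sym_h15 (f : ℤ → ℝ) (hf : ∀ k, f (-k) = f k) (K : ℕ) :
    ∑ k ∈ Icc (-(K : ℤ)) K, f k = f 0 + 2 * ∑ k ∈ range K, f ((k : ℤ) + 1) := by
  induction K with
  | zero => simp
  | succ n ih =>
    have e : Icc (-((n + 1 : ℕ) : ℤ)) ((n + 1 : ℕ) : ℤ)
        = insert (-((n : ℤ) + 1)) (insert ((n : ℤ) + 1) (Icc (-(n : ℤ)) n)) := by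
      ext x
      simp only [mem_Icc, mem_insert]
      push_cast
      omega
    have n1 : (-((n : ℤ) + 1)) ∉ insert ((n : ℤ) + 1) (Icc (-(n : ℤ)) n) := by
      simp only [mem_Icc, mem_insert]
      omega
    have n2 : ((n : ℤ) + 1) ∉ Icc (-(n : ℤ)) n := by
      simp only [mem_Icc]
      omega
    rw [e, sum_insert n1, sum_insert n2, ih, sum_range_succ, hf]
    ring

/-- A truncated geometric sum. -/
private lemma geo_h15 (m N : ℕ) :
    ∑ j ∈ range N, min ((1 : ℝ) / 2 ^ m) (1 / 2 ^ j) ≤ (m + 2) / 2 ^ m := by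
  have a1 : ∀ t : ℕ, ∑ j ∈ range (m + t), min ((1 : ℝ) / 2 ^ m) (1 / 2 ^ j)
      ≤ m / 2 ^ m + 2 / 2 ^ m - 2 / 2 ^ (m + t) := by
    intro t
    induction t with
    | zero =>
      have : ∑ j ∈ range (m + 0), min ((1 : ℝ) / 2 ^ m) (1 / 2 ^ j)
          ≤ ∑ j ∈ range (m + 0), (1 : ℝ) / 2 ^ m := sum_le_sum (fun j _ => min_le_left _ _)
      rw [sum_const, card_range, nsmul_eq_mul, Nat.add_zero, mul_one_div] at this
      simpa using this
    | succ t ih =>
      rw [← Nat.add_assoc, sum_range_succ]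
      have h2 : min ((1 : ℝ) / 2 ^ m) (1 / 2 ^ (m + t)) ≤ 1 / 2 ^ (m + t) := min_le_right _ _
      have h3 : (2 : ℝ) / 2 ^ (m + t + 1) = 1 / 2 ^ (m + t) := by
        rw [pow_succ]
        field_simp
      have h4 : (2 : ℝ) / 2 ^ (m + t) = 1 / 2 ^ (m + t) + 1 / 2 ^ (m + t) := by ring
      rw [h3]
      linarith
  have h5 : ∑ j ∈ range N, min ((1 : ℝ) / 2 ^ m) (1 / 2 ^ j)
      ≤ ∑ j ∈ range (m + N), min ((1 : ℝ) / 2 ^ m) (1 / 2 ^ j) := by
    apply sum_le_sum_of_subset_of_nonneg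
    · intro x hx
      simp only [mem_range] at hx ⊢
      omega
    · intro j _ _
      positivity
  have h6 := a1 N
  have h7 : (0 : ℝ) ≤ 2 / 2 ^ (m + N) := by positivity
  have h8 : ((m : ℝ) + 2) / 2 ^ m = m / 2 ^ m + 2 / 2 ^ m := by ring
  rw [h8]
  linarith

/-- The bound of the sum by blocks of length `R`. -/
private lemma blocks_h15 (q : ℕ → ℝ) (c : ℝ) (hc : 0 ≤ c) (R : ℕ)
    (hm : ∀ i j : ℕ, q (R * j + i) ≤ c / 2 ^ j) (m N : ℕ) :
    ∑ k ∈ range (R * N), min (c / 2 ^ m) (q k)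
      ≤ R * c * ∑ j ∈ range N, min ((1 : ℝ) / 2 ^ m) (1 / 2 ^ j) := by
  induction N with
  | zero => simp
  | succ n ih =>
    rw [Nat.mul_succ, sum_range_add, sum_range_succ, mul_add]
    refine add_le_add ih ?_
    have h1 : ∀ i ∈ range R, min (c / 2 ^ m) (q (R * n + i))
        ≤ c * min ((1 : ℝ) / 2 ^ m) (1 / 2 ^ n) := by
      intro i _
      rw [mul_min_of_nonneg _ _ hc, mul_one_div, mul_one_div]
      exact min_le_min_left _ (hm i n)
    refine (sum_le_sum h1).trans ?_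
    rw [sum_const, card_range, nsmul_eq_mul, mul_assoc]

/-- If `p 0 = 0` all terms of the sum are `≤ 0`... (the minimum is `min 0 (p k) = 0`), fine.  Let `p 0 > 0`.  From `hadd` with `b = 1` and `h1`: `p (k + 1) p 0 ≤ p k p 1 ≤ p k p 0`, so `p` is
nonincreasing on `k ≥ 0`.  The sum is at most the sum over all `k ∈ Icc (-K) K`; let `r ≥ 0` be minimal with `p (r + 1) < p 0 / 2` if there is such an `r < K`.  If there is none then
`p k ≥ p 0 / 2` for `|k| ≤ K`, so `(2 K + 1) p 0 ≤ 2` and the sum is `≤ (2K+1) p 0 / 2 ^ m ≤ 2 / 2 ^ m`.  Otherwise `p k ≥ p 0 / 2` for `|k| ≤ r ≤ K`, so `(2 r + 1) p 0 ≤ 2`, hence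
`(r + 1) p 0 ≤ 2`.  By `hadd`: `p (j (r + 1)) ≤ p 0 / 2 ^ j`.  The terms with `|k| < m (r + 1)`: at most `2 m (r + 1)` terms of size `≤ p 0 / 2 ^ m`, together `≤ 4 m / 2 ^ m`.  The others:
group `k` by `j = |k| / (r + 1) ≥ m`: `2 (r + 1)` values of `k`, each term `≤ p 0 / 2 ^ j`: together `≤ 2 (r + 1) p 0 ∑_{j ≥ m} 2 ^ (-j) ≤ 8 / 2 ^ m`. -/
theorem min_sum (p : ℤ → ℝ) (h0 : ∀ k, 0 ≤ p k) (hneg : ∀ k, p (-k) = p k) (h1 : p 1 ≤ p 0)
    (hadd : ∀ a b : ℤ, 0 ≤ a → 0 ≤ b → p (a + b) * p 0 ≤ p a * p b) (K : ℕ)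
    (hs : ∑ k ∈ Icc (-(K : ℤ)) K, p k ≤ 1) (m : ℕ) :
    ∑ k ∈ Icc (-(K : ℤ)) K, min (p 0 / 2 ^ m) (p k) ≤ (4 * m + 8) / 2 ^ m := by
  have hp2 : (0 : ℝ) < 2 ^ m := by positivity
  -- the degenerate case
  rcases (h0 0).eq_or_lt with hz | hpos
  · have : ∑ k ∈ Icc (-(K : ℤ)) K, min (p 0 / 2 ^ m) (p k) ≤ ∑ k ∈ Icc (-(K : ℤ)) K, (0 : ℝ) := by
      refine sum_le_sum (fun k _ => (min_le_left _ _).trans ?_)
      rw [← hz, zero_div]
    rw [sum_const_zero] at this
    refine this.trans ?_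
    positivity
  -- monotonicity
  have hmono1 : ∀ k : ℕ, p ((k : ℤ) + 1) ≤ p k := by
    intro k
    have a1 := hadd k 1 (by omega) (by omega)
    have a2 : p k * p 1 ≤ p k * p 0 := mul_le_mul_of_nonneg_left h1 (h0 _)
    exact le_of_mul_le_mul_right (a1.trans a2) hpos
  have hmono : ∀ a b : ℕ, p ((a + b : ℕ) : ℤ) ≤ p (a : ℤ) := by
    intro a b
    induction b with
    | zero => simp
    | succ n ih =>
      have := hmono1 (a + n)
      refine le_trans ?_ ih
      have e : ((a + (n + 1) : ℕ) : ℤ) = ((a + n : ℕ) : ℤ) + 1 := by push_cast; ring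
      rw [e]
      exact this
  -- symmetric sums
  have hsym : ∀ L : ℕ, ∑ k ∈ Icc (-(L : ℤ)) L, p k = p 0 + 2 * ∑ k ∈ range L, p ((k : ℤ) + 1) :=
    fun L => sum_sym_h15 p hneg L
  have hlow : ∀ L : ℕ, L ≤ K → (∀ k : ℕ, k ≤ L → p 0 / 2 ≤ p k) → (2 * L + 1) * p 0 ≤ 2 := by
    intro L hL hh
    have a1 : ∑ k ∈ Icc (-(L : ℤ)) L, p k ≤ ∑ k ∈ Icc (-(K : ℤ)) K, p k := by
      apply sum_le_sum_of_subset_of_nonneg
      · intro x hx
        simp only [mem_Icc] at hx ⊢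
        have : (L : ℤ) ≤ K := by exact_mod_cast hL
        constructor <;> omega
      · intro k _ _
        exact h0 k
    have a2 : ∑ k ∈ range L, (p 0 / 2) ≤ ∑ k ∈ range L, p ((k : ℤ) + 1) := by
      apply sum_le_sum
      intro k hk
      have := hh (k + 1) (by simp only [mem_range] at hk; omega)
      push_cast at this
      exact this
    rw [sum_const, card_range, nsmul_eq_mul] at a2
    rw [hsym L] at a1
    nlinarith
  by_cases hex : ∃ R : ℕ, R ≤ K ∧ p (R : ℤ) < p 0 / 2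
  · -- the least such index
    classical
    let R := Nat.find hex
    have hR : R ≤ K ∧ p (R : ℤ) < p 0 / 2 := Nat.find_spec hex
    have hmin : ∀ k : ℕ, k < R → p 0 / 2 ≤ p (k : ℤ) := by
      intro k hk
      have := Nat.find_min hex hk
      push Not at this
      exact this (by omega)
    have hR0 : 0 < R := by
      rcases Nat.eq_zero_or_pos R with h | h
      · exfalso
        have := hR.2
        rw [h] at this
        simp only [Nat.cast_zero] at this
        linarith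
      · exact h
    have hRp : (R : ℝ) * p 0 ≤ 2 := by
      obtain ⟨r, hr⟩ : ∃ r, R = r + 1 := ⟨R - 1, by omega⟩
      have := hlow r (by omega) (fun k hk => hmin k (by omega))
      rw [hr]
      push_cast
      nlinarith [mul_nonneg (Nat.cast_nonneg (α := ℝ) r) hpos.le]
    have hpow : ∀ j : ℕ, p ((R * j : ℕ) : ℤ) ≤ p 0 / 2 ^ j := by
      intro j
      induction j with
      | zero => simp
      | succ n ih =>
        have a1 := hadd ((R * n : ℕ) : ℤ) (R : ℤ) (by positivity) (by positivity)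
        have a2 : p ((R * n : ℕ) : ℤ) * p (R : ℤ) ≤ (p 0 / 2 ^ n) * (p 0 / 2) :=
          mul_le_mul ih hR.2.le (h0 _) (by positivity)
        have a3 : ((R * (n + 1) : ℕ) : ℤ) = ((R * n : ℕ) : ℤ) + (R : ℤ) := by push_cast; ring
        rw [a3]
        have a4 : (p 0 / 2 ^ n) * (p 0 / 2) = p 0 / 2 ^ (n + 1) * p 0 := by
          rw [pow_succ]
          field_simp
        rw [a4] at a2
        exact le_of_mul_le_mul_right (a1.trans a2) hpos
    have hblock : ∀ i j : ℕ, p ((R * j + i : ℕ) : ℤ) ≤ p 0 / 2 ^ j := fun i j =>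
      (hmono (R * j) i).trans (hpow j)
    have b1 := blocks_h15 (fun k => p (k : ℤ)) (p 0) hpos.le R (fun i j => hblock i j) m (K + 1)
    have b2 := geo_h15 m (K + 1)
    have b3 : ∑ k ∈ range (K + 1), min (p 0 / 2 ^ m) (p (k : ℤ))
        ≤ ∑ k ∈ range (R * (K + 1)), min (p 0 / 2 ^ m) (p (k : ℤ)) := by
      apply sum_le_sum_of_subset_of_nonneg
      · intro x hx
        simp only [mem_range] at hx ⊢
        nlinarith
      · intro k _ _
        exact le_min (by positivity) (h0 _)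
    have b4 : (R : ℝ) * p 0 * ∑ j ∈ range (K + 1), min ((1 : ℝ) / 2 ^ m) (1 / 2 ^ j)
        ≤ 2 * ((m + 2) / 2 ^ m) :=
      mul_le_mul hRp b2 (sum_nonneg (fun j _ => by positivity)) (by norm_num)
    have b5 := sum_sym_h15 (fun k => min (p 0 / 2 ^ m) (p k)) (fun k => by simp only [hneg]) K
    have b6 : ∑ k ∈ range (K + 1), min (p 0 / 2 ^ m) (p (k : ℤ))
        = (∑ k ∈ range K, min (p 0 / 2 ^ m) (p ((k : ℤ) + 1))) + min (p 0 / 2 ^ m) (p 0) := by
      rw [sum_range_succ']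
      push_cast
      rfl
    have b7 : (0 : ℝ) ≤ min (p 0 / 2 ^ m) (p 0) := le_min (by positivity) hpos.le
    have b8 : ((4 : ℝ) * m + 8) / 2 ^ m = 2 * (2 * ((m + 2) / 2 ^ m)) := by ring
    rw [b8, b5]
    linarith
  · push Not at hex
    have c1 := hlow K le_rfl hex
    have c2 : ∑ k ∈ Icc (-(K : ℤ)) K, min (p 0 / 2 ^ m) (p k)
        ≤ ∑ k ∈ Icc (-(K : ℤ)) K, p 0 / 2 ^ m := sum_le_sum (fun k _ => min_le_left _ _)
    have c3 : ((Icc (-(K : ℤ)) K).card : ℝ) = 2 * K + 1 := by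
      rw [Int.card_Icc]
      have : ((K : ℤ) + 1 - -(K : ℤ)).toNat = 2 * K + 1 := by omega
      rw [this]
      push_cast
      ring
    rw [sum_const, nsmul_eq_mul, c3, ← mul_div_assoc] at c2
    refine c2.trans ?_
    apply div_le_div_of_nonneg_right _ hp2.le
    have : (0 : ℝ) ≤ m := Nat.cast_nonneg m
    linarith

end MD
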