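import Pool.Agent.Helper35.MD.A1
import Pool.Agent.Helper35.MD.F2
import Pool.Agent.Helper35.MD.F3b
import Pool.Agent.Helper35.MD.F4

/-!
MDV piece F5: the probability of a tower.
-/

open Finset RP4 KP

namespace MD

private lemma tl_nn_h35b (l : ℕ) : 0 ≤ tl l := by
  unfold tl
  positivity

private lemma ind_zero_h35b {p : Prop} (h : ¬ p) : ind p = 0 := by
  unfold ind
  rw [if_neg h]

private lemma ind_one_h35b {p : Prop} (h : p) : ind p = 1 := by
  unfold ind
  rw [if_pos h]

/-- the neighbours of a point of a line -/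
private lemma nbr_cases_h35b {d : V} (hd : d ∈ dirs) {x v : V} {i : ℤ} (ha : Adj v (pt x d i)) :
    v = pt x d (i + 1) ∨ v = pt x d (i - 1) ∨ v = pt (pt x d i) (prp d) 1 ∨ v = pt (pt x d i) (prp d) (-1) := by
  obtain ⟨a, b⟩ := x
  obtain ⟨p, q⟩ := v
  have h1 : |p - (a + i * d.1)| + |q - (b + i * d.2)| = 1 := ha
  simp only [pt, prp, Prod.mk.injEq]
  rcases mem_dirs.1 hd with rfl | rfl | rfl | rfl <;> simp only at h1 ⊢ <;>
  · rcases abs_cases (p - (a + i * _)) with ⟨h2, h3⟩ | ⟨h2, h3⟩ <;>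
      rcases abs_cases (q - (b + i * _)) with ⟨h4, h5⟩ | ⟨h4, h5⟩ <;>
      rw [h2, h4] at h1 <;> omega

/-- the heights of a tower are determined by the height of the head -/
private lemma up_det_h35b {d : V} (hd : d ∈ dirs) {x : V} {l : ℕ} {g h : V → ℤ} (hg : Up g x d l) (hh : Up h x d l)
    {v : V} {i : ℤ} (h0 : 0 ≤ i) (hl : i < l) (hv : v = pt x d i ∨ Adj v (pt x d i)) :
    h v - h x = g v - g x := by
  rcases hv with rfl | ha
  · rw [hg.site i h0 hl, hh.site i h0 hl]
    ring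
  · rcases nbr_cases_h35b hd ha with rfl | rfl | rfl | rfl
    · rcases lt_or_ge (i + 1) (l : ℤ) with h1 | h1
      · rw [hg.site (i + 1) (by omega) h1, hh.site (i + 1) (by omega) h1]
        ring
      · have e : i + 1 = l := by omega
        rw [e, hg.tail, hh.tail]
        ring
    · rcases lt_or_ge (i - 1) 0 with h1 | h1
      · have e : i - 1 = -1 := by omega
        rw [e, hg.head, hh.head]
        ring
      · rw [hg.site (i - 1) h1 (by omega), hh.site (i - 1) h1 (by omega)]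
        ring
    · rw [hg.side1 i h0 hl, hh.side1 i h0 hl]
      ring
    · rw [hg.side2 i h0 hl, hh.side2 i h0 hl]
      ring

private lemma pt_par_h35b {d : V} (hd : d ∈ dirs) (x : V) (i : ℤ) : (par (pt x d i) - par x - i) % 2 = 0 := by
  unfold par pt
  rcases mem_dirs.1 hd with rfl | rfl | rfl | rfl <;> simp only <;> omega

private lemma pt_inj_h35b {d : V} (hd : d ∈ dirs) (x : V) {i j : ℤ} (h : pt x d i = pt x d j) : i = j := by
  unfold pt at h
  rw [Prod.mk.injEq] at h
  rcases mem_dirs.1 hd with rfl | rfl | rfl | rfl <;> simp only at h <;> omega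

/-- Let the segment be in the interior, `S` the finite set of its points and all their neighbours (`S ⊆ D`), `O` the odd points of the segment: `#O ≥ l / 2`.  `x₀ = x` if `x` is even, otherwise
`x₀ = pt x d (-1)`; `x₀ ∈ S` is even.  For each `k` the event `Up h x d l ∧ h x₀ = 2 k` is a pattern on `S` (all heights are determined), so its probability is at most
`pr D x₀ 0 / 2 ^ #O ≤ pr D x₀ 0 / 2 ^ (l / 2)` (`patt_bound`) and at most `pr D x₀ k`.  Sum over `k ∈ Icc (-K) K`, `K = #D` (`h x₀` is even and `|h x₀| ≤ #D`), and use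
`min_sum` with `m = l / 2`. -/
theorem PT_le (D : Finset V) (x d : V) (hd : d ∈ dirs) (l : ℕ) : PT D x d l ≤ tl l := by
  classical
  by_cases hI : InD D x d l ∧ 1 ≤ l
  swap
  · have : PT D x d l = 0 := by
      unfold PT avg
      rw [Finset.sum_eq_zero, zero_div]
      intro g _
      apply ind_zero_h35b
      rintro ⟨h1, h2⟩
      exact hI ⟨h1, h2.pos⟩
    rw [this]
    exact tl_nn_h35b l
  obtain ⟨hI, hl1⟩ := hI
  set S : Finset V := D.filter (fun v => ∃ i : ℤ, 0 ≤ i ∧ i < l ∧ (v = pt x d i ∨ Adj v (pt x d i))) with hS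
  set O : Finset V := D.filter (fun v => par v % 2 = 1 ∧ ∃ i : ℤ, 0 ≤ i ∧ i < l ∧ v = pt x d i) with hO
  have hxD : ∀ i : ℤ, 0 ≤ i → i < l → pt x d i ∈ D := fun i h0 hl => by
    have := hI i h0 hl
    rw [core, mem_sdiff] at this
    exact this.1
  have hSD : S ⊆ D := Finset.filter_subset _ _
  have hOS : O ⊆ S := by
    intro v hv
    rw [hO, mem_filter] at hv
    obtain ⟨h1, h2, i, h0, hl, hvi⟩ := hv
    rw [hS, mem_filter]
    exact ⟨h1, i, h0, hl, Or.inl hvi⟩
  have hOp : ∀ v ∈ O, v ∈ core D ∧ par v % 2 = 1 ∧ ∀ u, Adj u v → u ∈ S := by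
    intro v hv
    rw [hO, mem_filter] at hv
    obtain ⟨h1, h2, i, h0, hl, rfl⟩ := hv
    refine ⟨hI i h0 hl, h2, fun u hu => ?_⟩
    rw [hS, mem_filter]
    exact ⟨nbr_core (hI i h0 hl) hu, i, h0, hl, Or.inr hu⟩
  have hOc : l / 2 ≤ O.card := by
    obtain ⟨e, he0, he1, hep⟩ : ∃ e : ℤ, 0 ≤ e ∧ e ≤ 1 ∧ (par x + e) % 2 = 1 := by
      rcases Int.emod_two_eq_zero_or_one (par x) with h | h
      · exact ⟨1, by norm_num, by norm_num, by omega⟩
      · exact ⟨0, by norm_num, by norm_num, by omega⟩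
    have h1 : ((range (l / 2)).image (fun j : ℕ => pt x d (2 * j + e))).card = l / 2 := by
      rw [Finset.card_image_of_injective, card_range]
      intro a b hab
      have := pt_inj_h35b hd x hab
      omega
    rw [← h1]
    apply Finset.card_le_card
    intro v hv
    rw [mem_image] at hv
    obtain ⟨j, hj, rfl⟩ := hv
    rw [mem_range] at hj
    rw [hO, mem_filter]
    have h2 : (0 : ℤ) ≤ 2 * j + e := by omega
    have h3 : (2 * j + e : ℤ) < l := by omega
    refine ⟨hxD _ h2 h3, ?_, _, h2, h3, rfl⟩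
    have := pt_par_h35b hd x (2 * j + e)
    omega
  obtain ⟨x₀, c, hx₀S, hx₀p, hx₀h⟩ : ∃ (x₀ : V) (c : ℤ), x₀ ∈ S ∧ par x₀ % 2 = 0 ∧
      ∀ h : V → ℤ, Up h x d l → h x₀ = h x + c := by
    have hlz : (0 : ℤ) < l := by exact_mod_cast hl1
    have hp0 : pt x d 0 = x := by simp [pt]
    rcases Int.emod_two_eq_zero_or_one (par x) with h | h
    · refine ⟨x, 0, ?_, h, fun h _ => by ring⟩
      rw [hS, mem_filter]
      refine ⟨?_, 0, le_rfl, hlz, Or.inl hp0.symm⟩
      have := hxD 0 le_rfl hlz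
      rwa [hp0] at this
    · have ha : Adj (pt x d (-1)) (pt x d 0) := by
        rcases mem_dirs.1 hd with rfl | rfl | rfl | rfl <;> simp [Adj, pt]
      refine ⟨pt x d (-1), 1, ?_, ?_, fun h hu => hu.head⟩
      · rw [hS, mem_filter]
        exact ⟨nbr_core (hI 0 le_rfl hlz) ha, 0, le_rfl, hlz, Or.inr ha⟩
      · have := pt_par_h35b hd x (-1)
        omega
  have hx₀D : x₀ ∈ D := hSD hx₀S
  -- the pattern
  have hk : ∀ k : ℤ, avg (Om D) (fun h => ind (Up h x d l ∧ h x₀ = 2 * k)) ≤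
      min (pr D x₀ 0 / 2 ^ (l / 2)) (pr D x₀ k) := by
    intro k
    refine le_min ?_ (avg_mono fun h _ => ind_mono fun hu => hu.2)
    have hpr : 0 ≤ pr D x₀ 0 := pr_nonneg D x₀ 0
    by_cases hex : ∃ g : V → ℤ, Up g x d l ∧ g x₀ = 2 * k
    · obtain ⟨g, hg1, hg2⟩ := hex
      calc avg (Om D) (fun h => ind (Up h x d l ∧ h x₀ = 2 * k))
          ≤ avg (Om D) (fun h => ind (∀ v ∈ S, h v = g v)) := by
            refine avg_mono fun h _ => ind_mono ?_
            rintro ⟨hu, hu2⟩ v hv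
            rw [hS, mem_filter] at hv
            obtain ⟨_, i, h0, hl, hvi⟩ := hv
            have e1 := up_det_h35b hd hg1 hu h0 hl hvi
            have e2 := hx₀h h hu
            have e3 := hx₀h g hg1
            omega
        _ ≤ avg (Om D) (fun h => ind (h x₀ = 0)) / 2 ^ O.card := patt_bound hSD hOS hOp g hx₀S hx₀p
        _ = pr D x₀ 0 / 2 ^ O.card := by
            unfold pr
            rw [mul_zero]
        _ ≤ pr D x₀ 0 / 2 ^ (l / 2) := by
            apply div_le_div_of_nonneg_left hpr (by positivity)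
            exact pow_le_pow_right₀ (by norm_num) hOc
    · have : avg (Om D) (fun h => ind (Up h x d l ∧ h x₀ = 2 * k)) = 0 := by
        unfold avg
        rw [Finset.sum_eq_zero, zero_div]
        intro g _
        apply ind_zero_h35b
        rintro ⟨h1, h2⟩
        exact hex ⟨g, h1, h2⟩
      rw [this]
      positivity
  -- the sum over the values
  have hsum : PT D x d l ≤ ∑ k ∈ Icc (-(D.card : ℤ)) D.card, avg (Om D) (fun h => ind (Up h x d l ∧ h x₀ = 2 * k)) := by
    have hex : ∑ k ∈ Icc (-(D.card : ℤ)) D.card, avg (Om D) (fun h => ind (Up h x d l ∧ h x₀ = 2 * k)) =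
        avg (Om D) (fun h => ∑ k ∈ Icc (-(D.card : ℤ)) D.card, ind (Up h x d l ∧ h x₀ = 2 * k)) := by
      unfold avg
      rw [Finset.sum_comm, Finset.sum_div]
    rw [hex]
    unfold PT
    refine avg_mono fun h hh => ?_
    by_cases hu : InD D x d l ∧ Up h x d l
    · rw [ind_one_h35b hu]
      have hm := mem_Om.1 hh
      have hpar := hm.1.par x₀ hx₀D
      rw [Int.even_iff] at hpar
      obtain ⟨b, hb, hbv⟩ := hm.1.bound_bdry hx₀D
      rw [hm.2 b hb, sub_zero, abs_le] at hbv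
      have hmem : h x₀ / 2 ∈ Icc (-(D.card : ℤ)) D.card := by
        rw [mem_Icc]
        omega
      have h1 : ind (Up h x d l ∧ h x₀ = 2 * (h x₀ / 2)) = 1 := by
        apply ind_one_h35b
        refine ⟨hu.2, ?_⟩
        omega
      rw [← h1]
      exact Finset.single_le_sum (f := fun k : ℤ => ind (Up h x d l ∧ h x₀ = 2 * k)) (fun _ _ => ind_nonneg _) hmem
    · rw [ind_zero_h35b hu]
      exact Finset.sum_nonneg fun _ _ => ind_nonneg _
  calc PT D x d l ≤ _ := hsum
    _ ≤ ∑ k ∈ Icc (-(D.card : ℤ)) D.card, min (pr D x₀ 0 / 2 ^ (l / 2)) (pr D x₀ k) :=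
        Finset.sum_le_sum fun k _ => hk k
    _ ≤ (4 * ((l / 2 : ℕ) : ℝ) + 8) / 2 ^ (l / 2) :=
        min_sum (pr D x₀) (pr_nonneg D x₀) (pr_neg D x₀) (pr_one D x₀ hx₀p) (fun a b => pr_add D x₀ a b) D.card
          (pr_sum D x₀ D.card) (l / 2)
    _ = tl l := rfl

end MD
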