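import Pool.Agent.Helper35.MD.F5

/-!
MDV piece F5b: the size of `Yt`.
-/

open Finset RP4 KP

namespace MD

/-- the same for `Down`, and with `h w`: `|h w| ≤ #D` (`IsHom.bound_bdry`), `|Yt| ≤ #D * P`; the probability of `Down h (a, p) e2 l` is `PT D (a, p) e2 l` by symmetry;
`#D ≤ (2 N + 1) ^ 2` -/
theorem Yt_le {D : Finset V} {N : ℕ} (hN : Bd D N) (w : V) (a p : ℤ) (l : ℕ) :
    |Yt D w a p l| ≤ (2 * N + 1) ^ 2 * tl l := by
  have hb : ∀ h ∈ Om D, |(h w : ℝ)| ≤ (D.card : ℝ) := by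
    intro h hh
    obtain ⟨h1, h2⟩ := (mem_Zs (Subset.refl _)).1 hh
    by_cases hw : w ∈ D
    · obtain ⟨b, hb, hbw⟩ := h1.bound_bdry hw
      rw [h2 b hb, sub_zero] at hbw
      exact_mod_cast hbw
    · rw [h1.off w hw]
      simp
  have hcard : (D.card : ℝ) ≤ (2 * (N : ℝ) + 1) ^ 2 := by
    have hsub : D ⊆ Icc (-(N : ℤ)) N ×ˢ Icc (-(N : ℤ)) N := by
      intro v hv
      obtain ⟨h1, h2⟩ := hN v hv
      rw [abs_le] at h1 h2
      simp only [Finset.mem_product, Finset.mem_Icc]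
      exact ⟨h1, h2⟩
    have h1 := Finset.card_le_card hsub
    rw [Finset.card_product, Int.card_Icc] at h1
    have h2 : ((N : ℤ) + 1 - -(N : ℤ)).toNat = 2 * N + 1 := by omega
    rw [h2] at h1
    calc (D.card : ℝ) ≤ (((2 * N + 1) * (2 * N + 1) : ℕ) : ℝ) := by exact_mod_cast h1
      _ = (2 * (N : ℝ) + 1) ^ 2 := by push_cast; ring
  have htl : 0 ≤ tl l := by unfold tl; positivity
  have hPT : avg (Om D) (fun h => ind (InD D (a, p) e2 l ∧ Down h (a, p) e2 l)) = PT D (a, p) e2 l :=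
    avg_neg_Om (D := D) (fun h => ind (InD D (a, p) e2 l ∧ Up h (a, p) e2 l))
  have hind : ∀ q : Prop, 0 ≤ ind q := by
    intro q
    unfold ind
    split_ifs <;> norm_num
  calc |Yt D w a p l|
      ≤ avg (Om D) (fun h => |ind (InD D (a, p) e2 l ∧ Down h (a, p) e2 l) * (h w : ℝ)|) := by
        unfold Yt avg
        rw [abs_div, Nat.abs_cast]
        exact div_le_div_of_nonneg_right (Finset.abs_sum_le_sum_abs _ _) (Nat.cast_nonneg _)
    _ ≤ avg (Om D) (fun h => (D.card : ℝ) * ind (InD D (a, p) e2 l ∧ Down h (a, p) e2 l)) := by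
        refine avg_mono fun h hh => ?_
        rw [abs_mul, abs_of_nonneg (hind _), mul_comm]
        exact mul_le_mul_of_nonneg_right (hb h hh) (hind _)
    _ = (D.card : ℝ) * PT D (a, p) e2 l := by
        rw [← hPT]
        unfold avg
        rw [← Finset.mul_sum, mul_div_assoc]
    _ ≤ (2 * (N : ℝ) + 1) ^ 2 * tl l := by
        have h1 := PT_le D (a, p) e2 e2_dirs l
        exact le_trans (mul_le_mul_of_nonneg_left h1 (Nat.cast_nonneg _))
          (mul_le_mul_of_nonneg_right hcard htl)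

/-- `tl` is nonincreasing: `(4 m + 8) / 2 ^ m` is nonincreasing in `m`. -/
theorem tl_anti {l l' : ℕ} (h : l ≤ l') : tl l' ≤ tl l := by
  have key : Antitone (fun m : ℕ => (4 * (m : ℝ) + 8) / 2 ^ m) := by
    refine antitone_nat_of_succ_le fun m => ?_
    have h2 : (0 : ℝ) < 2 ^ m := by positivity
    simp only [pow_succ]
    rw [div_le_div_iff₀ (by positivity) h2]
    push_cast
    have hm : (0 : ℝ) ≤ m := Nat.cast_nonneg m
    nlinarith [mul_nonneg hm h2.le]
  exact key (Nat.div_le_div_right h)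

end MD
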