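import Pool.Agent.Helper35.MD.F5

/-!
MDV piece F5c: the local constant is bounded.
-/

open Finset RP4 KP

namespace MD

private lemma poly_h35 (m : ℕ) : (8 * (m : ℝ) ^ 2 + 20 * m + 8) ≤ 50 * (3 / 2) ^ m := by
  have key : ∀ k : ℕ, 8 * ((k + 4 : ℕ) : ℝ) ^ 2 + 20 * ((k + 4 : ℕ) : ℝ) + 8 ≤ 50 * (3 / 2) ^ (k + 4) := by
    intro k
    induction k with
    | zero => norm_num
    | succ k ih =>
      have h1 : ((3 : ℝ) / 2) ^ (k + 1 + 4) = (3 / 2) * (3 / 2) ^ (k + 4) := by ring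
      rw [h1]
      push_cast at ih ⊢
      have h2 : (0 : ℝ) ≤ k := Nat.cast_nonneg k
      nlinarith
  rcases lt_or_ge m 4 with h | h
  · interval_cases m <;> norm_num
  · obtain ⟨k, rfl⟩ := Nat.exists_eq_add_of_le h
    have := key k
    rw [add_comm 4 k]
    exact this

private lemma ltl_h35 (l : ℕ) : (l : ℝ) * tl l ≤ 100 * (9 / 10) ^ l := by
  have hm : ∃ m : ℕ, l = 2 * m ∨ l = 2 * m + 1 := ⟨l / 2, by omega⟩
  obtain ⟨m, hm⟩ := hm
  have hl2 : l / 2 = m := by omega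
  have h1 : (l : ℝ) ≤ 2 * m + 1 := by
    rcases hm with rfl | rfl <;> push_cast <;> linarith
  have h2 : (0 : ℝ) < 2 ^ m := by positivity
  have h3 : (l : ℝ) * tl l ≤ 50 * (3 / 4) ^ m := by
    unfold tl
    rw [hl2, mul_div_assoc', div_le_iff₀ h2]
    have h4 : (50 : ℝ) * (3 / 4) ^ m * 2 ^ m = 50 * (3 / 2) ^ m := by
      rw [mul_assoc, ← mul_pow]
      norm_num
    rw [h4]
    have h5 := poly_h35 m
    have h6 : (0 : ℝ) ≤ m := Nat.cast_nonneg m
    calc (l : ℝ) * (4 * (m : ℝ) + 8) ≤ (2 * m + 1) * (4 * (m : ℝ) + 8) :=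
          mul_le_mul_of_nonneg_right h1 (by linarith)
      _ = 8 * (m : ℝ) ^ 2 + 20 * m + 8 := by ring
      _ ≤ _ := h5
  have h7 : ((3 : ℝ) / 4) ^ m ≤ 2 * (9 / 10) ^ l := by
    have h8 : ((3 : ℝ) / 4) ^ m ≤ (81 / 100) ^ m := pow_le_pow_left₀ (by norm_num) (by norm_num) m
    have h9 : ((81 : ℝ) / 100) ^ m = (9 / 10) ^ (2 * m) := by
      rw [pow_mul]
      norm_num
    have h10 : (0 : ℝ) < (9 / 10) ^ (2 * m) := by positivity
    rcases hm with rfl | rfl
    · rw [h9] at h8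
      linarith
    · rw [h9] at h8
      rw [pow_succ]
      linarith
  linarith

private lemma seg_sum_h35 (D : Finset V) (w d : V) (hd : d ∈ dirs) (l : ℕ) :
    ∑ z ∈ core D, ind (Seg z d l w) ≤ l := by
  classical
  have h1 : ∑ z ∈ core D, ind (Seg z d l w) = (((core D).filter (fun z => Seg z d l w)).card : ℝ) := by
    rw [Finset.card_eq_sum_ones, Finset.sum_filter]
    push_cast
    refine Finset.sum_congr rfl fun z _ => ?_
    unfold ind
    split_ifs <;> simp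
  rw [h1]
  have h2 : ((core D).filter (fun z => Seg z d l w)).card ≤ ((range l).image (fun i : ℕ => pt w d (-(i : ℤ)))).card := by
    apply Finset.card_le_card
    intro z hz
    rw [mem_filter] at hz
    obtain ⟨i, hi0, hil, hi⟩ := hz.2
    rw [mem_image]
    refine ⟨i.toNat, ?_, ?_⟩
    · rw [mem_range]
      omega
    · have h3 : ((i.toNat : ℕ) : ℤ) = i := Int.toNat_of_nonneg hi0
      rw [h3, hi]
      unfold pt
      ext
      · simp
      · simp
  have h3 := Finset.card_image_le (s := range l) (f := fun i : ℕ => pt w d (-(i : ℤ)))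
  rw [card_range] at h3
  exact_mod_cast h2.trans h3

/-- `Gam ≤ 8 + 8 ∑_l 2 l tl l`: for each `l` there are `l` points `z` with `Seg z e1 l w` (`z = pt w e1 (-i)`, `0 ≤ i < l`), the same for `e2`; `PT_le`; the
series `∑ 16 l tl l` is bounded (`l tl l ≤ C / 2 ^ (l / 4)`, or compare with a geometric series). -/
theorem Gam_le : ∃ C : ℝ, 0 ≤ C ∧ ∀ (D : Finset V) (w : V) (N : ℕ), Gam D w N ≤ C := by
  refine ⟨8 + 8 * 2000, by norm_num, fun D w N => ?_⟩
  have htl : ∀ l : ℕ, 0 ≤ tl l := by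
    intro l
    unfold tl
    positivity
  have hone : ∀ (d : V), d ∈ dirs → ∀ l : ℕ, ∑ z ∈ core D, ind (Seg z d l w) * PT D z d l ≤ 100 * (9 / 10) ^ l := by
    intro d hd l
    calc ∑ z ∈ core D, ind (Seg z d l w) * PT D z d l ≤ ∑ z ∈ core D, ind (Seg z d l w) * tl l :=
          Finset.sum_le_sum fun z _ => mul_le_mul_of_nonneg_left (PT_le D z d hd l) (ind_nonneg _)
      _ = (∑ z ∈ core D, ind (Seg z d l w)) * tl l := by rw [Finset.sum_mul]
      _ ≤ (l : ℝ) * tl l := mul_le_mul_of_nonneg_right (seg_sum_h35 D w d hd l) (htl l)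
      _ ≤ _ := ltl_h35 l
  have hgeo : ∑ l ∈ Icc 2 (2 * N + 1), ((9 : ℝ) / 10) ^ l ≤ 10 := by
    have h1 : ∑ l ∈ Icc 2 (2 * N + 1), ((9 : ℝ) / 10) ^ l ≤ ∑ l ∈ range (2 * N + 2), ((9 : ℝ) / 10) ^ l := by
      apply Finset.sum_le_sum_of_subset_of_nonneg
      · intro l hl
        rw [mem_Icc] at hl
        rw [mem_range]
        omega
      · intro l _ _
        positivity
    rw [geom_sum_eq (by norm_num)] at h1
    have h2 : (0 : ℝ) ≤ (9 / 10) ^ (2 * N + 2) := by positivity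
    have h3 : (((9 : ℝ) / 10) ^ (2 * N + 2) - 1) / (9 / 10 - 1) = 10 * (1 - (9 / 10) ^ (2 * N + 2)) := by
      field_simp
      ring
    rw [h3] at h1
    linarith
  unfold Gam
  have hsum : ∑ l ∈ Icc 2 (2 * N + 1), ∑ z ∈ core D,
      (ind (Seg z e1 l w) * PT D z e1 l + ind (Seg z e2 l w) * PT D z e2 l) ≤ 2000 := by
    calc _ ≤ ∑ l ∈ Icc 2 (2 * N + 1), (200 * ((9 : ℝ) / 10) ^ l) := by
          refine Finset.sum_le_sum fun l _ => ?_
          rw [Finset.sum_add_distrib]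
          have h1 := hone e1 e1_dirs l
          have h2 := hone e2 e2_dirs l
          linarith
      _ = 200 * ∑ l ∈ Icc 2 (2 * N + 1), ((9 : ℝ) / 10) ^ l := by rw [← Finset.mul_sum]
      _ ≤ 2000 := by linarith
  linarith

end MD
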