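import Pool.Agent.Helper35.MD.E5
import Pool.Agent.Helper35.MD.F5b

/-!
MDV piece G1: the crossing sums and the row sums.
-/

open Finset RP4 KP

namespace MD

/-- bound of the contribution of the long segments -/
noncomputable def er (N m : ℕ) : ℝ := 2 * (2 * N + 1) ^ 5 * tl (2 * m + 1)

/-- `CY y + CY (y + 1)`: for each `l` and `a` the sum of `Yt` over `p ∈ Ico (y - l + 1) y` and over `p ∈ Ico (y - l + 2) (y + 1)`.
`l ≤ 2 m` even, `l = 2 k`: shift the second sum by one: `∑_{p ∈ Ico (y - l + 1) y} (Yt p + Yt (p + 1)) ≥ 0` by `Yt_even` with `c = p + k ≤ y - 1 + m ≤ c₀`.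
`l ≤ 2 m` odd, `l = 2 k + 1`: every term is `≥ 0` by `Yt_odd` with `c = p + k ≤ y + k ≤ c₀`.
`l ≥ 2 m + 1`: at most `2 N` values of `l`, `2 N + 1` values of `a`, at most `2 N` values of `p` in each of the two sums (`l - 1 ≤ 2 N`), each term at least
`-(2 N + 1) ^ 2 tl l ≥ -(2 N + 1) ^ 2 tl (2 m + 1)` by `Yt_le`, `tl_anti`. -/
theorem CY_pair {D : Finset V} (hD : BdryPar D 0) {N : ℕ} (hN : Bd D N) {w : V} {c₀ : ℤ}
    (hR : ∀ c : ℤ, c ≤ c₀ → Rfl D c) (hw : c₀ ≤ w.2) {y : ℤ} {m : ℕ} (hy : y + m ≤ c₀) :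
    -er N m ≤ CY D w N y + CY D w N (y + 1) := by
  have hT : 0 ≤ tl (2 * m + 1) := by
    unfold tl
    positivity
  have hterm : ∀ l ∈ Icc 2 (2 * N + 1), ∀ a : ℤ, ∀ p ∈ Ico (y - l + 1) y,
      -(2 * (2 * (N : ℝ) + 1) ^ 2 * tl (2 * m + 1)) ≤ Yt D w a p l + Yt D w a (p + 1) l := by
    intro l hl a p hp
    rw [Finset.mem_Icc] at hl
    rw [Finset.mem_Ico] at hp
    have hK : 0 ≤ 2 * (2 * (N : ℝ) + 1) ^ 2 * tl (2 * m + 1) := by positivity
    by_cases hlm : l ≤ 2 * m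
    · refine le_trans (neg_nonpos.2 hK) ?_
      obtain ⟨k, hk | hk⟩ := Nat.even_or_odd' l
      · have h1 := Yt_even (c := p + k) hD (hR (p + k) (by omega)) (w := w) (by omega) a (k := k) (by omega)
        have e1 : p + (k : ℤ) - k = p := by ring
        rw [e1] at h1
        rw [hk]
        exact h1
      · have h1 := Yt_odd (c := p + k) hD (hR (p + k) (by omega)) (w := w) (by omega) a k
        have h2 := Yt_odd (c := p + 1 + k) hD (hR (p + 1 + k) (by omega)) (w := w) (by omega) a k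
        have e1 : p + (k : ℤ) - k = p := by ring
        have e2 : p + 1 + (k : ℤ) - k = p + 1 := by ring
        rw [e1] at h1
        rw [e2] at h2
        rw [hk]
        exact add_nonneg h1 h2
    · have h1 := (abs_le.1 (Yt_le hN w a p l)).1
      have h2 := (abs_le.1 (Yt_le hN w a (p + 1) l)).1
      have h3 : tl l ≤ tl (2 * m + 1) := tl_anti (by omega)
      have h4 : (2 * (N : ℝ) + 1) ^ 2 * tl l ≤ (2 * (N : ℝ) + 1) ^ 2 * tl (2 * m + 1) :=
        mul_le_mul_of_nonneg_left h3 (by positivity)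
      linarith
  set K : ℝ := 2 * (2 * (N : ℝ) + 1) ^ 2 * tl (2 * m + 1) with hKdef
  have hK : 0 ≤ K := by
    rw [hKdef]
    positivity
  have hN0 : (0 : ℝ) ≤ 2 * N + 1 := by positivity
  have hp : ∀ l ∈ Icc 2 (2 * N + 1), ∀ a : ℤ,
      -((2 * N + 1) * K) ≤ ∑ p ∈ Ico (y - l + 1) y, (Yt D w a p l + Yt D w a (p + 1) l) := by
    intro l hl a
    have h1 : ∑ _p ∈ Ico (y - l + 1) y, (-K) ≤
        ∑ p ∈ Ico (y - l + 1) y, (Yt D w a p l + Yt D w a (p + 1) l) :=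
      Finset.sum_le_sum (fun p hp => hterm l hl a p hp)
    refine le_trans ?_ h1
    rw [Finset.sum_const, Int.card_Ico, nsmul_eq_mul, mul_neg]
    refine neg_le_neg (mul_le_mul_of_nonneg_right ?_ hK)
    rw [Finset.mem_Icc] at hl
    have h2 : (y - (y - l + 1)).toNat ≤ 2 * N + 1 := by omega
    exact_mod_cast h2
  have ha : ∀ l ∈ Icc 2 (2 * N + 1),
      -((2 * N + 1) * ((2 * N + 1) * K)) ≤ ∑ a ∈ Icc (-(N : ℤ)) N,
        ∑ p ∈ Ico (y - l + 1) y, (Yt D w a p l + Yt D w a (p + 1) l) := by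
    intro l hl
    have h1 : ∑ _a ∈ Icc (-(N : ℤ)) N, (-((2 * (N : ℝ) + 1) * K)) ≤ ∑ a ∈ Icc (-(N : ℤ)) N,
        ∑ p ∈ Ico (y - l + 1) y, (Yt D w a p l + Yt D w a (p + 1) l) :=
      Finset.sum_le_sum (fun a _ => hp l hl a)
    refine le_trans ?_ h1
    rw [Finset.sum_const, Int.card_Icc, nsmul_eq_mul, mul_neg]
    refine neg_le_neg (mul_le_mul_of_nonneg_right ?_ (mul_nonneg hN0 hK))
    have h2 : ((N : ℤ) + 1 - -(N : ℤ)).toNat ≤ 2 * N + 1 := by omega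
    exact_mod_cast h2
  have hl : -((2 * N + 1) * ((2 * N + 1) * ((2 * N + 1) * K))) ≤
      ∑ l ∈ Icc 2 (2 * N + 1), ∑ a ∈ Icc (-(N : ℤ)) N,
        ∑ p ∈ Ico (y - l + 1) y, (Yt D w a p l + Yt D w a (p + 1) l) := by
    have h1 : ∑ _l ∈ Icc 2 (2 * N + 1), (-((2 * (N : ℝ) + 1) * ((2 * N + 1) * K))) ≤
        ∑ l ∈ Icc 2 (2 * N + 1), ∑ a ∈ Icc (-(N : ℤ)) N,
          ∑ p ∈ Ico (y - l + 1) y, (Yt D w a p l + Yt D w a (p + 1) l) :=
      Finset.sum_le_sum (fun l hl => ha l hl)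
    refine le_trans ?_ h1
    rw [Finset.sum_const, Nat.card_Icc, nsmul_eq_mul, mul_neg]
    refine neg_le_neg (mul_le_mul_of_nonneg_right ?_ (mul_nonneg hN0 (mul_nonneg hN0 hK)))
    have h2 : 2 * N + 1 + 1 - 2 ≤ 2 * N + 1 := by omega
    exact_mod_cast h2
  have hsum : CY D w N y + CY D w N (y + 1) = ∑ l ∈ Icc 2 (2 * N + 1), ∑ a ∈ Icc (-(N : ℤ)) N,
      ∑ p ∈ Ico (y - l + 1) y, (Yt D w a p l + Yt D w a (p + 1) l) := by
    unfold CY
    rw [← Finset.sum_add_distrib]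
    refine Finset.sum_congr rfl (fun l _ => ?_)
    rw [← Finset.sum_add_distrib]
    refine Finset.sum_congr rfl (fun a _ => ?_)
    rw [Finset.sum_add_distrib]
    congr 1
    have e : Ico (y + 1 - l + 1) (y + 1) = (Ico (y - l + 1) y).map (addRightEmbedding 1) := by
      rw [Finset.map_add_right_Ico]
      congr 1
      ring
    rw [e, Finset.sum_map]
    rfl
  rw [hsum]
  refine le_trans (le_of_eq ?_) hl
  unfold er
  rw [hKdef]
  ring

end MD
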