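import Pool.Agent.Helper35.MD.B2
import Pool.Agent.Helper63.RP4.T3

/-!
MDV piece G2: the diamonds.
-/

open Finset RP4 KP

namespace MD

/-- `diam (2 n)` lies in the square of radius `2 n` (`mem_diam`) -/
theorem diam_bd (n : ℕ) : Bd (diam (2 * n)) (2 * n) := by
  intro v hv
  rw [mem_diam] at hv
  have h1 := abs_nonneg v.1
  have h2 := abs_nonneg v.2
  constructor <;> linarith

/-- For `c ≤ 0`.  `low`: `v.2 ≤ c ≤ 0` gives `|2 c - v.2| ≤ -v.2 = |v.2|`.  `bd`: `c ≤ v.2` gives `|2 c - v.2| ≥ |v.2|` (`c ≤ 0`), so if `|v.1| + |v.2| = 2 n` and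
`|v.1| + |2 c - v.2| ≤ 2 n` there is equality (`mem_diam`, `bdry_diam`). -/
theorem diam_rfl (n : ℕ) {c : ℤ} (hc : c ≤ 0) : Rfl (diam (2 * n)) c := by
  constructor
  · intro v hv h
    rw [mem_diam] at hv ⊢
    have h1 : |2 * c - v.2| ≤ |v.2| := by
      rw [abs_of_nonpos (h.trans hc), abs_le]
      constructor <;> linarith
    show |v.1| + |2 * c - v.2| ≤ _
    linarith
  · intro v hv h h2
    rw [bdry_diam] at hv ⊢
    rw [mem_diam] at h2
    have h1 : |v.2| ≤ |2 * c - v.2| := by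
      rw [abs_le]
      have h3 := neg_abs_le (2 * c - v.2)
      constructor <;> linarith
    have h4 : |v.1| + |2 * c - v.2| ≤ ((2 * n : ℕ) : ℤ) := h2
    show |v.1| + |2 * c - v.2| = _
    linarith

/-- `(a, b) ↦ (a, -b)` -/
private def rho39 : V ≃ V :=
  ⟨fun x => (x.1, -x.2), fun x => (x.1, -x.2), fun x => by simp, fun x => by simp⟩

private lemma rho39_lsym : LSym rho39 := by
  constructor
  · intro u v
    have h1 : -u.2 - -v.2 = -(u.2 - v.2) := by ring
    simp only [Adj, rho39, Equiv.coe_fn_mk, h1, abs_neg]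
  · intro u v
    simp only [RP4.par, rho39, Equiv.coe_fn_mk]
    rw [Int.even_iff]
    omega

private lemma rho39_img (m : ℕ) : img rho39 (diam m) = diam m := by
  ext v
  rw [T1_mem_img, mem_diam, mem_diam]
  show |v.1| + |-v.2| ≤ _ ↔ _
  rw [abs_neg]

private lemma rho39_cv (m : ℕ) {x w : V} (hw : w.2 = 0) :
    cv (diam m) (x.1, -x.2) w = cv (diam m) x w := by
  have h := avg_Om_img rho39_lsym (fun v => by
    simp only [RP4.par, rho39, Equiv.coe_fn_mk]
    rw [Int.even_iff]
    omega) (diam m) (fun h => (h x : ℝ) * h w)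
  rw [rho39_img] at h
  have hw2 : rho39 w = w := by
    show (w.1, -w.2) = w
    rw [hw, neg_zero]
    exact Prod.ext rfl hw.symm
  unfold cv
  rw [← h]
  simp only [hw2]
  rfl

/-- reflection symmetry `(a, b) ↦ (a, -b)` of the diamond: `avg_Om_img` (file T1) for this equivalence (it preserves adjacency and parity and maps the diamond to
itself), so `cv (diam m) (a, -b) (w₁, 0) = cv (diam m) (a, b) (w₁, 0)`; sum over the row. -/
theorem diam_Rw_neg (n : ℕ) {w : V} (hw : w.2 = 0) (y : ℤ) : Rw (diam (2 * n)) w (-y) = Rw (diam (2 * n)) w y := by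
  unfold Rw
  refine Finset.sum_bij' (fun x _ => ((x.1, -x.2) : V)) (fun x _ => ((x.1, -x.2) : V)) ?_ ?_ ?_ ?_ ?_
  · intro x hx
    rw [mem_filter, mem_diam] at hx ⊢
    refine ⟨?_, ?_⟩
    · show |x.1| + |-x.2| ≤ _
      rw [abs_neg]
      exact hx.1
    · show -x.2 = y
      rw [hx.2, neg_neg]
  · intro x hx
    rw [mem_filter, mem_diam] at hx ⊢
    refine ⟨?_, ?_⟩
    · show |x.1| + |-x.2| ≤ _
      rw [abs_neg]
      exact hx.1
    · show -x.2 = -y
      rw [hx.2]
  · intro x _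
    simp
  · intro x _
    simp
  · intro x _
    exact (rho39_cv (2 * n) hw).symm

end MD
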