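import Pool.Agent.Helper35.MD.G2
import Pool.Agent.Helper58.KP.Fin

/-!
MDV piece G2b: variance in the diamond.
-/

open Finset RP4 KP

namespace MD

private lemma log_elen_G2b {n : ℕ} (hn : 1 ≤ n) {x : V} (hx : x ∈ diam (2 * n)) :
    Real.log (elen (x - ((2 * n : ℤ), (0 : ℤ)))) ≤ 4 * Real.sqrt n := by
  have hn1 : (1 : ℝ) ≤ n := by exact_mod_cast hn
  have hs1 : 1 ≤ Real.sqrt n := Real.one_le_sqrt.2 hn1
  by_cases h0 : x - ((2 * n : ℤ), (0 : ℤ)) = 0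
  · rw [h0, elen_zero, Real.log_zero]
    positivity
  have h1 := one_le_elen h0
  have h2 : elen (x - ((2 * n : ℤ), (0 : ℤ))) ≤ 4 * n := by
    rw [mem_diam] at hx
    push_cast at hx
    have hx' : |(x.1 : ℝ)| + |(x.2 : ℝ)| ≤ 2 * n := by exact_mod_cast hx
    unfold elen
    rw [Real.sqrt_le_left (by positivity)]
    have e1 : ((x - ((2 * n : ℤ), (0 : ℤ)) : V).1 : ℝ) = x.1 - 2 * n := by
      simp
    have e2 : ((x - ((2 * n : ℤ), (0 : ℤ)) : V).2 : ℝ) = x.2 := by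
      simp
    rw [e1, e2]
    have a1 := abs_nonneg (x.1 : ℝ)
    have a2 := abs_nonneg (x.2 : ℝ)
    have b1 : |(x.1 : ℝ) - 2 * n| ≤ |(x.1 : ℝ)| + 2 * n := by
      refine (abs_sub _ _).trans (le_of_eq ?_)
      rw [abs_of_nonneg (show (0 : ℝ) ≤ 2 * n by positivity)]
    have b2 := abs_nonneg ((x.1 : ℝ) - 2 * n)
    have b3 : ((x.1 : ℝ) - 2 * n) ^ 2 = |(x.1 : ℝ) - 2 * n| ^ 2 := (sq_abs _).symm
    have b4 : (x.2 : ℝ) ^ 2 = |(x.2 : ℝ)| ^ 2 := (sq_abs _).symm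
    rw [b3, b4]
    nlinarith
  have h3 : Real.log (elen (x - ((2 * n : ℤ), (0 : ℤ)))) ≤ Real.log (4 * n) :=
    Real.log_le_log (by linarith) h2
  have h4 : (4 : ℝ) * n = (2 * Real.sqrt n) ^ 2 := by
    rw [mul_pow, Real.sq_sqrt (by positivity)]
    norm_num
  have h5 : Real.log (4 * n) = 2 * Real.log (2 * Real.sqrt n) := by
    rw [h4, Real.log_pow]
    norm_num
  have h6 : Real.log (2 * Real.sqrt n) ≤ 2 * Real.sqrt n - 1 :=
    Real.log_le_sub_one_of_pos (by positivity)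
  rw [h5] at h3
  linarith

/-- Variance bound in the diamond.  `KP.core_pos` (last item with `ε = 1`) for `v = (2 n, 0) ∈ bdry (diam (2 n))`, `elen (x - v) ≤ 4 n`
and `log (4 n) ≤ C √n`; if `x - v = 0` then `h x = 0`. -/
theorem diam_var : ∃ C : ℝ, 0 ≤ C ∧ ∀ n : ℕ, 1 ≤ n → ∀ x ∈ diam (2 * n),
    avg (Om (diam (2 * n))) (fun h => (h x : ℝ) ^ 2) ≤ C * Real.sqrt n := by
  obtain ⟨K, a, hK, _, _, _, hD⟩ := core_pos
  obtain ⟨C, hC⟩ := hD 1 one_pos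
  have hKp : 0 ≤ K / Real.pi + 1 := by positivity
  refine ⟨(K / Real.pi + 1) * 4 + |C|, by positivity, fun n hn x hx => ?_⟩
  have hn1 : (1 : ℝ) ≤ n := by exact_mod_cast hn
  have hs1 : 1 ≤ Real.sqrt n := Real.one_le_sqrt.2 hn1
  have hv : ((2 * n : ℤ), (0 : ℤ)) ∈ bdry (diam (2 * n)) := by
    rw [bdry_diam]
    simp
  have h1 := hC (diam (2 * n)) (diam_bdryPar _ (even_two_mul n)) x hx _ hv
  have h2 := mul_le_mul_of_nonneg_left (log_elen_G2b hn hx) hKp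
  have h3 : C ≤ |C| * Real.sqrt n := by
    have h4 := le_abs_self C
    have h5 := mul_le_mul_of_nonneg_left hs1 (abs_nonneg C)
    linarith
  calc _ ≤ _ := h1
    _ ≤ (K / Real.pi + 1) * (4 * Real.sqrt n) + |C| * Real.sqrt n := add_le_add h2 h3
    _ = _ := by ring

/-- `|E[h_x h_w]| ≤ (E[h_x^2] + E[h_w^2]) / 2` -/
theorem diam_cv : ∃ C : ℝ, 0 ≤ C ∧ ∀ n : ℕ, 1 ≤ n → ∀ x ∈ diam (2 * n), ∀ w ∈ diam (2 * n),
    cv (diam (2 * n)) x w ≤ C * Real.sqrt n := by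
  obtain ⟨C, hC0, hC⟩ := diam_var
  refine ⟨C, hC0, fun n hn x hx w hw => ?_⟩
  have h1 := hC n hn x hx
  have h2 := hC n hn w hw
  have h3 : avg (Om (diam (2 * n))) (fun h => (h x : ℝ) * h w + (h x : ℝ) * h w) ≤
      avg (Om (diam (2 * n))) (fun h => (h x : ℝ) ^ 2 + (h w : ℝ) ^ 2) := by
    refine avg_mono fun h _ => ?_
    nlinarith [sq_nonneg ((h x : ℝ) - h w)]
  rw [avg_add, avg_add] at h3
  unfold cv
  linarith

end MD
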