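import Pool.Agent.Helper35.MD.G1

/-!
MDV piece G3: the error term.
-/

open Finset RP4 KP

namespace MD

/-- exponential against polynomial: with `m = Nat.sqrt n` one has `n < (m + 1) ^ 2`, so `er (2 n) m ≤ 2 (4 (m + 1) ^ 2 + 1) ^ 5 (4 m + 8) / 2 ^ m`, bounded in `m`
(a polynomial in `m` over `2 ^ m` tends to zero: `tendsto_pow_const_div_const_pow_of_one_lt`). -/
theorem er_bound : ∃ C : ℝ, 0 ≤ C ∧ ∀ n : ℕ, er (2 * n) (Nat.sqrt n) ≤ C := by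
  obtain ⟨c, hc⟩ := (tendsto_pow_const_div_const_pow_of_one_lt 11 (one_lt_two (α := ℝ))).bddAbove_range
  have hc' : ∀ k : ℕ, (k : ℝ) ^ 11 / 2 ^ k ≤ c := fun k => hc ⟨k, rfl⟩
  have hc0 : 0 ≤ c := by have := hc' 0; simpa using this
  refine ⟨100000 * c, by positivity, fun n => ?_⟩
  set m := Nat.sqrt n with hm
  have h1 : n < (m + 1) * (m + 1) := Nat.lt_succ_sqrt n
  have h2 : (n : ℝ) ≤ ((m : ℝ) + 1) ^ 2 := by
    have : (n : ℝ) < ((m + 1 : ℕ) : ℝ) * ((m + 1 : ℕ) : ℝ) := by exact_mod_cast h1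
    push_cast at this
    nlinarith
  have hm0 : (0 : ℝ) ≤ m := Nat.cast_nonneg m
  have h3 : (2 * ((2 * n : ℕ) : ℝ) + 1) ≤ 5 * ((m : ℝ) + 1) ^ 2 := by push_cast; nlinarith
  have h4 : (2 * ((2 * n : ℕ) : ℝ) + 1) ^ 5 ≤ (5 * ((m : ℝ) + 1) ^ 2) ^ 5 :=
    pow_le_pow_left₀ (by positivity) h3 5
  have h5 : (2 * m + 1) / 2 = m := by omega
  have h6 : (0 : ℝ) < 2 ^ m := by positivity
  have h7 := hc' (m + 1)
  rw [div_le_iff₀ (by positivity)] at h7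
  push_cast at h7
  unfold er tl
  rw [h5, ← mul_div_assoc, div_le_iff₀ h6]
  calc 2 * (2 * ((2 * n : ℕ) : ℝ) + 1) ^ 5 * (4 * (m : ℝ) + 8)
      ≤ 2 * (5 * ((m : ℝ) + 1) ^ 2) ^ 5 * (8 * ((m : ℝ) + 1)) := by
        gcongr
        linarith
    _ = 50000 * ((m : ℝ) + 1) ^ 11 := by ring
    _ ≤ 50000 * (c * 2 ^ (m + 1)) := by gcongr
    _ = 100000 * c * 2 ^ m := by ring

end MD
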