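import Pool.Agent.Helper35.MD.G3
import Pool.Agent.Helper35.MD.G1b
import Pool.Agent.Helper35.MD.G2b
import Pool.Agent.Helper35.MD.F5c

/-!
MDV piece G3b: the sum over the diamond.
-/

open Finset RP4 KP

namespace MD

private lemma row_low_h46 {C1 C2 : ℝ} (hC1 : ∀ (D : Finset V) (w : V) (N : ℕ), Gam D w N ≤ C1)
    (hC2 : ∀ n : ℕ, er (2 * n) (Nat.sqrt n) ≤ C2) (h1 : 0 ≤ C1) (h2 : 0 ≤ C2) (n : ℕ) {w : V} (hw : w.2 = 0) {y : ℤ}
    (hy0 : -(2 * n : ℤ) ≤ y) (hy : y + Nat.sqrt n ≤ 1) :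
    Rw (diam (2 * n)) w y ≤ (2 * n + 3) * (C1 + 2 * C2) := by
  have hN : ((2 * n : ℕ) : ℤ) = 2 * (n : ℤ) := by push_cast; ring
  have h := Rw_le (D := diam (2 * n)) (diam_bdryPar (2 * n) ⟨n, by ring⟩) (diam_bd n) (w := w) (c₀ := 0)
    (fun c hc => diam_rfl n hc) (by rw [hw]) (m := Nat.sqrt n) (y := y) (by rw [hN]; linarith) (by linarith)
  have hy1 : y ≤ 1 := by
    have : (0 : ℤ) ≤ Nat.sqrt n := Int.natCast_nonneg _
    linarith
  have hyr : (y : ℝ) ≤ 1 := by exact_mod_cast hy1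
  have hy0r : -(2 * n : ℝ) ≤ (y : ℝ) := by exact_mod_cast hy0
  refine h.trans ?_
  have a1 : Gam (diam (2 * n)) w (2 * n) + 2 * er (2 * n) (Nat.sqrt n) ≤ C1 + 2 * C2 := by
    linarith [hC1 (diam (2 * n)) w (2 * n), hC2 n]
  have a2 : (y : ℝ) + ((2 * n : ℕ) : ℝ) + 2 ≤ 2 * n + 3 := by push_cast; linarith
  have a3 : 0 ≤ (y : ℝ) + ((2 * n : ℕ) : ℝ) + 2 := by push_cast; linarith
  calc ((y : ℝ) + ((2 * n : ℕ) : ℝ) + 2) * (Gam (diam (2 * n)) w (2 * n) + 2 * er (2 * n) (Nat.sqrt n))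
      ≤ ((y : ℝ) + ((2 * n : ℕ) : ℝ) + 2) * (C1 + 2 * C2) := mul_le_mul_of_nonneg_left a1 a3
    _ ≤ _ := mul_le_mul_of_nonneg_right a2 (by linarith)

private lemma row_card_h46 (n : ℕ) (y : ℤ) :
    (((diam (2 * n)).filter (fun x => x.2 = y)).card : ℝ) ≤ 4 * n + 1 := by
  have h1 : ((diam (2 * n)).filter (fun x => x.2 = y)).card ≤ (Icc (-(2 * n : ℤ)) (2 * n)).card := by
    apply Finset.card_le_card_of_injOn (fun x => x.1)
    · intro x hx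
      rw [mem_coe, mem_filter] at hx
      have := diam_bd n x hx.1
      have h2 := abs_le.1 this.1
      rw [mem_coe, mem_Icc]
      push_cast at h2
      exact ⟨h2.1, h2.2⟩
    · intro x hx x' hx' he
      rw [mem_coe, mem_filter] at hx hx'
      exact Prod.ext he (hx.2.trans hx'.2.symm)
  have h2 : (Icc (-(2 * n : ℤ)) (2 * n)).card = 4 * n + 1 := by
    rw [Int.card_Icc]
    omega
  rw [h2] at h1
  exact_mod_cast h1

private lemma row_mid_h46 {C3 : ℝ} (h3 : 0 ≤ C3)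
    (hC3 : ∀ n : ℕ, 1 ≤ n → ∀ x ∈ diam (2 * n), ∀ w ∈ diam (2 * n), cv (diam (2 * n)) x w ≤ C3 * Real.sqrt n)
    (n : ℕ) (hn : 1 ≤ n) {w : V} (hw : w ∈ diam (2 * n)) (y : ℤ) :
    Rw (diam (2 * n)) w y ≤ (4 * n + 1) * (C3 * Real.sqrt n) := by
  unfold Rw
  have h4 : 0 ≤ C3 * Real.sqrt n := mul_nonneg h3 (Real.sqrt_nonneg _)
  calc ∑ x ∈ (diam (2 * n)).filter (fun x => x.2 = y), cv (diam (2 * n)) x w
      ≤ ∑ _x ∈ (diam (2 * n)).filter (fun x => x.2 = y), C3 * Real.sqrt n :=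
        Finset.sum_le_sum fun x hx => hC3 n hn x (mem_filter.1 hx).1 w hw
    _ = (((diam (2 * n)).filter (fun x => x.2 = y)).card : ℝ) * (C3 * Real.sqrt n) := by
        rw [Finset.sum_const, nsmul_eq_mul]
    _ ≤ _ := mul_le_mul_of_nonneg_right (row_card_h46 n y) h4

/-- With `D = diam (2 n)`, `N = 2 n`, `m = Nat.sqrt n`, `c₀ = 0`, `w.2 = 0`.  The sum is `∑_{y ∈ Icc (-2n) (2n)} Rw D w y`.  Rows `y ≤ 1 - m`: `Rw_le` (with `hR` from `diam_rfl`), `Gam_le`,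
`er_bound`: `Rw ≤ C (y + 2 n + 2) ≤ C (2 n + 3)`; rows `y ≥ m - 1` in the same way by `diam_Rw_neg`; the remaining rows `|y| < m`, at most `2 m ≤ 2 √n` rows of at most `4 n + 1` points:
`cv ≤ C √n` by `diam_cv`.  Together `≤ C n ^ 2`. -/
theorem diam_sum : ∃ C : ℝ, 0 ≤ C ∧ ∀ n : ℕ, 1 ≤ n → ∀ w ∈ diam (2 * n), w.2 = 0 →
    ∑ x ∈ diam (2 * n), cv (diam (2 * n)) x w ≤ C * (n : ℝ) ^ 2 := by
  obtain ⟨C1, h1, hC1⟩ := Gam_le
  obtain ⟨C2, h2, hC2⟩ := er_bound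
  obtain ⟨C3, h3, hC3⟩ := diam_cv
  refine ⟨25 * (C1 + 2 * C2) + 10 * C3, by positivity, fun n hn w hw hw0 => ?_⟩
  set m : ℕ := Nat.sqrt n with hm
  have hsum : ∑ x ∈ diam (2 * n), cv (diam (2 * n)) x w =
      ∑ y ∈ Icc (-(2 * n : ℤ)) (2 * n), Rw (diam (2 * n)) w y := by
    unfold Rw
    symm
    apply Finset.sum_fiberwise_of_maps_to
    intro x hx
    have h2 := abs_le.1 (diam_bd n x hx).2
    rw [mem_Icc]
    push_cast at h2
    exact ⟨h2.1, h2.2⟩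
  rw [hsum]
  have hK : 0 ≤ (2 * (n : ℝ) + 3) * (C1 + 2 * C2) := by positivity
  have hL : 0 ≤ (4 * (n : ℝ) + 1) * (C3 * Real.sqrt n) := by positivity
  have hrow : ∀ y ∈ Icc (-(2 * n : ℤ)) (2 * n), Rw (diam (2 * n)) w y ≤
      (2 * n + 3) * (C1 + 2 * C2) + if y ∈ Ioo (-(m : ℤ)) m then (4 * n + 1) * (C3 * Real.sqrt n) else 0 := by
    intro y hy
    rw [mem_Icc] at hy
    by_cases hlow : y + m ≤ 1
    · have := row_low_h46 hC1 hC2 h1 h2 n hw0 hy.1 hlow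
      split_ifs <;> linarith
    · by_cases hhigh : -y + m ≤ 1
      · have := row_low_h46 hC1 hC2 h1 h2 n hw0 (y := -y) (by linarith [hy.2]) hhigh
        rw [diam_Rw_neg n hw0] at this
        split_ifs <;> linarith
      · have hmem : y ∈ Ioo (-(m : ℤ)) m := by
          rw [mem_Ioo]
          push Not at hlow hhigh
          constructor <;> linarith
        rw [if_pos hmem]
        have := row_mid_h46 h3 hC3 n hn hw y
        linarith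
  refine (Finset.sum_le_sum hrow).trans ?_
  rw [Finset.sum_add_distrib, Finset.sum_const, nsmul_eq_mul, ← Finset.sum_filter, Finset.sum_const, nsmul_eq_mul]
  have hc1 : ((Icc (-(2 * n : ℤ)) (2 * n)).card : ℝ) = 4 * n + 1 := by
    have h2 : (Icc (-(2 * n : ℤ)) (2 * n)).card = 4 * n + 1 := by
      rw [Int.card_Icc]
      omega
    rw [h2]; push_cast; ring
  have hc2 : (((Icc (-(2 * n : ℤ)) (2 * n)).filter (fun y => y ∈ Ioo (-(m : ℤ)) m)).card : ℝ) ≤ 2 * m := by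
    have h3 : ((Icc (-(2 * n : ℤ)) (2 * n)).filter (fun y => y ∈ Ioo (-(m : ℤ)) m)).card ≤ (Ioo (-(m : ℤ)) m).card :=
      Finset.card_le_card fun y hy => (mem_filter.1 hy).2
    have h4 : (Ioo (-(m : ℤ)) m).card ≤ 2 * m := by
      rw [Int.card_Ioo]
      omega
    exact_mod_cast h3.trans h4
  have hms : (m : ℝ) ≤ Real.sqrt n := Real.nat_sqrt_le_real_sqrt
  have hss : Real.sqrt n * Real.sqrt n = n := Real.mul_self_sqrt (Nat.cast_nonneg n)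
  have hn1 : (1 : ℝ) ≤ n := by exact_mod_cast hn
  have hs0 : 0 ≤ Real.sqrt n := Real.sqrt_nonneg _
  rw [hc1]
  have e1 : (4 * (n : ℝ) + 1) * ((2 * n + 3) * (C1 + 2 * C2)) ≤ 25 * (C1 + 2 * C2) * (n : ℝ) ^ 2 := by
    have hc : 0 ≤ C1 + 2 * C2 := by positivity
    have : (4 * (n : ℝ) + 1) * (2 * n + 3) ≤ 25 * (n : ℝ) ^ 2 := by nlinarith
    calc (4 * (n : ℝ) + 1) * ((2 * n + 3) * (C1 + 2 * C2)) = ((4 * (n : ℝ) + 1) * (2 * n + 3)) * (C1 + 2 * C2) := by ring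
      _ ≤ (25 * (n : ℝ) ^ 2) * (C1 + 2 * C2) := mul_le_mul_of_nonneg_right this hc
      _ = _ := by ring
  have e2 : (((Icc (-(2 * n : ℤ)) (2 * n)).filter (fun y => y ∈ Ioo (-(m : ℤ)) m)).card : ℝ) *
      ((4 * n + 1) * (C3 * Real.sqrt n)) ≤ 10 * C3 * (n : ℝ) ^ 2 := by
    calc _ ≤ (2 * m : ℝ) * ((4 * n + 1) * (C3 * Real.sqrt n)) := mul_le_mul_of_nonneg_right hc2 hL
      _ ≤ (2 * Real.sqrt n) * ((4 * n + 1) * (C3 * Real.sqrt n)) :=
          mul_le_mul_of_nonneg_right (by linarith) hL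
      _ = 2 * C3 * (4 * n + 1) * (Real.sqrt n * Real.sqrt n) := by ring
      _ = 2 * C3 * (4 * n + 1) * n := by rw [hss]
      _ ≤ _ := by nlinarith [mul_nonneg h3 (by linarith : (0:ℝ) ≤ n), mul_nonneg (mul_nonneg h3 (by linarith : (0:ℝ) ≤ n)) (by linarith : (0:ℝ) ≤ (n:ℝ) - 1)]
  linarith

end MD
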