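import Pool.Agent.Helper35.MD.G3b

/-!
MDV piece G4: all domains.
-/

open Finset RP4 KP

namespace MD

/-- Translation by an even vector: `avg_Om_img` for `RP4.trans` (file T1). -/
theorem cv_trans (D : Finset V) (t : V) (ht : Even (par t)) (x w : V) :
    cv (img (trans t) D) (x + t) (w + t) = cv D x w := by
  have h2 := avg_Om_img (trans_lsym t) (fun v => by
    have h3 : par (trans t v) - par v = par t := by
      simp only [RP4.trans, par, Equiv.coe_addRight, Prod.fst_add, Prod.snd_add]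
      ring
    rw [h3]
    exact ht) D (fun h => (h x : ℝ) * h w)
  exact h2

/-- Let `w ∈ D` and let all points of `D` be at distance at most `R` from each other in both coordinates.  Choose `t` with `par t` even and `w + t = (ε, 0)`, `ε ∈ {0, 1}`.  Then the translated domain is
contained in `diam (2 (R + 1))`: `|x + t|₁ ≤ |x - w|₁ + 1 ≤ 2 R + 1`.  By `cov_mono` (file E3 of RP4) each covariance is at most the one in
the diamond (`bdryPar_img`, `diam_bdryPar`), and the covariances are nonnegative; `diam_sum` with `n = R + 1 ≤ 2 R`. -/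
theorem col_sum : ∃ C : ℝ, 0 ≤ C ∧ ∀ (R : ℕ), 1 ≤ R → ∀ D : Finset V, BdryPar D 0 →
    (∀ u ∈ D, ∀ v ∈ D, |u.1 - v.1| ≤ R ∧ |u.2 - v.2| ≤ R) → ∀ w ∈ D, ∑ x ∈ D, cv D x w ≤ C * (R : ℝ) ^ 2 := by
  obtain ⟨C, hC, hsum⟩ := diam_sum
  refine ⟨4 * C, by positivity, fun R hR D hD hRD w hw => ?_⟩
  -- the parity of `w`
  obtain ⟨e, he0, he1, hep⟩ : ∃ e : ℤ, 0 ≤ e ∧ e ≤ 1 ∧ Even (w.1 + w.2 - e) := by
    refine ⟨(w.1 + w.2) % 2, by omega, by omega, ?_⟩
    rw [Int.even_iff]
    omega
  set t : V := (-w.1 + e, -w.2) with ht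
  have htp : Even (par t) := by
    have h0 : par t = -w.1 + e + -w.2 := rfl
    rw [h0, Int.even_iff]
    rw [Int.even_iff] at hep
    omega
  have hwt : w + t = (e, 0) := by
    apply Prod.ext
    · show w.1 + (-w.1 + e) = e
      ring
    · show w.2 + -w.2 = 0
      ring
  have hmem : ∀ x ∈ D, x + t ∈ diam (2 * (R + 1)) := by
    intro x hx
    rw [mem_diam]
    obtain ⟨h1, h2⟩ := hRD x hx w hw
    have h3 := abs_le.1 h1
    have h4 := abs_le.1 h2
    have e1 : (x + t).1 = x.1 - w.1 + e := by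
      show x.1 + (-w.1 + e) = _
      ring
    have e2 : (x + t).2 = x.2 - w.2 := by
      show x.2 + -w.2 = _
      ring
    rw [e1, e2]
    have h5 : |x.1 - w.1 + e| ≤ (R : ℤ) + 1 := by
      rw [abs_le]
      constructor <;> linarith [h3.1, h3.2]
    push_cast
    linarith
  have hsub : img (trans t) D ⊆ diam (2 * (R + 1)) := by
    intro v hv
    unfold img at hv
    rw [Finset.mem_map] at hv
    obtain ⟨x, hx, hxv⟩ := hv
    rw [← hxv]
    exact hmem x hx
  have hD' : BdryPar (img (trans t) D) 0 := by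
    intro v hv
    rw [bdry_img (trans_lsym t), T1_mem_img] at hv
    have h1 := hD _ hv
    have h2 : (trans t).symm v = v - t := by
      rw [Equiv.symm_apply_eq]
      show v = v - t + t
      rw [sub_add_cancel]
    rw [h2] at h1
    have h3 : par (v - t) = par v - par t := by
      show (v.1 - t.1) + (v.2 - t.2) = (v.1 + v.2) - (t.1 + t.2)
      ring
    rw [h3] at h1
    rw [Int.even_iff] at h1 htp ⊢
    omega
  have hdp : BdryPar (diam (2 * (R + 1))) 0 := diam_bdryPar (2 * (R + 1)) (even_two_mul (R + 1))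
  have hwm : w + t ∈ diam (2 * (R + 1)) := hmem w hw
  have hw0 : (w + t).2 = 0 := by rw [hwt]
  calc ∑ x ∈ D, cv D x w
      = ∑ x ∈ D, cv (img (trans t) D) (x + t) (w + t) :=
        Finset.sum_congr rfl fun x _ => (cv_trans D t htp x w).symm
    _ ≤ ∑ x ∈ D, cv (diam (2 * (R + 1))) (x + t) (w + t) := by
        refine Finset.sum_le_sum fun x hx => ?_
        exact cov_mono _ _ hsub hD' hdp _ _ (T1_mem_img' (τ := trans t).2 hx) (T1_mem_img' (τ := trans t).2 hw)
    _ = ∑ y ∈ img (trans t) D, cv (diam (2 * (R + 1))) y (w + t) := by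
        unfold img
        rw [Finset.sum_map]
        rfl
    _ ≤ ∑ y ∈ diam (2 * (R + 1)), cv (diam (2 * (R + 1))) y (w + t) :=
        Finset.sum_le_sum_of_subset_of_nonneg hsub fun y _ _ => cv_nonneg _ _ _
    _ ≤ C * ((R + 1 : ℕ) : ℝ) ^ 2 := hsum (R + 1) (by omega) (w + t) hwm hw0
    _ ≤ C * (2 * (R : ℝ)) ^ 2 := by
        have hR1 : (1 : ℝ) ≤ R := by exact_mod_cast hR
        refine mul_le_mul_of_nonneg_left ?_ hC
        refine pow_le_pow_left₀ (by positivity) ?_ 2
        push_cast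
        linarith
    _ = 4 * C * (R : ℝ) ^ 2 := by ring

end MD
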