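import Pool.Agent.Helper35.MD.G3b

/-!
MDV piece G5: the rows near the row of `w` contribute little.
-/

open Finset RP4 KP

namespace MD

private lemma log_q_h35 {n : ℕ} (hn : 1 ≤ n) {x : V} (hx : x ∈ diam (2 * n)) :
    Real.log (elen (x - ((2 * n : ℤ), (0 : ℤ)))) ≤ 8 * Real.sqrt (Real.sqrt n) := by
  have hn1 : (1 : ℝ) ≤ n := by exact_mod_cast hn
  have hs1 : 1 ≤ Real.sqrt n := Real.one_le_sqrt.2 hn1
  have hq1 : 1 ≤ Real.sqrt (Real.sqrt n) := Real.one_le_sqrt.2 hs1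
  by_cases h0 : x - ((2 * n : ℤ), (0 : ℤ)) = 0
  · rw [h0, elen_zero, Real.log_zero]
    positivity
  have h1 := one_le_elen h0
  have h2 : elen (x - ((2 * n : ℤ), (0 : ℤ))) ≤ 4 * n := by
    rw [mem_diam] at hx
    push_cast at hx
    have hx' : |(x.1 : ℝ)| + |(x.2 : ℝ)| ≤ 2 * n := by exact_mod_cast hx
    unfold elen
    rw [Real.sqrt_le_left (by positivity)]
    have e1 : ((x - ((2 * n : ℤ), (0 : ℤ)) : V).1 : ℝ) = x.1 - 2 * n := by
      simp
    have e2 : ((x - ((2 * n : ℤ), (0 : ℤ)) : V).2 : ℝ) = x.2 := by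
      simp
    rw [e1, e2]
    have a1 := abs_nonneg (x.1 : ℝ)
    have a2 := abs_nonneg (x.2 : ℝ)
    have b1 : |(x.1 : ℝ) - 2 * n| ≤ |(x.1 : ℝ)| + 2 * n := by
      refine (abs_sub _ _).trans (le_of_eq ?_)
      rw [abs_of_nonneg (show (0 : ℝ) ≤ 2 * n by positivity)]
    have b2 := abs_nonneg ((x.1 : ℝ) - 2 * n)
    have b3 : ((x.1 : ℝ) - 2 * n) ^ 2 = |(x.1 : ℝ) - 2 * n| ^ 2 := (sq_abs _).symm
    have b4 : (x.2 : ℝ) ^ 2 = |(x.2 : ℝ)| ^ 2 := (sq_abs _).symm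
    rw [b3, b4]
    nlinarith
  have h3 : Real.log (elen (x - ((2 * n : ℤ), (0 : ℤ)))) ≤ Real.log (4 * n) :=
    Real.log_le_log (by linarith) h2
  set q := Real.sqrt (Real.sqrt n) with hq
  have hq2 : q ^ 2 = Real.sqrt n := by rw [hq, Real.sq_sqrt (by positivity)]
  have h4 : (4 : ℝ) * n = (2 * q ^ 2) ^ 2 := by
    rw [hq2, mul_pow, Real.sq_sqrt (by positivity)]
    norm_num
  have h5 : Real.log (4 * n) = 2 * Real.log (2 * q ^ 2) := by
    rw [h4, Real.log_pow]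
    norm_num
  have h6 : Real.log (2 * q ^ 2) ≤ 2 * Real.log (2 * q) := by
    have h7 : (2 : ℝ) * Real.log (2 * q) = Real.log ((2 * q) ^ 2) := by
      rw [Real.log_pow]
      norm_num
    rw [h7]
    apply Real.log_le_log (by positivity)
    nlinarith [sq_nonneg q]
  have h8 : Real.log (2 * q) ≤ 2 * q - 1 := Real.log_le_sub_one_of_pos (by positivity)
  rw [h5] at h3
  linarith

/-- Variance bound in the diamond with the fourth root. -/
theorem diam_var4 : ∃ C : ℝ, 0 ≤ C ∧ ∀ n : ℕ, 1 ≤ n → ∀ x ∈ diam (2 * n),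
    avg (Om (diam (2 * n))) (fun h => (h x : ℝ) ^ 2) ≤ C * Real.sqrt (Real.sqrt n) := by
  obtain ⟨K, a, hK, _, _, _, hD⟩ := core_pos
  obtain ⟨C, hC⟩ := hD 1 one_pos
  have hKp : 0 ≤ K / Real.pi + 1 := by positivity
  refine ⟨(K / Real.pi + 1) * 8 + |C|, by positivity, fun n hn x hx => ?_⟩
  have hn1 : (1 : ℝ) ≤ n := by exact_mod_cast hn
  have hs1 : 1 ≤ Real.sqrt n := Real.one_le_sqrt.2 hn1
  have hq1 : 1 ≤ Real.sqrt (Real.sqrt n) := Real.one_le_sqrt.2 hs1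
  have hv : ((2 * n : ℤ), (0 : ℤ)) ∈ bdry (diam (2 * n)) := by
    rw [bdry_diam]
    simp
  have h1 := hC (diam (2 * n)) (diam_bdryPar _ (even_two_mul n)) x hx _ hv
  have h2 := mul_le_mul_of_nonneg_left (log_q_h35 hn hx) hKp
  have h3 : C ≤ |C| * Real.sqrt (Real.sqrt n) := by
    have h4 := le_abs_self C
    have h5 := mul_le_mul_of_nonneg_left hq1 (abs_nonneg C)
    linarith
  calc _ ≤ _ := h1
    _ ≤ (K / Real.pi + 1) * (8 * Real.sqrt (Real.sqrt n)) + |C| * Real.sqrt (Real.sqrt n) := add_le_add h2 h3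
    _ = _ := by ring

theorem diam_cv4 : ∃ C : ℝ, 0 ≤ C ∧ ∀ n : ℕ, 1 ≤ n → ∀ x ∈ diam (2 * n), ∀ w ∈ diam (2 * n),
    cv (diam (2 * n)) x w ≤ C * Real.sqrt (Real.sqrt n) := by
  obtain ⟨C, hC0, hC⟩ := diam_var4
  refine ⟨C, hC0, fun n hn x hx w hw => ?_⟩
  have h1 := hC n hn x hx
  have h2 := hC n hn w hw
  have h3 : avg (Om (diam (2 * n))) (fun h => (h x : ℝ) * h w + (h x : ℝ) * h w) ≤
      avg (Om (diam (2 * n))) (fun h => (h x : ℝ) ^ 2 + (h w : ℝ) ^ 2) := by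
    refine avg_mono fun h _ => ?_
    nlinarith [sq_nonneg ((h x : ℝ) - h w)]
  rw [avg_add, avg_add] at h3
  unfold cv
  linarith

private lemma row_card_h35 (n : ℕ) (y : ℤ) :
    (((diam (2 * n)).filter (fun x => x.2 = y)).card : ℝ) ≤ 4 * n + 1 := by
  have h1 : ((diam (2 * n)).filter (fun x => x.2 = y)).card ≤ (Icc (-(2 * n : ℤ)) (2 * n)).card := by
    apply Finset.card_le_card_of_injOn (fun x => x.1)
    · intro x hx
      rw [mem_coe, mem_filter] at hx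
      have := diam_bd n x hx.1
      have h2 := abs_le.1 this.1
      rw [mem_coe, mem_Icc]
      push_cast at h2
      exact ⟨h2.1, h2.2⟩
    · intro x hx x' hx' he
      rw [mem_coe, mem_filter] at hx hx'
      exact Prod.ext he (hx.2.trans hx'.2.symm)
  have h2 : (Icc (-(2 * n : ℤ)) (2 * n)).card = 4 * n + 1 := by
    rw [Int.card_Icc]
    omega
  rw [h2] at h1
  exact_mod_cast h1

/-- every row at distance at least `√n` from the row of `w` has row sum `≤ C n`; every row has row sum `≤ C n ^ (5/4)` -/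
theorem diam_row : ∃ C : ℝ, 0 ≤ C ∧ ∀ n : ℕ, 1 ≤ n → ∀ w ∈ diam (2 * n), w.2 = 0 → ∀ y : ℤ,
    (Nat.sqrt n ≤ |y| + 1 → Rw (diam (2 * n)) w y ≤ C * n) ∧
    Rw (diam (2 * n)) w y ≤ C * (n * Real.sqrt (Real.sqrt n)) := by
  obtain ⟨C1, h1, hC1⟩ := Gam_le
  obtain ⟨C2, h2, hC2⟩ := er_bound
  obtain ⟨C3, h3, hC3⟩ := diam_cv4
  refine ⟨5 * (C1 + 2 * C2) + 5 * C3, by positivity, fun n hn w hw hw0 y => ⟨?_, ?_⟩⟩
  · have hn1 : (1 : ℝ) ≤ n := by exact_mod_cast hn
    have hlow : ∀ z : ℤ, z + Nat.sqrt n ≤ 1 → Rw (diam (2 * n)) w z ≤ (5 * (C1 + 2 * C2) + 5 * C3) * n := by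
      intro z hz
      by_cases hz0 : z < -(2 * n : ℤ) - 2
      · have he : (diam (2 * n)).filter (fun x => x.2 = z) = ∅ := by
          rw [Finset.filter_eq_empty_iff]
          intro x hx hxz
          have := (abs_le.1 (diam_bd n x hx).2).1
          push_cast at this
          omega
        unfold Rw
        rw [he, Finset.sum_empty]
        positivity
      · push Not at hz0
        have hN : ((2 * n : ℕ) : ℤ) = 2 * (n : ℤ) := by push_cast; ring
        have h := Rw_le (D := diam (2 * n)) (diam_bdryPar (2 * n) ⟨n, by ring⟩) (diam_bd n) (w := w) (c₀ := 0)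
          (fun c hc => diam_rfl n hc) (by rw [hw0]) (m := Nat.sqrt n) (y := z) (by rw [hN]; linarith) (by linarith)
        have hz1 : z ≤ 1 := by
          have : (0 : ℤ) ≤ Nat.sqrt n := Int.natCast_nonneg _
          linarith
        have hzr : (z : ℝ) ≤ 1 := by exact_mod_cast hz1
        have hz0r : -(2 * n : ℝ) - 2 ≤ (z : ℝ) := by exact_mod_cast hz0
        refine h.trans ?_
        have a1 : Gam (diam (2 * n)) w (2 * n) + 2 * er (2 * n) (Nat.sqrt n) ≤ C1 + 2 * C2 := by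
          linarith [hC1 (diam (2 * n)) w (2 * n), hC2 n]
        have a2 : (z : ℝ) + ((2 * n : ℕ) : ℝ) + 2 ≤ 5 * n := by push_cast; linarith
        have a3 : 0 ≤ (z : ℝ) + ((2 * n : ℕ) : ℝ) + 2 := by push_cast; linarith
        have a4 : 0 ≤ C1 + 2 * C2 := by positivity
        calc ((z : ℝ) + ((2 * n : ℕ) : ℝ) + 2) * (Gam (diam (2 * n)) w (2 * n) + 2 * er (2 * n) (Nat.sqrt n))
            ≤ ((z : ℝ) + ((2 * n : ℕ) : ℝ) + 2) * (C1 + 2 * C2) := mul_le_mul_of_nonneg_left a1 a3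
          _ ≤ (5 * n) * (C1 + 2 * C2) := mul_le_mul_of_nonneg_right a2 a4
          _ ≤ _ := by nlinarith [mul_nonneg h3 (by linarith : (0:ℝ) ≤ n)]
    intro hy
    rcases le_total y 0 with hy0 | hy0
    · rw [abs_of_nonpos hy0] at hy
      exact hlow y (by linarith)
    · rw [abs_of_nonneg hy0] at hy
      have := hlow (-y) (by linarith)
      rwa [diam_Rw_neg n hw0] at this
  · have hn1 : (1 : ℝ) ≤ n := by exact_mod_cast hn
    have hq0 : 0 ≤ Real.sqrt (Real.sqrt n) := Real.sqrt_nonneg _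
    unfold Rw
    have h4 : 0 ≤ C3 * Real.sqrt (Real.sqrt n) := mul_nonneg h3 hq0
    calc ∑ x ∈ (diam (2 * n)).filter (fun x => x.2 = y), cv (diam (2 * n)) x w
        ≤ ∑ _x ∈ (diam (2 * n)).filter (fun x => x.2 = y), C3 * Real.sqrt (Real.sqrt n) :=
          Finset.sum_le_sum fun x hx => hC3 n hn x (mem_filter.1 hx).1 w hw
      _ = (((diam (2 * n)).filter (fun x => x.2 = y)).card : ℝ) * (C3 * Real.sqrt (Real.sqrt n)) := by
          rw [Finset.sum_const, nsmul_eq_mul]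
      _ ≤ (4 * n + 1) * (C3 * Real.sqrt (Real.sqrt n)) := mul_le_mul_of_nonneg_right (row_card_h35 n y) h4
      _ ≤ (5 * n) * (C3 * Real.sqrt (Real.sqrt n)) := mul_le_mul_of_nonneg_right (by linarith) h4
      _ ≤ _ := by
          have h5 : 0 ≤ (n : ℝ) * Real.sqrt (Real.sqrt n) := by positivity
          nlinarith [mul_nonneg h1 h5, mul_nonneg h2 h5]

/-- NEAR ROWS in the diamond -/
theorem diam_near : ∃ C : ℝ, 0 ≤ C ∧ ∀ n : ℕ, 1 ≤ n → ∀ w ∈ diam (2 * n), w.2 = 0 → ∀ k : ℕ,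
    ∑ x ∈ (diam (2 * n)).filter (fun x => |x.2| ≤ (k : ℤ)), cv (diam (2 * n)) x w ≤
      C * (n * k + n * Real.sqrt n * Real.sqrt (Real.sqrt n)) := by
  obtain ⟨C, hC0, hC⟩ := diam_row
  refine ⟨4 * C, by positivity, fun n hn w hw hw0 k => ?_⟩
  have hn1 : (1 : ℝ) ≤ n := by exact_mod_cast hn
  have hs1 : 1 ≤ Real.sqrt n := Real.one_le_sqrt.2 hn1
  have hq1 : 1 ≤ Real.sqrt (Real.sqrt n) := Real.one_le_sqrt.2 hs1
  set m : ℕ := Nat.sqrt n with hm
  have hms : (m : ℝ) ≤ Real.sqrt n := Real.nat_sqrt_le_real_sqrt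
  have hsum : ∑ x ∈ (diam (2 * n)).filter (fun x => |x.2| ≤ (k : ℤ)), cv (diam (2 * n)) x w =
      ∑ y ∈ Icc (-(k : ℤ)) k, Rw (diam (2 * n)) w y := by
    unfold Rw
    symm
    rw [← Finset.sum_fiberwise_of_maps_to (s := (diam (2 * n)).filter (fun x => |x.2| ≤ (k : ℤ)))
      (t := Icc (-(k : ℤ)) k) (g := fun x => x.2)]
    · refine Finset.sum_congr rfl fun y hy => ?_
      rw [Finset.filter_filter]
      refine Finset.sum_congr ?_ fun _ _ => rfl
      ext x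
      rw [mem_filter, mem_filter]
      rw [mem_Icc] at hy
      constructor
      · rintro ⟨h1, h2⟩
        exact ⟨h1, by rw [h2, abs_le]; exact hy, h2⟩
      · rintro ⟨h1, _, h2⟩
        exact ⟨h1, h2⟩
    · intro x hx
      rw [mem_filter] at hx
      rw [mem_Icc]
      exact abs_le.1 hx.2
  rw [hsum]
  have hq0 : 0 ≤ Real.sqrt (Real.sqrt n) := Real.sqrt_nonneg _
  have hrow : ∀ y ∈ Icc (-(k : ℤ)) k, Rw (diam (2 * n)) w y ≤
      C * n + if y ∈ Ioo (-(m : ℤ)) m then C * (n * Real.sqrt (Real.sqrt n)) else 0 := by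
    intro y _
    by_cases h : (m : ℤ) ≤ |y| + 1
    · have := (hC n hn w hw hw0 y).1 h
      have h5 : 0 ≤ C * (n * Real.sqrt (Real.sqrt n)) := by positivity
      split_ifs <;> linarith
    · have hmem : y ∈ Ioo (-(m : ℤ)) m := by
        rw [mem_Ioo]
        push Not at h
        have h6 := abs_lt.1 (show |y| < m by linarith)
        exact h6
      rw [if_pos hmem]
      have := (hC n hn w hw hw0 y).2
      have h5 : 0 ≤ C * n := by positivity
      linarith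
  refine (Finset.sum_le_sum hrow).trans ?_
  rw [Finset.sum_add_distrib, Finset.sum_const, nsmul_eq_mul, ← Finset.sum_filter, Finset.sum_const, nsmul_eq_mul]
  have hc2 : (((Icc (-(k : ℤ)) k).filter (fun y => y ∈ Ioo (-(m : ℤ)) m)).card : ℝ) ≤ 2 * m := by
    have h3 : ((Icc (-(k : ℤ)) k).filter (fun y => y ∈ Ioo (-(m : ℤ)) m)).card ≤ (Ioo (-(m : ℤ)) m).card :=
      Finset.card_le_card fun y hy => (mem_filter.1 hy).2
    have h4 : (Ioo (-(m : ℤ)) m).card ≤ 2 * m := by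
      rw [Int.card_Ioo]
      omega
    exact_mod_cast h3.trans h4
  have hc1 : ((Icc (-(k : ℤ)) k).card : ℝ) = 2 * k + 1 := by
    have h2 : (Icc (-(k : ℤ)) k).card = 2 * k + 1 := by
      rw [Int.card_Icc]
      omega
    rw [h2]; push_cast; ring
  rw [hc1]
  have h7 : 0 ≤ C * (n * Real.sqrt (Real.sqrt n)) := by positivity
  have e2 : (((Icc (-(k : ℤ)) k).filter (fun y => y ∈ Ioo (-(m : ℤ)) m)).card : ℝ) *
      (C * (n * Real.sqrt (Real.sqrt n))) ≤ 2 * C * (n * Real.sqrt n * Real.sqrt (Real.sqrt n)) := by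
    calc _ ≤ (2 * m : ℝ) * (C * (n * Real.sqrt (Real.sqrt n))) := mul_le_mul_of_nonneg_right hc2 h7
      _ ≤ (2 * Real.sqrt n) * (C * (n * Real.sqrt (Real.sqrt n))) :=
          mul_le_mul_of_nonneg_right (by linarith) h7
      _ = _ := by ring
  have e3 : (n : ℝ) ≤ n * Real.sqrt n * Real.sqrt (Real.sqrt n) := by
    have h8 : (1 : ℝ) ≤ Real.sqrt n * Real.sqrt (Real.sqrt n) := one_le_mul_of_one_le_of_one_le hs1 hq1
    calc (n : ℝ) = n * 1 := by ring
      _ ≤ n * (Real.sqrt n * Real.sqrt (Real.sqrt n)) := mul_le_mul_of_nonneg_left h8 (by linarith)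
      _ = _ := by ring
  have e4 : (2 * (k : ℝ) + 1) * (C * n) ≤ 2 * C * (n * k) + C * (n * Real.sqrt n * Real.sqrt (Real.sqrt n)) := by
    have := mul_le_mul_of_nonneg_left e3 hC0
    linarith [this]
  have h9 : 0 ≤ C * ((n : ℝ) * k) := by positivity
  have h10 : 0 ≤ C * ((n : ℝ) * Real.sqrt n * Real.sqrt (Real.sqrt n)) := by positivity
  linarith

end MD
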