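import Pool.Agent.Helper35.MD.G4
import Pool.Agent.Helper35.MD.G5

/-!
MDV piece G6: near rows and near columns in all domains.
-/

open Finset RP4 KP

namespace MD

/-- embedding of a domain of diameter at most `R` into a diamond about (almost) the point `w` -/
theorem embed {R : ℕ} {D : Finset V} (hD : BdryPar D 0)
    (hR : ∀ u ∈ D, ∀ v ∈ D, |u.1 - v.1| ≤ R ∧ |u.2 - v.2| ≤ R) {w : V} (hw : w ∈ D) :
    ∃ t : V, Even (par t) ∧ (w + t).2 = 0 ∧ w + t ∈ diam (2 * (R + 1)) ∧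
      ∀ x ∈ D, x + t ∈ diam (2 * (R + 1)) ∧ cv D x w ≤ cv (diam (2 * (R + 1))) (x + t) (w + t) := by
  classical
  obtain ⟨t, ht, ht1, ht2⟩ : ∃ t : V, Even (par t) ∧ t.2 = -w.2 ∧ (t.1 = -w.1 ∨ t.1 = 1 - w.1) := by
    by_cases h : Even (w.1 + w.2)
    · refine ⟨(-w.1, -w.2), ?_, rfl, Or.inl rfl⟩
      unfold par
      rw [Int.even_iff] at h ⊢
      simp only
      omega
    · refine ⟨(1 - w.1, -w.2), ?_, rfl, Or.inr rfl⟩
      unfold par
      rw [Int.even_iff] at h ⊢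
      simp only
      omega
  have hin : ∀ x ∈ D, x + t ∈ diam (2 * (R + 1)) := by
    intro x hx
    obtain ⟨h1, h2⟩ := hR x hx w hw
    rw [mem_diam]
    have e1 : (x + t).1 = x.1 + t.1 := rfl
    have e2 : (x + t).2 = x.2 + t.2 := rfl
    rw [e1, e2, ht1]
    have h3 : |x.1 + t.1| ≤ R + 1 := by
      rw [abs_le] at h1 ⊢
      rcases ht2 with h | h <;> rw [h] <;> constructor <;> linarith [h1.1, h1.2]
    have h4 : |x.2 + -w.2| ≤ R := by
      have : x.2 + -w.2 = x.2 - w.2 := by ring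
      rw [this]
      exact h2
    push_cast
    linarith
  refine ⟨t, ht, ?_, hin w hw, fun x hx => ⟨hin x hx, ?_⟩⟩
  · have e2 : (w + t).2 = w.2 + t.2 := rfl
    rw [e2, ht1]
    ring
  · rw [← cv_trans D t ht x w]
    have hsub : img (RP4.trans t) D ⊆ diam (2 * (R + 1)) := by
      intro v hv
      rw [T1_mem_img] at hv
      have := hin _ hv
      have e : (RP4.trans t).symm v + t = v := by
        simp [RP4.trans]
      rwa [e] at this
    have hp : BdryPar (img (RP4.trans t) D) 0 := by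
      intro v hv
      rw [bdry_img (trans_lsym t), T1_mem_img] at hv
      have h1 := hD _ hv
      have e : (RP4.trans t).symm v = v - t := by
        simp [RP4.trans, sub_eq_add_neg]
      rw [e] at h1
      have e3 : par (v - t) = par v - par t := by
        unfold par
        simp only [Prod.fst_sub, Prod.snd_sub]
        ring
      rw [e3] at h1
      rw [Int.even_iff] at h1 ht ⊢
      omega
    have hm : ∀ y ∈ D, y + t ∈ img (RP4.trans t) D := by
      intro y hy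
      rw [T1_mem_img]
      have e : (RP4.trans t).symm (y + t) = y := by
        simp [RP4.trans]
      rwa [e]
    exact cov_mono _ _ hsub hp (diam_bdryPar _ (even_two_mul _)) _ _ (hm x hx) (hm w hw)

/-- NEAR ROWS -/
theorem near_rows : ∃ C : ℝ, 0 ≤ C ∧ ∀ (R : ℕ), 1 ≤ R → ∀ D : Finset V, BdryPar D 0 →
    (∀ u ∈ D, ∀ v ∈ D, |u.1 - v.1| ≤ R ∧ |u.2 - v.2| ≤ R) → ∀ w ∈ D, ∀ k : ℕ,
    ∑ x ∈ D.filter (fun x => |x.2 - w.2| ≤ (k : ℤ)), cv D x w ≤
      C * (R * k + R * Real.sqrt R * Real.sqrt (Real.sqrt R)) := by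
  classical
  obtain ⟨C, hC0, hC⟩ := diam_near
  refine ⟨4 * C, by positivity, fun R hR1 D hD hR w hw k => ?_⟩
  obtain ⟨t, ht, hw0, hwd, hx⟩ := embed hD hR hw
  have h1 := hC (R + 1) (by omega) (w + t) hwd hw0 k
  have h2 : ∑ x ∈ D.filter (fun x => |x.2 - w.2| ≤ (k : ℤ)), cv D x w ≤
      ∑ x ∈ (diam (2 * (R + 1))).filter (fun x => |x.2| ≤ (k : ℤ)), cv (diam (2 * (R + 1))) x (w + t) := by
    calc ∑ x ∈ D.filter (fun x => |x.2 - w.2| ≤ (k : ℤ)), cv D x w
        ≤ ∑ x ∈ D.filter (fun x => |x.2 - w.2| ≤ (k : ℤ)), cv (diam (2 * (R + 1))) (x + t) (w + t) :=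
          Finset.sum_le_sum fun x h => (hx x (mem_filter.1 h).1).2
      _ = ∑ x ∈ (D.filter (fun x => |x.2 - w.2| ≤ (k : ℤ))).image (fun x => x + t),
            cv (diam (2 * (R + 1))) x (w + t) := by
          rw [Finset.sum_image]
          intro a _ b _ hab
          exact add_right_cancel hab
      _ ≤ _ := by
          apply Finset.sum_le_sum_of_subset_of_nonneg
          · intro y hy
            rw [mem_image] at hy
            obtain ⟨x, hx1, rfl⟩ := hy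
            rw [mem_filter] at hx1 ⊢
            refine ⟨(hx x hx1.1).1, ?_⟩
            have e : (x + t).2 = x.2 - w.2 := by
              have e2 : (x + t).2 = x.2 + t.2 := rfl
              have e3 : w.2 + t.2 = 0 := hw0
              rw [e2]
              linarith
            rw [e]
            exact hx1.2
          · intro y _ _
            exact cv_nonneg _ _ _
  refine h2.trans (h1.trans ?_)
  have hR' : (1 : ℝ) ≤ R := by exact_mod_cast hR1
  have h3 : ((R + 1 : ℕ) : ℝ) ≤ 2 * R := by push_cast; linarith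
  have h30 : (0 : ℝ) ≤ ((R + 1 : ℕ) : ℝ) := by positivity
  have h4 : Real.sqrt ((R + 1 : ℕ) : ℝ) ≤ 2 ^ 2 * Real.sqrt R / 2 := by
    have : Real.sqrt ((R + 1 : ℕ) : ℝ) ≤ Real.sqrt (2 ^ 2 * R) := Real.sqrt_le_sqrt (by linarith)
    rw [Real.sqrt_mul (by norm_num), Real.sqrt_sq (by norm_num)] at this
    linarith
  have h4' : Real.sqrt ((R + 1 : ℕ) : ℝ) ≤ Real.sqrt 2 * Real.sqrt R := by
    rw [← Real.sqrt_mul (by norm_num)]
    exact Real.sqrt_le_sqrt h3
  have hs2 : Real.sqrt 2 ≤ 3 / 2 := by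
    rw [Real.sqrt_le_left (by norm_num)]
    norm_num
  have h5 : Real.sqrt ((R + 1 : ℕ) : ℝ) ≤ 3 / 2 * Real.sqrt R :=
    h4'.trans (mul_le_mul_of_nonneg_right hs2 (Real.sqrt_nonneg _))
  have h6 : Real.sqrt (Real.sqrt ((R + 1 : ℕ) : ℝ)) ≤ 5 / 4 * Real.sqrt (Real.sqrt R) := by
    have h7 : Real.sqrt (Real.sqrt ((R + 1 : ℕ) : ℝ)) ≤ Real.sqrt ((5 / 4) ^ 2 * Real.sqrt R) := by
      apply Real.sqrt_le_sqrt
      have := Real.sqrt_nonneg (R : ℝ)
      nlinarith
    rw [Real.sqrt_mul (by norm_num), Real.sqrt_sq (by norm_num)] at h7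
    exact h7
  have hsR := Real.sqrt_nonneg (R : ℝ)
  have hqR := Real.sqrt_nonneg (Real.sqrt (R : ℝ))
  have h8 : ((R + 1 : ℕ) : ℝ) * Real.sqrt ((R + 1 : ℕ) : ℝ) * Real.sqrt (Real.sqrt ((R + 1 : ℕ) : ℝ)) ≤
      (2 * R) * (3 / 2 * Real.sqrt R) * (5 / 4 * Real.sqrt (Real.sqrt R)) := by
    apply mul_le_mul (mul_le_mul h3 h5 (Real.sqrt_nonneg _) (by linarith)) h6 (Real.sqrt_nonneg _)
    positivity
  have h9 : ((R + 1 : ℕ) : ℝ) * k ≤ (2 * R) * k := mul_le_mul_of_nonneg_right h3 (Nat.cast_nonneg k)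
  have h10 : 0 ≤ (R : ℝ) * Real.sqrt R * Real.sqrt (Real.sqrt R) := by positivity
  have h11 : 0 ≤ (R : ℝ) * k := by positivity
  calc C * (((R + 1 : ℕ) : ℝ) * k + ((R + 1 : ℕ) : ℝ) * Real.sqrt ((R + 1 : ℕ) : ℝ) *
        Real.sqrt (Real.sqrt ((R + 1 : ℕ) : ℝ)))
      ≤ C * ((2 * R) * k + (2 * R) * (3 / 2 * Real.sqrt R) * (5 / 4 * Real.sqrt (Real.sqrt R))) :=
        mul_le_mul_of_nonneg_left (add_le_add h9 h8) hC0
    _ ≤ _ := by nlinarith [mul_nonneg hC0 h10, mul_nonneg hC0 h11]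

/-- exchange of the coordinates -/
theorem cv_swap (D : Finset V) (x w : V) : cv (img swapV D) (x.2, x.1) (w.2, w.1) = cv D x w := by
  have h := avg_Om_img (τ := swapV) swapV_lsym (fun v => by
    have e : par (swapV v) - par v = 0 := by
      unfold par swapV
      simp only [Equiv.coe_fn_mk]
      ring
    rw [e]
    exact Even.zero) D (fun h => (h x : ℝ) * h w)
  unfold cv
  rw [← h]
  rfl

/-- NEAR COLUMNS -/
theorem near_cols : ∃ C : ℝ, 0 ≤ C ∧ ∀ (R : ℕ), 1 ≤ R → ∀ D : Finset V, BdryPar D 0 →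
    (∀ u ∈ D, ∀ v ∈ D, |u.1 - v.1| ≤ R ∧ |u.2 - v.2| ≤ R) → ∀ w ∈ D, ∀ k : ℕ,
    ∑ x ∈ D.filter (fun x => |x.1 - w.1| ≤ (k : ℤ)), cv D x w ≤
      C * (R * k + R * Real.sqrt R * Real.sqrt (Real.sqrt R)) := by
  classical
  obtain ⟨C, hC0, hC⟩ := near_rows
  refine ⟨C, hC0, fun R hR1 D hD hR w hw k => ?_⟩
  have hmem : ∀ v : V, v ∈ img swapV D ↔ ((v.2, v.1) : V) ∈ D := by
    intro v
    rw [T1_mem_img]
    rfl
  have hp : BdryPar (img swapV D) 0 := by
    intro v hv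
    rw [bdry_img swapV_lsym, T1_mem_img] at hv
    have h1 := hD _ hv
    have e : par (swapV.symm v) = par v := by
      unfold par swapV
      simp only [Equiv.coe_fn_symm_mk]
      ring
    rwa [e] at h1
  have h1 := hC R hR1 (img swapV D) hp (fun u hu v hv => by
    have := hR _ ((hmem u).1 hu) _ ((hmem v).1 hv)
    exact ⟨this.2, this.1⟩) (w.2, w.1) ((hmem _).2 hw) k
  refine le_trans (le_of_eq ?_) h1
  refine Finset.sum_nbij' (fun x => ((x.2, x.1) : V)) (fun x => ((x.2, x.1) : V)) ?_ ?_ ?_ ?_ ?_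
  · intro x hx
    rw [mem_filter] at hx ⊢
    exact ⟨(hmem _).2 hx.1, hx.2⟩
  · intro x hx
    rw [mem_filter] at hx ⊢
    exact ⟨(hmem _).1 hx.1, hx.2⟩
  · intro x _
    rfl
  · intro x _
    rfl
  · intro x _
    rw [cv_swap]

end MD
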